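import Pool.Agent.Zk36.CG.Data
import Pool.Agent.H906R3.K6.E4
import Pool.Agent.H906R3.K6.G1
import Pool.Agent.H906R3.K6.G5

/-!
# The formal data of the eigenvalue
-/

set_option autoImplicit false

namespace Pool.Agent.Zk36.CG

open Finset MeasureTheory H906K Filter Topology PowerSeries

/-- the open strip of half width `π` -/
def UU : Set ℂ := {z : ℂ | |z.im| < Real.pi}

theorem UU_open : IsOpen UU :=
  isOpen_lt (continuous_abs.comp Complex.continuous_im) continuous_const

theorem UU_mem {z : ℂ} (h : |z.im| ≤ 2 * Real.pi / 3) : z ∈ UU := by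
  have := Real.pi_pos
  show |z.im| < Real.pi
  linarith

theorem UU_mem' {z : ℂ} (h : |z.im| ≤ Real.pi / 3) : z ∈ UU := by
  have := Real.pi_pos
  show |z.im| < Real.pi
  linarith

/-- `e^z` is not a negative real number in the open strip -/
theorem exp_ne {z : ℂ} (hz : z ∈ UU) {r : ℝ} (hr : 0 < r) : -Complex.exp z ≠ r := by
  intro h
  have h1 : Complex.exp z = ((-r : ℝ) : ℂ) := by push_cast; rw [← h]; ring
  have h2 := congrArg Complex.im h1
  have h3 := congrArg Complex.re h1
  rw [Complex.exp_im, Complex.ofReal_im] at h2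
  rw [Complex.exp_re, Complex.ofReal_re] at h3
  have he := Real.exp_pos z.re
  have hs : Real.sin z.im = 0 := by
    rcases mul_eq_zero.1 h2 with h | h
    · exact absurd h he.ne'
    · exact h
  have hz' : |z.im| < Real.pi := hz
  rw [abs_lt] at hz'
  have h0 : z.im = 0 := (Real.sin_eq_zero_iff_of_lt_of_lt hz'.1 hz'.2).1 hs
  rw [h0, Real.cos_zero] at h3
  linarith

/-- analytic in the open strip and bounded on the closed smaller strip -/
def SB (f : ℂ → ℂ) : Prop :=
  DifferentiableOn ℂ f UU ∧ ∃ K : ℝ, ∀ z : ℂ, |z.im| ≤ Real.pi / 3 → ‖f z‖ ≤ K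

theorem SB.const (c : ℂ) : SB (fun _ => c) :=
  ⟨differentiableOn_const c, ‖c‖, fun _ _ => le_rfl⟩

theorem SB.add {f g : ℂ → ℂ} (hf : SB f) (hg : SB g) : SB (fun z => f z + g z) := by
  obtain ⟨f1, K, hK⟩ := hf
  obtain ⟨g1, L, hL⟩ := hg
  exact ⟨f1.add g1, K + L, fun z hz => (norm_add_le _ _).trans (add_le_add (hK z hz) (hL z hz))⟩

theorem SB.mul {f g : ℂ → ℂ} (hf : SB f) (hg : SB g) : SB (fun z => f z * g z) := by
  obtain ⟨f1, K, hK⟩ := hf
  obtain ⟨g1, L, hL⟩ := hg
  refine ⟨f1.mul g1, |K| * |L|, fun z hz => ?_⟩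
  rw [norm_mul]
  exact mul_le_mul ((hK z hz).trans (le_abs_self _)) ((hL z hz).trans (le_abs_self _))
    (norm_nonneg _) (abs_nonneg _)

theorem SB.sum {ι : Type*} (s : Finset ι) {f : ι → ℂ → ℂ} (h : ∀ i ∈ s, SB (f i)) :
    SB (fun z => ∑ i ∈ s, f i z) := by
  classical
  induction s using Finset.induction_on with
  | empty =>
    simp only [Finset.sum_empty]
    exact SB.const 0
  | insert a s ha ih =>
    simp only [Finset.sum_insert ha]
    exact (h a (Finset.mem_insert_self a s)).add (ih fun i hi => h i (Finset.mem_insert_of_mem hi))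

theorem SB.congr {f g : ℂ → ℂ} (hf : SB f) (h : ∀ z ∈ UU, g z = f z) : SB g := by
  obtain ⟨f1, K, hK⟩ := hf
  exact ⟨f1.congr h, K, fun z hz => by rw [h z (UU_mem' hz)]; exact hK z hz⟩

/-- the same for series -/
def SBS (F : ℂ → PS) : Prop := ∀ j, SB (fun z => coeff j (F z))

theorem SBS.mul {F G : ℂ → PS} (hF : SBS F) (hG : SBS G) : SBS (fun z => F z * G z) := fun j => by
  simp only [coeff_mul]; exact SB.sum _ fun p _ => (hF _).mul (hG _)

theorem SBS.tht {F : ℂ → PS} (hF : SBS F) : SBS (fun z => th (F z)) := fun j => by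
  simp only [th_coeff]; exact (SB.const _).mul (hF j)

theorem SBS.inv {F : ℂ → PS} (hF : SBS F) (h : ∀ z ∈ UU, constantCoeff (F z) = 1) :
    SBS (fun z => (F z)⁻¹) := by
  intro j
  induction j using Nat.strong_induction_on with
  | _ j ih =>
    rcases j with _ | j
    · refine (SB.const 1).congr fun z hz => ?_
      rw [inv_zero', h z hz, inv_one]
    · have h1 : SB (fun z => ∑ p ∈ (antidiagonal (j + 1)).filter (fun p => p.2 < j + 1),
          coeff p.1 (F z) * coeff p.2 (F z)⁻¹) :=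
        SB.sum _ fun p hp => (hF p.1).mul (ih p.2 (mem_filter.1 hp).2)
      refine ((SB.const (-1)).mul h1).congr fun z hz => ?_
      rw [inv_rec (by rw [h z hz]; exact one_ne_zero) j, h z hz, inv_one]

theorem SBS.lgt {F : ℂ → PS} (hF : SBS F) (h : ∀ z ∈ UU, constantCoeff (F z) = 1) :
    SBS (fun z => lg (F z)) := hF.tht.mul (hF.inv h)

theorem im_p (u : ℝ) : ((u : ℂ) + Real.pi / 3 * Complex.I).im = Real.pi / 3 := by
  rw [g2_im_add, Complex.ofReal_im, zero_add]

theorem im_m (u : ℝ) : ((u : ℂ) - Real.pi / 3 * Complex.I).im = -(Real.pi / 3) := by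
  rw [g2_im_sub, Complex.ofReal_im, zero_sub]

theorem abs_p (u : ℝ) : |((u : ℂ) + Real.pi / 3 * Complex.I).im| ≤ Real.pi / 3 := by
  rw [im_p, abs_of_pos (by positivity)]

theorem abs_m (u : ℝ) : |((u : ℂ) - Real.pi / 3 * Complex.I).im| ≤ Real.pi / 3 := by
  rw [im_m, abs_neg, abs_of_pos (by positivity)]

/-- the representation of the logarithm -/
theorem lg_rep {F : ℂ → PS} (hF : SBS F) (h : ∀ z ∈ UU, constantCoeff (F z) = 1) (l : ℝ) :
    lg (F l) = cvS (fun u : ℝ => lg (F (u + Real.pi / 3 * Complex.I)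
      * F (u - Real.pi / 3 * Complex.I))) l := by
  ext j
  rw [cvS_coeff]
  have hS := (hF.lgt h) j
  obtain ⟨h1, K, hK⟩ := hS
  have h2 := strip_rep (fun z => coeff j (lg (F z))) K
    (fun z hz => h1.differentiableAt (UU_open.mem_nhds (UU_mem' hz))) hK l
  rw [h2]
  unfold cv
  refine integral_congr_ae (ae_of_all _ fun u => ?_)
  simp only
  rw [lg_mul (by rw [h _ (UU_mem' (abs_p u))]; exact one_ne_zero)
    (by rw [h _ (UU_mem' (abs_m u))]; exact one_ne_zero), map_add]

/-! ## explicit perturbation coefficients -/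

open Polynomial in
theorem pert_explicit (n : ℕ) (t : (PowerSeries ℂ)[X]) (h : TSpec n t) :
    Pert n (Polynomial.C (1 / (2 * n + 1 : ℂ)) * e4_cf 1 t)
      (Polynomial.C (1 / (2 * n + 1 : ℂ) ^ 2) * e4_cf 2 t) := by
  have hN : ((2 * n + 1 : ℂ)) ≠ 0 := by
    exact_mod_cast (by omega : 2 * n + 1 ≠ 0)
  set N : ℂ := 2 * n + 1 with hNdef
  have hev0 : ∀ x : ℂ, PowerSeries.coeff 0 (t.eval (PowerSeries.C x)) = (1 + x) ^ (2 * n + 1) := by
    intro x
    rw [e4_eval, e4_cf0 h]
    simp
  have hfac : ∀ x : ℂ, (1 + x ^ 3) ^ (2 * n + 1)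
      = (1 + x) ^ (2 * n + 1) * (1 + om * x) ^ (2 * n + 1) * (1 + om ^ 2 * x) ^ (2 * n + 1) := by
    intro x
    rw [← mul_pow, ← mul_pow, e4_fac]
  have hI2 : Complex.I ^ 2 = -1 := Complex.I_sq
  have hom := e4_om1
  have homI := e4_omI
  obtain ⟨Q, hQ⟩ := e4_div h
  refine ⟨?_, ?_, ?_, ?_, ?_, ?_, ?_, ?_, ?_, ?_⟩
  · exact (natDegree_C_mul_le _ _).trans (e4_cf_deg 1 t h.deg)
  · exact (natDegree_C_mul_le _ _).trans (e4_cf_deg 2 t h.deg)
  · rw [Polynomial.coeff_C_mul, e4_cf_coeff, h.bot, map_sub, neg_mul, map_neg, PowerSeries.coeff_C_mul,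
      PowerSeries.coeff_C_mul, e4_expI, e4_expI]
    simp only [← hNdef]
    field_simp
    simp
    linear_combination Complex.I * homI + (Real.sqrt 3 : ℂ) * hI2
  · rw [Polynomial.coeff_C_mul, e4_cf_coeff, h.top, map_sub, neg_mul, map_neg, PowerSeries.coeff_C_mul,
      PowerSeries.coeff_C_mul, e4_expI, e4_expI]
    simp only [← hNdef]
    field_simp
    simp
    linear_combination -Complex.I * homI - (Real.sqrt 3 : ℂ) * hI2
  · rw [Polynomial.coeff_C_mul, e4_cf_coeff, h.bot, map_sub, neg_mul, map_neg, PowerSeries.coeff_C_mul,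
      PowerSeries.coeff_C_mul, e4_expI, e4_expI]
    simp only [← hNdef]
    field_simp
    simp
    linear_combination -hom
  · rw [Polynomial.coeff_C_mul, e4_cf_coeff, h.top, map_sub, neg_mul, map_neg, PowerSeries.coeff_C_mul,
      PowerSeries.coeff_C_mul, e4_expI, e4_expI]
    simp only [← hNdef]
    field_simp
    simp
    linear_combination -hom
  · intro x
    have h2 := congrArg (PowerSeries.coeff 2) (e4_fus h x)
    simp only [e4_mul2, e4_mul1, e4_mul0, map_sub, map_add, PowerSeries.coeff_C_mul, hev0,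
      e4_expI, e4_eval, mul_pow, hfac x] at h2
    simp only [eval_mul, eval_C, hfac x]
    simp only [← hNdef, Nat.factorial] at h2
    push_cast at h2
    field_simp
    linear_combination h2 - 9 * N ^ 2 * ((1 + x) ^ (2 * n + 1) * (1 + om * x) ^ (2 * n + 1)
      * (1 + om ^ 2 * x) ^ (2 * n + 1)) * hI2
  · intro x
    have h3 := congrArg (PowerSeries.coeff 3) (e4_fus h x)
    simp only [e4_mul3, e4_mul2, e4_mul1, e4_mul0, map_sub, map_add, PowerSeries.coeff_C_mul, hev0,
      e4_expI, e4_eval, mul_pow, hfac x] at h3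
    simp only [eval_mul, eval_C]
    simp only [← hNdef, Nat.factorial] at h3
    push_cast at h3
    field_simp
    linear_combination h3
  · refine ⟨Polynomial.C (1 / N) * e4_cf 1 Q, fun x => ?_⟩
    have h1 := congrArg (PowerSeries.coeff 1) (hQ x)
    simp only [e4_mul1, map_add, PowerSeries.coeff_C_mul, hev0, e4_eval, mul_pow] at h1
    simp only [eval_mul, eval_C]
    have hz : PowerSeries.coeff 1 (PowerSeries.C ((1 + om * x) ^ (2 * n + 1)
        * (1 + om ^ 2 * x) ^ (2 * n + 1))) = 0 := by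
      rw [PowerSeries.coeff_C]; simp
    rw [hz] at h1
    field_simp
    linear_combination h1
  · refine ⟨Polynomial.C (1 / N ^ 2) * e4_cf 2 Q, fun x => ?_⟩
    have h1 := congrArg (PowerSeries.coeff 2) (hQ x)
    simp only [e4_mul2, map_add, PowerSeries.coeff_C_mul, hev0, e4_eval, mul_pow] at h1
    simp only [eval_mul, eval_C]
    have hz : PowerSeries.coeff 2 (PowerSeries.C ((1 + om * x) ^ (2 * n + 1)
        * (1 + om ^ 2 * x) ^ (2 * n + 1))) = 0 := by
      rw [PowerSeries.coeff_C]; simp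
    rw [hz] at h1
    field_simp
    linear_combination h1

end Pool.Agent.Zk36.CG
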