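import Pool.Agent.Zk36.CG.Build

/-!
# The formal data of the eigenvalue, construction
-/

set_option autoImplicit false

namespace Pool.Agent.Zk36.CG

open Finset MeasureTheory H906K Filter Topology PowerSeries

theorem rescale_C' (a c : ℂ) : rescale a (C c) = (C c : PS) := by
  ext j
  rw [coeff_rescale, coeff_C]
  split_ifs with h
  · rw [h, pow_zero, one_mul]
  · rw [mul_zero]

theorem rescale_expI (s a b : ℂ) (h : a * s = b) : rescale s (expI a) = expI b := by
  unfold expI
  rw [PowerSeries.rescale_rescale]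
  congr 2
  rw [← h]; ring

/-- `1/(2n+1)` -/
noncomputable def iN (n : ℕ) : ℂ := 1 / (2 * n + 1 : ℂ)

theorem iN_mul (n : ℕ) : (2 * n + 1 : ℂ) * iN n = 1 := by
  unfold iN
  have : (2 * n + 1 : ℂ) ≠ 0 := by exact_mod_cast (by omega : 2 * n + 1 ≠ 0)
  field_simp

/-- rescaled value of a polynomial -/
noncomputable def Tz (n : ℕ) (t : Polynomial (PowerSeries ℂ)) (x : ℂ) : PS :=
  rescale (iN n) (t.eval (C x))

theorem Tz_coeff (n : ℕ) (t : Polynomial (PowerSeries ℂ)) (x : ℂ) (j : ℕ) :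
    coeff j (Tz n t x) = iN n ^ j * (e4_cf j t).eval x := by
  rw [Tz, coeff_rescale, e4_eval]

/-- the function `E` -/
noncomputable def Ec (n : ℕ) (t : Polynomial (PowerSeries ℂ)) (z : ℂ) : PS :=
  C (((1 + Complex.exp z) ^ (2 * n + 1))⁻¹) * Tz n t (Complex.exp z)

theorem Ec_coeff (n : ℕ) (t : Polynomial (PowerSeries ℂ)) (z : ℂ) (j : ℕ) :
    coeff j (Ec n t z) = ((1 + Complex.exp z) ^ (2 * n + 1))⁻¹ *
      (Polynomial.C (iN n ^ j) * e4_cf j t).eval (Complex.exp z) := by
  rw [Ec, PowerSeries.coeff_C_mul, Tz_coeff, Polynomial.eval_mul, Polynomial.eval_C]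

theorem one_add_exp {z : ℂ} (hz : z ∈ UU) : 1 + Complex.exp z ≠ 0 := by
  intro h
  apply exp_ne hz one_pos
  rw [Complex.ofReal_one]
  linear_combination -h

/-- rational functions of `e^z` -/
theorem SB_rat {N : ℕ} (p : Polynomial ℂ) (hp : p.natDegree ≤ N) :
    SB (fun z => ((1 + Complex.exp z) ^ N)⁻¹ * p.eval (Complex.exp z)) := by
  constructor
  · intro z hz
    apply DifferentiableAt.differentiableWithinAt
    apply DifferentiableAt.mul
    · apply DifferentiableAt.inv
      · exact ((differentiableAt_const _).add Complex.differentiable_exp.differentiableAt).pow _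
      · exact pow_ne_zero _ (one_add_exp hz)
    · exact (Polynomial.differentiable _).differentiableAt.comp z
        Complex.differentiable_exp.differentiableAt
  · obtain ⟨K, hK⟩ := (isCompact_closedBall (0 : ℂ) 2).exists_bound_of_continuousOn
      (f := fun w => (g3aQ N p).eval w) (Polynomial.continuous _).continuousOn
    refine ⟨K, fun z hz => ?_⟩
    have hz2 : |z.im| ≤ 2 * Real.pi / 3 := by have := Real.pi_pos; linarith
    have e := g3a_rep N p hp _ (g3a_ne z hz2)
    rw [div_eq_mul_inv, mul_comm] at e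
    show ‖((1 + Complex.exp z) ^ N)⁻¹ * p.eval (Complex.exp z)‖ ≤ K
    rw [e]
    apply hK
    rw [mem_closedBall_zero_iff, norm_div, div_le_iff₀ (norm_pos_iff.2 (g3a_ne z hz2))]
    have := g3a_den z hz2
    linarith

/-- polynomials in `e^u/(1+e^u)` -/
theorem poly_BN (Q : Polynomial ℂ) :
    BN (fun u : ℝ => Q.eval ((Real.exp u / (1 + Real.exp u) : ℝ) : ℂ)) ∧
    Tendsto (fun u : ℝ => Q.eval ((Real.exp u / (1 + Real.exp u) : ℝ) : ℂ)) atTop (𝓝 (Q.eval 1)) ∧
    Tendsto (fun u : ℝ => Q.eval ((Real.exp u / (1 + Real.exp u) : ℝ) : ℂ)) atBot (𝓝 (Q.eval 0)) := by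
  have hd : ∀ u : ℝ, HasDerivAt (fun u : ℝ => Q.eval ((Real.exp u / (1 + Real.exp u) : ℝ) : ℂ))
      (Q.derivative.eval ((Real.exp u / (1 + Real.exp u) : ℝ) : ℂ) *
        ((Real.exp u / (1 + Real.exp u) ^ 2 : ℝ) : ℂ)) u := fun u =>
    HasDerivAt.comp (h₂ := fun w : ℂ => Q.eval w)
      (h := fun u : ℝ => ((Real.exp u / (1 + Real.exp u) : ℝ) : ℂ)) u (Q.hasDerivAt _)
      (g3a_s_deriv u).ofReal_comp
  have hdf : deriv (fun u : ℝ => Q.eval ((Real.exp u / (1 + Real.exp u) : ℝ) : ℂ)) = fun u =>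
      (Q.derivative.eval ((Real.exp u / (1 + Real.exp u) : ℝ) : ℂ) *
        ((Real.exp u / (1 + Real.exp u) ^ 2 : ℝ) : ℂ)) := funext fun u => (hd u).deriv
  have hcs : Continuous (fun u : ℝ => Real.exp u / (1 + Real.exp u)) :=
    continuous_iff_continuousAt.2 fun u => (g3a_s_deriv u).continuousAt
  have hcs' : Continuous (fun u : ℝ => ((Real.exp u / (1 + Real.exp u) : ℝ) : ℂ)) :=
    Complex.continuous_ofReal.comp hcs
  have hc2 : Continuous (fun u : ℝ => Real.exp u / (1 + Real.exp u) ^ 2) := by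
    apply Real.continuous_exp.div₀ ((continuous_const.add Real.continuous_exp).pow 2)
    intro u
    have := Real.exp_pos u
    have h1 : 0 < 1 + Real.exp u := by positivity
    exact pow_ne_zero 2 h1.ne'
  have hball : ∀ u : ℝ, ((Real.exp u / (1 + Real.exp u) : ℝ) : ℂ) ∈ Metric.closedBall (0:ℂ) 1 := by
    intro u
    have he := Real.exp_pos u
    rw [mem_closedBall_zero_iff, Complex.norm_real, Real.norm_eq_abs, abs_of_nonneg (by positivity),
      div_le_one (by positivity)]
    linarith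
  refine ⟨⟨fun u => (hd u).differentiableAt, ?_, ?_, ?_⟩, ?_, ?_⟩
  · rw [hdf]
    exact ((Polynomial.continuous _).comp hcs').mul (Complex.continuous_ofReal.comp hc2)
  · rw [hdf]
    obtain ⟨K, hK⟩ := (isCompact_closedBall (0 : ℂ) 1).exists_bound_of_continuousOn
      (f := fun w => Q.derivative.eval w) (Polynomial.continuous _).continuousOn
    have hK0 : 0 ≤ K := (norm_nonneg _).trans (hK 0 (by simp))
    refine Integrable.mono' ((integrable_inv_one_add_sq.const_mul (2 * K)))
      (((Polynomial.continuous _).comp hcs').mul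
        (Complex.continuous_ofReal.comp hc2)).aestronglyMeasurable (Eventually.of_forall fun u => ?_)
    have he := Real.exp_pos u
    rw [norm_mul, Complex.norm_real]
    have h1 : ‖Real.exp u / (1 + Real.exp u) ^ 2‖ ≤ 2 * (1 + u ^ 2)⁻¹ := by
      rw [Real.norm_of_nonneg (by positivity)]
      exact g3a_quad u
    have h2 := hK _ (hball u)
    calc _ ≤ K * (2 * (1 + u ^ 2)⁻¹) := mul_le_mul h2 h1 (norm_nonneg _) hK0
      _ = 2 * K * (1 + u ^ 2)⁻¹ := by ring
  · obtain ⟨K, hK⟩ := (isCompact_closedBall (0 : ℂ) 1).exists_bound_of_continuousOn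
      (f := fun w => Q.eval w) (Polynomial.continuous _).continuousOn
    exact ⟨K, fun u => hK _ (hball u)⟩
  · have h1 : Tendsto (fun u : ℝ => ((Real.exp u / (1 + Real.exp u) : ℝ) : ℂ)) atTop (𝓝 1) := by
      have := (Complex.continuous_ofReal.tendsto 1).comp g3a_s_top
      rw [Complex.ofReal_one] at this
      exact this
    exact ((Polynomial.continuous Q).tendsto 1).comp h1
  · have h1 : Tendsto (fun u : ℝ => ((Real.exp u / (1 + Real.exp u) : ℝ) : ℂ)) atBot (𝓝 0) := by
      have := (Complex.continuous_ofReal.tendsto 0).comp g3a_s_bot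
      rw [Complex.ofReal_zero] at this
      exact this
    exact ((Polynomial.continuous Q).tendsto 0).comp h1

theorem real_rat {N : ℕ} (p : Polynomial ℂ) (hp : p.natDegree ≤ N) (u : ℝ) :
    ((1 + Complex.exp (u : ℂ)) ^ N)⁻¹ * p.eval (Complex.exp (u : ℂ)) =
      (g3aQ N p).eval ((Real.exp u / (1 + Real.exp u) : ℝ) : ℂ) := by
  have hne : 1 + Complex.exp (u : ℂ) ≠ 0 := one_add_exp (by
    show |(u : ℂ).im| < Real.pi
    rw [Complex.ofReal_im, abs_zero]; exact Real.pi_pos)
  have e := g3a_rep N p hp _ hne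
  rw [div_eq_mul_inv, mul_comm] at e
  rw [e]
  congr 1
  push_cast
  rfl

section main
variable {n : ℕ} {t : Polynomial (PowerSeries ℂ)}

theorem deg_P (h : TSpec n t) (j : ℕ) :
    (Polynomial.C (iN n ^ j) * e4_cf j t).natDegree ≤ 2 * n + 1 :=
  (Polynomial.natDegree_C_mul_le _ _).trans (e4_cf_deg j t h.deg)

theorem Ec_SBS (h : TSpec n t) : SBS (Ec n t) := fun j => by
  simp only [Ec_coeff]
  exact SB_rat _ (deg_P h j)

theorem Ec_0 (h : TSpec n t) {z : ℂ} (hz : z ∈ UU) : constantCoeff (Ec n t z) = 1 := by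
  rw [← coeff_zero_eq_constantCoeff_apply, Ec_coeff, pow_zero, map_one, one_mul, e4_cf0 h]
  simp only [Polynomial.eval_pow, Polynomial.eval_add, Polynomial.eval_one, Polynomial.eval_X]
  exact inv_mul_cancel₀ (pow_ne_zero _ (one_add_exp hz))

theorem Tz_fus (h : TSpec n t) (x : ℂ) :
    Tz n t (om * x) * Tz n t (om ^ 2 * x) * Tz n t x
      = C (((1 + om * x) * (1 + om ^ 2 * x)) ^ (2 * n + 1)) * Tz n t x
        + C (((1 + om ^ 2 * x) * (1 + x)) ^ (2 * n + 1)) * Tz n t (om * x)
        + C (((1 + x) * (1 + om * x)) ^ (2 * n + 1)) * Tz n t (om ^ 2 * x)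
        - C ((1 + x ^ 3) ^ (2 * n + 1)) * c2 := by
  have h1 := congrArg (rescale (iN n)) (e4_fus h x)
  simp only [map_mul, map_sub, map_add, rescale_C'] at h1
  rw [rescale_expI (iN n) (3 * (2 * n + 1)) 3 (by rw [mul_assoc, iN_mul, mul_one]),
    rescale_expI (iN n) (-(3 * (2 * n + 1))) (-3) (by
      rw [neg_mul, mul_assoc, iN_mul, mul_one])] at h1
  unfold Tz c2
  simp only [map_mul]
  exact h1

theorem exp_pp (z : ℂ) : Complex.exp (z + Real.pi / 3 * Complex.I + Real.pi / 3 * Complex.I)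
    = om * Complex.exp z := by
  rw [g2_exp_add, g2_exp_add]
  linear_combination om * Complex.exp z * e4_om3

theorem exp_mm (z : ℂ) : Complex.exp (z - Real.pi / 3 * Complex.I - Real.pi / 3 * Complex.I)
    = om ^ 2 * Complex.exp z := by
  rw [g2_exp_sub, g2_exp_sub]
  ring

theorem Ec_mul {z : ℂ} (hz : z ∈ UU) :
    C ((1 + Complex.exp z) ^ (2 * n + 1)) * Ec n t z = Tz n t (Complex.exp z) := by
  rw [Ec, ← mul_assoc, ← map_mul, mul_inv_cancel₀ (pow_ne_zero _ (one_add_exp hz)), map_one,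
    one_mul]

theorem C_ne {c : ℂ} (hc : c ≠ 0) : (C c : PS) ≠ 0 := by
  intro h
  have := congrArg constantCoeff h
  rw [PowerSeries.constantCoeff_C, map_zero] at this
  exact hc this

theorem Ec_fus (h : TSpec n t) (u : ℝ) :
    Ec n t (u + Real.pi / 3 * Complex.I + Real.pi / 3 * Complex.I) * Ec n t u *
      Ec n t (u - Real.pi / 3 * Complex.I - Real.pi / 3 * Complex.I) =
    Ec n t (u + Real.pi / 3 * Complex.I + Real.pi / 3 * Complex.I) + Ec n t u +
      Ec n t (u - Real.pi / 3 * Complex.I - Real.pi / 3 * Complex.I) - c2 := by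
  have hpi := Real.pi_pos
  have hp : ((u : ℂ) + Real.pi / 3 * Complex.I + Real.pi / 3 * Complex.I) ∈ UU := UU_mem (by
    rw [g2_im_add, im_p, abs_of_pos (by positivity)]
    linarith)
  have hm : ((u : ℂ) - Real.pi / 3 * Complex.I - Real.pi / 3 * Complex.I) ∈ UU := UU_mem (by
    rw [g2_im_sub, im_m, abs_of_neg (by linarith)]
    linarith)
  have h0 : (u : ℂ) ∈ UU := UU_mem (by rw [Complex.ofReal_im, abs_zero]; positivity)
  have f := Tz_fus h (Complex.exp u)
  have e1 := Ec_mul (n := n) (t := t) hp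
  have e2 := Ec_mul (n := n) (t := t) hm
  have e3 := Ec_mul (n := n) (t := t) h0
  have n1 := pow_ne_zero (2 * n + 1) (one_add_exp hp)
  have n2 := pow_ne_zero (2 * n + 1) (one_add_exp hm)
  have n3 := pow_ne_zero (2 * n + 1) (one_add_exp h0)
  rw [exp_pp] at e1 n1
  rw [exp_mm] at e2 n2
  rw [← e1, ← e2, ← e3] at f
  have hcube : (1 + Complex.exp u ^ 3) ^ (2 * n + 1) = (1 + Complex.exp u) ^ (2 * n + 1) *
      (1 + om * Complex.exp u) ^ (2 * n + 1) * (1 + om ^ 2 * Complex.exp u) ^ (2 * n + 1) := by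
    rw [← mul_pow, ← mul_pow, e4_fac]
  rw [hcube] at f
  simp only [mul_pow (_ + _) (_ + _)] at f
  have hne := C_ne (mul_ne_zero (mul_ne_zero n3 n1) n2)
  apply mul_left_cancel₀ hne
  simp only [map_mul] at f ⊢
  linear_combination f

end main

end Pool.Agent.Zk36.CG
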