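import Pool.Agent.Zk36.CG.Build2

/-!
# The formal data of the eigenvalue, conclusion
-/

set_option autoImplicit false

namespace Pool.Agent.Zk36.CG

open Finset MeasureTheory H906K Filter Topology PowerSeries

section main
variable {n : ℕ} {t : Polynomial (PowerSeries ℂ)}

open Polynomial in
theorem deg_comp {R : Type*} [CommRing R] (p : Polynomial R) {N : ℕ} (hp : p.natDegree ≤ N) (a : R) :
    (p.comp (Polynomial.C a * Polynomial.X)).natDegree ≤ N := by
  refine natDegree_comp_le.trans ?_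
  calc p.natDegree * (Polynomial.C a * Polynomial.X).natDegree ≤ N * 1 :=
        Nat.mul_le_mul hp ((natDegree_C_mul_le a _).trans natDegree_X_le)
    _ = N := mul_one N

open Polynomial in
theorem exists_Q (h : TSpec n t) : ∃ Q : Polynomial (PowerSeries ℂ), Q.natDegree ≤ 2 * n + 1 ∧
    ∀ x : ℂ, t.eval (PowerSeries.C (om * x)) * t.eval (PowerSeries.C (om ^ 2 * x))
        = PowerSeries.C (((1 + om * x) * (1 + om ^ 2 * x)) ^ (2 * n + 1))
          + PowerSeries.C ((1 + x) ^ (2 * n + 1)) * Q.eval (PowerSeries.C x) := by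
  obtain ⟨Q, hQ⟩ := h.div
  refine ⟨Q, ?_, fun x => ?_⟩
  · by_cases hQ0 : Q = 0
    · rw [hQ0, natDegree_zero]; omega
    · have hm : ((1 + Polynomial.X : (PowerSeries ℂ)[X]) ^ (2 * n + 1)).Monic := by
        have : (1 + Polynomial.X : (PowerSeries ℂ)[X]) = Polynomial.X + Polynomial.C 1 := by rw [map_one]; ring
        rw [this]
        exact (monic_X_add_C 1).pow _
      have hd : ((1 + Polynomial.X : (PowerSeries ℂ)[X]) ^ (2 * n + 1)).natDegree = 2 * n + 1 := by
        have : (1 + Polynomial.X : (PowerSeries ℂ)[X]) = Polynomial.X + Polynomial.C 1 := by rw [map_one]; ring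
        rw [this, (monic_X_add_C (1 : PowerSeries ℂ)).natDegree_pow, natDegree_X_add_C, mul_one]
      have h1 := hm.natDegree_mul' hQ0
      rw [← hQ, hd] at h1
      have hlin : ∀ a : PowerSeries ℂ, (1 + Polynomial.C a * Polynomial.X).natDegree ≤ 1 := fun a => by
        refine natDegree_add_le_of_degree_le ?_
          ((natDegree_C_mul_le a _).trans natDegree_X_le)
        simp
      have h2 : (t.comp (Polynomial.C (PowerSeries.C om) * Polynomial.X)
          * t.comp (Polynomial.C (PowerSeries.C (om ^ 2)) * Polynomial.X)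
          - ((1 + Polynomial.C (PowerSeries.C om) * Polynomial.X)
            * (1 + Polynomial.C (PowerSeries.C (om ^ 2)) * Polynomial.X)) ^ (2 * n + 1)).natDegree
          ≤ (2 * n + 1) + (2 * n + 1) := by
        refine (natDegree_sub_le _ _).trans (max_le ?_ ?_)
        · exact natDegree_mul_le_of_le (deg_comp t h.deg _) (deg_comp t h.deg _)
        · refine natDegree_pow_le.trans ?_
          have := natDegree_mul_le_of_le (hlin (PowerSeries.C om)) (hlin (PowerSeries.C (om ^ 2)))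
          calc (2 * n + 1) * _ ≤ (2 * n + 1) * (1 + 1) := Nat.mul_le_mul le_rfl this
            _ = _ := by ring
      omega
  · have hf := congrArg (fun p => p.eval (PowerSeries.C x)) hQ
    simp only [eval_mul, eval_comp, eval_add, eval_sub, eval_pow, eval_C, eval_X, eval_one] at hf
    simp only [map_pow, map_mul, map_add, map_one] at hf ⊢
    linear_combination hf

/-- coefficients of the quotient -/
noncomputable def Vq (n : ℕ) (Q : Polynomial (PowerSeries ℂ)) (j : ℕ) : Polynomial ℂ :=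
  Polynomial.C (iN n ^ j) * e4_cf j Q

/-- the function `b` -/
noncomputable def bc (n : ℕ) (Q : Polynomial (PowerSeries ℂ)) (z : ℂ) : PS :=
  PowerSeries.mk fun j => (Vq n Q (j + 1)).eval (-Complex.exp z) / (Vq n Q 1).eval (-Complex.exp z)

theorem Qz_coeff (Q : Polynomial (PowerSeries ℂ)) (x : ℂ) (j : ℕ) :
    coeff j (Tz n Q x) = (Vq n Q j).eval x := by
  rw [Tz_coeff, Vq, Polynomial.eval_mul, Polynomial.eval_C]

/-- what the quotient provides -/
structure QS (n : ℕ) (t Q : Polynomial (PowerSeries ℂ)) (V1 : Polynomial ℝ) : Prop where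
  deg : Q.natDegree ≤ 2 * n + 1
  div : ∀ x : ℂ, Tz n t (om * x) * Tz n t (om ^ 2 * x)
        = C (((1 + om * x) * (1 + om ^ 2 * x)) ^ (2 * n + 1))
          + C ((1 + x) ^ (2 * n + 1)) * Tz n Q x
  zero : Vq n Q 0 = 0
  one : Vq n Q 1 = V1.map (algebraMap ℝ ℂ)

open Polynomial in
theorem exists_QS (h : TSpec n t) {s1 s2 V1 V2 : Polynomial ℝ} (hR : RPert n s1 s2 V1 V2)
    (hs : Polynomial.C (1 / (2 * n + 1 : ℂ)) * e4_cf 1 t = s1.map (algebraMap ℝ ℂ)) :
    ∃ Q, QS n t Q V1 := by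
  obtain ⟨Q, hQd, hQ⟩ := exists_Q h
  have hdiv : ∀ x : ℂ, Tz n t (om * x) * Tz n t (om ^ 2 * x)
        = PowerSeries.C (((1 + om * x) * (1 + om ^ 2 * x)) ^ (2 * n + 1))
          + PowerSeries.C ((1 + x) ^ (2 * n + 1)) * Tz n Q x := by
    intro x
    unfold Tz
    rw [← map_mul, hQ x, map_add, map_mul, rescale_C', rescale_C']
  have hne : ((1 + Polynomial.X : ℂ[X]) ^ (2 * n + 1)) ≠ 0 := by
    have : (1 + Polynomial.X : ℂ[X]) = Polynomial.X + Polynomial.C 1 := by rw [map_one]; ring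
    rw [this]
    exact pow_ne_zero _ (monic_X_add_C (1:ℂ)).ne_zero
  have hev0 : ∀ x : ℂ, PowerSeries.coeff 0 (Tz n t x) = (1 + x) ^ (2 * n + 1) := by
    intro x
    rw [Tz_coeff, e4_cf0 h, pow_zero, one_mul]
    simp
  refine ⟨Q, hQd, hdiv, ?_, ?_⟩
  · have h0 : (1 + Polynomial.X : ℂ[X]) ^ (2 * n + 1) * Vq n Q 0 = 0 := by
      apply Polynomial.funext
      intro x
      have h1 := congrArg (PowerSeries.coeff 0) (hdiv x)
      rw [e4_mul0, hev0, hev0, map_add, PowerSeries.coeff_C, if_pos rfl, PowerSeries.coeff_C_mul,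
        Qz_coeff, ← mul_pow] at h1
      simp only [eval_mul, eval_pow, eval_add, eval_one, Polynomial.eval_X, eval_zero]
      linear_combination -h1
    rcases mul_eq_zero.1 h0 with h | h
    · exact absurd h hne
    · exact h
  · have h0 : (1 + Polynomial.X : ℂ[X]) ^ (2 * n + 1) * Vq n Q 1 =
        (1 + Polynomial.X : ℂ[X]) ^ (2 * n + 1) * V1.map (algebraMap ℝ ℂ) := by
      apply Polynomial.funext
      intro x
      have h1 := congrArg (PowerSeries.coeff 1) (hdiv x)
      have hT : ∀ y : ℂ, PowerSeries.coeff 1 (Tz n t y) = (s1.map (algebraMap ℝ ℂ)).eval y := by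
        intro y
        rw [Tz_coeff, ← hs, pow_one, eval_mul, eval_C]
        rfl
      rw [e4_mul1, hev0, hev0, hT, hT, map_add, PowerSeries.coeff_C, if_neg (by norm_num),
        PowerSeries.coeff_C_mul, Qz_coeff, zero_add] at h1
      have h2 := hR.d1 x
      simp only [eval_mul, eval_pow, eval_add, eval_one, Polynomial.eval_X]
      rw [← h2, ← h1]
      ring
    exact mul_left_cancel₀ hne h0

variable {Q : Polynomial (PowerSeries ℂ)} {s1 s2 V1 V2 : Polynomial ℝ}

theorem V1_ne (hR : RPert n s1 s2 V1 V2) {z : ℂ} (hz : z ∈ UU) :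
    (V1.map (algebraMap ℝ ℂ)).eval (-Complex.exp z) ≠ 0 := by
  intro h0
  obtain ⟨r, hr, hr2⟩ := hR.roots _ h0
  exact exp_ne hz hr hr2

theorem bc_SBS (hR : RPert n s1 s2 V1 V2) (hQ : QS n t Q V1) : SBS (bc n Q) := fun j => by
  have e : (fun z => coeff j (bc n Q z)) = fun z => (Vq n Q (j + 1)).eval (-Complex.exp z) /
      (V1.map (algebraMap ℝ ℂ)).eval (-Complex.exp z) := by
    funext z
    unfold bc
    rw [coeff_mk, hQ.one]
  rw [e]
  constructor
  · intro z hz
    apply DifferentiableAt.differentiableWithinAt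
    apply DifferentiableAt.div
    · exact (Polynomial.differentiable _).differentiableAt.comp z
        Complex.differentiable_exp.differentiableAt.neg
    · exact (Polynomial.differentiable _).differentiableAt.comp z
        Complex.differentiable_exp.differentiableAt.neg
    · exact V1_ne hR hz
  · have v3 := (g3b_vals hR).2.2.1
    apply g3b_strip (N := 2 * n + 1)
    · exact (Polynomial.natDegree_map_le).trans hR.degV1.le
    · exact (Polynomial.natDegree_C_mul_le _ _).trans (e4_cf_deg _ Q hQ.deg)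
    · rw [Polynomial.coeff_map, v3]
      have : (2 * Real.sqrt 3 : ℝ) ≠ 0 := by positivity
      simp
    · intro w hw h0
      obtain ⟨r, hr, hwr⟩ := hR.roots w h0
      rw [hwr, Complex.ofReal_re] at hw
      linarith

theorem bc_0 (hR : RPert n s1 s2 V1 V2) (hQ : QS n t Q V1) {z : ℂ} (hz : z ∈ UU) :
    constantCoeff (bc n Q z) = 1 := by
  rw [← coeff_zero_eq_constantCoeff_apply]
  unfold bc
  rw [coeff_mk, zero_add, hQ.one]
  exact div_self (V1_ne hR hz)

/-- prefactor -/
noncomputable def rr (n : ℕ) (z : ℂ) : ℂ := (1 - Complex.exp z) ^ (2 * n + 1) *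
  (((1 + Complex.exp (z + Real.pi / 3 * Complex.I)) ^ (2 * n + 1))⁻¹ *
    ((1 + Complex.exp (z - Real.pi / 3 * Complex.I)) ^ (2 * n + 1))⁻¹)

/-- first coefficient of `Y` -/
noncomputable def y1 (n : ℕ) (V1 : Polynomial ℝ) (z : ℂ) : ℂ :=
  rr n z * (V1.map (algebraMap ℝ ℂ)).eval (-Complex.exp z)

theorem strip_shift {z : ℂ} (hz : |z.im| ≤ Real.pi / 3) :
    (z + Real.pi / 3 * Complex.I) ∈ UU ∧ (z - Real.pi / 3 * Complex.I) ∈ UU := by
  have hpi := Real.pi_pos
  rw [abs_le] at hz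
  constructor
  · apply UU_mem
    rw [g2_im_add, abs_le]
    constructor <;> linarith [hz.1, hz.2]
  · apply UU_mem
    rw [g2_im_sub, abs_le]
    constructor <;> linarith [hz.1, hz.2]

theorem Ec_prod (hR : RPert n s1 s2 V1 V2) (hQ : QS n t Q V1) {z : ℂ} (hz : |z.im| ≤ Real.pi / 3) :
    Ec n t (z + Real.pi / 3 * Complex.I) * Ec n t (z - Real.pi / 3 * Complex.I) =
      1 + PowerSeries.X * C (y1 n V1 z) * bc n Q z := by
  obtain ⟨hp, hm⟩ := strip_shift hz
  have n1 := pow_ne_zero (2 * n + 1) (one_add_exp hp)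
  have n2 := pow_ne_zero (2 * n + 1) (one_add_exp hm)
  have hx1 : Complex.exp (z + Real.pi / 3 * Complex.I) = om ^ 2 * (-Complex.exp z) := by
    rw [g2_exp_add]; ring
  have hx2 : Complex.exp (z - Real.pi / 3 * Complex.I) = om * (-Complex.exp z) := by
    rw [g2_exp_sub]; ring
  have hd := hQ.div (-Complex.exp z)
  have hT : Tz n Q (-Complex.exp z) = PowerSeries.X *
      (C ((V1.map (algebraMap ℝ ℂ)).eval (-Complex.exp z)) * bc n Q z) := by
    have hv := V1_ne hR (UU_mem' hz)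
    ext j
    rcases j with _ | j
    · rw [Qz_coeff, hQ.zero, PowerSeries.coeff_zero_X_mul, Polynomial.eval_zero]
    · rw [Qz_coeff, PowerSeries.coeff_succ_X_mul, PowerSeries.coeff_C_mul]
      unfold bc
      rw [coeff_mk, hQ.one]
      field_simp
  have key : C ((1 + Complex.exp (z + Real.pi / 3 * Complex.I)) ^ (2 * n + 1)) *
      C ((1 + Complex.exp (z - Real.pi / 3 * Complex.I)) ^ (2 * n + 1)) *
      (Ec n t (z + Real.pi / 3 * Complex.I) * Ec n t (z - Real.pi / 3 * Complex.I)) =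
      C ((1 + Complex.exp (z + Real.pi / 3 * Complex.I)) ^ (2 * n + 1)) *
      C ((1 + Complex.exp (z - Real.pi / 3 * Complex.I)) ^ (2 * n + 1)) *
      (1 + PowerSeries.X * C (y1 n V1 z) * bc n Q z) := by
    have e1 := Ec_mul (n := n) (t := t) hp
    have e2 := Ec_mul (n := n) (t := t) hm
    have l1 : C ((1 + Complex.exp (z + Real.pi / 3 * Complex.I)) ^ (2 * n + 1)) *
      C ((1 + Complex.exp (z - Real.pi / 3 * Complex.I)) ^ (2 * n + 1)) *
      (Ec n t (z + Real.pi / 3 * Complex.I) * Ec n t (z - Real.pi / 3 * Complex.I)) =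
      Tz n t (om * -Complex.exp z) * Tz n t (om ^ 2 * -Complex.exp z) := by
      rw [← hx1, ← hx2, ← e1, ← e2]
      ring
    have l2 : C ((1 + Complex.exp (z + Real.pi / 3 * Complex.I)) ^ (2 * n + 1)) *
      C ((1 + Complex.exp (z - Real.pi / 3 * Complex.I)) ^ (2 * n + 1)) * C (y1 n V1 z) =
      (C ((1 + -Complex.exp z) ^ (2 * n + 1)) *
        C ((V1.map (algebraMap ℝ ℂ)).eval (-Complex.exp z)) : PS) := by
      rw [← map_mul, ← map_mul, ← map_mul]
      congr 1
      unfold y1 rr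
      rw [← sub_eq_add_neg]
      generalize (1 + Complex.exp (z + Real.pi / 3 * Complex.I)) ^ (2 * n + 1) = a at n1
      generalize (1 + Complex.exp (z - Real.pi / 3 * Complex.I)) ^ (2 * n + 1) = b at n2
      generalize (1 - Complex.exp z) ^ (2 * n + 1) = c
      field_simp
    have l3 : (C (((1 + om * -Complex.exp z) * (1 + om ^ 2 * -Complex.exp z)) ^ (2 * n + 1)) : PS) =
      C ((1 + Complex.exp (z + Real.pi / 3 * Complex.I)) ^ (2 * n + 1)) *
      C ((1 + Complex.exp (z - Real.pi / 3 * Complex.I)) ^ (2 * n + 1)) := by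
      rw [← map_mul, hx1, hx2, mul_pow, mul_comm]
    rw [l1, hd, hT, l3]
    linear_combination (-(PowerSeries.X * bc n Q z)) * l2
  exact mul_left_cancel₀ (mul_ne_zero (C_ne n1) (C_ne n2)) key

theorem Ec_1 (hs : Polynomial.C (1 / (2 * n + 1 : ℂ)) * e4_cf 1 t = s1.map (algebraMap ℝ ℂ)) (z : ℂ) :
    coeff 1 (Ec n t z) = Xc n s1 z := by
  rw [Ec_coeff, pow_one]
  unfold Xc
  rw [← hs, div_eq_mul_inv, mul_comm]
  rfl

theorem y1_real (h : TSpec n t) (hR : RPert n s1 s2 V1 V2) (hQ : QS n t Q V1)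
    (hs : Polynomial.C (1 / (2 * n + 1 : ℂ)) * e4_cf 1 t = s1.map (algebraMap ℝ ℂ)) (u : ℝ) :
    y1 n V1 u = (A1 (2 * n + 1) (fun u => (Xc n s1 u).re) u : ℂ) := by
  have hu : |((u : ℂ)).im| ≤ Real.pi / 3 := by
    rw [Complex.ofReal_im, abs_zero]; positivity
  have h1 := congrArg (coeff 1) (Ec_prod hR hQ hu)
  have hU := strip_shift hu
  have c0 : ∀ z ∈ UU, coeff 0 (Ec n t z) = 1 := fun z hz => by
    rw [coeff_zero_eq_constantCoeff_apply]; exact Ec_0 h hz
  rw [e4_mul1, c0 _ hU.1, c0 _ hU.2, Ec_1 hs, Ec_1 hs, map_add, coeff_one, if_neg (by norm_num),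
    mul_assoc, PowerSeries.coeff_succ_X_mul, PowerSeries.coeff_C_mul,
    coeff_zero_eq_constantCoeff_apply, bc_0 hR hQ (UU_mem' hu)] at h1
  have h2 := g5_A1 hR u
  rw [← h2]
  linear_combination -h1

theorem Ec_BNS (h : TSpec n t) : BNS (fun u : ℝ => Ec n t u) := fun j => by
  simp only [Ec_coeff, real_rat _ (deg_P h j)]
  exact (poly_BN _).1

theorem coeff_P (j k : ℕ) : (Polynomial.C (iN n ^ j) * e4_cf j t).coeff k =
    coeff j (rescale (iN n) (t.coeff k)) := by
  rw [Polynomial.coeff_C_mul, e4_cf_coeff, coeff_rescale]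

theorem Ec_top (h : TSpec n t) : Td (fun u : ℝ => Ec n t u) atTop endT := fun j => by
  simp only [Ec_coeff, real_rat _ (deg_P h j)]
  have h1 := (poly_BN (g3aQ (2 * n + 1) (Polynomial.C (iN n ^ j) * e4_cf j t))).2.1
  rw [g3a_Q1, coeff_P, h.top, map_sub, map_mul, map_mul, map_neg, rescale_C', rescale_C',
    rescale_expI (iN n) (2 * n + 1) 1 (iN_mul n),
    rescale_expI (iN n) (-(2 * n + 1)) (-1) (by rw [neg_mul, iN_mul])] at h1
  unfold endT
  rw [neg_mul] at h1
  exact h1

theorem Ec_bot (h : TSpec n t) : Td (fun u : ℝ => Ec n t u) atBot endB := fun j => by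
  simp only [Ec_coeff, real_rat _ (deg_P h j)]
  have h1 := (poly_BN (g3aQ (2 * n + 1) (Polynomial.C (iN n ^ j) * e4_cf j t))).2.2
  rw [g3a_Q0, coeff_P, h.bot, map_sub, map_mul, map_mul, map_neg, rescale_C', rescale_C',
    rescale_expI (iN n) (2 * n + 1) 1 (iN_mul n),
    rescale_expI (iN n) (-(2 * n + 1)) (-1) (by rw [neg_mul, iN_mul])] at h1
  unfold endB
  rw [neg_mul] at h1
  exact h1

/-- the data -/
theorem exists_FD (hn : 1 ≤ n) (h : TSpec n t) : ∃ d : FD, d.N = 2 * n + 1 ∧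
    rescale (iN n) (t.eval 1) = C ((2:ℂ) ^ (2 * n + 1)) * d.E 0 := by
  obtain ⟨s1, s2, V1, V2, hR, hs, -⟩ := rpert_of_pert n _ _ (pert_explicit n t h)
  obtain ⟨Q, hQ⟩ := exists_QS h hR hs
  have hU : ∀ u : ℝ, (u : ℂ) ∈ UU := fun u => UU_mem (by
    rw [Complex.ofReal_im, abs_zero]; have := Real.pi_pos; positivity)
  have hE1 : ∀ u : ℝ, coeff 1 (Ec n t u) = (((Xc n s1 u).re : ℝ) : ℂ) := by
    intro u
    rw [Ec_1 hs]
    have hdeg : s1.natDegree ≤ 2 * n + 1 := g5_deg hR.pert.deg1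
    exact g5_re ((Xc_an n s1 hdeg).2.2.1 u)
  have hy : ∀ u : ℝ, y1 n V1 u = (A1 (2 * n + 1) (fun u => (Xc n s1 u).re) u : ℂ) :=
    y1_real h hR hQ hs
  have c0 : ∀ z ∈ UU, coeff 0 (Ec n t z) = 1 := fun z hz => by
    rw [coeff_zero_eq_constantCoeff_apply]; exact Ec_0 h hz
  refine ⟨{
    N := 2 * n + 1
    hN := by omega
    X := fun u => (Xc n s1 u).re
    Y2 := fun u => (Xc n s2 u).re - (Xc n s1 u).re ^ 2 / 2
    B2 := fun u => (Bc V1 V2 u).re
    sys := sys_of_rpert hR
    E := fun u => Ec n t u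
    b := fun u => bc n Q u
    q := fun u => bc n Q (u + Real.pi / 3 * Complex.I) * bc n Q (u - Real.pi / 3 * Complex.I)
    E0 := fun u => Ec_0 h (hU u)
    E1 := hE1
    b0 := fun u => bc_0 hR hQ (hU u)
    bE := Ec_BNS h
    hq := ?_
    hP := ?_
    hS := ?_
    top := Ec_top h
    bot := Ec_bot h }, rfl, ?_⟩
  · intro u
    have hp := Ec_prod hR hQ (abs_p u)
    have hm := Ec_prod hR hQ (abs_m u)
    have hf := Ec_fus h u
    rw [show (u : ℂ) + Real.pi / 3 * Complex.I - Real.pi / 3 * Complex.I = u by ring] at hp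
    rw [show (u : ℂ) - Real.pi / 3 * Complex.I + Real.pi / 3 * Complex.I = u by ring] at hm
    set Ep := Ec n t (u + Real.pi / 3 * Complex.I + Real.pi / 3 * Complex.I)
    set Em := Ec n t (u - Real.pi / 3 * Complex.I - Real.pi / 3 * Complex.I)
    set E0 := Ec n t u with hE0
    set yp := y1 n V1 (u + Real.pi / 3 * Complex.I)
    set ym := y1 n V1 (u - Real.pi / 3 * Complex.I)
    set bp := bc n Q (u + Real.pi / 3 * Complex.I) with hbp
    set bm := bc n Q (u - Real.pi / 3 * Complex.I) with hbm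
    have h1 : E0 ^ 2 - c2 * E0 + 1 = PowerSeries.X ^ 2 * C (yp * ym) * (bp * bm) := by
      have h2 : (Ep * E0 - 1) * (E0 * Em - 1) = E0 ^ 2 - c2 * E0 + 1 := by
        linear_combination E0 * hf
      rw [← h2, hp, hm, map_mul]
      ring
    have h3 := congrArg (coeff 2) h1
    have e1 : coeff 2 (PowerSeries.X ^ 2 * C (yp * ym) * (bp * bm)) = yp * ym := by
      rw [mul_assoc]
      have := PowerSeries.coeff_X_pow_mul (C (yp * ym) * (bp * bm)) 2 0
      rw [zero_add] at this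
      rw [this, coeff_zero_eq_constantCoeff_apply, map_mul _ _ (bp * bm), PowerSeries.constantCoeff_C,
        map_mul _ bp bm, hbp, hbm, bc_0 hR hQ (UU_mem' (abs_p u)), bc_0 hR hQ (UU_mem' (abs_m u))]
      ring
    have e2 : coeff 2 (E0 ^ 2 - c2 * E0 + 1) = ((9 + (Xc n s1 u).re ^ 2 : ℝ) : ℂ) := by
      rw [map_add, map_sub, pow_two, cmul2, cmul2, coeff_one, if_neg (by norm_num)]
      rw [hE0, c0 _ (hU u), hE1 u, FD.c2_0, FD.c2_1, FD.c2_2]
      push_cast
      ring
    rw [e1, e2] at h3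
    show E0 ^ 2 - c2 * E0 + 1 = _
    rw [h1, h3]
  · intro l
    rw [lg_rep (Ec_SBS h) (fun z hz => Ec_0 h hz) l]
    congr 1
    funext u
    have hu : |((u : ℂ)).im| ≤ Real.pi / 3 := by
      rw [Complex.ofReal_im, abs_zero]; positivity
    rw [Ec_prod hR hQ hu, hy u]
    rfl
  · intro l
    exact lg_rep (bc_SBS hR hQ) (fun z hz => bc_0 hR hQ hz) l
  · show rescale (iN n) (t.eval 1) = C ((2:ℂ) ^ (2 * n + 1)) * Ec n t ((0:ℝ) : ℂ)
    have := Ec_mul (n := n) (t := t) (hU 0)
    rw [Complex.ofReal_zero, Complex.exp_zero] at this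
    rw [Complex.ofReal_zero, show (2:ℂ) = 1 + 1 by norm_num, this, Tz, map_one]

end main

end Pool.Agent.Zk36.CG
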