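import Pool.Agent.Zk36.CG.Fn

/-!
# The kernel is almost local with respect to the sign
-/

set_option autoImplicit false

namespace Pool.Agent.Zk36.CG

open Set MeasureTheory H906K Filter Topology

/-- the exponential weight -/
noncomputable def ew (l : ℝ) : ℝ := Real.exp (-(3 * |l| / 2))

theorem ew_cont : Continuous ew := by
  unfold ew
  fun_prop

theorem ew_pos (l : ℝ) : 0 < ew l := Real.exp_pos _

theorem ew_le_one (l : ℝ) : ew l ≤ 1 := by
  unfold ew
  rw [Real.exp_le_one_iff]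
  have := abs_nonneg l
  linarith

theorem ew_Iic : IntegrableOn ew (Iic 0) ∧ ∫ y in Iic (0 : ℝ), ew y = 2 / 3 := by
  have e : EqOn (fun y : ℝ => Real.exp (3 / 2 * y)) ew (Iic 0) := by
    intro y hy
    unfold ew
    simp only
    rw [abs_of_nonpos hy]
    ring_nf
  refine ⟨(integrableOn_exp_mul_Iic (by norm_num : (0 : ℝ) < 3 / 2) 0).congr_fun e
    measurableSet_Iic, ?_⟩
  rw [← setIntegral_congr_fun measurableSet_Iic e, integral_exp_mul_Iic (by norm_num)]
  norm_num

theorem ew_Ioi : IntegrableOn ew (Ioi 0) ∧ ∫ y in Ioi (0 : ℝ), ew y = 2 / 3 := by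
  have e : EqOn (fun y : ℝ => Real.exp (-(3 / 2) * y)) ew (Ioi 0) := by
    intro y hy
    unfold ew
    simp only
    rw [abs_of_pos hy]
    ring_nf
  refine ⟨(integrableOn_exp_mul_Ioi (by norm_num : (-(3 / 2) : ℝ) < 0) 0).congr_fun e
    measurableSet_Ioi, ?_⟩
  rw [← setIntegral_congr_fun measurableSet_Ioi e, integral_exp_mul_Ioi (by norm_num)]
  norm_num

theorem ew_int : Integrable ew := by
  rw [← integrableOn_univ, ← Iic_union_Ioi (a := (0 : ℝ))]
  exact ew_Iic.1.union ew_Ioi.1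

theorem ew_mul_int {g : ℝ → ℂ} (hg : Continuous g) {K : ℝ} (hK : ∀ u, ‖g u‖ ≤ K) :
    Integrable (fun u => ew u * ‖g u‖) :=
  ew_int.mul_bdd (c := K) hg.norm.aestronglyMeasurable (ae_of_all _ fun u => by
    rw [norm_norm]; exact hK u)

/-- the antisymmetric integrand -/
noncomputable def HH (f g : ℝ → ℂ) (l u : ℝ) : ℂ := (kk (l - u) : ℂ) * (f l * g u - f u * g l)

theorem HH_swap (f g : ℝ → ℂ) (l u : ℝ) : HH f g u l = -HH f g l u := by
  unfold HH
  rw [show u - l = -(l - u) by ring, kk_even]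
  ring

theorem HH_int {f g : ℝ → ℂ} {Kf : ℝ} (hf : Continuous f)
    (hKf : ∀ l, ‖f l‖ ≤ Kf) (hI : Integrable g) :
    Integrable (Function.uncurry (HH f g)) ((volume : Measure ℝ).prod volume) := by
  have hk : Integrable (fun u => (kk u : ℂ)) := kk_integrable.ofReal
  have e1 : Integrable (fun p : ℝ × ℝ => g p.2 * (kk (p.1 - p.2) : ℂ))
      ((volume : Measure ℝ).prod volume) :=
    Integrable.convolution_integrand (ContinuousLinearMap.mul ℝ ℂ) hI hk
  have e2 : Integrable (fun p : ℝ × ℝ => g p.1 * (kk (p.1 - p.2) : ℂ))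
      ((volume : Measure ℝ).prod volume) := by
    have := e1.swap
    refine this.congr (ae_of_all _ fun p => ?_)
    simp only [Function.comp, Prod.swap]
    rw [← kk_even (p.2 - p.1), neg_sub]
  have e3 : Integrable (fun p : ℝ × ℝ => f p.1 * (g p.2 * (kk (p.1 - p.2) : ℂ)))
      ((volume : Measure ℝ).prod volume) :=
    e1.bdd_mul (c := Kf) (hf.comp continuous_fst).aestronglyMeasurable
      (ae_of_all _ fun p => hKf p.1)
  have e4 : Integrable (fun p : ℝ × ℝ => f p.2 * (g p.1 * (kk (p.1 - p.2) : ℂ)))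
      ((volume : Measure ℝ).prod volume) :=
    e2.bdd_mul (c := Kf) (hf.comp continuous_snd).aestronglyMeasurable
      (ae_of_all _ fun p => hKf p.2)
  refine (e3.sub e4).congr (ae_of_all _ fun p => ?_)
  simp only [HH, Function.uncurry, Pi.sub_apply]
  ring

theorem HH_comm (f g : ℝ → ℂ) (l u : ℝ) : HH g f l u = -HH f g l u := by
  unfold HH
  ring

theorem HH_int' {f g : ℝ → ℂ} {Kf Kg : ℝ} (hf : Continuous f) (hg : Continuous g)
    (hKf : ∀ l, ‖f l‖ ≤ Kf) (hKg : ∀ l, ‖g l‖ ≤ Kg) (hI : Integrable f ∨ Integrable g) :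
    Integrable (Function.uncurry (HH f g)) ((volume : Measure ℝ).prod volume) := by
  rcases hI with h | h
  · have := (HH_int hg hKg h).neg
    refine this.congr (ae_of_all _ fun p => ?_)
    simp only [Function.uncurry, Pi.neg_apply]
    rw [HH_comm, neg_neg]
  · exact HH_int hf hKf h

theorem HH_row {f g : ℝ → ℂ} {Kf Kg : ℝ} (hf : Continuous f) (hg : Continuous g)
    (hKf : ∀ l, ‖f l‖ ≤ Kf) (hKg : ∀ l, ‖g l‖ ≤ Kg) (l : ℝ) :
    Integrable (HH f g l) ∧ cv f l * g l - f l * cv g l = -∫ u, HH f g l u := by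
  have i1 := (cv_int_bdd hg hKg l).const_mul (f l)
  have i2 := (cv_int_bdd hf hKf l).const_mul (g l)
  have e : HH f g l = fun u => f l * ((kk (l - u) : ℂ) * g u) - g l * ((kk (l - u) : ℂ) * f u) := by
    funext u
    unfold HH
    ring
  rw [e]
  refine ⟨i1.sub i2, ?_⟩
  rw [integral_sub i1 i2, integral_const_mul, integral_const_mul]
  unfold cv
  ring

theorem HH_half {f g : ℝ → ℂ} {Kf Kg : ℝ} (hg : Continuous g)
    (hKf : ∀ l, ‖f l‖ ≤ Kf) (hKg : ∀ l, ‖g l‖ ≤ Kg) (x : ℝ) (S : Set ℝ) (hS : MeasurableSet S)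
    (h : ∀ y ∈ S, |x - y| = |x| + |y|) (hSi : IntegrableOn ew S) (hSv : ∫ y in S, ew y = 2 / 3) :
    ‖∫ y in S, HH f g x y‖ ≤
      3 / (2 * Real.pi) * Kf * (ew x * ((∫ y in S, ew y * ‖g y‖) + 2 / 3 * ‖g x‖)) := by
  have hK0 : 0 ≤ Kf := (norm_nonneg _).trans (hKf 0)
  have hb : ∀ y ∈ S, ‖HH f g x y‖ ≤
      3 / (2 * Real.pi) * Kf * ew x * (ew y * ‖g y‖) + 3 / (2 * Real.pi) * Kf * ew x * ‖g x‖ * ew y := by
    intro y hy
    unfold HH
    rw [norm_mul, Complex.norm_real, Real.norm_eq_abs, abs_of_pos (kk_pos _)]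
    have h1 : kk (x - y) ≤ 3 / (2 * Real.pi) * ew x * ew y := by
      refine (kk_le _).trans (le_of_eq ?_)
      unfold ew
      rw [h y hy, mul_assoc, ← Real.exp_add]
      ring_nf
    have h2 : ‖f x * g y - f y * g x‖ ≤ Kf * ‖g y‖ + Kf * ‖g x‖ := by
      refine (norm_sub_le _ _).trans ?_
      rw [norm_mul, norm_mul]
      exact add_le_add (mul_le_mul_of_nonneg_right (hKf x) (norm_nonneg _))
        (mul_le_mul_of_nonneg_right (hKf y) (norm_nonneg _))
    have h3 : 0 ≤ 3 / (2 * Real.pi) * ew x * ew y := (kk_pos _).le.trans h1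
    calc kk (x - y) * ‖f x * g y - f y * g x‖
        ≤ (3 / (2 * Real.pi) * ew x * ew y) * (Kf * ‖g y‖ + Kf * ‖g x‖) :=
          mul_le_mul h1 h2 (norm_nonneg _) h3
      _ = _ := by ring
  have i1 : IntegrableOn (fun y => 3 / (2 * Real.pi) * Kf * ew x * (ew y * ‖g y‖)) S :=
    ((ew_mul_int hg hKg).integrableOn).const_mul _
  have i2 : IntegrableOn (fun y => 3 / (2 * Real.pi) * Kf * ew x * ‖g x‖ * ew y) S :=
    hSi.const_mul _
  refine (norm_integral_le_of_norm_le (i1.add i2) ?_).trans (le_of_eq ?_)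
  · rw [ae_restrict_iff' hS]
    exact ae_of_all _ fun y hy => hb y hy
  · simp only [Pi.add_apply]
    rw [integral_add i1 i2, integral_const_mul, integral_const_mul, hSv]
    ring

theorem comm_aux {f g : ℝ → ℂ} {Kf Kg : ℝ} (hf : Continuous f) (hg : Continuous g)
    (hKf : ∀ l, ‖f l‖ ≤ Kf) (hKg : ∀ l, ‖g l‖ ≤ Kg) (hI : Integrable f ∨ Integrable g)
    (S T : Set ℝ) (hS : MeasurableSet S) (hT : MeasurableSet T)
    (hsplit : ∀ F : ℝ → ℂ, Integrable F → ∫ u, F u = (∫ u in S, F u) + ∫ u in T, F u)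
    (hsplit' : ∀ F : ℝ → ℝ, Integrable F → ∫ u, F u = (∫ u in S, F u) + ∫ u in T, F u)
    (h : ∀ x ∈ S, ∀ y ∈ T, |x - y| = |x| + |y|)
    (hSi : IntegrableOn ew S) (hSv : ∫ y in S, ew y = 2 / 3)
    (hTi : IntegrableOn ew T) (hTv : ∫ y in T, ew y = 2 / 3) :
    IntegrableOn (fun u => cv f u * g u - f u * cv g u) S ∧
    ‖∫ u in S, (cv f u * g u - f u * cv g u)‖ ≤ Kf / Real.pi * ∫ u, ew u * ‖g u‖ := by
  have hK0 : 0 ≤ Kf := (norm_nonneg _).trans (hKf 0)
  have hH := HH_int' hf hg hKf hKg hI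
  have hr : ∀ S T : Set ℝ, Integrable (Function.uncurry (HH f g))
      ((volume.restrict S).prod (volume.restrict T)) := by
    intro S T
    rw [Measure.prod_restrict]
    exact hH.restrict
  have ia : ∀ S T : Set ℝ, IntegrableOn (fun l => ∫ u in T, HH f g l u) S :=
    fun S T => (hr S T).integral_prod_left
  have s1 : ∀ l, cv f l * g l - f l * cv g l =
      -((∫ u in S, HH f g l u) + ∫ u in T, HH f g l u) := by
    intro l
    obtain ⟨h1, h2⟩ := HH_row hf hg hKf hKg l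
    rw [h2, hsplit _ h1]
  have hSS : ∫ l in S, ∫ u in S, HH f g l u = 0 := by
    have e1 := integral_integral_swap (hr S S)
    have e2 : ∫ l in S, ∫ u in S, HH f g u l = -∫ l in S, ∫ u in S, HH f g l u := by
      rw [← integral_neg]
      refine integral_congr_ae (ae_of_all _ fun l => ?_)
      simp only
      rw [← integral_neg]
      refine integral_congr_ae (ae_of_all _ fun u => ?_)
      exact HH_swap f g l u
    rw [e2] at e1
    have e3 : (2:ℂ) * ∫ l in S, ∫ u in S, HH f g l u = 0 := by linear_combination e1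
    exact (mul_eq_zero.1 e3).resolve_left two_ne_zero
  simp_rw [s1]
  refine ⟨((ia S S).add (ia S T)).neg, ?_⟩
  rw [integral_neg, norm_neg, integral_add (ia S S) (ia S T), hSS, zero_add]
  have i1 : Integrable (fun u => ew u * ‖g u‖) := ew_mul_int hg hKg
  have i2 : IntegrableOn (fun x => 3 / (2 * Real.pi) * Kf *
      (ew x * ((∫ y in T, ew y * ‖g y‖) + 2 / 3 * ‖g x‖))) S := by
    have j1 : IntegrableOn (fun x => 3 / (2 * Real.pi) * Kf * (∫ y in T, ew y * ‖g y‖) * ew x) S :=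
      hSi.const_mul _
    have j2 : IntegrableOn (fun x => 3 / (2 * Real.pi) * Kf * (2 / 3) * (ew x * ‖g x‖)) S :=
      i1.integrableOn.const_mul _
    refine (j1.add j2).congr (ae_of_all _ fun x => ?_)
    simp only [Pi.add_apply]
    ring
  refine (norm_integral_le_of_norm_le i2 ?_).trans (le_of_eq ?_)
  · rw [ae_restrict_iff' hS]
    exact ae_of_all _ fun x hx => HH_half hg hKf hKg x T hT (h x hx) hTi hTv
  · have j1 : IntegrableOn (fun x => (∫ y in T, ew y * ‖g y‖) * ew x) S := hSi.const_mul _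
    have j2 : IntegrableOn (fun x => (2 / 3) * (ew x * ‖g x‖)) S := i1.integrableOn.const_mul _
    have e1 : ∀ x, ew x * ((∫ y in T, ew y * ‖g y‖) + 2 / 3 * ‖g x‖) =
        (∫ y in T, ew y * ‖g y‖) * ew x + (2 / 3) * (ew x * ‖g x‖) := fun x => by ring
    simp_rw [e1]
    rw [integral_const_mul, integral_add j1 j2, integral_const_mul, integral_const_mul, hSv,
      hsplit' _ i1]
    field_simp
    ring

/-- the commutator on the half lines -/
theorem comm_le {f g : ℝ → ℂ} {Kf Kg : ℝ} (hf : Continuous f) (hg : Continuous g)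
    (hKf : ∀ l, ‖f l‖ ≤ Kf) (hKg : ∀ l, ‖g l‖ ≤ Kg) (hI : Integrable f ∨ Integrable g) :
    (IntegrableOn (fun u => cv f u * g u - f u * cv g u) (Ioi 0) ∧
      ‖∫ u in Ioi (0:ℝ), (cv f u * g u - f u * cv g u)‖ ≤ Kf / Real.pi * ∫ u, ew u * ‖g u‖) ∧
    (IntegrableOn (fun u => cv f u * g u - f u * cv g u) (Iic 0) ∧
      ‖∫ u in Iic (0:ℝ), (cv f u * g u - f u * cv g u)‖ ≤ Kf / Real.pi * ∫ u, ew u * ‖g u‖) := by
  have habs : ∀ x ∈ Ioi (0:ℝ), ∀ y ∈ Iic (0:ℝ), |x - y| = |x| + |y| := by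
    intro x hx y hy
    have hx' : 0 < x := hx
    have hy' : y ≤ 0 := hy
    rw [abs_of_pos hx', abs_of_nonpos hy', abs_of_nonneg (by linarith)]
    ring
  constructor
  · refine comm_aux hf hg hKf hKg hI (Ioi 0) (Iic 0) measurableSet_Ioi measurableSet_Iic ?_ ?_
      habs ew_Ioi.1 ew_Ioi.2 ew_Iic.1 ew_Iic.2
    · intro F hF
      rw [← intervalIntegral.integral_Iic_add_Ioi (b := (0:ℝ)) hF.integrableOn hF.integrableOn,
        add_comm]
    · intro F hF
      rw [← intervalIntegral.integral_Iic_add_Ioi (b := (0:ℝ)) hF.integrableOn hF.integrableOn,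
        add_comm]
  · refine comm_aux hf hg hKf hKg hI (Iic 0) (Ioi 0) measurableSet_Iic measurableSet_Ioi ?_ ?_
      ?_ ew_Iic.1 ew_Iic.2 ew_Ioi.1 ew_Ioi.2
    · intro F hF
      rw [← intervalIntegral.integral_Iic_add_Ioi (b := (0:ℝ)) hF.integrableOn hF.integrableOn]
    · intro F hF
      rw [← intervalIntegral.integral_Iic_add_Ioi (b := (0:ℝ)) hF.integrableOn hF.integrableOn]
    · intro x hx y hy
      rw [abs_sub_comm, habs y hy x hx, add_comm]

end Pool.Agent.Zk36.CG
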