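import Pool.Agent.Zk36.CG.FN
import Pool.Agent.H906R3.K6.A3

/-!
# The formal system of integral equations
-/

set_option autoImplicit false

namespace Pool.Agent.Zk36.CG

open Finset MeasureTheory H906K Filter Topology PowerSeries

/-- value of the eigenvalue at `+∞` -/
noncomputable def endT : PS := -(C om * expI 1) - C (om ^ 2) * expI (-1)

/-- value of the eigenvalue at `-∞` -/
noncomputable def endB : PS := -(C (om ^ 2) * expI 1) - C om * expI (-1)

/-- `2 cos 3α` -/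
noncomputable def c2 : PS := expI 3 + expI (-3)

/-- the function `Y` -/
noncomputable def Yf (N : ℕ) (X : ℝ → ℝ) (b : ℝ → PS) (u : ℝ) : PS :=
  PowerSeries.X * C (A1 N X u : ℂ) * b u

/-- the formal data on the real line -/
structure FD where
  N : ℕ
  hN : 2 ≤ N
  X : ℝ → ℝ
  Y2 : ℝ → ℝ
  B2 : ℝ → ℝ
  sys : Sys N X Y2 B2
  E : ℝ → PS
  b : ℝ → PS
  q : ℝ → PS
  E0 : ∀ u, constantCoeff (E u) = 1
  E1 : ∀ u, coeff 1 (E u) = (X u : ℂ)
  b0 : ∀ u, constantCoeff (b u) = 1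
  bE : BNS E
  hq : ∀ u, E u ^ 2 - c2 * E u + 1 = PowerSeries.X ^ 2 * C ((9 + X u ^ 2 : ℝ) : ℂ) * q u
  hP : ∀ l, lg (E l) = cvS (fun u => lg (1 + Yf N X b u)) l
  hS : ∀ l, lg (b l) = cvS (fun u => lg (q u)) l
  top : Td E atTop endT
  bot : Td E atBot endB

theorem cmul2 (a b : PS) : coeff 2 (a * b) = coeff 0 a * coeff 2 b + coeff 1 a * coeff 1 b
    + coeff 2 a * coeff 0 b := by
  rw [coeff_mul, Finset.Nat.sum_antidiagonal_eq_sum_range_succ_mk]
  simp [Finset.sum_range_succ]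

namespace FD

variable (d : FD)

/-- the function `Y` of the data -/
noncomputable def Y (u : ℝ) : PS := Yf d.N d.X d.b u

theorem hN1 : 1 ≤ d.N := by have := d.hN; omega

theorem X_le (u : ℝ) : |d.X u| ≤ Real.sqrt 3 := (sys_bounds d.hN1 d.sys).1 u

theorem A1_le (u : ℝ) : |A1 d.N d.X u| ≤ 2 * Real.sqrt 3 * |Real.tanh (3 * u / 4)| ^ d.N :=
  (sys_bounds d.hN1 d.sys).2.2.2.1 u

theorem A1_le' (u : ℝ) : |A1 d.N d.X u| ≤ 2 * Real.sqrt 3 := by
  refine (d.A1_le u).trans ?_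
  have h1 : |Real.tanh (3 * u / 4)| ^ d.N ≤ 1 :=
    pow_le_one₀ (abs_nonneg _) (a4_tanh_le _)
  have h2 : 0 ≤ 2 * Real.sqrt 3 := by positivity
  nlinarith

theorem bX : BN (fun u => (d.X u : ℂ)) := BN.ofReal d.sys.niceX d.X_le

theorem bA1 : BN (fun u => (A1 d.N d.X u : ℂ)) :=
  BN.ofReal (sys_nice d.hN1 d.sys).2.2.2.1 d.A1_le'

/-- `9 + X²` -/
noncomputable def g (u : ℝ) : ℂ := ((9 + d.X u ^ 2 : ℝ) : ℂ)

theorem g_norm (u : ℝ) : 9 ≤ ‖d.g u‖ := by
  unfold g
  rw [Complex.norm_real, Real.norm_eq_abs, abs_of_nonneg (by positivity)]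
  nlinarith [sq_nonneg (d.X u)]

theorem g_ne (u : ℝ) : d.g u ≠ 0 := ne_of_norm (by norm_num) (d.g_norm u)

theorem bg : BN d.g := by
  have h := (BN.const 9).add (d.bX.mul d.bX)
  refine (congrArg BN (funext fun u => ?_)).mp h
  unfold g
  push_cast
  ring

theorem q_eq (u : ℝ) : d.q u = C (d.g u)⁻¹ * sh (sh (d.E u ^ 2 - c2 * d.E u + 1)) := by
  have h := d.hq u
  have h1 : sh (sh (d.E u ^ 2 - c2 * d.E u + 1)) = C (d.g u) * d.q u := by
    rw [h]
    ext j
    rw [sh_coeff, sh_coeff, mul_assoc, show j + 1 + 1 = j + 2 from rfl,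
      PowerSeries.coeff_X_pow_mul]
    rfl
  rw [h1, ← mul_assoc, ← map_mul, inv_mul_cancel₀ (d.g_ne u), map_one, one_mul]

theorem c2_0 : coeff 0 c2 = 2 := by
  unfold c2
  rw [map_add, coeff_zero_eq_constantCoeff_apply, coeff_zero_eq_constantCoeff_apply,
    expI_zero_coeff, expI_zero_coeff]
  norm_num

theorem expI_coeff (a : ℂ) (k : ℕ) : PowerSeries.coeff k (expI a)
    = (a * Complex.I) ^ k / (k.factorial : ℂ) := by
  unfold expI
  rw [PowerSeries.coeff_rescale, PowerSeries.coeff_exp]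
  simp [div_eq_mul_inv]

theorem c2_1 : coeff 1 c2 = 0 := by
  unfold c2
  rw [map_add, expI_coeff, expI_coeff]
  simp

theorem c2_2 : coeff 2 c2 = -9 := by
  unfold c2
  rw [map_add, expI_coeff, expI_coeff]
  have h : Complex.I ^ 2 = -1 := Complex.I_sq
  simp [Nat.factorial, mul_pow]
  norm_num

theorem q0 (u : ℝ) : constantCoeff (d.q u) = 1 := by
  have h := congrArg (coeff 2) (d.hq u)
  have e1 : coeff 2 (PowerSeries.X ^ 2 * C ((9 + d.X u ^ 2 : ℝ) : ℂ) * d.q u)
      = d.g u * constantCoeff (d.q u) := by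
    rw [mul_assoc]
    have := PowerSeries.coeff_X_pow_mul (C ((9 + d.X u ^ 2 : ℝ) : ℂ) * d.q u) 2 0
    rw [zero_add] at this
    rw [this, coeff_zero_eq_constantCoeff_apply, map_mul, PowerSeries.constantCoeff_C]
    rfl
  have e2 : coeff 2 (d.E u ^ 2 - c2 * d.E u + 1) = d.g u := by
    rw [map_add, map_sub, pow_two, cmul2, cmul2, coeff_one, if_neg (by norm_num)]
    have hE0 : coeff 0 (d.E u) = 1 := by
      rw [coeff_zero_eq_constantCoeff_apply]; exact d.E0 u
    simp only [hE0, d.E1, c2_0, c2_1, c2_2]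
    unfold g
    push_cast
    norm_num
    ring
  rw [e1, e2] at h
  have := d.g_ne u
  field_simp at h
  exact h.symm

theorem bq : BNS d.q := by
  have h1 : BNS (fun u => d.E u ^ 2 - c2 * d.E u + 1) :=
    ((d.bE.pow 2).sub ((BNS.const c2).mul d.bE)).add (BNS.const 1)
  have h2 := (BNS.cst (d.bg.inv (by norm_num : (0:ℝ) < 9) d.g_norm)).mul h1.sht.sht
  rw [show d.q = _ from funext d.q_eq]
  exact h2

theorem q0n (u : ℝ) : (1 : ℝ) ≤ ‖constantCoeff (d.q u)‖ := by rw [d.q0 u]; simp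
theorem E0n (u : ℝ) : (1 : ℝ) ≤ ‖constantCoeff (d.E u)‖ := by rw [d.E0 u]; simp
theorem b0n (u : ℝ) : (1 : ℝ) ≤ ‖constantCoeff (d.b u)‖ := by rw [d.b0 u]; simp

theorem blq : BNS (fun u => lg (d.q u)) := d.bq.lgt one_pos d.q0n

theorem blb : BNS (fun u => lg (d.b u)) := by
  have h := d.blq.cvt
  rwa [show (cvS fun u => lg (d.q u)) = fun u => lg (d.b u) from
    (funext fun u => (d.hS u).symm)] at h

theorem bb : BNS d.b := by
  intro j
  induction j using Nat.strong_induction_on with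
  | _ j ih =>
    rcases j with _ | j
    · have : (fun u => coeff 0 (d.b u)) = fun _ => 1 := by
        funext u
        rw [coeff_zero_eq_constantCoeff_apply]; exact d.b0 u
      rw [this]
      exact BN.const 1
    · have h1 : ∀ u, coeff (j + 1) (d.b u) = ((j : ℂ) + 1)⁻¹ *
          ∑ p ∈ (antidiagonal (j + 1)).filter (fun p => p.2 < j + 1),
            coeff p.1 (lg (d.b u)) * coeff p.2 (d.b u) := by
        intro u
        have h2 := lg_spec (f := d.b u) (by rw [d.b0 u]; exact one_ne_zero)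
        have h3 := congrArg (coeff (j + 1)) h2
        rw [coeff_mul_lt (lg_const _), th_coeff] at h3
        rw [h3]
        have h4 : ((j : ℂ) + 1) ≠ 0 := by exact_mod_cast Nat.succ_ne_zero j
        push_cast
        field_simp
      simp only [h1]
      exact (BN.const _).mul (BN.sum _ fun p hp => (d.blb _).mul (ih _ (mem_filter.1 hp).2))

theorem bY : BNS d.Y := ((BNS.const _).mul (BNS.cst d.bA1)).mul d.bb

theorem Y0 (u : ℝ) : constantCoeff (d.Y u) = 0 := by
  unfold Y Yf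
  rw [map_mul, map_mul, PowerSeries.constantCoeff_X, zero_mul, zero_mul]

theorem Y0n (u : ℝ) : (1 : ℝ) ≤ ‖constantCoeff (1 + d.Y u)‖ := by
  rw [map_add, d.Y0 u]; simp

/-- `R = θ log (1 + Y)` -/
noncomputable def R (u : ℝ) : PS := lg (1 + d.Y u)

theorem b1Y : BNS (fun u => 1 + d.Y u) := (BNS.const 1).add d.bY

theorem bR : BNS d.R := d.b1Y.lgt one_pos d.Y0n

theorem hP' (l : ℝ) : lg (d.E l) = cvS d.R l := d.hP l

theorem R_eq (u : ℝ) : d.R u = th (d.Y u) - d.Y u * d.R u := by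
  have h1 : constantCoeff (1 + d.Y u) ≠ 0 := ne_of_norm one_pos (d.Y0n u)
  have h := lg_spec h1
  rw [th_add, th_one, zero_add] at h
  unfold R
  linear_combination h

end FD

end Pool.Agent.Zk36.CG
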