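import Pool.Agent.Zk36.CG.PS
import Pool.Agent.H906R3.K6.A2b
import Pool.Agent.H906R3.K6.A4

/-!
# Complex functions on the real line: bounded with integrable derivative, convolution with `kk`
-/

set_option autoImplicit false

namespace Pool.Agent.Zk36.CG

open Finset MeasureTheory H906K Filter Topology

/-- bounded `C¹` functions with integrable derivative -/
structure BN (f : ℝ → ℂ) : Prop where
  diff : Differentiable ℝ f
  cont : Continuous (deriv f)
  int : Integrable (deriv f)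
  bdd : ∃ K : ℝ, ∀ u, ‖f u‖ ≤ K

theorem BN.continuous {f : ℝ → ℂ} (h : BN f) : Continuous f := h.diff.continuous

theorem BN.const (c : ℂ) : BN (fun _ => c) := by
  refine ⟨differentiable_const _, ?_, ?_, ⟨‖c‖, fun _ => le_rfl⟩⟩
  · simp only [deriv_const']
    exact continuous_const
  · simp only [deriv_const']
    exact integrable_zero _ _ _

theorem BN.add {f g : ℝ → ℂ} (hf : BN f) (hg : BN g) : BN (fun u => f u + g u) := by
  have hd : deriv (fun u => f u + g u) = fun u => deriv f u + deriv g u :=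
    funext fun u => ((hf.diff u).hasDerivAt.add (hg.diff u).hasDerivAt).deriv
  obtain ⟨K, hK⟩ := hf.bdd
  obtain ⟨L, hL⟩ := hg.bdd
  refine ⟨hf.diff.add hg.diff, ?_, ?_, ⟨K + L, fun u => (norm_add_le _ _).trans
    (add_le_add (hK u) (hL u))⟩⟩
  · rw [hd]; exact hf.cont.add hg.cont
  · rw [hd]; exact hf.int.add hg.int

theorem BN.mul {f g : ℝ → ℂ} (hf : BN f) (hg : BN g) : BN (fun u => f u * g u) := by
  have hd : deriv (fun u => f u * g u) = fun u => deriv f u * g u + f u * deriv g u :=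
    funext fun u => ((hf.diff u).hasDerivAt.mul (hg.diff u).hasDerivAt).deriv
  obtain ⟨K, hK⟩ := hf.bdd
  obtain ⟨L, hL⟩ := hg.bdd
  have hK0 : 0 ≤ K := (norm_nonneg _).trans (hK 0)
  refine ⟨hf.diff.mul hg.diff, ?_, ?_, ⟨K * L, fun u => ?_⟩⟩
  · rw [hd]; exact (hf.cont.mul hg.continuous).add (hf.continuous.mul hg.cont)
  · rw [hd]
    refine Integrable.add ?_ ?_
    · exact hf.int.mul_bdd (c := L) hg.continuous.aestronglyMeasurable (ae_of_all _ hL)
    · exact hg.int.bdd_mul (c := K) hf.continuous.aestronglyMeasurable (ae_of_all _ hK)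
  · rw [norm_mul]
    exact mul_le_mul (hK u) (hL u) (norm_nonneg _) hK0

theorem BN.neg {f : ℝ → ℂ} (hf : BN f) : BN (fun u => -f u) := by
  have h := (BN.const (-1)).mul hf
  refine (congrArg BN (funext fun u => ?_)).mp h
  ring

theorem BN.sub {f g : ℝ → ℂ} (hf : BN f) (hg : BN g) : BN (fun u => f u - g u) := by
  have h := hf.add hg.neg
  refine (congrArg BN (funext fun u => ?_)).mp h
  ring

theorem BN.sum {ι : Type*} (s : Finset ι) {f : ι → ℝ → ℂ} (h : ∀ i ∈ s, BN (f i)) :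
    BN (fun u => ∑ i ∈ s, f i u) := by
  classical
  induction s using Finset.induction_on with
  | empty =>
    simp only [Finset.sum_empty]
    exact BN.const 0
  | insert a s ha ih =>
    simp only [Finset.sum_insert ha]
    exact (h a (Finset.mem_insert_self a s)).add (ih fun i hi => h i (Finset.mem_insert_of_mem hi))

theorem BN.inv {f : ℝ → ℂ} (hf : BN f) {c : ℝ} (hc : 0 < c) (h : ∀ u, c ≤ ‖f u‖) :
    BN (fun u => (f u)⁻¹) := by
  have hne : ∀ u, f u ≠ 0 := fun u h0 => by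
    have := h u
    rw [h0, norm_zero] at this
    linarith
  have hd : deriv (fun u => (f u)⁻¹) = fun u => -deriv f u / f u ^ 2 :=
    funext fun u => ((hf.diff u).hasDerivAt.inv (hne u)).deriv
  refine ⟨fun u => ((hf.diff u).hasDerivAt.inv (hne u)).differentiableAt, ?_, ?_, ⟨c⁻¹, fun u => ?_⟩⟩
  · rw [hd]
    exact hf.cont.neg.div (hf.continuous.pow 2) fun u => pow_ne_zero 2 (hne u)
  · rw [hd]
    have h1 : (fun u => -deriv f u / f u ^ 2) = fun u => (-(1 / f u ^ 2)) * deriv f u := by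
      funext u
      field_simp [hne u]
    rw [h1]
    refine hf.int.bdd_mul (c := 1 / c ^ 2) ?_ (ae_of_all _ fun u => ?_)
    · exact (continuous_const.div (hf.continuous.pow 2)
        fun u => pow_ne_zero 2 (hne u)).neg.aestronglyMeasurable
    · rw [norm_neg, norm_div, norm_one, norm_pow]
      have := h u
      gcongr
  · rw [norm_inv]
    exact inv_anti₀ hc (h u)

theorem BN.ofReal {f : ℝ → ℝ} (hf : Nice f) {K : ℝ} (hK : ∀ u, |f u| ≤ K) :
    BN (fun u => (f u : ℂ)) := by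
  have hd : deriv (fun u => (f u : ℂ)) = fun u => ((deriv f u : ℝ) : ℂ) :=
    funext fun u => ((hf.1 u).hasDerivAt.ofReal_comp).deriv
  refine ⟨fun u => ((hf.1 u).hasDerivAt.ofReal_comp).differentiableAt, ?_, ?_, ⟨K, fun u => ?_⟩⟩
  · rw [hd]; exact Complex.continuous_ofReal.comp hf.2.1
  · rw [hd]; exact hf.2.2.ofReal
  · rw [Complex.norm_real]; exact hK u

theorem re_hasDeriv {f : ℝ → ℂ} {f' : ℂ} {u : ℝ} (h : HasDerivAt f f' u) :
    HasDerivAt (fun u => (f u).re) f'.re u := by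
  have := Complex.reCLM.hasFDerivAt.comp_hasDerivAt u h
  exact this

theorem im_hasDeriv {f : ℝ → ℂ} {f' : ℂ} {u : ℝ} (h : HasDerivAt f f' u) :
    HasDerivAt (fun u => (f u).im) f'.im u := by
  have := Complex.imCLM.hasFDerivAt.comp_hasDerivAt u h
  exact this

theorem BN.re {f : ℝ → ℂ} (hf : BN f) : Nice (fun u => (f u).re) ∧
    ∀ u, deriv (fun u => (f u).re) u = (deriv f u).re := by
  have hd : ∀ u, deriv (fun u => (f u).re) u = (deriv f u).re :=
    fun u => (re_hasDeriv (hf.diff u).hasDerivAt).deriv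
  refine ⟨⟨fun u => (re_hasDeriv (hf.diff u).hasDerivAt).differentiableAt, ?_, ?_⟩, hd⟩
  · rw [funext hd]; exact Complex.continuous_re.comp hf.cont
  · rw [funext hd]; exact hf.int.re

theorem BN.im {f : ℝ → ℂ} (hf : BN f) : Nice (fun u => (f u).im) ∧
    ∀ u, deriv (fun u => (f u).im) u = (deriv f u).im := by
  have hd : ∀ u, deriv (fun u => (f u).im) u = (deriv f u).im :=
    fun u => (im_hasDeriv (hf.diff u).hasDerivAt).deriv
  refine ⟨⟨fun u => (im_hasDeriv (hf.diff u).hasDerivAt).differentiableAt, ?_, ?_⟩, hd⟩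
  · rw [funext hd]; exact Complex.continuous_im.comp hf.cont
  · rw [funext hd]; exact hf.int.im

/-! ## the convolution -/

/-- convolution with the kernel -/
noncomputable def cv (f : ℝ → ℂ) (l : ℝ) : ℂ := ∫ u : ℝ, (kk (l - u) : ℂ) * f u

theorem kk_bd (u : ℝ) : kk u ≤ 1 := by
  refine (kk_le u).trans ?_
  have h1 : Real.exp (-(3 * |u| / 2)) ≤ 1 := by
    rw [Real.exp_le_one_iff]
    have := abs_nonneg u
    linarith
  have h2 : 3 / (2 * Real.pi) ≤ 1 := by
    rw [div_le_one (by positivity)]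
    linarith [Real.pi_gt_three]
  have h3 : 0 ≤ 3 / (2 * Real.pi) := by positivity
  nlinarith [Real.exp_pos (-(3 * |u| / 2))]

theorem cv_int_bdd {f : ℝ → ℂ} (hf : Continuous f) {K : ℝ} (hK : ∀ u, ‖f u‖ ≤ K) (l : ℝ) :
    Integrable (fun u : ℝ => (kk (l - u) : ℂ) * f u) :=
  (a2a_integrable_shift l).ofReal.mul_bdd (c := K) hf.aestronglyMeasurable (ae_of_all _ hK)

theorem cv_int_int {f : ℝ → ℂ} (hf : Integrable f) (l : ℝ) :
    Integrable (fun u : ℝ => (kk (l - u) : ℂ) * f u) := by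
  refine hf.bdd_mul (c := 1) ?_ (ae_of_all _ fun u => ?_)
  · exact (Complex.continuous_ofReal.comp (kk_cont.comp (by fun_prop))).aestronglyMeasurable
  · rw [Complex.norm_real, Real.norm_eq_abs, abs_of_pos (kk_pos _)]
    exact kk_bd _

theorem cv_le {f : ℝ → ℂ} {K : ℝ} (hK : ∀ u, ‖f u‖ ≤ K) (l : ℝ) : ‖cv f l‖ ≤ K / 2 := by
  unfold cv
  have h1 := norm_integral_le_of_norm_le (f := fun u => (kk (l - u) : ℂ) * f u)
    ((a2a_integrable_shift l).mul_const K) (Eventually.of_forall fun u => by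
      rw [norm_mul, Complex.norm_real, Real.norm_eq_abs, abs_of_pos (kk_pos _)]
      exact mul_le_mul_of_nonneg_left (hK u) (kk_pos _).le)
  rw [integral_mul_const, a2a_integral_shift] at h1
  linarith

theorem cv_split {f : ℝ → ℂ} (l : ℝ) (h : Integrable (fun u : ℝ => (kk (l - u) : ℂ) * f u)) :
    cv f l = ((∫ u : ℝ, kk (l - u) * (f u).re : ℝ) : ℂ) +
      ((∫ u : ℝ, kk (l - u) * (f u).im : ℝ) : ℂ) * Complex.I := by
  unfold cv
  have h1 := integral_re_add_im (𝕜 := ℂ) h
  rw [← h1]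
  congr 1
  · congr 1
    refine integral_congr_ae (ae_of_all _ fun u => ?_)
    simp
  · congr 1
    congr 1
    refine integral_congr_ae (ae_of_all _ fun u => ?_)
    simp

theorem cv_BN {f : ℝ → ℂ} (hf : BN f) : BN (cv f) ∧ ∀ l, deriv (cv f) l = cv (deriv f) l := by
  obtain ⟨K, hK⟩ := hf.bdd
  have hre : ∀ u, |(f u).re| ≤ K := fun u => (Complex.abs_re_le_norm _).trans (hK u)
  have him : ∀ u, |(f u).im| ≤ K := fun u => (Complex.abs_im_le_norm _).trans (hK u)
  obtain ⟨n1, d1⟩ := kk_conv_nice _ K hf.re.1 hre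
  obtain ⟨n2, d2⟩ := kk_conv_nice _ K hf.im.1 him
  have hcv : cv f = fun l => ((∫ u : ℝ, kk (l - u) * (f u).re : ℝ) : ℂ) +
      ((∫ u : ℝ, kk (l - u) * (f u).im : ℝ) : ℂ) * Complex.I :=
    funext fun l => cv_split l (cv_int_bdd hf.continuous hK l)
  have hB1 := BN.ofReal n1 (K := K / 2) (fun l => kk_conv_le _ K hf.re.1.1.continuous hre l)
  have hB2 := BN.ofReal n2 (K := K / 2) (fun l => kk_conv_le _ K hf.im.1.1.continuous him l)
  have hB := hB1.add (hB2.mul (BN.const Complex.I))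
  refine ⟨by rw [hcv]; exact hB, fun l => ?_⟩
  have e1 : HasDerivAt (cv f) (((deriv (fun l => ∫ u : ℝ, kk (l - u) * (f u).re) l : ℝ) : ℂ) +
      ((deriv (fun l => ∫ u : ℝ, kk (l - u) * (f u).im) l : ℝ) : ℂ) * Complex.I) l := by
    rw [hcv]
    exact ((n1.1 l).hasDerivAt.ofReal_comp).add
      (((n2.1 l).hasDerivAt.ofReal_comp).mul_const Complex.I)
  rw [e1.deriv, d1 l, d2 l, cv_split l (cv_int_int hf.int l)]
  congr 1
  · congr 1
    refine integral_congr_ae (ae_of_all _ fun u => ?_)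
    simp only
    rw [hf.re.2]
  · congr 1
    congr 1
    refine integral_congr_ae (ae_of_all _ fun u => ?_)
    simp only
    rw [hf.im.2]

/-- the derivative of the convolution -/
theorem cv_deriv_le {f : ℝ → ℂ} (hf : BN f) {K : ℝ} (hK : ∀ u, ‖f u‖ ≤ K) (l : ℝ) :
    ‖deriv (cv f) l‖ ≤ 2 * K := by
  have hre : ∀ u, |(f u).re| ≤ K := fun u => (Complex.abs_re_le_norm _).trans (hK u)
  have him : ∀ u, |(f u).im| ≤ K := fun u => (Complex.abs_im_le_norm _).trans (hK u)
  have n1 := (kk_conv_nice _ K hf.re.1 hre).1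
  have n2 := (kk_conv_nice _ K hf.im.1 him).1
  have hcv : cv f = fun l => ((∫ u : ℝ, kk (l - u) * (f u).re : ℝ) : ℂ) +
      ((∫ u : ℝ, kk (l - u) * (f u).im : ℝ) : ℂ) * Complex.I :=
    funext fun l => cv_split l (cv_int_bdd hf.continuous hK l)
  have e1 : HasDerivAt (cv f) (((deriv (fun l => ∫ u : ℝ, kk (l - u) * (f u).re) l : ℝ) : ℂ) +
      ((deriv (fun l => ∫ u : ℝ, kk (l - u) * (f u).im) l : ℝ) : ℂ) * Complex.I) l := by
    rw [hcv]
    exact ((n1.1 l).hasDerivAt.ofReal_comp).add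
      (((n2.1 l).hasDerivAt.ofReal_comp).mul_const Complex.I)
  rw [e1.deriv]
  refine (norm_add_le _ _).trans ?_
  rw [norm_mul, Complex.norm_I, mul_one, Complex.norm_real, Complex.norm_real]
  have h1 := kk_conv_deriv_le _ K hf.re.1 hre l
  have h2 := kk_conv_deriv_le _ K hf.im.1 him l
  rw [Real.norm_eq_abs, Real.norm_eq_abs]
  linarith

theorem cv_add {f g : ℝ → ℂ} (l : ℝ) (hf : Integrable (fun u : ℝ => (kk (l - u) : ℂ) * f u))
    (hg : Integrable (fun u : ℝ => (kk (l - u) : ℂ) * g u)) :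
    cv (fun u => f u + g u) l = cv f l + cv g l := by
  unfold cv
  rw [← integral_add hf hg]
  refine integral_congr_ae (ae_of_all _ fun u => ?_)
  simp only
  ring

theorem cv_sub {f g : ℝ → ℂ} (l : ℝ) (hf : Integrable (fun u : ℝ => (kk (l - u) : ℂ) * f u))
    (hg : Integrable (fun u : ℝ => (kk (l - u) : ℂ) * g u)) :
    cv (fun u => f u - g u) l = cv f l - cv g l := by
  unfold cv
  rw [← integral_sub hf hg]
  refine integral_congr_ae (ae_of_all _ fun u => ?_)
  simp only
  ring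

theorem cv_smul {f : ℝ → ℂ} (c : ℂ) (l : ℝ) : cv (fun u => c * f u) l = c * cv f l := by
  unfold cv
  rw [← integral_const_mul]
  refine integral_congr_ae (ae_of_all _ fun u => ?_)
  simp only
  ring

theorem cv_const (c : ℂ) (l : ℝ) : cv (fun _ => c) l = c / 2 := by
  unfold cv
  rw [integral_mul_const]
  have : ∫ u : ℝ, ((kk (l - u) : ℝ) : ℂ) = ((1 / 2 : ℝ) : ℂ) := by
    rw [← a2a_integral_shift l]
    exact integral_ofReal
  rw [this]
  push_cast
  ring

end Pool.Agent.Zk36.CG
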