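import Pool.Agent.Zk36.CG.PS
import Pool.Agent.Zk36.CG.Fn

/-!
# Functions on the real line with values in formal power series
-/

set_option autoImplicit false

namespace Pool.Agent.Zk36.CG

open Finset MeasureTheory H906K Filter Topology PowerSeries

/-- all coefficients are bounded with integrable derivative -/
def BNS (F : ℝ → PS) : Prop := ∀ j, BN (fun u => coeff j (F u))

theorem BNS.const (a : PS) : BNS (fun _ => a) := fun _ => BN.const _

theorem BNS.add {F G : ℝ → PS} (hF : BNS F) (hG : BNS G) : BNS (fun u => F u + G u) := fun j => by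
  simp only [map_add]; exact (hF j).add (hG j)

theorem BNS.sub {F G : ℝ → PS} (hF : BNS F) (hG : BNS G) : BNS (fun u => F u - G u) := fun j => by
  simp only [map_sub]; exact (hF j).sub (hG j)

theorem BNS.neg {F : ℝ → PS} (hF : BNS F) : BNS (fun u => -F u) := fun j => by
  simp only [map_neg]; exact (hF j).neg

theorem BNS.mul {F G : ℝ → PS} (hF : BNS F) (hG : BNS G) : BNS (fun u => F u * G u) := fun j => by
  simp only [coeff_mul]; exact BN.sum _ fun p _ => (hF _).mul (hG _)

theorem BNS.pow {F : ℝ → PS} (hF : BNS F) (k : ℕ) : BNS (fun u => F u ^ k) := by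
  induction k with
  | zero => simp only [pow_zero]; exact BNS.const 1
  | succ k ih => simp only [pow_succ]; exact ih.mul hF

theorem BNS.cst {f : ℝ → ℂ} (hf : BN f) : BNS (fun u => C (f u)) := fun j => by
  simp only [coeff_C]
  by_cases h : j = 0
  · simp only [h, if_true]; exact hf
  · simp only [h, if_false]; exact BN.const 0

theorem BNS.tht {F : ℝ → PS} (hF : BNS F) : BNS (fun u => th (F u)) := fun j => by
  simp only [th_coeff]; exact (BN.const _).mul (hF j)

/-- recursion for the inverse -/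
theorem inv_rec {a : PS} (h : constantCoeff a ≠ 0) (j : ℕ) :
    coeff (j + 1) a⁻¹ = -(constantCoeff a)⁻¹ *
      ∑ p ∈ (antidiagonal (j + 1)).filter (fun p => p.2 < j + 1), coeff p.1 a * coeff p.2 a⁻¹ := by
  have h1 := congrArg (coeff (j + 1)) (PowerSeries.mul_inv_cancel a h)
  rw [coeff_mul, coeff_one, if_neg (by omega)] at h1
  have h2 : ∑ p ∈ antidiagonal (j + 1), coeff p.1 a * coeff p.2 a⁻¹ =
      (∑ p ∈ (antidiagonal (j + 1)).filter (fun p => p.2 < j + 1), coeff p.1 a * coeff p.2 a⁻¹)
        + constantCoeff a * coeff (j + 1) a⁻¹ := by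
    rw [← sum_filter_add_sum_filter_not (antidiagonal (j + 1)) (fun p => p.2 < j + 1)]
    congr 1
    rw [Finset.sum_eq_single (0, j + 1)]
    · rw [coeff_zero_eq_constantCoeff_apply]
    · intro p hp hne
      exfalso
      apply hne
      rw [mem_filter, HasAntidiagonal.mem_antidiagonal] at hp
      ext <;> simp only <;> omega
    · intro hp
      exfalso
      apply hp
      rw [mem_filter, HasAntidiagonal.mem_antidiagonal]
      constructor <;> simp
  rw [h2] at h1
  have h3 : constantCoeff a * coeff (j + 1) a⁻¹ =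
      -∑ p ∈ (antidiagonal (j + 1)).filter (fun p => p.2 < j + 1), coeff p.1 a * coeff p.2 a⁻¹ := by
    linear_combination h1
  calc coeff (j + 1) a⁻¹ = (constantCoeff a)⁻¹ * (constantCoeff a * coeff (j + 1) a⁻¹) := by
        rw [← mul_assoc, inv_mul_cancel₀ h, one_mul]
    _ = _ := by rw [h3]; ring

theorem inv_zero' {a : PS} : coeff 0 a⁻¹ = (constantCoeff a)⁻¹ := by
  rw [coeff_zero_eq_constantCoeff_apply, PowerSeries.constantCoeff_inv]

theorem BNS.inv {F : ℝ → PS} (hF : BNS F) {c : ℝ} (hc : 0 < c)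
    (h : ∀ u, c ≤ ‖constantCoeff (F u)‖) : BNS (fun u => (F u)⁻¹) := by
  have h0 : BN (fun u => constantCoeff (F u)) := by
    have := hF 0
    simpa only [coeff_zero_eq_constantCoeff_apply] using this
  have hne : ∀ u, constantCoeff (F u) ≠ 0 := fun u h0 => by
    have := h u
    rw [h0, norm_zero] at this
    linarith
  intro j
  induction j using Nat.strong_induction_on with
  | _ j ih =>
    rcases j with _ | j
    · simp only [inv_zero']
      exact h0.inv hc h
    · simp only [fun u => inv_rec (hne u) j]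
      exact (h0.inv hc h).neg.mul (BN.sum _ fun p hp => (hF _).mul (ih _ (mem_filter.1 hp).2))

theorem BNS.lgt {F : ℝ → PS} (hF : BNS F) {c : ℝ} (hc : 0 < c)
    (h : ∀ u, c ≤ ‖constantCoeff (F u)‖) : BNS (fun u => lg (F u)) :=
  hF.tht.mul (hF.inv hc h)

/-- derivative in the real variable -/
noncomputable def dd (F : ℝ → PS) (u : ℝ) : PS :=
  PowerSeries.mk fun j => deriv (fun u => coeff j (F u)) u

theorem dd_coeff (F : ℝ → PS) (u : ℝ) (j : ℕ) :
    coeff j (dd F u) = deriv (fun u => coeff j (F u)) u := coeff_mk _ _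

theorem dd_has {F : ℝ → PS} (hF : BNS F) (u : ℝ) (j : ℕ) :
    HasDerivAt (fun u => coeff j (F u)) (coeff j (dd F u)) u := by
  rw [dd_coeff]; exact ((hF j).diff u).hasDerivAt

theorem dd_const (a : PS) (u : ℝ) : dd (fun _ => a) u = 0 := by
  ext j
  rw [dd_coeff, deriv_const, map_zero]

theorem dd_add {F G : ℝ → PS} (hF : BNS F) (hG : BNS G) (u : ℝ) :
    dd (fun u => F u + G u) u = dd F u + dd G u := by
  ext j
  rw [dd_coeff, map_add]
  simp only [map_add]
  exact ((dd_has hF u j).add (dd_has hG u j)).deriv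

theorem dd_sub {F G : ℝ → PS} (hF : BNS F) (hG : BNS G) (u : ℝ) :
    dd (fun u => F u - G u) u = dd F u - dd G u := by
  ext j
  rw [dd_coeff, map_sub]
  simp only [map_sub]
  exact ((dd_has hF u j).sub (dd_has hG u j)).deriv

theorem dd_mul {F G : ℝ → PS} (hF : BNS F) (hG : BNS G) (u : ℝ) :
    dd (fun u => F u * G u) u = dd F u * G u + F u * dd G u := by
  ext j
  rw [dd_coeff, map_add, coeff_mul, coeff_mul, ← sum_add_distrib]
  simp only [coeff_mul]
  exact (HasDerivAt.fun_sum fun p _ => (dd_has hF u p.1).mul (dd_has hG u p.2)).deriv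

theorem dd_th {F : ℝ → PS} (hF : BNS F) (u : ℝ) : dd (fun u => th (F u)) u = th (dd F u) := by
  ext j
  rw [dd_coeff, th_coeff]
  simp only [th_coeff]
  exact ((dd_has hF u j).const_mul _).deriv

theorem dd_cst {f : ℝ → ℂ} (_hf : BN f) (u : ℝ) : dd (fun u => C (f u)) u = C (deriv f u) := by
  ext j
  rw [dd_coeff]
  simp only [coeff_C]
  split_ifs with h
  · rfl
  · simp

theorem ne_of_norm {z : ℂ} {c : ℝ} (hc : 0 < c) (h : c ≤ ‖z‖) : z ≠ 0 := fun h0 => by
  rw [h0, norm_zero] at h
  linarith

theorem dd_inv {F : ℝ → PS} (hF : BNS F) {c : ℝ} (hc : 0 < c)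
    (h : ∀ u, c ≤ ‖constantCoeff (F u)‖) (u : ℝ) :
    dd (fun u => (F u)⁻¹) u = -(dd F u * (F u)⁻¹ * (F u)⁻¹) := by
  have h1 := dd_mul hF (hF.inv hc h) u
  have h2 : (fun u => F u * (F u)⁻¹) = fun _ => (1 : PS) := by
    funext u
    exact PowerSeries.mul_inv_cancel _ (ne_of_norm hc (h u))
  rw [h2, dd_const] at h1
  have h3 := PowerSeries.mul_inv_cancel (F u) (ne_of_norm hc (h u))
  have h4 : dd (fun u => (F u)⁻¹) u = (F u * (F u)⁻¹) * dd (fun u => (F u)⁻¹) u := by
    rw [h3, one_mul]
  rw [h4]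
  linear_combination -(F u)⁻¹ * h1

theorem th_inv' {a : PS} (h : constantCoeff a ≠ 0) : th a⁻¹ = -(th a * a⁻¹ * a⁻¹) := by
  have h2 := PowerSeries.mul_inv_cancel a h
  have h3 := congrArg th h2
  rw [th_mul, th_one] at h3
  have h4 : th a⁻¹ = (a * a⁻¹) * th a⁻¹ := by rw [h2, one_mul]
  rw [h4]
  linear_combination a⁻¹ * h3

/-- logarithmic derivative in the real variable -/
noncomputable def ld (F : ℝ → PS) (u : ℝ) : PS := dd F u * (F u)⁻¹

/-- the two logarithmic derivatives -/
theorem cross {F : ℝ → PS} (hF : BNS F) {c : ℝ} (hc : 0 < c)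
    (h : ∀ u, c ≤ ‖constantCoeff (F u)‖) (u : ℝ) :
    dd (fun u => lg (F u)) u = th (ld F u) := by
  unfold lg ld
  rw [dd_mul hF.tht (hF.inv hc h), dd_th hF, dd_inv hF hc h, th_mul, th_inv' (ne_of_norm hc (h u))]
  ring

/-! ## convolution -/

/-- convolution, coefficient by coefficient -/
noncomputable def cvS (F : ℝ → PS) (l : ℝ) : PS :=
  PowerSeries.mk fun j => cv (fun u => coeff j (F u)) l

theorem cvS_coeff (F : ℝ → PS) (l : ℝ) (j : ℕ) :
    coeff j (cvS F l) = cv (fun u => coeff j (F u)) l := coeff_mk _ _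

theorem BNS.cvt {F : ℝ → PS} (hF : BNS F) : BNS (cvS F) := fun j => by
  simp only [cvS_coeff]
  exact (cv_BN (hF j)).1

theorem dd_cvS {F : ℝ → PS} (hF : BNS F) (l : ℝ) : dd (cvS F) l = cvS (dd F) l := by
  ext j
  rw [dd_coeff, cvS_coeff]
  simp only [cvS_coeff, dd_coeff]
  exact (cv_BN (hF j)).2 l

theorem cvS_th (F : ℝ → PS) (l : ℝ) : cvS (fun u => th (F u)) l = th (cvS F l) := by
  ext j
  rw [cvS_coeff, th_coeff, cvS_coeff]
  simp only [th_coeff]
  exact cv_smul _ l

/-- `θ` is injective up to the constant coefficient -/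
theorem th_inj {a b : PS} (h : th a = th b) (h0 : coeff 0 a = coeff 0 b) : a = b := by
  ext j
  rcases Nat.eq_zero_or_pos j with rfl | hj
  · exact h0
  · have h1 := congrArg (coeff j) h
    rw [th_coeff, th_coeff] at h1
    exact mul_left_cancel₀ (by exact_mod_cast hj.ne') h1

theorem deriv_const_coeff {F : ℝ → PS} {c : ℂ} (h : ∀ u, coeff 0 (F u) = c) (u : ℝ) :
    coeff 0 (dd F u) = 0 := by
  rw [dd_coeff]
  simp only [h, deriv_const]

/-! ## limits -/

/-- coefficientwise limit -/
def Td {ι : Type*} (F : ι → PS) (l : Filter ι) (G : PS) : Prop :=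
  ∀ j, Tendsto (fun u => coeff j (F u)) l (𝓝 (coeff j G))

section lim
variable {ι : Type*} {l : Filter ι}

theorem Td.const (a : PS) : Td (fun _ : ι => a) l a := fun _ => tendsto_const_nhds

theorem Td.add {F G : ι → PS} {A B : PS} (hF : Td F l A) (hG : Td G l B) :
    Td (fun u => F u + G u) l (A + B) := fun j => by
  simp only [map_add]; exact (hF j).add (hG j)

theorem Td.sub {F G : ι → PS} {A B : PS} (hF : Td F l A) (hG : Td G l B) :
    Td (fun u => F u - G u) l (A - B) := fun j => by
  simp only [map_sub]; exact (hF j).sub (hG j)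

theorem Td.mul {F G : ι → PS} {A B : PS} (hF : Td F l A) (hG : Td G l B) :
    Td (fun u => F u * G u) l (A * B) := fun j => by
  simp only [coeff_mul]; exact tendsto_finsetSum _ fun p _ => (hF _).mul (hG _)

theorem Td.tht {F : ι → PS} {A : PS} (hF : Td F l A) : Td (fun u => th (F u)) l (th A) := fun j => by
  simp only [th_coeff]; exact (hF j).const_mul _

theorem Td.inv {F : ι → PS} {A : PS} (hF : Td F l A) (hA : constantCoeff A ≠ 0)
    (h : ∀ u, constantCoeff (F u) ≠ 0) : Td (fun u => (F u)⁻¹) l A⁻¹ := by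
  have h0 : Tendsto (fun u => constantCoeff (F u)) l (𝓝 (constantCoeff A)) := by
    have := hF 0
    simpa only [coeff_zero_eq_constantCoeff_apply] using this
  intro j
  induction j using Nat.strong_induction_on with
  | _ j ih =>
    rcases j with _ | j
    · simp only [inv_zero']
      exact h0.inv₀ hA
    · simp only [fun u => inv_rec (h u) j, inv_rec hA j]
      exact (h0.inv₀ hA).neg.mul (tendsto_finsetSum _ fun p hp =>
        (hF _).mul (ih _ (mem_filter.1 hp).2))

theorem Td.lgt {F : ι → PS} {A : PS} (hF : Td F l A) (hA : constantCoeff A ≠ 0)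
    (h : ∀ u, constantCoeff (F u) ≠ 0) : Td (fun u => lg (F u)) l (lg A) :=
  hF.tht.mul (hF.inv hA h)

end lim

/-! ## division by the variable -/

/-- division by the variable -/
noncomputable def sh (a : PS) : PS := PowerSeries.mk fun j => coeff (j + 1) a

theorem sh_coeff (a : PS) (j : ℕ) : coeff j (sh a) = coeff (j + 1) a := coeff_mk _ _

theorem sh_mul {a : PS} (h : constantCoeff a = 0) : PowerSeries.X * sh a = a := by
  ext j
  rcases j with _ | j
  · rw [coeff_zero_eq_constantCoeff_apply, coeff_zero_eq_constantCoeff_apply, map_mul,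
      PowerSeries.constantCoeff_X, zero_mul, h]
  · rw [PowerSeries.coeff_succ_X_mul, sh_coeff]

theorem BNS.sht {F : ℝ → PS} (hF : BNS F) : BNS (fun u => sh (F u)) := fun j => by
  simp only [sh_coeff]; exact hF _

theorem dd_sh (F : ℝ → PS) (u : ℝ) : dd (fun u => sh (F u)) u = sh (dd F u) := by
  ext j
  rw [dd_coeff, sh_coeff, dd_coeff]
  simp only [sh_coeff]

theorem Td.sht {ι : Type*} {l : Filter ι} {F : ι → PS} {A : PS} (hF : Td F l A) :
    Td (fun u => sh (F u)) l (sh A) := fun j => by
  simp only [sh_coeff]; exact hF _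

theorem th_expI (a : ℂ) : th (expI a) = C (a * Complex.I) * PowerSeries.X * expI a := by
  ext j
  rw [th_coeff, mul_assoc, PowerSeries.coeff_C_mul]
  have h : ∀ k, PowerSeries.coeff k (expI a) = (a * Complex.I) ^ k / (k.factorial : ℂ) := by
    intro k
    unfold expI
    rw [PowerSeries.coeff_rescale, PowerSeries.coeff_exp]
    simp [div_eq_mul_inv]
  rcases j with _ | j
  · simp
  · rw [PowerSeries.coeff_succ_X_mul, h, h, Nat.factorial_succ]
    push_cast
    have h1 : ((j : ℂ) + 1) ≠ 0 := by exact_mod_cast Nat.succ_ne_zero j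
    have h2 : ((j.factorial : ℕ) : ℂ) ≠ 0 := by exact_mod_cast Nat.factorial_ne_zero j
    field_simp
    ring

theorem expI_zero_coeff (a : ℂ) : constantCoeff (expI a) = 1 := by
  rw [← coeff_zero_eq_constantCoeff_apply]
  unfold expI
  rw [PowerSeries.coeff_rescale, PowerSeries.coeff_exp]
  simp

end Pool.Agent.Zk36.CG
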