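import Pool.Agent.Zk36.CG.PS
import Pool.Agent.Zk36.CG.FN
import Pool.Agent.Zk36.CG.Data

/-!
# Evaluation of formal power series
-/

set_option autoImplicit false

namespace Pool.Agent.Zk36.CG

open Finset Filter Topology PowerSeries H906K

/-- value of a power series -/
noncomputable def pev (z : ℂ) (F : PS) : ℂ := ∑' j, coeff j F * z ^ j

/-- absolute convergence at radius `ρ` -/
def AC (ρ : ℝ) (F : PS) : Prop := Summable fun j => ‖coeff j F‖ * ρ ^ j

theorem AC.norm {ρ : ℝ} {F : PS} (h : AC ρ F) {z : ℂ} (hz : ‖z‖ ≤ ρ) :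
    Summable fun j => ‖coeff j F * z ^ j‖ := by
  refine Summable.of_nonneg_of_le (fun _ => norm_nonneg _) (fun j => ?_) h
  rw [norm_mul, norm_pow]
  exact mul_le_mul_of_nonneg_left (pow_le_pow_left₀ (norm_nonneg _) hz j) (norm_nonneg _)

theorem AC.add {ρ : ℝ} (hρ : 0 ≤ ρ) {F G : PS} (hF : AC ρ F) (hG : AC ρ G) : AC ρ (F + G) := by
  refine Summable.of_nonneg_of_le (fun _ => by positivity) (fun j => ?_) (Summable.add hF hG)
  rw [map_add, ← add_mul]
  exact mul_le_mul_of_nonneg_right (norm_add_le _ _) (by positivity)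

theorem AC.neg {ρ : ℝ} {F : PS} (hF : AC ρ F) : AC ρ (-F) := by
  unfold AC at *
  simpa using hF

theorem AC.mul {ρ : ℝ} (hρ : 0 ≤ ρ) {F G : PS} (hF : AC ρ F) (hG : AC ρ G) : AC ρ (F * G) := by
  have h1 : Summable fun j => ‖‖coeff j F‖ * ρ ^ j‖ := by
    refine (show Summable _ from hF).congr fun j => ?_
    rw [Real.norm_of_nonneg (by positivity)]
  have h2 : Summable fun j => ‖‖coeff j G‖ * ρ ^ j‖ := by
    refine (show Summable _ from hG).congr fun j => ?_
    rw [Real.norm_of_nonneg (by positivity)]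
  refine Summable.of_nonneg_of_le (fun _ => by positivity) (fun j => ?_)
    (summable_norm_sum_mul_antidiagonal_of_summable_norm h1 h2)
  rw [coeff_mul, Real.norm_of_nonneg (sum_nonneg fun _ _ => by positivity)]
  refine (mul_le_mul_of_nonneg_right (norm_sum_le _ _) (by positivity)).trans ?_
  rw [sum_mul]
  refine sum_le_sum fun p hp => ?_
  rw [norm_mul, ← mem_antidiagonal.1 hp, pow_add]
  apply le_of_eq
  ring

theorem AC.cst {ρ : ℝ} (c : ℂ) : AC ρ (C c) := by
  refine summable_of_ne_finset_zero (s := {0}) fun j hj => ?_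
  rw [coeff_C, if_neg (by simpa using hj), norm_zero, zero_mul]

theorem AC.expI {ρ : ℝ} (hρ : 0 ≤ ρ) (a : ℂ) : AC ρ (expI a) := by
  refine (Real.summable_pow_div_factorial (‖a‖ * ρ)).congr fun j => ?_
  rw [FD.expI_coeff, norm_div, norm_pow, norm_mul, Complex.norm_I, mul_one, Complex.norm_natCast,
    mul_pow]
  ring

/-- absolutely convergent series form a ring -/
noncomputable def acs (ρ : ℝ) (hρ : 0 ≤ ρ) : Subring PS where
  carrier := {F | AC ρ F}
  mul_mem' := fun h1 h2 => AC.mul hρ h1 h2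
  one_mem' := by
    have := AC.cst (ρ := ρ) 1
    rwa [map_one] at this
  add_mem' := fun h1 h2 => AC.add hρ h1 h2
  zero_mem' := by
    have := AC.cst (ρ := ρ) 0
    rwa [map_zero] at this
  neg_mem' := fun h => AC.neg h

theorem pev_add {ρ : ℝ} {F G : PS} (hF : AC ρ F) (hG : AC ρ G) {z : ℂ} (hz : ‖z‖ ≤ ρ) :
    pev z (F + G) = pev z F + pev z G := by
  unfold pev
  rw [← (hF.norm hz).of_norm.tsum_add (hG.norm hz).of_norm]
  exact tsum_congr fun j => by rw [map_add]; ring

theorem pev_mul {ρ : ℝ} {F G : PS} (hF : AC ρ F) (hG : AC ρ G) {z : ℂ} (hz : ‖z‖ ≤ ρ) :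
    pev z (F * G) = pev z F * pev z G := by
  unfold pev
  rw [tsum_mul_tsum_eq_tsum_sum_antidiagonal_of_summable_norm (hF.norm hz) (hG.norm hz)]
  refine tsum_congr fun j => ?_
  rw [coeff_mul, sum_mul]
  refine sum_congr rfl fun p hp => ?_
  rw [← mem_antidiagonal.1 hp, pow_add]
  ring

theorem pev_C (z c : ℂ) : pev z (C c) = c := by
  unfold pev
  rw [tsum_eq_single 0]
  · simp
  · intro j hj
    rw [coeff_C, if_neg hj, zero_mul]

theorem pev_expI (z a : ℂ) : pev z (expI a) = Complex.exp (a * Complex.I * z) := by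
  unfold pev
  rw [Complex.exp_eq_exp_ℂ, NormedSpace.exp_eq_tsum_div]
  refine tsum_congr fun j => ?_
  rw [FD.expI_coeff, mul_pow, mul_pow, mul_pow]
  ring

/-- evaluation homomorphism -/
noncomputable def evh (ρ : ℝ) (hρ : 0 ≤ ρ) (z : ℂ) (hz : ‖z‖ ≤ ρ) : acs ρ hρ →+* ℂ where
  toFun F := pev z F.1
  map_one' := by
    have := pev_C z 1
    rwa [map_one] at this
  map_mul' := fun F G => pev_mul F.2 G.2 hz
  map_zero' := by
    have := pev_C z 0
    rwa [map_zero] at this
  map_add' := fun F G => pev_add F.2 G.2 hz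

/-- evaluation of a vanishing determinant -/
theorem pev_det {κ : Type*} [Fintype κ] [DecidableEq κ] {ρ : ℝ} (hρ : 0 ≤ ρ) {z : ℂ} (hz : ‖z‖ ≤ ρ)
    (A : Matrix κ κ PS) (hA : ∀ i j, AC ρ (A i j)) (h : A.det = 0) :
    (Matrix.of fun i j => pev z (A i j)).det = 0 := by
  set A' : Matrix κ κ (acs ρ hρ) := fun i j => ⟨A i j, hA i j⟩ with hA'
  have h1 : A'.det = 0 := by
    have h2 : ((acs ρ hρ).subtype) A'.det = 0 := by
      rw [RingHom.map_det]
      exact h
    exact (Subring.subtype_injective _) (by rw [h2, map_zero])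
  have h3 := congrArg (evh ρ hρ z hz) h1
  rw [RingHom.map_det, map_zero] at h3
  exact h3

/-! ## geometric bounds -/

/-- geometric bound of the coefficients -/
def GB (S : ℝ) (F : PS) : Prop := ∃ K : ℝ, ∀ j, ‖coeff j F‖ ≤ K * S ^ j

theorem GB.ac {S : ℝ} {F : PS} (h : GB S F) {ρ : ℝ} (hS : 0 ≤ S) (hρ : 0 ≤ ρ) (h1 : ρ * S < 1) : AC ρ F := by
  obtain ⟨K, hK⟩ := h
  have h2 : Summable fun j : ℕ => K * (ρ * S) ^ j :=
    (summable_geometric_of_lt_one (by positivity) h1).mul_left K
  refine Summable.of_nonneg_of_le (fun _ => by positivity) (fun j => ?_) h2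
  rw [mul_pow]
  calc ‖coeff j F‖ * ρ ^ j ≤ K * S ^ j * ρ ^ j := mul_le_mul_of_nonneg_right (hK j) (by positivity)
    _ = _ := by ring

/-- derivative -/
noncomputable def df (F : PS) : PS := PowerSeries.mk fun j => ((j : ℂ) + 1) * coeff (j + 1) F

theorem X_df (F : PS) : PowerSeries.X * df F = th F := by
  ext j
  rw [th_coeff]
  rcases j with _ | j
  · rw [coeff_zero_X_mul, Nat.cast_zero, zero_mul]
  · rw [coeff_succ_X_mul, df, coeff_mk]
    push_cast
    ring

theorem pev_deriv {S : ℝ} {F : PS} (h : GB S F) (hS : 0 < S) {z : ℂ} (hz : ‖z‖ * S < 1) :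
    HasDerivAt (fun z => pev z F) (pev z (df F)) z := by
  obtain ⟨K, hK⟩ := h
  obtain ⟨r, hr1, hr2⟩ := exists_between ((lt_div_iff₀ hS).2 hz)
  have hr0 : 0 < r := lt_of_le_of_lt (norm_nonneg z) hr1
  have hrS : r * S < 1 := (lt_div_iff₀ hS).1 hr2
  have hu : Summable fun n : ℕ => (K / r) * ((n : ℝ) ^ 1 * (r * S) ^ n) := by
    have e1 := summable_pow_mul_geometric_of_norm_lt_one (R := ℝ) 1 (r := r * S) (by
      rw [Real.norm_of_nonneg (by positivity)]; exact hrS)
    exact e1.mul_left _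
  have hbd : ∀ (n : ℕ) (y : ℂ), ‖y‖ ≤ r →
      ‖coeff n F * ((n : ℂ) * y ^ (n - 1))‖ ≤ (K / r) * ((n : ℝ) ^ 1 * (r * S) ^ n) := by
    intro n y hy'
    rcases n with _ | n
    · simp
    · rw [norm_mul, norm_mul, norm_pow, Complex.norm_natCast, Nat.succ_sub_one, pow_one]
      have h1 : ‖y‖ ^ n ≤ r ^ n := pow_le_pow_left₀ (norm_nonneg _) hy' n
      have h2 := hK (n + 1)
      have hKn : 0 ≤ K * S ^ (n + 1) := (norm_nonneg _).trans h2
      calc ‖coeff (n + 1) F‖ * (((n + 1 : ℕ) : ℝ) * ‖y‖ ^ n)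
          ≤ (K * S ^ (n + 1)) * (((n + 1 : ℕ) : ℝ) * r ^ n) := by gcongr
        _ = K / r * (((n + 1 : ℕ) : ℝ) * (r * S) ^ (n + 1)) := by
          rw [mul_pow]
          field_simp
          ring
  have hder : ∀ (n : ℕ) (y : ℂ), y ∈ Metric.ball (0:ℂ) r →
      HasDerivAt (fun y => coeff n F * y ^ n) (coeff n F * ((n : ℂ) * y ^ (n - 1))) y :=
    fun n y _ => (hasDerivAt_pow n y).const_mul _
  have hmem : ∀ y : ℂ, y ∈ Metric.ball (0:ℂ) r → ‖y‖ ≤ r := by
    intro y hy
    rw [Metric.mem_ball, dist_zero_right] at hy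
    exact hy.le
  have hz0 : Summable fun n : ℕ => coeff n F * (0:ℂ) ^ n := by
    refine summable_of_ne_finset_zero (s := {0}) fun j hj => ?_
    have : j ≠ 0 := by simpa using hj
    rw [zero_pow this, mul_zero]
  have hzm : z ∈ Metric.ball (0:ℂ) r := by rw [Metric.mem_ball, dist_zero_right]; exact hr1
  have key : HasDerivAt (fun z => ∑' n, coeff n F * z ^ n)
      (∑' n : ℕ, coeff n F * ((n : ℂ) * z ^ (n - 1))) z :=
    hasDerivAt_tsum_of_isPreconnected hu Metric.isOpen_ball (convex_ball (0:ℂ) r).isPreconnected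
      hder (fun n y hy => hbd n y (hmem y hy)) (Metric.mem_ball_self hr0) hz0 hzm
  have hs : Summable fun n : ℕ => coeff n F * ((n : ℂ) * z ^ (n - 1)) :=
    Summable.of_norm_bounded hu fun n => hbd n z hr1.le
  have e : ∑' n : ℕ, coeff n F * ((n : ℂ) * z ^ (n - 1)) = pev z (df F) := by
    rw [hs.tsum_eq_zero_add]
    unfold pev df
    simp only [Nat.cast_zero, zero_mul, mul_zero, zero_add, Nat.add_sub_cancel]
    refine tsum_congr fun j => ?_
    rw [coeff_mk]
    push_cast
    ring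
  rw [e] at key
  exact key

theorem GB.df {S : ℝ} {F : PS} (h : GB S F) (hS : 0 < S) {ρ : ℝ} (hρ : 0 ≤ ρ) (h1 : ρ * S < 1) :
    AC ρ (df F) := by
  obtain ⟨K, hK⟩ := h
  have h2 : Summable fun j : ℕ => (K * S) * (((j : ℝ) + 1) * (ρ * S) ^ j) := by
    have e1 := summable_pow_mul_geometric_of_norm_lt_one (R := ℝ) 1 (r := ρ * S) (by
      rw [Real.norm_of_nonneg (by positivity)]; exact h1)
    have e2 := summable_geometric_of_lt_one (r := ρ * S) (by positivity) h1
    refine ((e1.add e2).mul_left (K * S)).congr fun j => ?_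
    ring
  refine Summable.of_nonneg_of_le (fun _ => by positivity) (fun j => ?_) h2
  rw [CG.df, coeff_mk, norm_mul]
  have e3 : ‖((j : ℂ) + 1)‖ = (j : ℝ) + 1 := by
    have : ((j : ℂ) + 1) = ((j + 1 : ℕ) : ℂ) := by push_cast; ring
    rw [this, Complex.norm_natCast]
    push_cast; ring
  rw [e3]
  have h3 := hK (j + 1)
  calc ((j : ℝ) + 1) * ‖coeff (j + 1) F‖ * ρ ^ j ≤ ((j : ℝ) + 1) * (K * S ^ (j + 1)) * ρ ^ j := by
        gcongr
    _ = _ := by rw [mul_pow, pow_succ]; ring

/-- exponential formula -/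
theorem pev_exp {S : ℝ} (hS : 0 < S) {L H : PS} (hL : GB S L) (hH : GB S H)
    (hH0 : constantCoeff H = 0) (he : df L = df H * L) {z : ℂ} (hz : ‖z‖ * S < 1) :
    pev z L = constantCoeff L * Complex.exp (pev z H) := by
  have hd : ∀ y : ℂ, ‖y‖ * S < 1 → HasDerivAt (fun y => pev y L * Complex.exp (-pev y H)) 0 y := by
    intro y hy
    have h1 := pev_deriv hL hS hy
    have h2 := pev_deriv hH hS hy
    have h3 := h1.mul (h2.neg.cexp)
    have hac : AC ‖y‖ L := hL.ac hS.le (norm_nonneg _) hy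
    have hac2 : AC ‖y‖ (df H) := hH.df hS (norm_nonneg _) hy
    have e : pev y (df L) = pev y (df H) * pev y L := by
      rw [he]
      exact pev_mul hac2 hac le_rfl
    rw [e] at h3
    refine h3.congr_deriv ?_
    ring
  have hb : ∀ y : ℂ, y ∈ Metric.ball (0:ℂ) (1 / S) → ‖y‖ * S < 1 := by
    intro y hy
    rw [Metric.mem_ball, dist_zero_right, lt_div_iff₀ hS] at hy
    exact hy
  have hconst := Metric.isOpen_ball.is_const_of_deriv_eq_zero (𝕜 := ℂ) (s := Metric.ball (0:ℂ) (1 / S))
    (f := fun y => pev y L * Complex.exp (-pev y H)) (convex_ball (0:ℂ) _).isPreconnected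
    (fun y hy => (hd y (hb y hy)).differentiableAt.differentiableWithinAt)
    (fun y hy => (hd y (hb y hy)).deriv)
    (x := z) (y := 0) (by rw [Metric.mem_ball, dist_zero_right, lt_div_iff₀ hS]; exact hz)
    (Metric.mem_ball_self (by positivity))
  have e0 : ∀ F : PS, pev 0 F = constantCoeff F := by
    intro F
    unfold pev
    rw [tsum_eq_single 0]
    · simp
    · intro j hj
      rw [zero_pow hj, mul_zero]
  simp only [e0, hH0, neg_zero, Complex.exp_zero, mul_one] at hconst
  rw [← hconst, mul_assoc, ← Complex.exp_add, neg_add_cancel, Complex.exp_zero, mul_one]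

/-- series with given logarithmic derivative -/
noncomputable def hs (L : PS) : PS := PowerSeries.mk fun j => coeff j (lg L) / j

theorem hs_df {L : PS} (h0 : constantCoeff L ≠ 0) : df L = df (hs L) * L := by
  have h1 : PowerSeries.X * df (hs L) = lg L := by
    rw [X_df]
    ext j
    rw [th_coeff, hs, coeff_mk]
    rcases Nat.eq_zero_or_pos j with rfl | hj
    · rw [coeff_zero_eq_constantCoeff_apply, lg_const]; simp
    · have : (j : ℂ) ≠ 0 := by exact_mod_cast hj.ne'
      field_simp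
  have h2 : PowerSeries.X * df L = PowerSeries.X * (df (hs L) * L) := by
    rw [← mul_assoc, h1, X_df, lg_spec h0]
  exact mul_left_cancel₀ PowerSeries.X_ne_zero h2

theorem geo_sum (K T : ℝ) (j : ℕ) :
    ∑ b ∈ range j, K * T ^ (j - b) * (T * (1 + K)) ^ b = (T * (1 + K)) ^ j - T ^ j := by
  induction j with
  | zero => simp
  | succ j ih =>
    rw [sum_range_succ]
    have e : ∑ b ∈ range j, K * T ^ (j + 1 - b) * (T * (1 + K)) ^ b =
        T * ∑ b ∈ range j, K * T ^ (j - b) * (T * (1 + K)) ^ b := by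
      rw [mul_sum]
      refine sum_congr rfl fun b hb => ?_
      have : j + 1 - b = (j - b) + 1 := by
        have := mem_range.1 hb
        omega
      rw [this, pow_succ]
      ring
    rw [e, ih, show j + 1 - j = 1 by omega, pow_one]
    ring

theorem gb_of_lg {L : PS} {K T : ℝ} (hK : 0 ≤ K) (hT : 0 ≤ T) (h0 : constantCoeff L ≠ 0)
    (h : ∀ j, ‖coeff j (lg L)‖ ≤ K * T ^ j) (j : ℕ) :
    ‖coeff j L‖ ≤ ‖constantCoeff L‖ * (T * (1 + K)) ^ j := by
  induction j using Nat.strong_induction_on with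
  | _ j ih =>
    rcases Nat.eq_zero_or_pos j with rfl | hj
    · simp
    · have h1 : (j : ℂ) * coeff j L = ∑ k ∈ range j, coeff k L * coeff (j - k) (lg L) := by
        rw [← th_coeff, ← lg_spec h0, mul_comm, coeff_mul,
          Finset.Nat.sum_antidiagonal_eq_sum_range_succ_mk, Finset.sum_range_succ]
        simp only [Nat.sub_self, coeff_zero_eq_constantCoeff_apply, lg_const, mul_zero, add_zero]
      have h2 : (j : ℝ) * ‖coeff j L‖ ≤ ‖constantCoeff L‖ * (T * (1 + K)) ^ j := by
        rw [← Complex.norm_natCast, ← norm_mul, h1]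
        refine (norm_sum_le _ _).trans ?_
        calc ∑ k ∈ range j, ‖coeff k L * coeff (j - k) (lg L)‖
            ≤ ∑ k ∈ range j, ‖constantCoeff L‖ * (K * T ^ (j - k) * (T * (1 + K)) ^ k) := by
              refine sum_le_sum fun k hk => ?_
              rw [norm_mul]
              have a1 := ih k (mem_range.1 hk)
              have a2 := h (j - k)
              calc ‖coeff k L‖ * ‖coeff (j - k) (lg L)‖
                  ≤ (‖constantCoeff L‖ * (T * (1 + K)) ^ k) * (K * T ^ (j - k)) := by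
                    gcongr
                _ = _ := by ring
          _ = ‖constantCoeff L‖ * ((T * (1 + K)) ^ j - T ^ j) := by
              rw [← mul_sum, geo_sum]
          _ ≤ _ := by
              have : 0 ≤ T ^ j := by positivity
              gcongr
              linarith
      have hj' : (1:ℝ) ≤ j := by exact_mod_cast hj
      refine le_trans ?_ h2
      nlinarith [norm_nonneg (coeff j L)]

end Pool.Agent.Zk36.CG
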