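import Pool.Agent.Zk36.CG.Lim2

/-!
# Rate of convergence of the coefficients
-/

set_option autoImplicit false

namespace Pool.Agent.Zk36.CG

open Finset H906K Filter Topology PowerSeries

/-- `F d = A + O(1/N)` coefficientwise -/
def Od (F : FD → PS) (A : PS) : Prop :=
  ∀ j, ∃ K : ℝ, 0 ≤ K ∧ ∀ d : FD, ‖coeff j (F d) - coeff j A‖ ≤ K / d.N

theorem Np (d : FD) : (0:ℝ) < d.N := by exact_mod_cast d.hN1

theorem Od.sub {F G : FD → PS} {A B : PS} (hF : Od F A) (hG : Od G B) :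
    Od (fun d => F d - G d) (A - B) := fun j => by
  obtain ⟨K, hK0, hK⟩ := hF j
  obtain ⟨L, hL0, hL⟩ := hG j
  refine ⟨K + L, by positivity, fun d => ?_⟩
  rw [map_sub, map_sub, add_div]
  calc ‖coeff j (F d) - coeff j (G d) - (coeff j A - coeff j B)‖
      = ‖(coeff j (F d) - coeff j A) - (coeff j (G d) - coeff j B)‖ := by congr 1; ring
    _ ≤ _ := (norm_sub_le _ _).trans (add_le_add (hK d) (hL d))

theorem Od.const (A : PS) : Od (fun _ => A) A := fun j => ⟨0, le_rfl, fun d => by simp⟩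

theorem Od.sht {F : FD → PS} {A : PS} (hF : Od F A) : Od (fun d => sh (F d)) (sh A) := fun j => by
  obtain ⟨K, hK0, hK⟩ := hF (j + 1)
  exact ⟨K, hK0, fun d => by rw [sh_coeff, sh_coeff]; exact hK d⟩

theorem Od.tht {F : FD → PS} {A : PS} (hF : Od F A) : Od (fun d => th (F d)) (th A) := fun j => by
  obtain ⟨K, hK0, hK⟩ := hF j
  refine ⟨j * K, by positivity, fun d => ?_⟩
  rw [th_coeff, th_coeff, ← mul_sub, norm_mul, Complex.norm_natCast, mul_div_assoc]
  exact mul_le_mul_of_nonneg_left (hK d) (Nat.cast_nonneg j)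

theorem Od.bd {F : FD → PS} {A : PS} (hF : Od F A) : UB (fun d _ => F d) := fun j => by
  obtain ⟨K, hK0, hK⟩ := hF j
  refine ⟨‖coeff j A‖ + K, fun d _ => ?_⟩
  have h1 : K / d.N ≤ K := div_le_self hK0 (by exact_mod_cast d.hN1)
  calc ‖coeff j (F d)‖ = ‖coeff j A + (coeff j (F d) - coeff j A)‖ := by congr 1; ring
    _ ≤ ‖coeff j A‖ + ‖coeff j (F d) - coeff j A‖ := norm_add_le _ _
    _ ≤ _ := by linarith [hK d]

theorem Od.mul {F G : FD → PS} {A B : PS} (hF : Od F A) (hG : Od G B) :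
    Od (fun d => F d * G d) (A * B) := fun j => by
  choose bG hbG using hG.bd
  choose K hK0 hK using hF
  choose L hL0 hL using hG
  refine ⟨∑ p ∈ antidiagonal j, (K p.1 * |bG p.2| + ‖coeff p.1 A‖ * L p.2),
    sum_nonneg fun p _ => add_nonneg (mul_nonneg (hK0 _) (abs_nonneg _))
      (mul_nonneg (norm_nonneg _) (hL0 _)), fun d => ?_⟩
  rw [coeff_mul, coeff_mul, ← sum_sub_distrib, sum_div]
  refine (norm_sum_le _ _).trans (sum_le_sum fun p _ => ?_)
  have e : coeff p.1 (F d) * coeff p.2 (G d) - coeff p.1 A * coeff p.2 B =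
      (coeff p.1 (F d) - coeff p.1 A) * coeff p.2 (G d) +
      coeff p.1 A * (coeff p.2 (G d) - coeff p.2 B) := by ring
  rw [e]
  refine (norm_add_le _ _).trans ?_
  rw [norm_mul, norm_mul, add_div]
  refine add_le_add ?_ ?_
  · rw [mul_div_right_comm]
    exact mul_le_mul (hK _ d) ((hbG _ d 0).trans (le_abs_self _)) (norm_nonneg _)
      (div_nonneg (hK0 _) (Np d).le)
  · rw [mul_div_assoc]
    exact mul_le_mul_of_nonneg_left (hL _ d) (norm_nonneg _)

theorem Od.inv {F : FD → PS} {A : PS} (hF : Od F A) {c : ℝ} (hc : 0 < c)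
    (h : ∀ d, c ≤ ‖constantCoeff (F d)‖) (hA : constantCoeff A ≠ 0) :
    Od (fun d => (F d)⁻¹) A⁻¹ := by
  have h1 : UB (fun d (_ : ℝ) => (F d)⁻¹) := UB.inv hF.bd hc (fun d _ => h d)
  have h2 : Od (fun d => F d - A) 0 := by
    have := hF.sub (Od.const A)
    rwa [sub_self] at this
  have e : ∀ d, (F d)⁻¹ = A⁻¹ - (F d)⁻¹ * ((F d - A) * A⁻¹) := by
    intro d
    have a1 : (F d)⁻¹ * F d = 1 := PowerSeries.inv_mul_cancel _ (ne_of_norm hc (h d))
    have a2 : A * A⁻¹ = 1 := PowerSeries.mul_inv_cancel _ hA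
    linear_combination A⁻¹ * a1 - (F d)⁻¹ * a2
  have h3 : Od (fun d => (F d - A) * A⁻¹) 0 := by
    have := h2.mul (Od.const A⁻¹)
    rwa [zero_mul] at this
  have h4 : Od (fun d => (F d)⁻¹ * ((F d - A) * A⁻¹)) 0 := by
    intro j
    choose b hb using h1
    choose K hK0 hK using h3
    refine ⟨∑ p ∈ antidiagonal j, |b p.1| * K p.2,
      sum_nonneg fun p _ => mul_nonneg (abs_nonneg _) (hK0 _), fun d => ?_⟩
    rw [coeff_mul, map_zero, sub_zero, sum_div]
    refine (norm_sum_le _ _).trans (sum_le_sum fun p _ => ?_)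
    rw [norm_mul, mul_div_assoc]
    have h5 := hK p.2 d
    rw [map_zero, sub_zero] at h5
    exact mul_le_mul ((hb _ d 0).trans (le_abs_self _)) h5 (norm_nonneg _) (abs_nonneg _)
  have h5 := (Od.const A⁻¹).sub h4
  rw [sub_zero] at h5
  intro j
  obtain ⟨K, hK0, hK⟩ := h5 j
  refine ⟨K, hK0, fun d => ?_⟩
  have h6 := hK d
  simp only at h6 ⊢
  rwa [← e d] at h6

theorem Od.lgt {F : FD → PS} {A : PS} (hF : Od F A) {c : ℝ} (hc : 0 < c)
    (h : ∀ d, c ≤ ‖constantCoeff (F d)‖) (hA : constantCoeff A ≠ 0) :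
    Od (fun d => lg (F d)) (lg A) := by
  unfold lg
  exact hF.tht.mul (hF.inv hc h hA)

theorem Od_lg : Od (fun d => lg (d.E 0)) 0 := by
  obtain ⟨K, hK, h⟩ := value_geo
  intro j
  refine ⟨K * 2000 ^ j, by positivity, fun d => ?_⟩
  rw [map_zero, sub_zero, le_div_iff₀ (Np d), mul_comm]
  exact h d j

theorem Od_E : Od (fun d => d.E 0) 1 := by
  intro j
  choose K hK0 hK using Od_lg
  choose b hb using un_E.bd
  rcases j with _ | j
  · refine ⟨0, le_rfl, fun d => ?_⟩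
    rw [coeff_zero_eq_constantCoeff_apply, coeff_zero_eq_constantCoeff_apply, d.E0, map_one]
    simp
  · refine ⟨∑ p ∈ (antidiagonal (j + 1)).filter (fun p => p.2 < j + 1), K p.1 * |b p.2|,
      sum_nonneg fun p _ => mul_nonneg (hK0 _) (abs_nonneg _), fun d => ?_⟩
    have h2 := lg_spec (f := d.E 0) (by rw [d.E0]; exact one_ne_zero)
    have h3 := congrArg (coeff (j + 1)) h2
    rw [coeff_mul_lt (lg_const _), th_coeff] at h3
    have h4 : ‖coeff (j + 1) (d.E 0)‖ ≤ ‖((j + 1 : ℕ) : ℂ) * coeff (j + 1) (d.E 0)‖ := by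
      rw [norm_mul, Complex.norm_natCast]
      have : (1:ℝ) ≤ ((j + 1 : ℕ) : ℝ) := by exact_mod_cast Nat.succ_pos j
      nlinarith [norm_nonneg (coeff (j + 1) (d.E 0))]
    rw [coeff_one, if_neg (by omega), sub_zero]
    refine h4.trans ?_
    rw [← h3, sum_div]
    refine (norm_sum_le _ _).trans (sum_le_sum fun p _ => ?_)
    have h5 := hK p.1 d
    rw [map_zero, sub_zero] at h5
    rw [norm_mul, mul_div_right_comm]
    exact mul_le_mul h5 ((hb _ d 0).trans (le_abs_self _)) (norm_nonneg _)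
      (div_nonneg (hK0 _) (Np d).le)

theorem Od_Hq : Od (fun d => Hq (d.E 0)) (Hq 1) := by
  have hc : ∀ (B : PS) (a : ℂ), constantCoeff (sh (B - expI a)) = coeff 1 B - a * Complex.I := by
    intro B a
    rw [← coeff_zero_eq_constantCoeff_apply, sh_coeff, map_sub, zero_add, FD.expI_coeff]
    simp
  have key : ∀ a : ℂ, a = 3 ∨ a = -3 → Od (fun d => lg (sh (d.E 0 - expI a)))
      (lg (sh (1 - expI a))) := by
    intro a ha
    refine Od.lgt (Od_E.sub (Od.const _)).sht (c := 3) (by norm_num) ?_ ?_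
    · intro d
      rw [hc, d.E1]
      have h1 := Complex.abs_im_le_norm (((d.X 0 : ℝ) : ℂ) - a * Complex.I)
      refine le_trans ?_ h1
      rcases ha with rfl | rfl <;> simp
    · rw [hc, coeff_one, if_neg (by norm_num)]
      rcases ha with rfl | rfl <;> simp
  exact (key (-3) (Or.inr rfl)).sub (key 3 (Or.inl rfl))

/-- the coefficients of the eigenvalue with rate -/
theorem value_rate {m : ℕ} (hm : 1 ≤ m) : ∃ K : ℝ, 0 ≤ K ∧ ∀ d : FD,
    ‖(d.N : ℂ) * coeff (m + 1) (lg (d.E 0)) - (if m = 1 then -(3 / Real.pi) else 0 : ℂ)‖ ≤ K / d.N := by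
  obtain ⟨K, hK⟩ := value_cmp hm
  obtain ⟨K2, hK20, hK2⟩ := Od_Hq m
  have e1 : (3 * Complex.I / (2 * Real.pi * m) *
      (2 * coeff m (C (-2 * Complex.I) * PowerSeries.X : PS) - 2 * coeff m (Hq 1))) =
      (if m = 1 then -(3 / Real.pi) else 0 : ℂ) := by
    rw [Hq_1, PowerSeries.coeff_C_mul, PowerSeries.coeff_C_mul, coeff_X]
    have hpi : (Real.pi : ℂ) ≠ 0 := by exact_mod_cast Real.pi_ne_zero
    have hI : Complex.I ^ 2 = -1 := Complex.I_sq
    split_ifs with h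
    · rw [h]
      push_cast
      field_simp
      linear_combination hI
    · simp
  refine ⟨|K| + ‖3 * Complex.I / (2 * Real.pi * m)‖ * (2 * K2), by positivity, fun d => ?_⟩
  rw [← e1]
  have h1 := hK d
  have h2 := hK2 d
  have e2 : (d.N : ℂ) * coeff (m + 1) (lg (d.E 0)) - 3 * Complex.I / (2 * Real.pi * m) *
      (2 * coeff m (C (-2 * Complex.I) * PowerSeries.X : PS) - 2 * coeff m (Hq 1)) =
      ((d.N : ℂ) * coeff (m + 1) (lg (d.E 0)) - 3 * Complex.I / (2 * Real.pi * m) *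
      (2 * coeff m (C (-2 * Complex.I) * PowerSeries.X : PS) - 2 * coeff m (Hq (d.E 0)))) -
      3 * Complex.I / (2 * Real.pi * m) * (2 * (coeff m (Hq (d.E 0)) - coeff m (Hq 1))) := by ring
  rw [e2]
  refine (norm_sub_le _ _).trans ?_
  rw [add_div]
  refine add_le_add ?_ ?_
  · refine h1.trans ?_
    exact div_le_div_of_nonneg_right (le_abs_self K) (Np d).le
  · have h3 : ‖3 * Complex.I / (2 * Real.pi * m) * (2 * (coeff m (Hq (d.E 0)) - coeff m (Hq 1)))‖ =
        ‖3 * Complex.I / (2 * Real.pi * m)‖ * (2 * ‖coeff m (Hq (d.E 0)) - coeff m (Hq 1)‖) := by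
      rw [norm_mul, norm_mul, Complex.norm_ofNat]
    rw [h3]
    calc ‖3 * Complex.I / (2 * Real.pi * m)‖ * (2 * ‖coeff m (Hq (d.E 0)) - coeff m (Hq 1)‖)
        ≤ ‖3 * Complex.I / (2 * Real.pi * m)‖ * (2 * (K2 / d.N)) := by
          have h4 : ‖coeff m (Hq (d.E 0)) - coeff m (Hq 1)‖ ≤ K2 / d.N := h2
          gcongr
      _ = _ := by ring

end Pool.Agent.Zk36.CG
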