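import Pool.Agent.Zk36.CG.LDP
import Pool.Agent.Zk36.CG.Rate

/-!
# Winding angle and height in units in which the circumference is `2π`
-/

set_option autoImplicit false

namespace Pool.Agent.Zk36.CG

open Finset H906K Pool.Agent.H974R3 Filter Topology
open scoped ContDiff

/-- winding angle of the interface (`2π` times the displacement divided by the circumference) -/
noncomputable def Wd (n M : ℕ) (c : Fin M → Fin (2 * n + 1) → Bool) : ℝ :=
  2 * Real.pi * (Xd n M c : ℝ) / (2 * n + 1)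

/-- height of the cylinder in the same units -/
noncomputable def ht (n M : ℕ) : ℝ := 2 * Real.pi * M / (2 * n + 1)

/-- logarithm of the exponential moment of the winding angle -/
noncomputable def lmg (n M : ℕ) (t : ℝ) : ℝ := Real.log (Ex n M fun c => Real.exp (t * Wd n M c))

theorem lmg_eq (n M : ℕ) (t : ℝ) : lmg n M t = Real.log (Mg n M (2 * Real.pi * t / (2 * n + 1))) := by
  unfold lmg Mg Wd
  congr 2
  funext c
  congr 1
  ring

theorem lmg_lim (n : ℕ) (t : ℝ) : Tendsto (fun M : ℕ => lmg n M t / ht n M) atTop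
    (𝓝 ((2 * n + 1) / (2 * Real.pi) * rate n (2 * Real.pi * t / (2 * n + 1)))) := by
  refine ((rate_lim n (2 * Real.pi * t / (2 * n + 1))).const_mul ((2 * n + 1) / (2 * Real.pi))).congr
    fun M => ?_
  rw [lmg_eq, ht]
  have := Real.pi_ne_zero
  rcases Nat.eq_zero_or_pos M with rfl | hM
  · simp
  · have hM' : (M : ℝ) ≠ 0 := by exact_mod_cast hM.ne'
    have hN : (2 * (n:ℝ) + 1) ≠ 0 := by positivity
    field_simp

theorem cumW (n M : ℕ) (j : ℕ) : iteratedDeriv j (lmg n M) 0 =
    (2 * Real.pi / (2 * n + 1)) ^ j * cum n M j := by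
  have e : lmg n M = fun t => (fun θ => Real.log (Mg n M θ)) (2 * Real.pi / (2 * n + 1) * t) := by
    funext t
    rw [lmg_eq]
    simp only
    congr 2
    ring
  have hl : ContDiff ℝ j (fun x => Real.log (Mg n M x)) :=
    ((Mg_smooth n M).log fun x => (Mg_pos n M x).ne').of_le (by exact_mod_cast le_top)
  rw [e, iteratedDeriv_comp_const_mul hl]
  simp only [mul_zero]
  rfl

theorem cumW_lim {n : ℕ} {L : PS} (h : FE n L) {j : ℕ} (hj : 1 ≤ j) :
    Tendsto (fun M : ℕ => iteratedDeriv j (lmg n M) 0 / ht n M) atTop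
      (𝓝 ((2 * Real.pi / (2 * n + 1)) ^ (j - 1) * (((j - 1).factorial : ℝ) * (cf L j).re))) := by
  refine ((h.cum_lim hj).const_mul ((2 * Real.pi / (2 * n + 1)) ^ (j - 1))).congr fun M => ?_
  rw [cumW, ht]
  have := Real.pi_ne_zero
  obtain ⟨i, rfl⟩ := Nat.exists_eq_succ_of_ne_zero (by omega : j ≠ 0)
  rw [Nat.succ_sub_one, Nat.succ_eq_add_one, pow_succ]
  rcases Nat.eq_zero_or_pos M with rfl | hM
  · simp
  · have hM' : (M : ℝ) ≠ 0 := by exact_mod_cast hM.ne'
    have hN : (2 * (n:ℝ) + 1) ≠ 0 := by positivity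
    field_simp

/-- all cumulants -/
theorem cumulants : ∃ κ : ℕ → ℕ → ℝ,
    (∀ n j, 1 ≤ j → Tendsto (fun M : ℕ => iteratedDeriv j (lmg n M) 0 / ht n M) atTop (𝓝 (κ n j))) ∧
    ∀ j, 1 ≤ j → ∃ K : ℝ, ∀ n : ℕ, |κ n j - if j = 2 then 6 else 0| ≤ K / (2 * n + 1) := by
  choose L hL using exists_FE
  refine ⟨fun n j => (2 * Real.pi / (2 * n + 1)) ^ (j - 1) *
    (((j - 1).factorial : ℝ) * (cf (L n) j).re), fun n j hj => cumW_lim (hL n) hj, fun j hj => ?_⟩
  have hπ := Real.pi_pos
  have hval : ∃ K : ℝ, 0 ≤ K ∧ ∀ d : FD, |(d.N : ℝ) * (sc d j).re - if j = 2 then 3 / Real.pi else 0|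
      ≤ K / d.N := by
    rcases Nat.lt_or_ge 1 j with hj1 | hj1
    · obtain ⟨m, rfl⟩ : ∃ m, j = m + 1 := ⟨j - 1, by omega⟩
      obtain ⟨K, hK0, hK⟩ := value_rate (show 1 ≤ m by omega)
      refine ⟨K, hK0, fun d => ?_⟩
      have h1 := hK d
      have h2 : (Complex.I⁻¹ ^ (m + 1) * ((d.N : ℂ) * PowerSeries.coeff (m + 1) (lg (d.E 0)) -
          (if m = 1 then -(3 / Real.pi) else 0 : ℂ))).re =
          (d.N : ℝ) * (sc d (m + 1)).re - if m + 1 = 2 then 3 / Real.pi else 0 := by
        rw [mul_sub, Complex.sub_re]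
        congr 1
        · rw [← Complex.re_ofReal_mul]
          congr 1
          unfold sc
          push_cast
          ring
        · by_cases h : m = 1
          · subst h
            simp only [if_true]
            have hI : Complex.I⁻¹ ^ (1 + 1) = -1 := by
              rw [inv_pow, show 1 + 1 = 2 from rfl, Complex.I_sq]
              norm_num
            rw [hI]
            have h4 : ((-1 : ℂ) * -(3 / Real.pi)) = ((3 / Real.pi : ℝ) : ℂ) := by push_cast; ring
            rw [h4, Complex.ofReal_re]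
          · rw [if_neg h, if_neg (by omega)]
            simp
      rw [← h2]
      refine (Complex.abs_re_le_norm _).trans ?_
      rw [norm_mul, norm_pow, norm_inv, Complex.norm_I, inv_one, one_pow, one_mul]
      exact h1
    · have hj' : j = 1 := by omega
      subst hj'
      refine ⟨0, le_rfl, fun d => ?_⟩
      rw [sc_one]
      simp
  obtain ⟨K, hK0, hK⟩ := hval
  set C1 : ℝ := (2 * Real.pi) ^ (j - 1) * ((j - 1).factorial : ℝ) * K with hC1
  set C0 : ℝ := |(2 * Real.pi / (2 * ((0:ℕ):ℝ) + 1)) ^ (j - 1) *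
    (((j - 1).factorial : ℝ) * (cf (L 0) j).re) - if j = 2 then 6 else 0| with hC0
  refine ⟨max C0 C1, fun n => ?_⟩
  rcases Nat.eq_zero_or_pos n with rfl | hn
  · have : (2 * ((0:ℕ):ℝ) + 1) = 1 := by simp
    simp only [this, div_one]
    refine le_trans (le_of_eq ?_) (le_max_left _ _)
    rw [hC0]
    simp only [this, div_one]
  · obtain ⟨d, hd, hs⟩ := (hL n).scale hn
    have hN : (0:ℝ) < 2 * n + 1 := by positivity
    have hNe : ((d.N : ℕ) : ℝ) = 2 * n + 1 := by rw [hd]; push_cast; ring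
    have h1 := hK d
    have e : (2 * Real.pi / (2 * n + 1)) ^ (j - 1) * (((j - 1).factorial : ℝ) * (cf (L n) j).re) -
        (if j = 2 then 6 else 0) = (2 * Real.pi) ^ (j - 1) * ((j - 1).factorial : ℝ) *
          ((d.N : ℝ) * (sc d j).re - if j = 2 then 3 / Real.pi else 0) := by
      rw [sc_cf hd hs, ← Complex.ofReal_pow, Complex.re_ofReal_mul, hNe, mul_sub]
      congr 1
      · obtain ⟨i, rfl⟩ := Nat.exists_eq_succ_of_ne_zero (by omega : j ≠ 0)
        rw [Nat.succ_sub_one, Nat.succ_eq_add_one, pow_succ, div_pow]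
        field_simp
      · by_cases h : j = 2
        · subst h
          rw [if_pos rfl, if_pos rfl]
          simp
          field_simp
          norm_num
        · rw [if_neg h, if_neg h, mul_zero]
    rw [e, abs_mul, abs_of_nonneg (by positivity)]
    calc (2 * Real.pi) ^ (j - 1) * ((j - 1).factorial : ℝ) *
          |(d.N : ℝ) * (sc d j).re - if j = 2 then 3 / Real.pi else 0|
        ≤ (2 * Real.pi) ^ (j - 1) * ((j - 1).factorial : ℝ) * (K / d.N) := by gcongr
      _ = C1 / (2 * n + 1) := by rw [hC1, hNe]; ring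
      _ ≤ _ := by gcongr; exact le_max_right _ _

/-- exponential moments -/
theorem moments : ∃ t0 : ℝ, 0 < t0 ∧ ∃ r : ℕ → ℝ → ℝ,
    (∀ n t, Tendsto (fun M : ℕ => lmg n M t / ht n M) atTop (𝓝 (r n t))) ∧
    ∀ t : ℝ, |t| < t0 → Tendsto (fun n => r n t) atTop (𝓝 (3 * t ^ 2)) := by
  obtain ⟨ρ, hρ, -, hlim⟩ := partB
  have hπ := Real.pi_pos
  refine ⟨ρ / (2 * Real.pi), by positivity, _, lmg_lim, fun t ht => ?_⟩
  rw [lt_div_iff₀ (by positivity)] at ht
  have h1 := (hlim (2 * Real.pi * t) (by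
    rw [abs_mul, abs_of_pos (by positivity : 0 < 2 * Real.pi), mul_comm]; exact ht)).const_mul
    (1 / (2 * Real.pi))
  refine (h1.congr fun n => ?_).trans (le_of_eq ?_)
  · ring
  · congr 1
    field_simp

/-- large deviations -/
theorem deviations : ∃ a0 : ℝ, 0 < a0 ∧ ∀ a : ℝ, 0 < a → a < a0 → ∀ ε : ℝ, 0 < ε →
    ∀ᶠ n : ℕ in atTop, ∀ᶠ M : ℕ in atTop,
      |Real.log (Ex n M fun c => if a * ht n M ≤ Wd n M c then 1 else 0) / ht n M + a ^ 2 / 12| < ε ∧
      |Real.log (Ex n M fun c => if Wd n M c ≤ -(a * ht n M) then 1 else 0) / ht n M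
        + a ^ 2 / 12| < ε := by
  obtain ⟨v0, hv0, h⟩ := partC
  have hπ := Real.pi_pos
  refine ⟨v0, hv0, fun a ha ha0 ε hε => ?_⟩
  filter_upwards [h 1 (by simp) a ha ha0 (2 * Real.pi * ε) (by positivity),
    h (-1) (by simp) a ha ha0 (2 * Real.pi * ε) (by positivity)] with n h1 h2
  filter_upwards [h1, h2, eventually_gt_atTop 0] with M k1 k2 hM
  have hM' : (0:ℝ) < M := by exact_mod_cast hM
  have hN : (0:ℝ) < 2 * n + 1 := by positivity
  have e1 : (Ex n M fun c => if a * ht n M ≤ Wd n M c then (1:ℝ) else 0) = PrX n M 1 a := by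
    unfold PrX Wd ht
    congr 1
    funext c
    congr 1
    rw [← mul_div_assoc, div_le_div_iff_of_pos_right hN, one_mul,
      show a * (2 * Real.pi * M) = 2 * Real.pi * (a * M) by ring,
      mul_le_mul_iff_right₀ (by positivity : 0 < 2 * Real.pi)]
  have e2 : (Ex n M fun c => if Wd n M c ≤ -(a * ht n M) then (1:ℝ) else 0) = PrX n M (-1) a := by
    unfold PrX Wd ht
    congr 1
    funext c
    congr 1
    rw [← mul_div_assoc, ← neg_div, div_le_div_iff_of_pos_right hN,
      show -(a * (2 * Real.pi * M)) = 2 * Real.pi * (-(a * M)) by ring,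
      mul_le_mul_iff_right₀ (by positivity : 0 < 2 * Real.pi)]
    simp only [neg_one_mul, eq_iff_iff]
    constructor <;> intro h <;> linarith
  have e3 : ∀ x : ℝ, x / ht n M + a ^ 2 / 12 =
      ((2 * n + 1 : ℝ) / M * x + Real.pi * a ^ 2 / 6) / (2 * Real.pi) := by
    intro x
    unfold ht
    field_simp
    ring
  rw [e1, e2, e3, e3, abs_div, abs_div, abs_of_pos (by positivity : 0 < 2 * Real.pi),
    div_lt_iff₀ (by positivity), div_lt_iff₀ (by positivity)]
  constructor <;> linarith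

end Pool.Agent.Zk36.CG
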