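import Pool.Agent.Zk36.CG.UB
import Pool.Agent.Zk36.CG.Comm

/-!
# The identity on a half line
-/

set_option autoImplicit false

namespace Pool.Agent.Zk36.CG

open Finset MeasureTheory H906K Filter Topology PowerSeries

/-- integrability of the coefficients of `dd F * G` -/
theorem dd_mul_int {F G : ℝ → PS} (hF : BNS F) (hG : BNS G) (j : ℕ) :
    Integrable (fun u => coeff j (dd F u * G u)) ∧ Continuous (fun u => coeff j (dd F u * G u)) := by
  simp only [coeff_mul, dd_coeff]
  constructor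
  · refine integrable_finsetSum _ fun p _ => ?_
    obtain ⟨L, hL⟩ := (hG p.2).bdd
    exact (hF p.1).int.mul_bdd (c := L) (hG p.2).continuous.aestronglyMeasurable (ae_of_all _ hL)
  · exact continuous_finsetSum _ fun p _ => (hF p.1).cont.mul (hG p.2).continuous

theorem th_X : th (PowerSeries.X : PS) = PowerSeries.X := by
  ext j
  rw [th_coeff, coeff_X]
  split_ifs with h
  · rw [h]; simp
  · simp

/-- `3N/2 / sinh (3u/2)` -/
noncomputable def Tp (N : ℕ) (u : ℝ) : ℝ := 3 / 2 * N / Real.sinh (3 * u / 2)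

namespace FD
variable (d : FD)

/-- `θ log (E² - c₂ E + 1)` -/
noncomputable def D (u : ℝ) : PS := C 2 + lg (d.q u)

/-- `∂ log (E² - c₂ E + 1)` -/
noncomputable def D' (u : ℝ) : PS := C ((deriv (G0 d.X) u : ℝ) : ℂ) + ld d.q u

/-- `∂ log (1 + Y)` -/
noncomputable def R' (u : ℝ) : PS := ld (fun u => 1 + d.Y u) u

theorem bD : BNS d.D := (BNS.const _).add d.blq

theorem G0_has (u : ℝ) : HasDerivAt (G0 d.X) (2 * d.X u * deriv d.X u / (9 + d.X u ^ 2)) u := by
  have e1 : HasDerivAt d.X (deriv d.X u) u := (d.sys.niceX.1 u).hasDerivAt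
  have e2 : HasDerivAt (fun u => 9 + d.X u ^ 2) (2 * d.X u * deriv d.X u) u := by
    have := (e1.fun_pow 2).const_add 9
    simpa using this
  exact e2.log (by positivity)

theorem bG0 : BN (fun u => (G0 d.X u : ℂ)) :=
  BN.ofReal (sys_nice d.hN1 d.sys).1 (K := 3) (fun u => by
    have h := (sys_bounds d.hN1 d.sys).2.2.2.2.2.2 u
    rw [abs_of_nonneg h.1]; exact h.2)

theorem be0_has (l : ℝ) : deriv (H906K.be0 d.X) l = ∫ u : ℝ, kk (l - u) * deriv (G0 d.X) u := by
  exact (kk_conv_nice (G0 d.X) 3 (sys_nice d.hN1 d.sys).1 (fun u => by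
    have h := (sys_bounds d.hN1 d.sys).2.2.2.2.2.2 u
    rw [abs_of_nonneg h.1]; exact h.2)).2 l

theorem A1_deriv {u : ℝ} (hu : u ≠ 0) : deriv (A1 d.N d.X) u =
    A1 d.N d.X u * (Tp d.N u + deriv (H906K.be0 d.X) u) := by
  rw [(a4_all d.hN1 d.sys).2.2.2.2.2.1 u]
  have hs : Real.sinh (3 * u / 4) ≠ 0 := by
    rw [Ne, Real.sinh_eq_zero]
    intro h
    apply hu
    linarith
  have hc : Real.cosh (3 * u / 4) ≠ 0 := (Real.cosh_pos _).ne'
  have h2 : Real.sinh (3 * u / 2) = 2 * Real.sinh (3 * u / 4) * Real.cosh (3 * u / 4) := by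
    rw [← Real.sinh_two_mul]; congr 1; ring
  unfold A1 Tp
  rw [h2, Real.tanh_eq_sinh_div_cosh]
  obtain ⟨k, hk⟩ : ∃ k, d.N = k + 1 := ⟨d.N - 1, by have := d.hN; omega⟩
  rw [hk, Nat.add_sub_cancel]
  push_cast
  generalize Real.sinh (3 * u / 4) = s at hs ⊢
  generalize Real.cosh (3 * u / 4) = c at hc ⊢
  rw [pow_succ (s / c) k]
  generalize (s / c) ^ k = w
  generalize deriv (H906K.be0 d.X) u = z
  generalize Real.exp (H906K.be0 d.X u) = y
  field_simp
  ring

theorem ld_cv : ∀ l, ld d.E l = cvS d.R' l := by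
  intro l
  apply th_inj
  · rw [← cross d.bE one_pos d.E0n l]
    have e1 : (fun u => lg (d.E u)) = cvS d.R := funext d.hP'
    rw [e1, dd_cvS d.bR, ← cvS_th]
    congr 1
    funext u
    exact cross d.b1Y one_pos d.Y0n u
  · rw [cvS_coeff]
    have h1 : ∀ u, coeff 0 (d.R' u) = 0 := by
      intro u
      unfold R' ld
      rw [coeff_zero_eq_constantCoeff_apply, map_mul, ← coeff_zero_eq_constantCoeff_apply,
        deriv_const_coeff (c := 1), zero_mul]
      intro v
      rw [coeff_zero_eq_constantCoeff_apply, map_add, d.Y0 v]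
      simp
    simp only [h1]
    rw [cv_const, zero_div]
    unfold ld
    rw [coeff_zero_eq_constantCoeff_apply, map_mul, ← coeff_zero_eq_constantCoeff_apply,
      deriv_const_coeff (c := 1), zero_mul]
    intro v
    rw [coeff_zero_eq_constantCoeff_apply, d.E0 v]

theorem ldb_cv : ∀ l, ld d.b l = cvS (ld d.q) l := by
  intro l
  apply th_inj
  · rw [← cross d.bb one_pos d.b0n l]
    have e1 : (fun u => lg (d.b u)) = cvS (fun u => lg (d.q u)) := funext d.hS
    rw [e1, dd_cvS d.blq, ← cvS_th]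
    congr 1
    funext u
    exact cross d.bq one_pos d.q0n u
  · rw [cvS_coeff]
    have h1 : ∀ u, coeff 0 (ld d.q u) = 0 := by
      intro u
      unfold ld
      rw [coeff_zero_eq_constantCoeff_apply, map_mul, ← coeff_zero_eq_constantCoeff_apply,
        deriv_const_coeff (c := 1), zero_mul]
      intro v
      rw [coeff_zero_eq_constantCoeff_apply, d.q0 v]
    simp only [h1]
    rw [cv_const, zero_div]
    unfold ld
    rw [coeff_zero_eq_constantCoeff_apply, map_mul, ← coeff_zero_eq_constantCoeff_apply,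
      deriv_const_coeff (c := 1), zero_mul]
    intro v
    rw [coeff_zero_eq_constantCoeff_apply, d.b0 v]

theorem cv_C (l : ℝ) (f : ℝ → ℝ) (j : ℕ) :
    cv (fun u => coeff j (C ((f u : ℝ) : ℂ) : PS)) l =
      coeff j (C ((∫ u, kk (l - u) * f u : ℝ) : ℂ) : PS) := by
  simp only [coeff_C]
  split_ifs with h
  · unfold cv
    rw [← integral_complex_ofReal]
    refine integral_congr_ae (ae_of_all _ fun u => ?_)
    simp only
    push_cast
    ring
  · rw [cv_const, zero_div]

theorem cv_D (l : ℝ) : 1 + lg (d.b l) = cvS d.D l := by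
  ext j
  rw [cvS_coeff, map_add, d.hS l, cvS_coeff]
  unfold D
  simp only [map_add]
  have i0 : ∀ {F : ℝ → PS}, BNS F → Integrable (fun u : ℝ => (kk (l - u) : ℂ) * coeff j (F u)) := by
    intro F hF
    obtain ⟨K, hK⟩ := (hF j).bdd
    exact cv_int_bdd (hF j).continuous hK l
  rw [cv_add l (i0 (BNS.const (C 2))) (i0 d.blq), cv_const]
  congr 1
  rw [coeff_C, coeff_one]
  split_ifs <;> norm_num

theorem intG0 : Integrable (deriv (G0 d.X)) := (sys_nice d.hN1 d.sys).1.2.2

theorem contG0 : Continuous (deriv (G0 d.X)) := (sys_nice d.hN1 d.sys).1.2.1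

theorem iC {f : ℝ → ℝ} (hf : Integrable f) (j : ℕ) :
    Integrable (fun u => coeff j (C ((f u : ℝ) : ℂ) : PS)) := by
  simp only [coeff_C]
  by_cases h : j = 0
  · simp only [h, if_true]; exact hf.ofReal
  · simp only [h, if_false]; exact integrable_zero _ _ _

theorem cC {f : ℝ → ℝ} (hf : Continuous f) (j : ℕ) :
    Continuous (fun u => coeff j (C ((f u : ℝ) : ℂ) : PS)) := by
  simp only [coeff_C]
  by_cases h : j = 0
  · simp only [h, if_true]; exact Complex.continuous_ofReal.comp hf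
  · simp only [h, if_false]; exact continuous_const

theorem ldq_ic (j : ℕ) : Integrable (fun u => coeff j (ld d.q u)) ∧
    Continuous (fun u => coeff j (ld d.q u)) :=
  dd_mul_int d.bq (d.bq.inv one_pos d.q0n) j

theorem D'_int (j : ℕ) : Integrable (fun u => coeff j (d.D' u)) := by
  unfold D'
  simp only [map_add]
  exact (iC d.intG0 j).add (d.ldq_ic j).1

theorem D'_cont (j : ℕ) : Continuous (fun u => coeff j (d.D' u)) := by
  unfold D'
  simp only [map_add]
  exact (cC d.contG0 j).add (d.ldq_ic j).2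

theorem R'_ic (j : ℕ) : Integrable (fun u => coeff j (d.R' u)) ∧
    Continuous (fun u => coeff j (d.R' u)) :=
  dd_mul_int d.b1Y (d.b1Y.inv one_pos d.Y0n) j

theorem cv_D' (l : ℝ) : C ((deriv (H906K.be0 d.X) l : ℝ) : ℂ) + ld d.b l = cvS d.D' l := by
  ext j
  rw [cvS_coeff, map_add, d.ldb_cv l, cvS_coeff]
  unfold D'
  simp only [map_add]
  rw [cv_add l (cv_int_int (iC d.intG0 j) l) (cv_int_int (d.ldq_ic j).1 l), cv_C, d.be0_has l]

/-- the pointwise identity -/
theorem point {u : ℝ} (hu : u ≠ 0) : C ((Tp d.N u : ℝ) : ℂ) * d.R u =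
    cvS d.D u * d.R' u - cvS d.D' u * d.R u := by
  rw [← d.cv_D u, ← d.cv_D' u]
  have hY : d.Y = fun u => (PowerSeries.X * C (A1 d.N d.X u : ℂ)) * d.b u := rfl
  have bA : BNS (fun u => PowerSeries.X * C (A1 d.N d.X u : ℂ)) :=
    (BNS.const PowerSeries.X).mul (BNS.cst d.bA1)
  have hb := lg_spec (f := d.b u) (by rw [d.b0 u]; exact one_ne_zero)
  have hb' : ld d.b u * d.b u = dd d.b u := by
    unfold ld
    rw [mul_assoc, PowerSeries.inv_mul_cancel _ (by rw [d.b0 u]; exact one_ne_zero), mul_one]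
  have h1 : th (d.Y u) = d.Y u * (1 + lg (d.b u)) := by
    rw [hY]
    simp only
    rw [th_mul, th_mul, th_C, th_X, mul_zero, add_zero, ← hb]
    ring
  have h2 : dd d.Y u = d.Y u * (C ((Tp d.N u : ℝ) : ℂ) + (C ((deriv (H906K.be0 d.X) u : ℝ) : ℂ)
      + ld d.b u)) := by
    rw [hY]
    rw [dd_mul bA d.bb, dd_mul (BNS.const PowerSeries.X) (BNS.cst d.bA1), dd_const, zero_mul,
      zero_add, dd_cst d.bA1, ← hb']
    have e1 : deriv (fun u => (A1 d.N d.X u : ℂ)) u = ((deriv (A1 d.N d.X) u : ℝ) : ℂ) :=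
      (((sys_nice d.hN1 d.sys).2.2.2.1.1 u).hasDerivAt.ofReal_comp).deriv
    rw [e1, d.A1_deriv hu]
    push_cast
    rw [map_mul, map_add]
    ring
  have h3 : dd (fun u => 1 + d.Y u) u = dd d.Y u := by
    rw [dd_add (BNS.const 1) d.bY, dd_const, zero_add]
  unfold R R' lg ld
  rw [h3, h2, th_add, th_one, zero_add, h1]
  unfold ld lg
  ring

/-- the second identity -/
theorem G0_g (u : ℝ) : deriv d.g u = d.g u * ((deriv (G0 d.X) u : ℝ) : ℂ) := by
  have e1 : HasDerivAt (fun u => 9 + d.X u ^ 2) (2 * d.X u * deriv d.X u) u := by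
    have := (((d.sys.niceX.1 u).hasDerivAt).fun_pow 2).const_add 9
    simpa using this
  have e2 : deriv d.g u = ((2 * d.X u * deriv d.X u : ℝ) : ℂ) := (e1.ofReal_comp).deriv
  rw [e2, (d.G0_has u).deriv]
  unfold g
  rw [← Complex.ofReal_mul]
  congr 1
  have : (9 + d.X u ^ 2) ≠ 0 := by positivity
  field_simp

/-- `(E - e^{iaα})/α` -/
noncomputable def Et (a : ℂ) (u : ℝ) : PS := sh (d.E u - expI a)

theorem bEt (a : ℂ) : BNS (d.Et a) := (d.bE.sub (BNS.const _)).sht

theorem Et_mul (a : ℂ) (u : ℝ) : PowerSeries.X * d.Et a u = d.E u - expI a := by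
  apply sh_mul
  rw [map_sub, d.E0, expI_zero_coeff, sub_self]

theorem Et_const (a : ℂ) (u : ℝ) : constantCoeff (d.Et a u) = d.X u - a * Complex.I := by
  unfold Et
  rw [← coeff_zero_eq_constantCoeff_apply, sh_coeff, map_sub, zero_add, d.E1, expI_coeff]
  simp

theorem Et0n {a : ℂ} (ha : a = 3 ∨ a = -3) (u : ℝ) : (3 : ℝ) ≤ ‖constantCoeff (d.Et a u)‖ := by
  rw [d.Et_const]
  refine le_trans ?_ (Complex.abs_im_le_norm _)
  rcases ha with rfl | rfl <;> simp

theorem dd_Et (a : ℂ) (u : ℝ) : PowerSeries.X * dd (d.Et a) u = dd d.E u := by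
  have e : dd (d.Et a) u = sh (dd d.E u) := by
    have h1 : d.Et a = fun u => sh ((fun u => d.E u - expI a) u) := rfl
    rw [h1, dd_sh, dd_sub d.bE (BNS.const _), dd_const, sub_zero]
  rw [e]
  apply sh_mul
  rw [← coeff_zero_eq_constantCoeff_apply]
  exact deriv_const_coeff (c := 1) (fun v => by
    rw [coeff_zero_eq_constantCoeff_apply, d.E0 v]) u

theorem th_c2 : th c2 = C (3 * Complex.I) * PowerSeries.X * (expI 3 - expI (-3)) := by
  unfold c2
  rw [th_add, th_expI, th_expI]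
  have : (C (-3 * Complex.I) : PS) = -C (3 * Complex.I) := by
    rw [← map_neg]; congr 1; ring
  rw [this]
  ring

theorem second (u : ℝ) : d.D u * ld d.E u - d.D' u * lg (d.E u) =
    C (3 * Complex.I) * PowerSeries.X * (ld (d.Et (-3)) u - ld (d.Et 3) u) := by
  set Q : ℝ → PS := fun u => d.E u ^ 2 - c2 * d.E u + 1 with hQ
  have hQ1 : ∀ u, Q u = PowerSeries.X ^ 2 * C (d.g u) * d.q u := fun u => d.hq u
  have hbE2 : BNS (fun u => d.E u * d.E u) := d.bE.mul d.bE
  have hX2 : th ((PowerSeries.X : PS) ^ 2) = 2 * PowerSeries.X ^ 2 := by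
    rw [pow_two, th_mul, th_X]; ring
  have hEi : d.E u * (d.E u)⁻¹ = 1 := PowerSeries.mul_inv_cancel _ (by rw [d.E0 u]; exact one_ne_zero)
  have hqi : (d.q u)⁻¹ * d.q u = 1 :=
    PowerSeries.inv_mul_cancel _ (by rw [d.q0 u]; exact one_ne_zero)
  -- th Q
  have a1 : th (Q u) = Q u * d.D u := by
    rw [hQ1]
    unfold D
    have hq := lg_spec (f := d.q u) (by rw [d.q0 u]; exact one_ne_zero)
    rw [th_mul, th_mul, th_C, mul_zero, add_zero, hX2, ← hq]
    have h2 : (C (2:ℂ) : PS) = 2 := map_ofNat C 2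
    rw [h2]
    ring
  have a2 : th (Q u) = (2 * d.E u - c2) * th (d.E u) - th c2 * d.E u := by
    rw [hQ]
    simp only
    rw [th_add, th_sub, th_one, pow_two, th_mul, th_mul]
    ring
  have b1 : dd Q u = Q u * d.D' u := by
    have e : Q = fun u => (PowerSeries.X ^ 2 * C (d.g u)) * d.q u := funext hQ1
    have bg : BNS (fun u => PowerSeries.X ^ 2 * C (d.g u)) :=
      (BNS.const (PowerSeries.X ^ 2)).mul (BNS.cst d.bg)
    rw [e, dd_mul bg d.bq, dd_mul (BNS.const (PowerSeries.X ^ 2)) (BNS.cst d.bg), dd_const,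
      zero_mul, zero_add, dd_cst d.bg, d.G0_g u, map_mul]
    simp only
    unfold D' ld
    linear_combination (-(PowerSeries.X ^ 2 * C (d.g u) * dd d.q u)) * hqi
  have b2 : dd Q u = (2 * d.E u - c2) * dd d.E u := by
    have e : Q = fun u => (d.E u * d.E u - c2 * d.E u) + 1 := by
      funext v
      rw [hQ]
      simp only
      ring
    rw [e, dd_add (hbE2.sub ((BNS.const c2).mul d.bE)) (BNS.const 1),
      dd_sub hbE2 ((BNS.const c2).mul d.bE), dd_mul d.bE d.bE, dd_mul (BNS.const c2) d.bE,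
      dd_const, dd_const]
    ring
  have hm := d.Et_mul (-3) u
  have hp := d.Et_mul 3 u
  have hm' := d.dd_Et (-3) u
  have hp' := d.dd_Et 3 u
  have hmi : d.Et (-3) u * (d.Et (-3) u)⁻¹ = 1 :=
    PowerSeries.mul_inv_cancel _ (ne_of_norm (by norm_num) (d.Et0n (Or.inr rfl) u))
  have hpi : d.Et 3 u * (d.Et 3 u)⁻¹ = 1 :=
    PowerSeries.mul_inv_cancel _ (ne_of_norm (by norm_num) (d.Et0n (Or.inl rfl) u))
  have hee : expI 3 * expI (-3) = 1 := by
    rw [expI_mul, add_neg_cancel, expI_zero]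
  have hfac : Q u = (PowerSeries.X * d.Et 3 u) * (PowerSeries.X * d.Et (-3) u) := by
    rw [hm, hp, hQ]
    simp only
    unfold c2
    linear_combination -hee
  -- left side
  have c1 : Q u * (d.D u * ld d.E u - d.D' u * lg (d.E u)) = -(th c2 * dd d.E u) := by
    have t1 : Q u * (d.D u * ld d.E u - d.D' u * lg (d.E u)) =
        th (Q u) * (dd d.E u * (d.E u)⁻¹) - dd Q u * (th (d.E u) * (d.E u)⁻¹) := by
      rw [a1, b1]
      unfold ld lg
      ring
    rw [t1, a2, b2]
    linear_combination (-(th c2 * dd d.E u)) * hEi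
  -- right side
  have c3 : Q u * (C (3 * Complex.I) * PowerSeries.X * (ld (d.Et (-3)) u - ld (d.Et 3) u)) =
      -(th c2 * dd d.E u) := by
    have t1 : Q u * (C (3 * Complex.I) * PowerSeries.X * (ld (d.Et (-3)) u - ld (d.Et 3) u)) =
        C (3 * Complex.I) * PowerSeries.X * ((PowerSeries.X * d.Et 3 u) *
          (PowerSeries.X * dd (d.Et (-3)) u) * (d.Et (-3) u * (d.Et (-3) u)⁻¹)
        - (PowerSeries.X * d.Et (-3) u) * (PowerSeries.X * dd (d.Et 3) u) *
          (d.Et 3 u * (d.Et 3 u)⁻¹)) := by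
      rw [hfac]
      unfold ld
      ring
    rw [t1, hmi, hpi, hm', hp', hm, hp, th_c2]
    ring
  have hne : Q u ≠ 0 := by
    rw [hQ1]
    refine mul_ne_zero (mul_ne_zero (pow_ne_zero 2 PowerSeries.X_ne_zero) ?_) ?_
    · intro h
      have := congrArg constantCoeff h
      rw [PowerSeries.constantCoeff_C, map_zero] at this
      exact d.g_ne u this
    · intro h
      have := congrArg constantCoeff h
      rw [d.q0, map_zero] at this
      exact one_ne_zero this
  exact mul_left_cancel₀ hne (c1.trans c3.symm)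

end FD

end Pool.Agent.Zk36.CG
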