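import Pool.Agent.Zk36.CG.Pr7

/-!
# Large deviations
-/

set_option autoImplicit false

namespace Pool.Agent.Zk36.CG

open Finset H906K Pool.Agent.H974R3 Filter Topology

/-- probability that `σ` times the displacement is at least `v M` -/
noncomputable def PrX (n M : ℕ) (σ v : ℝ) : ℝ :=
  Ex n M (fun c => if v * M ≤ σ * (Xd n M c : ℝ) then 1 else 0)

theorem Ex_mono {n M : ℕ} {f g : (Fin M → Fin (2 * n + 1) → Bool) → ℝ} (h : ∀ c, f c ≤ g c) :
    Ex n M f ≤ Ex n M g := by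
  unfold Ex
  exact div_le_div_of_nonneg_right (sum_le_sum fun c _ => h c) (by positivity)

theorem Ex_mul {n M : ℕ} (a : ℝ) (f : (Fin M → Fin (2 * n + 1) → Bool) → ℝ) :
    Ex n M (fun c => a * f c) = a * Ex n M f := by
  unfold Ex
  rw [← mul_sum, mul_div_assoc]

theorem Ex_sub {n M : ℕ} (f g : (Fin M → Fin (2 * n + 1) → Bool) → ℝ) :
    Ex n M (fun c => f c - g c) = Ex n M f - Ex n M g := by
  unfold Ex
  rw [sum_sub_distrib, sub_div]

theorem Mg_sg (n M : ℕ) (σ s : ℝ) :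
    Mg n M (σ * s) = Ex n M (fun c => Real.exp (s * (σ * (Xd n M c : ℝ)))) := by
  unfold Mg
  congr 1
  funext c
  congr 1
  ring

theorem PrX_le (n M : ℕ) (σ v : ℝ) {s : ℝ} (hs : 0 ≤ s) :
    PrX n M σ v ≤ Real.exp (-(s * (v * M))) * Mg n M (σ * s) := by
  rw [Mg_sg]
  unfold PrX
  rw [← Ex_mul]
  refine Ex_mono fun c => ?_
  rw [← Real.exp_add]
  split_ifs with h
  · refine Real.one_le_exp ?_
    nlinarith
  · exact (Real.exp_pos _).le

theorem PrX_ge (n M : ℕ) (σ v u : ℝ) {s t : ℝ} (hs : 0 ≤ s) (ht : 0 ≤ t) :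
    Real.exp (-(s * (u * M))) * (Mg n M (σ * s) - Real.exp (t * (v * M)) * Mg n M (σ * (s - t))
      - Real.exp (-(t * (u * M))) * Mg n M (σ * (s + t))) ≤ PrX n M σ v := by
  rw [Mg_sg, Mg_sg, Mg_sg]
  unfold PrX
  rw [← Ex_mul, ← Ex_mul, ← Ex_sub, ← Ex_sub, ← Ex_mul]
  refine Ex_mono fun c => ?_
  set X : ℝ := σ * (Xd n M c : ℝ) with hX
  have e1 : Real.exp (t * (v * M)) * Real.exp ((s - t) * X) =
      Real.exp (s * X) * Real.exp (t * (v * M - X)) := by
    rw [← Real.exp_add, ← Real.exp_add]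
    ring_nf
  have e2 : Real.exp (-(t * (u * M))) * Real.exp ((s + t) * X) =
      Real.exp (s * X) * Real.exp (t * (X - u * M)) := by
    rw [← Real.exp_add, ← Real.exp_add]
    ring_nf
  rw [e1, e2]
  have hp : 0 < Real.exp (-(s * (u * M))) := Real.exp_pos _
  have hq : 0 < Real.exp (s * X) := Real.exp_pos _
  have hr1 : 0 < Real.exp (t * (v * M - X)) := Real.exp_pos _
  have hr2 : 0 < Real.exp (t * (X - u * M)) := Real.exp_pos _
  split_ifs with h
  · rcases le_or_gt X (u * M) with hu | hu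
    · calc Real.exp (-(s * (u * M))) * (Real.exp (s * X) - Real.exp (s * X) * Real.exp (t * (v * M - X))
          - Real.exp (s * X) * Real.exp (t * (X - u * M)))
          ≤ Real.exp (-(s * (u * M))) * Real.exp (s * X) := by
            refine mul_le_mul_of_nonneg_left ?_ hp.le
            have := mul_pos hq hr1
            have := mul_pos hq hr2
            linarith
        _ = Real.exp (s * (X - u * M)) := by rw [← Real.exp_add]; ring_nf
        _ ≤ 1 := by
            rw [← Real.exp_zero]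
            refine Real.exp_le_exp.2 ?_
            nlinarith
    · have h2 : 1 ≤ Real.exp (t * (X - u * M)) := Real.one_le_exp (by nlinarith)
      have h3 : Real.exp (s * X) - Real.exp (s * X) * Real.exp (t * (v * M - X))
          - Real.exp (s * X) * Real.exp (t * (X - u * M)) ≤ 0 := by
        have := mul_pos hq hr1
        nlinarith
      have := mul_nonpos_of_nonneg_of_nonpos hp.le h3
      linarith
  · push Not at h
    have h2 : 1 ≤ Real.exp (t * (v * M - X)) := Real.one_le_exp (by nlinarith)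
    have h3 : Real.exp (s * X) - Real.exp (s * X) * Real.exp (t * (v * M - X))
        - Real.exp (s * X) * Real.exp (t * (X - u * M)) ≤ 0 := by
      have := mul_pos hq hr2
      nlinarith
    exact mul_nonpos_of_nonneg_of_nonpos hp.le h3

/-- `N/M log E e^{θ X/N}` -/
noncomputable def FF (n M : ℕ) (θ : ℝ) : ℝ :=
  (2 * n + 1 : ℝ) * (Real.log (Mg n M (θ / (2 * n + 1))) / M)

theorem Mg_FF {n M : ℕ} (hM : 0 < M) (θ : ℝ) :
    Mg n M (θ / (2 * n + 1)) = Real.exp (M / (2 * n + 1) * FF n M θ) := by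
  have hM' : (0:ℝ) < M := by exact_mod_cast hM
  have hN : (0:ℝ) < 2 * n + 1 := by positivity
  unfold FF
  rw [show (M:ℝ) / (2 * n + 1) * ((2 * n + 1 : ℝ) * (Real.log (Mg n M (θ / (2 * n + 1))) / M)) =
    Real.log (Mg n M (θ / (2 * n + 1))) by field_simp, Real.exp_log (Mg_pos _ _ _)]

/-- the two bounds for one pair `(n, M)` -/
theorem two_bounds {n M : ℕ} (hM : 0 < M) {σ v a η : ℝ} (hv : 0 < v) (ha : 0 < a)
    (_hη1 : 0 < 3 * a ^ 2 / (2 * Real.pi) - 4 * η)
    (h0 : |FF n M (σ * (Real.pi * v / 3)) - 3 * (Real.pi * v / 3) ^ 2 / (2 * Real.pi)| < 2 * η)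
    (h1 : |FF n M (σ * (Real.pi * v / 3 + a)) - 3 * (Real.pi * v / 3 + a) ^ 2 / (2 * Real.pi)| < 2 * η)
    (h2 : |FF n M (σ * (Real.pi * v / 3 + 2 * a)) - 3 * (Real.pi * v / 3 + 2 * a) ^ 2 / (2 * Real.pi)| < 2 * η)
    (h3 : Real.log 4 ≤ (3 * a ^ 2 / (2 * Real.pi) - 4 * η) * (M / (2 * n + 1)))
    (h4 : Real.log 2 ≤ η * (M / (2 * n + 1))) :
    (2 * n + 1 : ℝ) / M * Real.log (PrX n M σ v) ≤ -(Real.pi * v ^ 2 / 6) + 2 * η ∧
    -(Real.pi * v ^ 2 / 6) - (2 * a * v + 9 * a ^ 2 / (2 * Real.pi)) - 3 * η ≤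
      (2 * n + 1 : ℝ) / M * Real.log (PrX n M σ v) := by
  have hM' : (0:ℝ) < M := by exact_mod_cast hM
  have hN : (0:ℝ) < 2 * n + 1 := by positivity
  have hπ := Real.pi_pos
  set N : ℝ := 2 * n + 1 with hNdef
  set θ : ℝ := Real.pi * v / 3 with hθ
  have hθ0 : 0 < θ := by positivity
  set q : ℝ := M / N with hq
  have hq0 : 0 < q := div_pos hM' hN
  rw [abs_lt] at h0 h1 h2
  have hv' : v = 3 * θ / Real.pi := by rw [hθ]; field_simp
  have hMg0 := Mg_FF (n := n) hM (σ * θ)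
  have hMg1 := Mg_FF (n := n) hM (σ * (θ + a))
  have hMg2 := Mg_FF (n := n) hM (σ * (θ + 2 * a))
  rw [← hNdef] at hMg0 hMg1 hMg2
  rw [← hq] at hMg0 hMg1 hMg2
  -- lower bound for the probability
  have hge := PrX_ge n M σ v (v + 6 * a / Real.pi) (s := (θ + a) / N) (t := a / N)
    (by positivity) (by positivity)
  have es1 : (θ + a) / N - a / N = θ / N := by ring
  have es2 : (θ + a) / N + a / N = (θ + 2 * a) / N := by ring
  have em : ∀ x : ℝ, σ * (x / N) = σ * x / N := fun x => by ring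
  rw [es1, es2, em, em, em, hMg0, hMg1, hMg2, ← Real.exp_add, ← Real.exp_add] at hge
  have ex : ∀ x y : ℝ, x / N * (y * M) = q * (x * y) := by
    intro x y
    rw [hq]
    field_simp
  rw [ex, ex, ex] at hge
  have hcross1 : q * (a * v) + q * FF n M (σ * θ) ≤ q * FF n M (σ * (θ + a)) - Real.log 4 := by
    have : a * v + FF n M (σ * θ) ≤ FF n M (σ * (θ + a)) - (3 * a ^ 2 / (2 * Real.pi) - 4 * η) := by
      have e : a * v + 3 * θ ^ 2 / (2 * Real.pi) = 3 * (θ + a) ^ 2 / (2 * Real.pi) - 3 * a ^ 2 / (2 * Real.pi) := by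
        rw [hv']
        field_simp
        ring
      linarith [h0.2, h1.1]
    nlinarith [mul_le_mul_of_nonneg_left this hq0.le]
  have hcross2 : -(q * (a * (v + 6 * a / Real.pi))) + q * FF n M (σ * (θ + 2 * a)) ≤
      q * FF n M (σ * (θ + a)) - Real.log 4 := by
    have : -(a * (v + 6 * a / Real.pi)) + FF n M (σ * (θ + 2 * a)) ≤
        FF n M (σ * (θ + a)) - (3 * a ^ 2 / (2 * Real.pi) - 4 * η) := by
      have e : -(a * (v + 6 * a / Real.pi)) + 3 * (θ + 2 * a) ^ 2 / (2 * Real.pi) =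
          3 * (θ + a) ^ 2 / (2 * Real.pi) - 3 * a ^ 2 / (2 * Real.pi) := by
        rw [hv']
        field_simp
        ring
      linarith [h2.2, h1.1]
    nlinarith [mul_le_mul_of_nonneg_left this hq0.le]
  have hx1 := Real.exp_le_exp.2 hcross1
  have hx2 := Real.exp_le_exp.2 hcross2
  rw [Real.exp_sub, Real.exp_log (by norm_num)] at hx1 hx2
  have hP : Real.exp (-(q * ((θ + a) * (v + 6 * a / Real.pi))) + q * FF n M (σ * (θ + a)) - Real.log 2) ≤
      PrX n M σ v := by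
    refine le_trans ?_ hge
    rw [Real.exp_sub, Real.exp_log (by norm_num), Real.exp_add, mul_div_assoc]
    refine mul_le_mul_of_nonneg_left ?_ (Real.exp_pos _).le
    have := Real.exp_pos (q * FF n M (σ * (θ + a)))
    linarith
  have hPpos : 0 < PrX n M σ v := lt_of_lt_of_le (Real.exp_pos _) hP
  have hle := PrX_le n M σ v (s := θ / N) (by positivity)
  rw [em, hMg0, ex, ← Real.exp_add] at hle
  have hlogle : Real.log (PrX n M σ v) ≤ -(q * (θ * v)) + q * FF n M (σ * θ) := by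
    rw [← Real.log_exp (-(q * (θ * v)) + q * FF n M (σ * θ))]
    exact Real.log_le_log hPpos hle
  have hlogge : -(q * ((θ + a) * (v + 6 * a / Real.pi))) + q * FF n M (σ * (θ + a)) - Real.log 2 ≤
      Real.log (PrX n M σ v) := by
    rw [← Real.log_exp (-(q * ((θ + a) * (v + 6 * a / Real.pi))) + q * FF n M (σ * (θ + a)) - Real.log 2)]
    exact Real.log_le_log (Real.exp_pos _) hP
  have hqi : N / M = q⁻¹ := by rw [hq, inv_div]
  have hqq : q⁻¹ * q = 1 := inv_mul_cancel₀ hq0.ne'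
  rw [hqi]
  constructor
  · have h5 := mul_le_mul_of_nonneg_left hlogle (inv_pos.2 hq0).le
    have h6 : q⁻¹ * (-(q * (θ * v)) + q * FF n M (σ * θ)) = -(θ * v) + FF n M (σ * θ) := by
      field_simp
    rw [h6] at h5
    refine h5.trans ?_
    have e : -(θ * v) + 3 * θ ^ 2 / (2 * Real.pi) = -(Real.pi * v ^ 2 / 6) := by
      rw [hθ]
      field_simp
      ring
    linarith [h0.2]
  · have h5 := mul_le_mul_of_nonneg_left hlogge (inv_pos.2 hq0).le
    have h6 : q⁻¹ * (-(q * ((θ + a) * (v + 6 * a / Real.pi))) + q * FF n M (σ * (θ + a)) - Real.log 2) =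
        -((θ + a) * (v + 6 * a / Real.pi)) + FF n M (σ * (θ + a)) - q⁻¹ * Real.log 2 := by
      field_simp
    rw [h6] at h5
    refine le_trans ?_ h5
    have h7 : q⁻¹ * Real.log 2 ≤ η := by
      rw [inv_mul_le_iff₀ hq0, mul_comm]
      exact h4
    have e : -((θ + a) * (v + 6 * a / Real.pi)) + 3 * (θ + a) ^ 2 / (2 * Real.pi) =
        -(Real.pi * v ^ 2 / 6) - (2 * a * v + 9 * a ^ 2 / (2 * Real.pi)) := by
      rw [hθ]
      field_simp
      ring
    linarith [h1.1]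

theorem partC : ∃ v0 : ℝ, 0 < v0 ∧ ∀ σ : ℝ, |σ| = 1 → ∀ v : ℝ, 0 < v → v < v0 → ∀ ε : ℝ, 0 < ε →
    ∀ᶠ n : ℕ in atTop, ∀ᶠ M : ℕ in atTop,
      |(2 * n + 1 : ℝ) / M * Real.log (PrX n M σ v) + Real.pi * v ^ 2 / 6| < ε := by
  obtain ⟨ρ, hρ, hex, hlim⟩ := partB
  have hπ := Real.pi_pos
  refine ⟨3 * ρ / Real.pi, by positivity, fun σ hσ v hv hv0 ε hε => ?_⟩
  have hσ2 : σ ^ 2 = 1 := by rw [← sq_abs, hσ, one_pow]
  set θ : ℝ := Real.pi * v / 3 with hθ
  have hθ0 : 0 < θ := by positivity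
  have hθρ : θ < ρ := by
    rw [lt_div_iff₀ hπ] at hv0
    rw [hθ]
    linarith
  set a : ℝ := min (min ((ρ - θ) / 4) 1) (ε / (4 * (2 * v + 2))) with ha
  have ha0 : 0 < a := by
    rw [ha]
    refine lt_min (lt_min (by linarith) one_pos) (by positivity)
  have ha1 : a ≤ (ρ - θ) / 4 := (min_le_left _ _).trans (min_le_left _ _)
  have ha2 : a ≤ 1 := (min_le_left _ _).trans (min_le_right _ _)
  have ha3 : a * (2 * v + 2) ≤ ε / 4 := by
    have : a ≤ ε / (4 * (2 * v + 2)) := min_le_right _ _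
    rw [le_div_iff₀ (by positivity)] at this
    linarith
  have ha4 : 2 * a * v + 9 * a ^ 2 / (2 * Real.pi) ≤ ε / 4 := by
    have h9 : 9 * a ^ 2 / (2 * Real.pi) ≤ 2 * a := by
      rw [div_le_iff₀ (by positivity)]
      have := Real.pi_gt_three
      nlinarith
    linarith
  set η : ℝ := min (ε / 12) (3 * a ^ 2 / (16 * Real.pi)) with hη
  have hη0 : 0 < η := lt_min (by positivity) (by positivity)
  have hη1 : η ≤ ε / 12 := min_le_left _ _
  have hη2 : 0 < 3 * a ^ 2 / (2 * Real.pi) - 4 * η := by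
    have h1 : η ≤ 3 * a ^ 2 / (16 * Real.pi) := min_le_right _ _
    have h2 : 3 * a ^ 2 / (2 * Real.pi) = 8 * (3 * a ^ 2 / (16 * Real.pi)) := by
      field_simp; ring
    have h3 : 0 < 3 * a ^ 2 / (16 * Real.pi) := by positivity
    rw [h2]
    linarith
  have hl : ∀ x : ℝ, 0 < x → x < ρ → ∀ᶠ n : ℕ in atTop, ∀ᶠ M : ℕ in atTop,
      |FF n M (σ * x) - 3 * x ^ 2 / (2 * Real.pi)| < 2 * η := by
    intro x hx0 hx
    have h1 := hlim (σ * x) (by rwa [abs_mul, hσ, one_mul, abs_of_pos hx0])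
    rw [mul_pow, hσ2, one_mul] at h1
    have h2 := (Metric.tendsto_nhds.1 h1) η hη0
    filter_upwards [h2] with n hn
    rw [Real.dist_eq] at hn
    have h3 : Tendsto (fun M : ℕ => FF n M (σ * x)) atTop
        (𝓝 ((2 * n + 1 : ℝ) * rate n (σ * x / (2 * n + 1)))) :=
      (hex n (σ * x)).const_mul _
    have h4 := (Metric.tendsto_nhds.1 h3) η hη0
    filter_upwards [h4] with M hM
    rw [Real.dist_eq] at hM
    calc |FF n M (σ * x) - 3 * x ^ 2 / (2 * Real.pi)|
        ≤ |FF n M (σ * x) - (2 * n + 1 : ℝ) * rate n (σ * x / (2 * n + 1))| +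
          |(2 * n + 1 : ℝ) * rate n (σ * x / (2 * n + 1)) - 3 * x ^ 2 / (2 * Real.pi)| :=
            abs_sub_le _ _ _
      _ < 2 * η := by linarith
  filter_upwards [hl θ hθ0 hθρ, hl (θ + a) (by linarith) (by linarith),
    hl (θ + 2 * a) (by linarith) (by linarith)] with n h0 h1 h2
  have hN : (0:ℝ) < 2 * n + 1 := by positivity
  have htop : Tendsto (fun M : ℕ => (M : ℝ) / (2 * n + 1)) atTop atTop :=
    tendsto_natCast_atTop_atTop.atTop_div_const hN
  filter_upwards [h0, h1, h2, eventually_gt_atTop 0,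
    (htop.const_mul_atTop hη2).eventually_ge_atTop (Real.log 4),
    (htop.const_mul_atTop hη0).eventually_ge_atTop (Real.log 2)] with M k0 k1 k2 hM k3 k4
  obtain ⟨b1, b2⟩ := two_bounds hM hv ha0 hη2 k0 k1 k2 k3 k4
  rw [abs_lt]
  constructor <;> linarith

end Pool.Agent.Zk36.CG
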