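import Pool.Agent.Zk36.CG.Half
import Pool.Agent.H906R3.K6.A6
import Pool.Agent.H906R3.K6.E4

/-!
# Asymptotics of the value at the origin
-/

set_option autoImplicit false

namespace Pool.Agent.Zk36.CG

open Finset MeasureTheory H906K Filter Topology PowerSeries

/-! ## weights -/

/-- `|tanh|^N` -/
noncomputable def tw (d : FD) (u : ℝ) : ℝ := |Real.tanh (3 * u / 4)| ^ d.N

/-- bound for the derivative -/
noncomputable def ww (d : FD) (u : ℝ) : ℝ :=
  |Real.tanh (3 * u / 4)| ^ d.N + d.N * |Real.tanh (3 * u / 4)| ^ (d.N - 1) / Real.cosh (3 * u / 4) ^ 2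

theorem tw_nonneg (d : FD) (u : ℝ) : 0 ≤ tw d u := by unfold tw; positivity

theorem tw_le_one (d : FD) (u : ℝ) : tw d u ≤ 1 := pow_le_one₀ (abs_nonneg _) (a4_tanh_le _)

theorem tw_le_ww (d : FD) (u : ℝ) : tw d u ≤ ww d u := by
  unfold tw ww
  have : 0 ≤ d.N * |Real.tanh (3 * u / 4)| ^ (d.N - 1) / Real.cosh (3 * u / 4) ^ 2 := by positivity
  linarith

theorem ww_nonneg (d : FD) (u : ℝ) : 0 ≤ ww d u := (tw_nonneg d u).trans (tw_le_ww d u)

theorem ww_le (d : FD) (u : ℝ) : ww d u ≤ 1 + d.N := by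
  have h1 := tw_le_one d u
  unfold tw at h1
  unfold ww
  have h2 : |Real.tanh (3 * u / 4)| ^ (d.N - 1) ≤ 1 := pow_le_one₀ (abs_nonneg _) (a4_tanh_le _)
  have h3 : (1:ℝ) ≤ Real.cosh (3 * u / 4) ^ 2 := one_le_pow₀ (Real.one_le_cosh _)
  have h4 : d.N * |Real.tanh (3 * u / 4)| ^ (d.N - 1) / Real.cosh (3 * u / 4) ^ 2 ≤ d.N := by
    rw [div_le_iff₀ (by positivity)]
    have h5 : (0:ℝ) ≤ d.N := Nat.cast_nonneg _
    nlinarith [mul_le_mul_of_nonneg_left h2 h5, mul_le_mul_of_nonneg_left h3 h5]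
  linarith

theorem ew_eq : ew = fun l : ℝ => Real.exp (-(3 * |l| / 2)) := rfl

theorem tw_cont (d : FD) : Continuous (tw d) := a8_T_cont d.N

theorem exists_wt : ∃ K : ℝ, 0 < K ∧ ∀ d : FD,
    (Integrable (fun u => ew u * tw d u) ∧ ∫ u, ew u * tw d u ≤ K / d.N) ∧
    (Integrable (fun u => ew u * ww d u) ∧ ∫ u, ew u * ww d u ≤ K / d.N) ∧
    (∫ l in Set.Ioi (0 : ℝ), Real.tanh (3 * l / 4) ^ d.N * (3 / 2 * d.N / Real.sinh (3 * l / 2))
      * (1 - Real.tanh (3 * l / 2))) ≤ K / d.N := by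
  obtain ⟨K, hK, h⟩ := dec_int
  refine ⟨2 * K, by positivity, fun d => ?_⟩
  obtain ⟨h1, h2, h3⟩ := h d.N d.hN
  have hNpos : (0:ℝ) < d.N := by exact_mod_cast d.hN1
  have hle : K / d.N ≤ 2 * K / d.N := by
    gcongr
    linarith
  have e1 : (fun u => ew u * tw d u) = fun l : ℝ =>
      |Real.tanh (3 * l / 4)| ^ d.N * Real.exp (-(3 * |l| / 2)) := by
    funext u
    rw [ew_eq, mul_comm]
    rfl
  have e2 : (fun u => ew u * ww d u) = fun l : ℝ =>
      |Real.tanh (3 * l / 4)| ^ d.N * Real.exp (-(3 * |l| / 2)) +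
      d.N * |Real.tanh (3 * l / 4)| ^ (d.N - 1) / Real.cosh (3 * l / 4) ^ 2
      * Real.exp (-(3 * |l| / 2)) := by
    funext u
    rw [ew_eq]
    unfold ww
    ring
  rw [e1, e2]
  refine ⟨⟨a8_T_int d.N, h1.trans hle⟩, ⟨(a8_T_int d.N).add (a8_S_int d.N), ?_⟩, h3.trans hle⟩
  rw [integral_add (a8_T_int d.N) (a8_S_int d.N)]
  have : 2 * K / d.N = K / d.N + K / d.N := by ring
  linarith

/-- weighted bounds -/
def WB (w : FD → ℝ → ℝ) (F : FD → ℝ → PS) : Prop :=
  ∀ j, ∃ K : ℝ, 0 ≤ K ∧ ∀ d u, ‖coeff j (F d u)‖ ≤ K * w d u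

theorem WB.add {w : FD → ℝ → ℝ} {F G : FD → ℝ → PS} (hF : WB w F) (hG : WB w G) :
    WB w (fun d u => F d u + G d u) := fun j => by
  obtain ⟨K, hK0, hK⟩ := hF j
  obtain ⟨L, hL0, hL⟩ := hG j
  exact ⟨K + L, by positivity, fun d u => by
    rw [map_add]
    have h1 := (norm_add_le (coeff j (F d u)) (coeff j (G d u))).trans
      (add_le_add (hK d u) (hL d u))
    linarith⟩

theorem WB.mul {w : FD → ℝ → ℝ} (hw : ∀ d u, 0 ≤ w d u) {F G : FD → ℝ → PS} (hF : WB w F)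
    (hG : UB G) : WB w (fun d u => F d u * G d u) := fun j => by
  choose K hK0 hK using hF
  choose L hL using hG
  refine ⟨∑ p ∈ antidiagonal j, K p.1 * |L p.2|, sum_nonneg fun p _ =>
    mul_nonneg (hK0 _) (abs_nonneg _), fun d u => ?_⟩
  rw [coeff_mul, sum_mul]
  refine (norm_sum_le _ _).trans (sum_le_sum fun p _ => ?_)
  rw [norm_mul]
  calc ‖coeff p.1 (F d u)‖ * ‖coeff p.2 (G d u)‖ ≤ (K p.1 * w d u) * |L p.2| :=
        mul_le_mul (hK _ d u) ((hL _ d u).trans (le_abs_self _)) (norm_nonneg _)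
          (mul_nonneg (hK0 _) (hw d u))
    _ = _ := by ring

theorem WB.cst {w : FD → ℝ → ℝ} {f : FD → ℝ → ℂ} {K : ℝ} (hK0 : 0 ≤ K)
    (hw : ∀ d u, 0 ≤ w d u) (hK : ∀ d u, ‖f d u‖ ≤ K * w d u) : WB w (fun d u => C (f d u)) :=
  fun j => ⟨K, hK0, fun d u => by
    rw [coeff_C]
    split_ifs
    · exact hK d u
    · rw [norm_zero]; exact mul_nonneg hK0 (hw d u)⟩

theorem wb_R' : WB ww (fun d => d.R') := by
  obtain ⟨K, hK0, hK⟩ := sys_deriv
  have h1 : WB ww (fun d u => C ((deriv (A1 d.N d.X) u : ℝ) : ℂ)) :=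
    WB.cst hK0.le ww_nonneg (fun d u => by
      rw [Complex.norm_real]
      exact (hK d.N d.X d.Y2 d.B2 d.hN1 d.sys).2.2.1 u)
  have h2 : WB ww (fun d u => C (A1 d.N d.X u : ℂ)) :=
    WB.cst (K := 2 * Real.sqrt 3) (by positivity) ww_nonneg (fun d u => by
      rw [Complex.norm_real]
      refine (d.A1_le u).trans ?_
      exact mul_le_mul_of_nonneg_left (tw_le_ww d u) (by positivity))
  have h3 := ((h1.mul ww_nonneg ((UB.const PowerSeries.X).mul ub_b)).add
    (h2.mul ww_nonneg ((UB.const PowerSeries.X).mul un_b.dbd))).mul ww_nonneg ub_iY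
  refine (congrArg (WB ww) (funext fun d => funext fun u => ?_)).mp h3
  have bA : BNS (fun u => PowerSeries.X * C (A1 d.N d.X u : ℂ)) :=
    (BNS.const PowerSeries.X).mul (BNS.cst d.bA1)
  have hY : d.Y = fun u => (PowerSeries.X * C (A1 d.N d.X u : ℂ)) * d.b u := rfl
  have e2 : dd (fun u => 1 + d.Y u) u = dd d.Y u := by
    rw [dd_add (BNS.const 1) d.bY, dd_const, zero_add]
  have e1 : deriv (fun u => (A1 d.N d.X u : ℂ)) u = ((deriv (A1 d.N d.X) u : ℝ) : ℂ) :=
    (((sys_nice d.hN1 d.sys).2.2.2.1.1 u).hasDerivAt.ofReal_comp).deriv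
  unfold FD.R' ld
  rw [e2, hY, dd_mul bA d.bb, dd_mul (BNS.const PowerSeries.X) (BNS.cst d.bA1), dd_const, zero_mul,
    zero_add, dd_cst d.bA1, e1]
  ring

theorem ub_D : UB (fun d => d.D) := (UB.const (C 2)).add un_lq.bd

theorem ub_D' : UB (fun d => d.D') := by
  obtain ⟨K, hK0, hK⟩ := sys_deriv
  have h1 : UB (fun d u => C ((deriv (G0 d.X) u : ℝ) : ℂ)) :=
    UB.cst (K := K) (fun d u => by
      rw [Complex.norm_real]
      exact (hK d.N d.X d.Y2 d.B2 d.hN1 d.sys).1 u)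
  exact h1.add (un_q.dbd.mul (un_q.bd.inv one_pos (fun d u => d.q0n u)))

/-! ## geometric bound for `R` -/

theorem ev_th {J : ℕ} {a : PR} (ha : Nn a) {ρ : ℝ} (hρ : 0 ≤ ρ) :
    ev J (ρ / 2) (th a) ≤ ev J ρ a := by
  unfold ev
  refine sum_le_sum fun j _ => ?_
  rw [th_coeff, div_pow]
  have h1 : (j : ℝ) ≤ 2 ^ j := by exact_mod_cast (Nat.lt_two_pow_self (n := j)).le
  have h2 : (j : ℝ) * coeff j a * (ρ ^ j / 2 ^ j) = (coeff j a * ρ ^ j) * (j / 2 ^ j) := by ring
  rw [h2]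
  refine mul_le_of_le_one_right (mul_nonneg (ha j) (pow_nonneg hρ j)) ?_
  rw [div_le_one (by positivity)]
  exact h1

theorem ev_mono_rho {J : ℕ} {a : PR} (ha : Nn a) {ρ ρ' : ℝ} (hρ : 0 ≤ ρ) (h : ρ ≤ ρ') :
    ev J ρ a ≤ ev J ρ' a :=
  sum_le_sum fun j _ => mul_le_mul_of_nonneg_left (pow_le_pow_left₀ hρ h j) (ha j)

theorem R_geo (d : FD) (u : ℝ) (j : ℕ) : ‖coeff j (d.R u)‖ ≤ 2000 ^ j * tw d u := by
  have hY : d.Y = fun u => (PowerSeries.X * C (A1 d.N d.X u : ℂ)) * d.b u := rfl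
  have e1 : d.R u = C (A1 d.N d.X u : ℂ) *
      (PowerSeries.X * (d.b u + th (d.b u)) * (1 + d.Y u)⁻¹) := by
    unfold FD.R lg
    rw [th_add, th_one, zero_add, hY]
    simp only
    rw [th_mul, th_mul, th_C, th_X]
    ring
  have m1 : Mj (PowerSeries.X * (d.b u + th (d.b u)) * (1 + d.Y u)⁻¹)
      (PowerSeries.X * ((1 + d.bh) + th (1 + d.bh)) * (1 - d.yh)⁻¹) :=
    (Mj.var.mul ((d.b_mj' u).add (d.b_mj' u).tht)).mul (Mj.inv (by
      rw [add_sub_cancel_left]; exact d.Y_mj u) d.yh_0)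
  have n1 := d.one_bh_nn
  have n2 : Nn ((1 + d.bh) + th (1 + d.bh)) := n1.add n1.tht
  have n3 : Nn ((1 - d.yh)⁻¹) := d.yh_nn.inv d.yh_0
  have h1 : ev (j + 1) (1 / 2000) (PowerSeries.X * ((1 + d.bh) + th (1 + d.bh)) * (1 - d.yh)⁻¹)
      ≤ 0.01 := by
    obtain ⟨-, v2, -, v4, -⟩ := d.ev_all (j + 1)
    have hρ : (0:ℝ) ≤ 1 / 2000 := by norm_num
    have hle : (1 / 2000 : ℝ) ≤ 1 / 1000 := by norm_num
    have a1 : ev (j + 1) (1 / 2000) (1 + d.bh) ≤ 1.091 := (ev_mono_rho n1 hρ hle).trans v2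
    have a2 : ev (j + 1) (1 / 2000) (th (1 + d.bh)) ≤ 1.091 := by
      have := ev_th (J := j + 1) n1 (ρ := 1 / 1000) (by norm_num)
      norm_num at this v2 ⊢
      linarith
    have a3 : ev (j + 1) (1 / 2000) ((1 - d.yh)⁻¹) ≤ 1.01 := (ev_mono_rho n3 hρ hle).trans v4
    have a4 : ev (j + 1) (1 / 2000) ((1 + d.bh) + th (1 + d.bh)) ≤ 2.182 := by
      rw [ev_add]; linarith
    have a5 : ev (j + 1) (1 / 2000) (PowerSeries.X * ((1 + d.bh) + th (1 + d.bh))) ≤
        1 / 2000 * 2.182 := (ev_X hρ n2).trans (mul_le_mul_of_nonneg_left a4 hρ)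
    refine (ev_mul hρ (Nn.var.mul n2) n3).trans ?_
    calc _ ≤ (1 / 2000 * 2.182) * (1.01 : ℝ) :=
          mul_le_mul a5 a3 (ev_nonneg hρ n3) (by norm_num)
      _ ≤ 0.01 := by norm_num
  have h2 := ev_term (by norm_num : (0:ℝ) < 1 / 2000) ((Nn.var.mul n2).mul n3) h1
  rw [e1, PowerSeries.coeff_C_mul, norm_mul, Complex.norm_real]
  have h3 := (m1 j).trans h2
  have h4 : ((1 / 2000 : ℝ)⁻¹) ^ j = 2000 ^ j := by norm_num
  rw [h4] at h3
  have h5 : |A1 d.N d.X u| ≤ 4 * tw d u := by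
    refine (d.A1_le u).trans ?_
    have h6 : 2 * Real.sqrt 3 ≤ 4 := by have := sqrt3_lt; linarith
    exact mul_le_mul_of_nonneg_right h6 (tw_nonneg d u)
  calc _ ≤ (4 * tw d u) * (0.01 * 2000 ^ j) :=
        mul_le_mul h5 h3 (norm_nonneg _) (by have := tw_nonneg d u; positivity)
    _ = 0.04 * (2000 ^ j * tw d u) := by ring
    _ ≤ 2000 ^ j * tw d u := by
        have : (0:ℝ) ≤ 2000 ^ j * tw d u := mul_nonneg (by positivity) (tw_nonneg d u)
        linarith

theorem wb_R : WB tw (fun d => d.R) := fun j => ⟨2000 ^ j, by positivity, fun d u => R_geo d u j⟩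

/-! ## the half line -/

theorem wt_int {w : FD → ℝ → ℝ} {d : FD} {K c : ℝ} {g : ℝ → ℂ}
    (hi : Integrable (fun u => ew u * w d u)) (hle : ∫ u, ew u * w d u ≤ c)
    (hK : 0 ≤ K) (hg : Continuous g) (hgK : ∀ u, ‖g u‖ ≤ K * w d u) {B : ℝ} (hB : ∀ u, ‖g u‖ ≤ B) :
    ∫ u, ew u * ‖g u‖ ≤ K * c := by
  calc ∫ u, ew u * ‖g u‖ ≤ ∫ u, K * (ew u * w d u) := by
        refine integral_mono (ew_mul_int hg hB) (hi.const_mul K) fun u => ?_
        have := mul_le_mul_of_nonneg_left (hgK u) (ew_pos u).le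
        simp only
        linarith
    _ = K * ∫ u, ew u * w d u := integral_const_mul _ _
    _ ≤ K * c := mul_le_mul_of_nonneg_left hle hK

/-- commutation error of `D` and `R'` -/
theorem err1 (i k : ℕ) : ∃ K : ℝ, ∀ d : FD, ∀ S : Set ℝ, (S = Set.Ioi 0 ∨ S = Set.Iic 0) →
    IntegrableOn (fun u => cv (fun u => coeff i (d.D u)) u * coeff k (d.R' u)
      - coeff i (d.D u) * cv (fun u => coeff k (d.R' u)) u) S ∧
    ‖∫ u in S, (cv (fun u => coeff i (d.D u)) u * coeff k (d.R' u)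
      - coeff i (d.D u) * cv (fun u => coeff k (d.R' u)) u)‖ ≤ K / d.N := by
  obtain ⟨K0, hK0, hw⟩ := exists_wt
  obtain ⟨K1, hK1⟩ := ub_D i
  obtain ⟨K2, hK20, hK2⟩ := wb_R' k
  refine ⟨|K1| / Real.pi * (K2 * K0), fun d S hS => ?_⟩
  have hf : Continuous (fun u => coeff i (d.D u)) := (d.bD i).continuous
  have hg := (d.R'_ic k).2
  have hB : ∀ u, ‖coeff k (d.R' u)‖ ≤ K2 * (1 + d.N) := fun u =>
    (hK2 d u).trans (mul_le_mul_of_nonneg_left (ww_le d u) hK20)
  have hf1 : ∀ u, ‖coeff i (d.D u)‖ ≤ |K1| := fun u => (hK1 d u).trans (le_abs_self _)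
  have h := comm_le hf hg hf1 hB (Or.inr (d.R'_ic k).1)
  have hb := wt_int (w := ww) (hw d).2.1.1 (hw d).2.1.2 hK20 hg (hK2 d) hB
  have hfin : |K1| / Real.pi * ∫ u, ew u * ‖coeff k (d.R' u)‖ ≤
      |K1| / Real.pi * (K2 * K0) / d.N := by
    have : |K1| / Real.pi * (K2 * K0) / d.N = |K1| / Real.pi * (K2 * (K0 / d.N)) := by ring
    rw [this]
    exact mul_le_mul_of_nonneg_left hb (by have := Real.pi_pos; positivity)
  rcases hS with rfl | rfl
  · exact ⟨h.1.1, h.1.2.trans hfin⟩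
  · exact ⟨h.2.1, h.2.2.trans hfin⟩

/-- commutation error of `D'` and `R` -/
theorem err2 (i k : ℕ) : ∃ K : ℝ, ∀ d : FD, ∀ S : Set ℝ, (S = Set.Ioi 0 ∨ S = Set.Iic 0) →
    IntegrableOn (fun u => cv (fun u => coeff i (d.D' u)) u * coeff k (d.R u)
      - coeff i (d.D' u) * cv (fun u => coeff k (d.R u)) u) S ∧
    ‖∫ u in S, (cv (fun u => coeff i (d.D' u)) u * coeff k (d.R u)
      - coeff i (d.D' u) * cv (fun u => coeff k (d.R u)) u)‖ ≤ K / d.N := by
  obtain ⟨K0, hK0, hw⟩ := exists_wt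
  obtain ⟨K1, hK1⟩ := ub_D' i
  obtain ⟨K2, hK20, hK2⟩ := wb_R k
  refine ⟨|K1| / Real.pi * (K2 * K0), fun d S hS => ?_⟩
  have hf : Continuous (fun u => coeff i (d.D' u)) := d.D'_cont i
  have hg := (d.bR k).continuous
  have hB : ∀ u, ‖coeff k (d.R u)‖ ≤ K2 * 1 := fun u =>
    (hK2 d u).trans (mul_le_mul_of_nonneg_left (tw_le_one d u) hK20)
  have hf1 : ∀ u, ‖coeff i (d.D' u)‖ ≤ |K1| := fun u => (hK1 d u).trans (le_abs_self _)
  have h := comm_le hf hg hf1 hB (Or.inl (d.D'_int i))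
  have hb := wt_int (w := tw) (hw d).1.1 (hw d).1.2 hK20 hg (hK2 d) hB
  have hfin : |K1| / Real.pi * ∫ u, ew u * ‖coeff k (d.R u)‖ ≤
      |K1| / Real.pi * (K2 * K0) / d.N := by
    have : |K1| / Real.pi * (K2 * K0) / d.N = |K1| / Real.pi * (K2 * (K0 / d.N)) := by ring
    rw [this]
    exact mul_le_mul_of_nonneg_left hb (by have := Real.pi_pos; positivity)
  rcases hS with rfl | rfl
  · exact ⟨h.1.1, h.1.2.trans hfin⟩
  · exact ⟨h.2.1, h.2.2.trans hfin⟩

/-- the right-hand side of the identity -/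
noncomputable def FD.W (d : FD) (u : ℝ) : PS :=
  C (3 * Complex.I) * PowerSeries.X * (ld (d.Et (-3)) u - ld (d.Et 3) u)

theorem ldEt_int (d : FD) {a : ℂ} (ha : a = 3 ∨ a = -3) (j : ℕ) :
    Integrable (fun u => coeff j (ld (d.Et a) u)) :=
  (dd_mul_int (d.bEt a) ((d.bEt a).inv (by norm_num) (d.Et0n ha)) j).1

theorem W_coeff (d : FD) (u : ℝ) (m : ℕ) : coeff (m + 1) (d.W u) =
    3 * Complex.I * (coeff m (ld (d.Et (-3)) u) - coeff m (ld (d.Et 3) u)) := by
  unfold FD.W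
  rw [mul_assoc, PowerSeries.coeff_C_mul, PowerSeries.coeff_succ_X_mul, map_sub]

theorem W_int (d : FD) (m : ℕ) : Integrable (fun u => coeff (m + 1) (d.W u)) := by
  simp only [W_coeff]
  exact ((ldEt_int d (Or.inr rfl) m).sub (ldEt_int d (Or.inl rfl) m)).const_mul _

theorem half_main (m : ℕ) : ∃ K : ℝ, ∀ d : FD, ∀ S : Set ℝ, (S = Set.Ioi 0 ∨ S = Set.Iic 0) →
    IntegrableOn (fun u => (Tp d.N u : ℂ) * coeff (m + 1) (d.R u)) S ∧
    ‖(∫ u in S, (Tp d.N u : ℂ) * coeff (m + 1) (d.R u)) - ∫ u in S, coeff (m + 1) (d.W u)‖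
      ≤ K / d.N := by
  choose K1 hK1 using err1
  choose K2 hK2 using err2
  refine ⟨(∑ p ∈ antidiagonal (m + 1), K1 p.1 p.2) + ∑ p ∈ antidiagonal (m + 1), K2 p.1 p.2,
    fun d S hS => ?_⟩
  have hae : ∀ᵐ u ∂(volume.restrict S), (Tp d.N u : ℂ) * coeff (m + 1) (d.R u) =
      (∑ p ∈ antidiagonal (m + 1), (cv (fun u => coeff p.1 (d.D u)) u * coeff p.2 (d.R' u)
        - coeff p.1 (d.D u) * cv (fun u => coeff p.2 (d.R' u)) u))
      - (∑ p ∈ antidiagonal (m + 1), (cv (fun u => coeff p.1 (d.D' u)) u * coeff p.2 (d.R u)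
        - coeff p.1 (d.D' u) * cv (fun u => coeff p.2 (d.R u)) u))
      + coeff (m + 1) (d.W u) := by
    have h0 : ∀ᵐ u : ℝ ∂volume, u ≠ 0 := by
      have : ({0} : Set ℝ)ᶜ ∈ ae (volume : Measure ℝ) := by
        rw [mem_ae_iff, compl_compl]; simp
      exact this
    filter_upwards [ae_restrict_of_ae h0] with u hu
    have h1 := congrArg (coeff (m + 1)) (d.point hu)
    rw [PowerSeries.coeff_C_mul, map_sub, coeff_mul, coeff_mul] at h1
    have h2 := congrArg (coeff (m + 1)) (d.second u)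
    rw [d.ld_cv u, d.hP' u, map_sub, coeff_mul, coeff_mul] at h2
    have h3 : coeff (m + 1) (d.W u) = _ := h2.symm
    rw [h3, h1, sum_sub_distrib, sum_sub_distrib]
    simp only [cvS_coeff]
    ring
  have i1 := fun p : ℕ × ℕ => (hK1 p.1 p.2 d S hS).1
  have i2 := fun p : ℕ × ℕ => (hK2 p.1 p.2 d S hS).1
  have I1 : IntegrableOn (fun u => ∑ p ∈ antidiagonal (m + 1),
      (cv (fun u => coeff p.1 (d.D u)) u * coeff p.2 (d.R' u)
        - coeff p.1 (d.D u) * cv (fun u => coeff p.2 (d.R' u)) u)) S :=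
    integrable_finsetSum _ fun p _ => i1 p
  have I2 : IntegrableOn (fun u => ∑ p ∈ antidiagonal (m + 1),
      (cv (fun u => coeff p.1 (d.D' u)) u * coeff p.2 (d.R u)
        - coeff p.1 (d.D' u) * cv (fun u => coeff p.2 (d.R u)) u)) S :=
    integrable_finsetSum _ fun p _ => i2 p
  have I3 : IntegrableOn (fun u => coeff (m + 1) (d.W u)) S := (W_int d m).integrableOn
  have I4 : IntegrableOn (fun u => (Tp d.N u : ℂ) * coeff (m + 1) (d.R u)) S :=
    ((I1.sub I2).add I3).congr (hae.mono fun u hu => by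
      simp only [Pi.add_apply, Pi.sub_apply]
      exact hu.symm)
  refine ⟨I4, ?_⟩
  have hA := integral_add (I1.sub I2) I3
  simp only [Pi.sub_apply] at hA
  have hB := integral_sub I1 I2
  rw [integral_congr_ae hae, hA, hB,
    integral_finsetSum _ (fun p _ => i1 p), integral_finsetSum _ (fun p _ => i2 p),
    add_sub_cancel_right]
  refine (norm_sub_le _ _).trans ?_
  rw [add_div, sum_div, sum_div]
  exact add_le_add
    ((norm_sum_le _ _).trans (sum_le_sum fun p _ => (hK1 p.1 p.2 d S hS).2))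
    ((norm_sum_le _ _).trans (sum_le_sum fun p _ => (hK2 p.1 p.2 d S hS).2))

/-! ## the primitive -/

/-- `θ log` of the quotient -/
noncomputable def Hq (E : PS) : PS := lg (sh (E - expI (-3))) - lg (sh (E - expI 3))

theorem Hq_has (d : FD) (u : ℝ) (m : ℕ) : HasDerivAt (fun u => coeff m (Hq (d.E u)))
    ((m : ℂ) * (coeff m (ld (d.Et (-3)) u) - coeff m (ld (d.Et 3) u))) u := by
  have b1 : BNS (fun u => lg (d.Et (-3) u)) := (d.bEt (-3)).lgt (by norm_num) (d.Et0n (Or.inr rfl))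
  have b2 : BNS (fun u => lg (d.Et 3 u)) := (d.bEt 3).lgt (by norm_num) (d.Et0n (Or.inl rfl))
  have h1 := dd_has b1 u m
  have h2 := dd_has b2 u m
  rw [cross (d.bEt (-3)) (by norm_num) (d.Et0n (Or.inr rfl)) u, th_coeff] at h1
  rw [cross (d.bEt 3) (by norm_num) (d.Et0n (Or.inl rfl)) u, th_coeff] at h2
  have h3 := h1.sub h2
  rw [mul_sub]
  refine h3.congr_of_eventuallyEq (Eventually.of_forall fun v => ?_)
  show coeff m (Hq (d.E v)) = coeff m (lg (d.Et (-3) v)) - coeff m (lg (d.Et 3 v))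
  unfold Hq
  rw [map_sub]
  rfl

theorem Hq_cont (d : FD) (m : ℕ) : Continuous (fun u => coeff m (Hq (d.E u))) :=
  continuous_iff_continuousAt.2 fun u => (Hq_has d u m).continuousAt

theorem Td.hq {ι : Type*} {l : Filter ι} {F : ι → PS} {A : PS} (hF : Td F l A)
    (hA : ∀ a : ℂ, a = 3 ∨ a = -3 → coeff 1 A ≠ a * Complex.I)
    (h : ∀ u, ∀ a : ℂ, a = 3 ∨ a = -3 → coeff 1 (F u) ≠ a * Complex.I) :
    Td (fun u => Hq (F u)) l (Hq A) := by
  have hc : ∀ (B : PS) (a : ℂ), constantCoeff (sh (B - expI a)) = coeff 1 B - a * Complex.I := by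
    intro B a
    rw [← coeff_zero_eq_constantCoeff_apply, sh_coeff, map_sub, zero_add, FD.expI_coeff]
    simp
  have key : ∀ a : ℂ, a = 3 ∨ a = -3 → Td (fun u => lg (sh (F u - expI a))) l
      (lg (sh (A - expI a))) := by
    intro a ha
    refine Td.lgt (hF.sub (Td.const _)).sht ?_ ?_
    · rw [hc]; exact sub_ne_zero.2 (hA a ha)
    · intro u
      rw [hc]; exact sub_ne_zero.2 (h u a ha)
  exact (key (-3) (Or.inr rfl)).sub (key 3 (Or.inl rfl))

theorem real_ne {x : ℝ} {a : ℂ} (ha : a = 3 ∨ a = -3) : (x : ℂ) ≠ a * Complex.I := by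
  intro h
  have := congrArg Complex.im h
  rcases ha with rfl | rfl <;> simp at this

theorem lg_cexp (c a : ℂ) (hc : c ≠ 0) : lg (C c * expI a) = C (a * Complex.I) * PowerSeries.X := by
  have h0 : constantCoeff (C c * expI a) ≠ 0 := by
    rw [map_mul, PowerSeries.constantCoeff_C, expI_zero_coeff, mul_one]; exact hc
  have h1 := lg_spec h0
  have h2 : th (C c * expI a) = C (a * Complex.I) * PowerSeries.X * (C c * expI a) := by
    rw [th_mul, th_C, th_expI, zero_mul, zero_add]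
    ring
  rw [h2] at h1
  have hne : (C c * expI a) ≠ 0 := fun h => h0 (by rw [h, map_zero])
  exact mul_right_cancel₀ hne h1

theorem om_ne : om ≠ 0 := by
  intro h
  have := e4_om1
  rw [h] at this
  norm_num at this

/-- quotient of two proportional series -/
theorem Hq_of {A : PS} (h0 : constantCoeff A = 1) (h1 : ∀ a : ℂ, a = 3 ∨ a = -3 → coeff 1 A ≠ a * Complex.I)
    {c c' a a' : ℂ} (hc : c ≠ 0) (hc' : c' ≠ 0)
    (h : (A - expI (-3)) * (C c * expI a) = (A - expI 3) * (C c' * expI a')) :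
    Hq A = C ((a' - a) * Complex.I) * PowerSeries.X := by
  have hc0 : ∀ a : ℂ, constantCoeff (sh (A - expI a)) = coeff 1 A - a * Complex.I := by
    intro a
    rw [← coeff_zero_eq_constantCoeff_apply, sh_coeff, map_sub, zero_add, FD.expI_coeff]
    simp
  have hs : ∀ a : ℂ, PowerSeries.X * sh (A - expI a) = A - expI a := fun a => sh_mul (by
    rw [map_sub, h0, expI_zero_coeff, sub_self])
  have h2 : sh (A - expI (-3)) * (C c * expI a) = sh (A - expI 3) * (C c' * expI a') := by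
    apply mul_left_cancel₀ (PowerSeries.X_ne_zero (R := ℂ))
    linear_combination h + (C c * expI a) * hs (-3) - (C c' * expI a') * hs 3
  have n1 : constantCoeff (sh (A - expI (-3))) ≠ 0 := by
    rw [hc0]; exact sub_ne_zero.2 (h1 _ (Or.inr rfl))
  have n2 : constantCoeff (sh (A - expI 3)) ≠ 0 := by
    rw [hc0]; exact sub_ne_zero.2 (h1 _ (Or.inl rfl))
  have n3 : ∀ (c a : ℂ), c ≠ 0 → constantCoeff (C c * expI a) ≠ 0 := by
    intro c a hc
    rw [map_mul, PowerSeries.constantCoeff_C, expI_zero_coeff, mul_one]; exact hc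
  have h3 := congrArg lg h2
  rw [lg_mul n1 (n3 c a hc), lg_mul n2 (n3 c' a' hc'), lg_cexp c a hc, lg_cexp c' a' hc'] at h3
  unfold Hq
  have e : (C ((a' - a) * Complex.I) : PS) = C (a' * Complex.I) - C (a * Complex.I) := by
    rw [← map_sub]; congr 1; ring
  rw [e]
  linear_combination h3

theorem endT_0 : constantCoeff endT = 1 := by
  unfold endT
  rw [map_sub, map_neg, map_mul, map_mul, PowerSeries.constantCoeff_C, PowerSeries.constantCoeff_C,
    expI_zero_coeff, expI_zero_coeff]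
  linear_combination -e4_om1

theorem endB_0 : constantCoeff endB = 1 := by
  unfold endB
  rw [map_sub, map_neg, map_mul, map_mul, PowerSeries.constantCoeff_C, PowerSeries.constantCoeff_C,
    expI_zero_coeff, expI_zero_coeff]
  linear_combination -e4_om1

theorem endT_1 : coeff 1 endT = ((Real.sqrt 3 : ℝ) : ℂ) := by
  unfold endT
  rw [map_sub, map_neg, PowerSeries.coeff_C_mul, PowerSeries.coeff_C_mul, FD.expI_coeff,
    FD.expI_coeff]
  have h := e4_omI
  have hI : Complex.I * Complex.I = -1 := Complex.I_mul_I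
  simp only [pow_one, Nat.factorial_one, Nat.cast_one, div_one]
  linear_combination -Complex.I * h - (Real.sqrt 3 : ℂ) * hI

theorem endB_1 : coeff 1 endB = ((-Real.sqrt 3 : ℝ) : ℂ) := by
  unfold endB
  rw [map_sub, map_neg, PowerSeries.coeff_C_mul, PowerSeries.coeff_C_mul, FD.expI_coeff,
    FD.expI_coeff]
  have h := e4_omI
  have hI : Complex.I * Complex.I = -1 := Complex.I_mul_I
  simp only [pow_one, Nat.factorial_one, Nat.cast_one, div_one]
  push_cast
  linear_combination Complex.I * h + (Real.sqrt 3 : ℂ) * hI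

theorem Hq_T : Hq endT = C (-2 * Complex.I) * PowerSeries.X := by
  have h := Hq_of (A := endT) endT_0 (fun a ha => by rw [endT_1]; exact real_ne ha)
    (c := om) (a := 1) (c' := om ^ 2) (a' := -1) om_ne (pow_ne_zero 2 om_ne) ?_
  · rw [h]; congr 3; norm_num
  · have m1 : ∀ a b : ℂ, expI a * expI b = expI (a + b) := expI_mul
    have e3 : (C om : PS) ^ 3 = 1 := by rw [← map_pow, e4_om3, map_one]
    have s1 : expI 1 * expI 1 = expI 2 := by rw [m1]; norm_num
    have s2 : expI (-1) * expI 1 = 1 := by rw [m1]; norm_num; exact expI_zero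
    have s3 : expI (-3) * expI 1 = expI (-2) := by rw [m1]; norm_num
    have s4 : expI (-1) * expI (-1) = expI (-2) := by rw [m1]; norm_num
    have s5 : expI 3 * expI (-1) = expI 2 := by rw [m1]; norm_num
    unfold endT
    rw [map_pow]
    linear_combination (-(C om) ^ 2) * s1 - (C om) ^ 3 * s2 - C om * s3 +
      (C om) ^ 3 * s2 + (C om) ^ 4 * s4 + (C om) ^ 2 * s5 + (C om * expI (-2)) * e3

theorem Hq_B : Hq endB = C (-2 * Complex.I) * PowerSeries.X := by
  have h := Hq_of (A := endB) endB_0 (fun a ha => by rw [endB_1]; exact real_ne ha)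
    (c := om ^ 2) (a := 1) (c' := om) (a' := -1) (pow_ne_zero 2 om_ne) om_ne ?_
  · rw [h]; congr 3; norm_num
  · have m1 : ∀ a b : ℂ, expI a * expI b = expI (a + b) := expI_mul
    have e3 : (C om : PS) ^ 3 = 1 := by rw [← map_pow, e4_om3, map_one]
    have s1 : expI 1 * expI 1 = expI 2 := by rw [m1]; norm_num
    have s2 : expI (-1) * expI 1 = 1 := by rw [m1]; norm_num; exact expI_zero
    have s3 : expI (-3) * expI 1 = expI (-2) := by rw [m1]; norm_num
    have s4 : expI (-1) * expI (-1) = expI (-2) := by rw [m1]; norm_num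
    have s5 : expI 3 * expI (-1) = expI 2 := by rw [m1]; norm_num
    unfold endB
    rw [map_pow]
    linear_combination (-(C om) ^ 4) * s1 - (C om) ^ 3 * s2 - (C om) ^ 2 * s3 +
      (C om) ^ 3 * s2 + (C om) ^ 2 * s4 + (C om) * s5 - (C om * expI 2) * e3

theorem Hq_1 : Hq 1 = C (-3 * Complex.I) * PowerSeries.X := by
  have h := Hq_of (A := 1) (map_one _) (fun a ha => by
      have := real_ne (x := 0) ha
      rw [coeff_one, if_neg (by norm_num)]
      simpa using this)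
    (c := 1) (a := 0) (c' := -1) (a' := -3) one_ne_zero (neg_ne_zero.2 one_ne_zero) ?_
  · rw [h]; congr 3; norm_num
  · have m1 : ∀ a b : ℂ, expI a * expI b = expI (a + b) := expI_mul
    have s1 : expI 3 * expI (-3) = 1 := by rw [m1, add_neg_cancel, expI_zero]
    rw [expI_zero, map_one, map_neg, map_one]
    linear_combination -s1

theorem int_top (d : FD) {m : ℕ} (hm : 1 ≤ m) : ∫ u in Set.Ioi (0:ℝ), coeff (m + 1) (d.W u) =
    3 * Complex.I / m * (coeff m (Hq endT) - coeff m (Hq (d.E 0))) := by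
  have hlim : Tendsto (fun u => coeff m (Hq (d.E u))) atTop (𝓝 (coeff m (Hq endT))) :=
    (Td.hq d.top (fun a ha => by rw [endT_1]; exact real_ne ha) (fun u a ha => by
      rw [d.E1 u]; exact real_ne ha)) m
  have hint : Integrable (fun u => (m : ℂ) * (coeff m (ld (d.Et (-3)) u) - coeff m (ld (d.Et 3) u))) :=
    ((ldEt_int d (Or.inr rfl) m).sub (ldEt_int d (Or.inl rfl) m)).const_mul _
  have h := integral_Ioi_of_hasDerivAt_of_tendsto (a := 0) (m := coeff m (Hq endT))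
    (f := fun u => coeff m (Hq (d.E u)))
    (Hq_cont d m).continuousWithinAt (fun u _ => Hq_has d u m) hint.integrableOn hlim
  rw [integral_const_mul] at h
  simp only [W_coeff]
  rw [integral_const_mul, ← h]
  have hm0 : (m : ℂ) ≠ 0 := by exact_mod_cast (by omega : m ≠ 0)
  field_simp

theorem int_bot (d : FD) {m : ℕ} (hm : 1 ≤ m) : ∫ u in Set.Iic (0:ℝ), coeff (m + 1) (d.W u) =
    3 * Complex.I / m * (coeff m (Hq (d.E 0)) - coeff m (Hq endB)) := by
  have hlim : Tendsto (fun u => coeff m (Hq (d.E u))) atBot (𝓝 (coeff m (Hq endB))) :=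
    (Td.hq d.bot (fun a ha => by rw [endB_1]; exact real_ne ha) (fun u a ha => by
      rw [d.E1 u]; exact real_ne ha)) m
  have hint : Integrable (fun u => (m : ℂ) * (coeff m (ld (d.Et (-3)) u) - coeff m (ld (d.Et 3) u))) :=
    ((ldEt_int d (Or.inr rfl) m).sub (ldEt_int d (Or.inl rfl) m)).const_mul _
  have h := integral_Iic_of_hasDerivAt_of_tendsto (a := 0) (m := coeff m (Hq endB))
    (f := fun u => coeff m (Hq (d.E u)))
    (Hq_cont d m).continuousWithinAt (fun u _ => Hq_has d u m) hint.integrableOn hlim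
  rw [integral_const_mul] at h
  simp only [W_coeff]
  rw [integral_const_mul, ← h]
  have hm0 : (m : ℂ) ≠ 0 := by exact_mod_cast (by omega : m ≠ 0)
  field_simp

end Pool.Agent.Zk36.CG
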