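import Pool.Agent.Zk36.CG.Lim

/-!
# Asymptotics of the value at the origin: conclusion
-/

set_option autoImplicit false

namespace Pool.Agent.Zk36.CG

open Finset MeasureTheory H906K Filter Topology PowerSeries

/-- comparison of the kernel with `1/sinh` -/
theorem kk_cmp {N : ℕ} {u : ℝ} (hu : 0 < u) : (N : ℝ) * kk u - 1 / (2 * Real.pi) * Tp N u =
    -(1 / (2 * Real.pi)) * ((3 / 2 * N / Real.sinh (3 * u / 2)) * (1 - Real.tanh (3 * u / 2))) := by
  have hs : Real.sinh (3 * u / 2) ≠ 0 := by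
    rw [Ne, Real.sinh_eq_zero]
    intro h
    linarith
  have hc : Real.cosh (3 * u / 2) ≠ 0 := (Real.cosh_pos _).ne'
  have hpi := Real.pi_ne_zero
  unfold kk Tp
  rw [Real.tanh_eq_sinh_div_cosh]
  field_simp
  ring

theorem cmp_half {N : ℕ} (hN : 1 ≤ N) {f : ℝ → ℂ} {K c : ℝ} (hK : 0 ≤ K) (hf : Continuous f)
    (hfK : ∀ u, ‖f u‖ ≤ K * |Real.tanh (3 * u / 4)| ^ N)
    (hi : IntegrableOn (fun u => (Tp N u : ℂ) * f u) (Set.Ioi 0))
    (hc : (∫ l in Set.Ioi (0 : ℝ), Real.tanh (3 * l / 4) ^ N * (3 / 2 * N / Real.sinh (3 * l / 2))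
      * (1 - Real.tanh (3 * l / 2))) ≤ c) :
    ‖(N : ℂ) * (∫ u in Set.Ioi (0:ℝ), (kk u : ℂ) * f u)
      - 1 / (2 * Real.pi) * ∫ u in Set.Ioi (0:ℝ), (Tp N u : ℂ) * f u‖ ≤ K * c := by
  have hpi := Real.pi_pos
  have hfb : ∀ u, ‖f u‖ ≤ K := fun u => (hfK u).trans (by
    have h1 : |Real.tanh (3 * u / 4)| ^ N ≤ 1 := pow_le_one₀ (abs_nonneg _) (a4_tanh_le _)
    nlinarith)
  have hk : Integrable (fun u => (kk u : ℂ) * f u) :=
    kk_integrable.ofReal.mul_bdd (c := K) hf.aestronglyMeasurable (ae_of_all _ hfb)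
  have e1 : (N : ℂ) * (∫ u in Set.Ioi (0:ℝ), (kk u : ℂ) * f u)
      - 1 / (2 * Real.pi) * ∫ u in Set.Ioi (0:ℝ), (Tp N u : ℂ) * f u =
      ∫ u in Set.Ioi (0:ℝ), ((N : ℂ) * ((kk u : ℂ) * f u)
        - 1 / (2 * Real.pi) * ((Tp N u : ℂ) * f u)) := by
    rw [integral_sub (hk.integrableOn.const_mul _) (hi.const_mul _), integral_const_mul,
      integral_const_mul]
  rw [e1]
  have hWi := a8_W_int (N := N) hN
  refine (norm_integral_le_of_norm_le (g := fun l => K * (Real.tanh (3 * l / 4) ^ N *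
    (3 / 2 * N / Real.sinh (3 * l / 2)) * (1 - Real.tanh (3 * l / 2)))) (hWi.const_mul K) ?_).trans ?_
  · refine (ae_restrict_iff' measurableSet_Ioi).2 (ae_of_all _ fun u hu => ?_)
    have hu' : 0 < u := hu
    have e2 : (N : ℂ) * ((kk u : ℂ) * f u) - 1 / (2 * Real.pi) * ((Tp N u : ℂ) * f u) =
        (((N : ℝ) * kk u - 1 / (2 * Real.pi) * Tp N u : ℝ) : ℂ) * f u := by
      push_cast; ring
    rw [e2, kk_cmp hu', norm_mul, Complex.norm_real, Real.norm_eq_abs, abs_mul, abs_neg,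
      abs_of_pos (by positivity : 0 < 1 / (2 * Real.pi))]
    have hs : 0 < Real.sinh (3 * u / 2) := Real.sinh_pos_iff.2 (by linarith)
    have ht1 : 0 ≤ 1 - Real.tanh (3 * u / 2) := by
      have := (abs_lt.1 (Real.abs_tanh_lt_one (3 * u / 2))).2
      linarith
    have h0 : 0 ≤ (3 / 2 * N / Real.sinh (3 * u / 2)) * (1 - Real.tanh (3 * u / 2)) := by
      positivity
    rw [abs_of_nonneg h0]
    have ht : |Real.tanh (3 * u / 4)| = Real.tanh (3 * u / 4) :=
      abs_of_nonneg (a7_tanh_nonneg u hu')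
    have h2 := hfK u
    rw [ht] at h2
    have h3 : 1 / (2 * Real.pi) ≤ 1 := by
      rw [div_le_one (by positivity)]
      linarith [Real.pi_gt_three]
    calc 1 / (2 * Real.pi) * ((3 / 2 * N / Real.sinh (3 * u / 2)) * (1 - Real.tanh (3 * u / 2))) * ‖f u‖
        ≤ 1 * ((3 / 2 * N / Real.sinh (3 * u / 2)) * (1 - Real.tanh (3 * u / 2))) *
          (K * Real.tanh (3 * u / 4) ^ N) := by
          refine mul_le_mul ?_ h2 (norm_nonneg _) (by positivity)
          exact mul_le_mul_of_nonneg_right h3 h0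
      _ = _ := by ring
  · rw [integral_const_mul]
    exact mul_le_mul_of_nonneg_left hc hK

theorem Tp_neg (N : ℕ) (u : ℝ) : Tp N (-u) = -Tp N u := by
  unfold Tp
  rw [show 3 * (-u) / 2 = -(3 * u / 2) by ring, Real.sinh_neg, div_neg]

theorem cv_zero_cmp (m : ℕ) : ∃ K : ℝ, ∀ d : FD,
    ‖(d.N : ℂ) * coeff (m + 1) (lg (d.E 0))
      - 1 / (2 * Real.pi) * ((∫ u in Set.Ioi (0:ℝ), (Tp d.N u : ℂ) * coeff (m + 1) (d.R u))
        - ∫ u in Set.Iic (0:ℝ), (Tp d.N u : ℂ) * coeff (m + 1) (d.R u))‖ ≤ K / d.N := by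
  obtain ⟨K0, hK0, hw⟩ := exists_wt
  obtain ⟨K1, hK1⟩ := half_main m
  refine ⟨2 * (2000 ^ (m + 1) * K0), fun d => ?_⟩
  set f : ℝ → ℂ := fun u => coeff (m + 1) (d.R u) with hf
  have hfc : Continuous f := (d.bR (m + 1)).continuous
  have hfK : ∀ u, ‖f u‖ ≤ 2000 ^ (m + 1) * |Real.tanh (3 * u / 4)| ^ d.N := fun u => R_geo d u (m + 1)
  have hfb : ∀ u, ‖f u‖ ≤ 2000 ^ (m + 1) := fun u => (hfK u).trans (by
    have h1 : |Real.tanh (3 * u / 4)| ^ d.N ≤ 1 := pow_le_one₀ (abs_nonneg _) (a4_tanh_le _)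
    have h2 : (0:ℝ) < 2000 ^ (m + 1) := by positivity
    nlinarith)
  have hi1 := (hK1 d (Set.Ioi 0) (Or.inl rfl)).1
  have hi2 := (hK1 d (Set.Iic 0) (Or.inr rfl)).1
  have h1 := cmp_half d.hN1 (by positivity) hfc hfK hi1 (hw d).2.2
  -- the reflected function
  set g : ℝ → ℂ := fun u => f (-u) with hg
  have hgc : Continuous g := hfc.comp continuous_neg
  have hgK : ∀ u, ‖g u‖ ≤ 2000 ^ (m + 1) * |Real.tanh (3 * u / 4)| ^ d.N := fun u => by
    have h := hfK (-u)
    rw [show 3 * (-u) / 4 = -(3 * u / 4) by ring, Real.tanh_neg, abs_neg] at h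
    exact h
  have hgi : IntegrableOn (fun u => (Tp d.N u : ℂ) * g u) (Set.Ioi 0) := by
    have h := hi2
    have e : (fun u => (Tp d.N u : ℂ) * g u) = fun u =>
        -((fun u => (Tp d.N u : ℂ) * coeff (m + 1) (d.R u)) (-u)) := by
      funext u
      simp only
      rw [Tp_neg]
      push_cast
      ring
    rw [e]
    have h2 : IntegrableOn (fun u => (fun u => (Tp d.N u : ℂ) * coeff (m + 1) (d.R u)) (-u))
        (Set.Ioi 0) := by
      have h3 := (integrableOn_Ici_iff_integrableOn_Ioi (f := fun u =>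
        (fun u => (Tp d.N u : ℂ) * coeff (m + 1) (d.R u)) (-u)) (b := (0:ℝ)) (μ := volume)).1 (by
          have h4 := (MeasurePreserving.integrableOn_comp_preimage
            (Measure.measurePreserving_neg (volume : Measure ℝ))
            (Homeomorph.neg ℝ).measurableEmbedding (f := fun u =>
              (Tp d.N u : ℂ) * coeff (m + 1) (d.R u)) (s := Set.Iic 0)).2 h
          have e6 : (fun x : ℝ => -x) ⁻¹' (Set.Iic (0:ℝ)) = Set.Ici 0 := by
            ext x
            simp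
          rw [e6] at h4
          exact h4)
      exact h3
    exact h2.neg
  have h2 := cmp_half d.hN1 (by positivity) hgc hgK hgi (hw d).2.2
  have r1 : ∫ u in Set.Ioi (0:ℝ), (kk u : ℂ) * g u = ∫ u in Set.Iic (0:ℝ), (kk u : ℂ) * f u := by
    have := integral_comp_neg_Ioi (0:ℝ) (fun u => (kk u : ℂ) * f u)
    rw [neg_zero] at this
    rw [← this]
    refine integral_congr_ae (ae_of_all _ fun u => ?_)
    simp only [hg]
    rw [kk_even]
  have r2 : ∫ u in Set.Ioi (0:ℝ), (Tp d.N u : ℂ) * g u =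
      -∫ u in Set.Iic (0:ℝ), (Tp d.N u : ℂ) * f u := by
    have := integral_comp_neg_Ioi (0:ℝ) (fun u => (Tp d.N u : ℂ) * f u)
    rw [neg_zero] at this
    rw [← this, ← integral_neg]
    refine integral_congr_ae (ae_of_all _ fun u => ?_)
    simp only [hg]
    rw [Tp_neg]
    push_cast
    ring
  rw [r1, r2] at h2
  have hk : Integrable (fun u => (kk u : ℂ) * f u) :=
    kk_integrable.ofReal.mul_bdd (c := 2000 ^ (m + 1)) hfc.aestronglyMeasurable (ae_of_all _ hfb)
  have hcv : coeff (m + 1) (lg (d.E 0)) = (∫ u in Set.Iic (0:ℝ), (kk u : ℂ) * f u)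
      + ∫ u in Set.Ioi (0:ℝ), (kk u : ℂ) * f u := by
    rw [d.hP' 0, cvS_coeff]
    rw [intervalIntegral.integral_Iic_add_Ioi hk.integrableOn hk.integrableOn]
    unfold cv
    refine integral_congr_ae (ae_of_all _ fun u => ?_)
    simp only [hf]
    rw [zero_sub, kk_even]
  have e : (d.N : ℂ) * coeff (m + 1) (lg (d.E 0))
      - 1 / (2 * Real.pi) * ((∫ u in Set.Ioi (0:ℝ), (Tp d.N u : ℂ) * coeff (m + 1) (d.R u))
        - ∫ u in Set.Iic (0:ℝ), (Tp d.N u : ℂ) * coeff (m + 1) (d.R u)) =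
      ((d.N : ℂ) * (∫ u in Set.Ioi (0:ℝ), (kk u : ℂ) * f u)
      - 1 / (2 * Real.pi) * ∫ u in Set.Ioi (0:ℝ), (Tp d.N u : ℂ) * f u) +
      ((d.N : ℂ) * (∫ u in Set.Iic (0:ℝ), (kk u : ℂ) * f u)
      - 1 / (2 * Real.pi) * -∫ u in Set.Iic (0:ℝ), (Tp d.N u : ℂ) * f u) := by
    rw [hcv]
    ring
  rw [e]
  refine (norm_add_le _ _).trans ((add_le_add h1 h2).trans (le_of_eq ?_))
  ring

/-- the value at the origin in terms of the formal logarithm -/
theorem value_cmp {m : ℕ} (hm : 1 ≤ m) : ∃ K : ℝ, ∀ d : FD,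
    ‖(d.N : ℂ) * coeff (m + 1) (lg (d.E 0))
      - 3 * Complex.I / (2 * Real.pi * m) * (2 * coeff m (C (-2 * Complex.I) * PowerSeries.X : PS)
        - 2 * coeff m (Hq (d.E 0)))‖ ≤ K / d.N := by
  obtain ⟨K0, hK0⟩ := cv_zero_cmp m
  obtain ⟨K1, hK1⟩ := half_main m
  refine ⟨K0 + (|K1| + |K1|), fun d => ?_⟩
  have hNpos : (0:ℝ) < d.N := by exact_mod_cast d.hN1
  have h0 := hK0 d
  have h1 := (hK1 d (Set.Ioi 0) (Or.inl rfl)).2
  have h2 := (hK1 d (Set.Iic 0) (Or.inr rfl)).2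
  rw [int_top d hm, Hq_T] at h1
  rw [int_bot d hm, Hq_B] at h2
  set A := (d.N : ℂ) * coeff (m + 1) (lg (d.E 0))
  set I1 := ∫ u in Set.Ioi (0:ℝ), (Tp d.N u : ℂ) * coeff (m + 1) (d.R u)
  set I2 := ∫ u in Set.Iic (0:ℝ), (Tp d.N u : ℂ) * coeff (m + 1) (d.R u)
  set c := coeff m (C (-2 * Complex.I) * PowerSeries.X : PS)
  set x := coeff m (Hq (d.E 0))
  have hpi : (Real.pi : ℂ) ≠ 0 := by exact_mod_cast Real.pi_ne_zero
  have hm0 : (m : ℂ) ≠ 0 := by exact_mod_cast (by omega : m ≠ 0)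
  have e : A - 3 * Complex.I / (2 * Real.pi * m) * (2 * c - 2 * x) =
      (A - 1 / (2 * Real.pi) * (I1 - I2)) + 1 / (2 * Real.pi) * (I1 - 3 * Complex.I / m * (c - x))
      - 1 / (2 * Real.pi) * (I2 - 3 * Complex.I / m * (x - c)) := by
    field_simp
    ring
  have hn : ‖(1 / (2 * Real.pi) : ℂ)‖ ≤ 1 := by
    have : (1 / (2 * Real.pi) : ℂ) = ((1 / (2 * Real.pi) : ℝ) : ℂ) := by push_cast; rfl
    rw [this, Complex.norm_real, Real.norm_eq_abs, abs_of_pos (by positivity),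
      div_le_one (by positivity)]
    linarith [Real.pi_gt_three]
  have hK1' : K1 / d.N ≤ |K1| / d.N := by
    gcongr
    exact le_abs_self _
  rw [e]
  refine (norm_sub_le _ _).trans ((add_le_add (norm_add_le _ _) le_rfl).trans ?_)
  rw [norm_mul, norm_mul, add_div, add_div, ← add_assoc]
  refine add_le_add (add_le_add h0 ?_) ?_
  · exact (mul_le_of_le_one_left (norm_nonneg _) hn).trans (h1.trans hK1')
  · exact (mul_le_of_le_one_left (norm_nonneg _) hn).trans (h2.trans hK1')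

/-- geometric bound at the origin, uniform over all data -/
theorem value_geo : ∃ K : ℝ, 0 < K ∧ ∀ (d : FD) (j : ℕ),
    (d.N : ℝ) * ‖coeff j (lg (d.E 0))‖ ≤ K * 2000 ^ j := by
  obtain ⟨K0, hK0, hw⟩ := exists_wt
  refine ⟨K0, hK0, fun d j => ?_⟩
  have hNpos : (0:ℝ) < d.N := by exact_mod_cast d.hN1
  have hfc : Continuous (fun u => coeff j (d.R u)) := (d.bR j).continuous
  have hfb : ∀ u, ‖coeff j (d.R u)‖ ≤ 2000 ^ j := fun u => (R_geo d u j).trans (by
    have h1 := tw_le_one d u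
    have h2 : (0:ℝ) < 2000 ^ j := by positivity
    nlinarith)
  have h1 := wt_int (w := tw) (hw d).1.1 (hw d).1.2 (by positivity : (0:ℝ) ≤ 2000 ^ j) hfc
    (fun u => R_geo d u j) hfb
  have h2 : ‖coeff j (lg (d.E 0))‖ ≤ ∫ u, ew u * ‖coeff j (d.R u)‖ := by
    rw [d.hP' 0, cvS_coeff]
    unfold cv
    refine norm_integral_le_of_norm_le (ew_mul_int hfc hfb) (ae_of_all _ fun u => ?_)
    rw [norm_mul, Complex.norm_real, Real.norm_eq_abs, abs_of_pos (kk_pos _), zero_sub, kk_even]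
    exact mul_le_mul_of_nonneg_right (a8_kk_le1 u) (norm_nonneg _)
  calc (d.N : ℝ) * ‖coeff j (lg (d.E 0))‖ ≤ d.N * (2000 ^ j * (K0 / d.N)) :=
        mul_le_mul_of_nonneg_left (h2.trans h1) hNpos.le
    _ = K0 * 2000 ^ j := by field_simp

section seq
variable {d : ℕ → FD}

theorem lg_zero (hN : Tendsto (fun n => ((d n).N : ℝ)) atTop atTop) :
    Td (fun n => lg ((d n).E 0)) atTop 0 := by
  obtain ⟨K, hK, h⟩ := value_geo
  intro j
  rw [map_zero, tendsto_zero_iff_norm_tendsto_zero]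
  have h1 : Tendsto (fun n => K * 2000 ^ j / ((d n).N : ℝ)) atTop (𝓝 0) :=
    tendsto_const_nhds.div_atTop hN
  refine squeeze_zero (fun _ => norm_nonneg _) (fun n => ?_) h1
  have hNpos : (0:ℝ) < (d n).N := by exact_mod_cast (d n).hN1
  rw [le_div_iff₀ hNpos, mul_comm]
  exact h (d n) j

theorem E_one (hN : Tendsto (fun n => ((d n).N : ℝ)) atTop atTop) :
    Td (fun n => (d n).E 0) atTop 1 := by
  have hz := lg_zero hN
  intro j
  induction j using Nat.strong_induction_on with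
  | _ j ih =>
    rcases j with _ | j
    · simp only [coeff_zero_eq_constantCoeff_apply, (fun n => (d n).E0 0), map_one]
      exact tendsto_const_nhds
    · have hrec : ∀ n, coeff (j + 1) ((d n).E 0) = ((j : ℂ) + 1)⁻¹ *
          ∑ p ∈ (antidiagonal (j + 1)).filter (fun p => p.2 < j + 1),
            coeff p.1 (lg ((d n).E 0)) * coeff p.2 ((d n).E 0) := by
        intro n
        have h2 := lg_spec (f := (d n).E 0) (by rw [(d n).E0]; exact one_ne_zero)
        have h3 := congrArg (coeff (j + 1)) h2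
        rw [coeff_mul_lt (lg_const _), th_coeff] at h3
        rw [h3]
        have h4 : ((j : ℂ) + 1) ≠ 0 := by exact_mod_cast Nat.succ_ne_zero j
        push_cast
        field_simp
      simp only [hrec]
      have h5 : Tendsto (fun n => ((j : ℂ) + 1)⁻¹ *
          ∑ p ∈ (antidiagonal (j + 1)).filter (fun p => p.2 < j + 1),
            coeff p.1 (lg ((d n).E 0)) * coeff p.2 ((d n).E 0)) atTop
          (𝓝 (((j : ℂ) + 1)⁻¹ *
          ∑ p ∈ (antidiagonal (j + 1)).filter (fun p => p.2 < j + 1),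
            coeff p.1 (0 : PS) * coeff p.2 (1 : PS))) :=
        (tendsto_finsetSum _ fun p hp => (hz p.1).mul (ih p.2 (mem_filter.1 hp).2)).const_mul _
      have h6 : ((j : ℂ) + 1)⁻¹ *
          ∑ p ∈ (antidiagonal (j + 1)).filter (fun p => p.2 < j + 1),
            coeff p.1 (0 : PS) * coeff p.2 (1 : PS) = coeff (j + 1) (1 : PS) := by
        rw [coeff_one, if_neg (by omega), sum_eq_zero, mul_zero]
        intro p _
        rw [map_zero, zero_mul]
      rwa [h6] at h5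

/-- the limit of the coefficients -/
theorem seq_limit (hN : Tendsto (fun n => ((d n).N : ℝ)) atTop atTop) {m : ℕ} (hm : 1 ≤ m) :
    Tendsto (fun n => ((d n).N : ℂ) * coeff (m + 1) (lg ((d n).E 0))) atTop
      (𝓝 (if m = 1 then -(3 / Real.pi) else 0)) := by
  obtain ⟨K, hK⟩ := value_cmp hm
  have h1 : Tendsto (fun n => coeff m (Hq ((d n).E 0))) atTop (𝓝 (coeff m (Hq 1))) :=
    (Td.hq (E_one hN) (fun a ha => by
      have := real_ne (x := 0) ha
      rw [coeff_one, if_neg (by norm_num)]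
      simpa using this) (fun n a ha => by
      rw [(d n).E1 0]; exact real_ne ha)) m
  have h2 : Tendsto (fun n => 3 * Complex.I / (2 * Real.pi * m) *
      (2 * coeff m (C (-2 * Complex.I) * PowerSeries.X : PS)
        - 2 * coeff m (Hq ((d n).E 0)))) atTop (𝓝 (3 * Complex.I / (2 * Real.pi * m) *
      (2 * coeff m (C (-2 * Complex.I) * PowerSeries.X : PS) - 2 * coeff m (Hq 1)))) :=
    (tendsto_const_nhds.sub (h1.const_mul 2)).const_mul _
  have h3 : Tendsto (fun n => ((d n).N : ℂ) * coeff (m + 1) (lg ((d n).E 0))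
      - 3 * Complex.I / (2 * Real.pi * m) * (2 * coeff m (C (-2 * Complex.I) * PowerSeries.X : PS)
        - 2 * coeff m (Hq ((d n).E 0)))) atTop (𝓝 0) := by
    rw [tendsto_zero_iff_norm_tendsto_zero]
    have h4 : Tendsto (fun n => K / ((d n).N : ℝ)) atTop (𝓝 0) := tendsto_const_nhds.div_atTop hN
    exact squeeze_zero (fun _ => norm_nonneg _) (fun n => hK (d n)) h4
  have h5 := h3.add h2
  rw [zero_add] at h5
  have e1 : (3 * Complex.I / (2 * Real.pi * m) *
      (2 * coeff m (C (-2 * Complex.I) * PowerSeries.X : PS) - 2 * coeff m (Hq 1))) =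
      (if m = 1 then -(3 / Real.pi) else 0 : ℂ) := by
    rw [Hq_1, PowerSeries.coeff_C_mul, PowerSeries.coeff_C_mul, coeff_X]
    have hpi : (Real.pi : ℂ) ≠ 0 := by exact_mod_cast Real.pi_ne_zero
    have hI : Complex.I ^ 2 = -1 := Complex.I_sq
    split_ifs with h
    · rw [h]
      push_cast
      field_simp
      linear_combination hI
    · simp
  rw [e1] at h5
  refine h5.congr fun n => ?_
  ring

end seq

end Pool.Agent.Zk36.CG
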