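import Pool.Agent.Zk36.CG.Data

/-!
# Uniform geometric bounds for the coefficients
-/

set_option autoImplicit false

namespace Pool.Agent.Zk36.CG

open Finset MeasureTheory H906K Filter Topology PowerSeries

/-! ## truncated evaluation -/

/-- truncated evaluation -/
noncomputable def ev (J : ℕ) (ρ : ℝ) (a : PR) : ℝ := ∑ j ∈ range J, coeff j a * ρ ^ j

section ev
variable {J : ℕ} {ρ : ℝ}

theorem ev_nonneg (hρ : 0 ≤ ρ) {a : PR} (ha : Nn a) : 0 ≤ ev J ρ a :=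
  sum_nonneg fun j _ => mul_nonneg (ha j) (pow_nonneg hρ j)

theorem ev_mono (hρ : 0 ≤ ρ) {a b : PR} (h : Le a b) : ev J ρ a ≤ ev J ρ b :=
  sum_le_sum fun j _ => mul_le_mul_of_nonneg_right (h j) (pow_nonneg hρ j)

theorem ev_add (a b : PR) : ev J ρ (a + b) = ev J ρ a + ev J ρ b := by
  unfold ev
  rw [← sum_add_distrib]
  exact sum_congr rfl fun j _ => by rw [map_add, add_mul]

theorem ev_one_le (J : ℕ) (ρ : ℝ) : ev J ρ 1 ≤ 1 := by
  unfold ev
  simp only [coeff_one]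
  rcases J with _ | J
  · simp
  · rw [sum_eq_single 0]
    · simp
    · intro j _ hj; simp [hj]
    · intro h; simp at h

theorem ev_one (J : ℕ) (ρ : ℝ) : ev (J + 1) ρ 1 = 1 := by
  unfold ev
  simp only [coeff_one]
  rw [sum_eq_single 0]
  · simp
  · intro j _ hj; simp [hj]
  · intro h; simp at h

theorem ev_C (c : ℝ) (a : PR) : ev J ρ (C c * a) = c * ev J ρ a := by
  unfold ev
  rw [mul_sum]
  exact sum_congr rfl fun j _ => by rw [PowerSeries.coeff_C_mul]; ring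

theorem ev_C_le {c : ℝ} (hc : 0 ≤ c) : ev J ρ (C c) ≤ c := by
  have h := ev_C (J := J) (ρ := ρ) c 1
  rw [mul_one] at h
  rw [h]
  calc c * ev J ρ 1 ≤ c * 1 := mul_le_mul_of_nonneg_left (ev_one_le J ρ) hc
    _ = c := mul_one c

theorem ev_mul (hρ : 0 ≤ ρ) {a b : PR} (ha : Nn a) (hb : Nn b) :
    ev J ρ (a * b) ≤ ev J ρ a * ev J ρ b := by
  unfold ev
  rw [sum_mul_sum, ← sum_product']
  have h1 : ∑ j ∈ range J, coeff j (a * b) * ρ ^ j =
      ∑ j ∈ range J, ∑ p ∈ antidiagonal j, coeff p.1 a * ρ ^ p.1 * (coeff p.2 b * ρ ^ p.2) := by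
    refine sum_congr rfl fun j _ => ?_
    rw [coeff_mul, sum_mul]
    refine sum_congr rfl fun p hp => ?_
    rw [← HasAntidiagonal.mem_antidiagonal.1 hp, pow_add]
    ring
  rw [h1, sum_sigma']
  refine le_trans (le_of_eq ?_) (sum_le_sum_of_subset_of_nonneg
    (s := (range J ×ˢ range J).filter fun p => p.1 + p.2 < J) (filter_subset _ _) fun p _ _ => ?_)
  · refine sum_bij' (fun x _ => x.2) (fun p _ => ⟨p.1 + p.2, p⟩) ?_ ?_ ?_ ?_ ?_
    · intro x hx
      rw [mem_sigma, mem_range, HasAntidiagonal.mem_antidiagonal] at hx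
      rw [mem_filter, mem_product, mem_range, mem_range]
      omega
    · intro p hp
      rw [mem_filter] at hp
      rw [mem_sigma, mem_range, HasAntidiagonal.mem_antidiagonal]
      exact ⟨hp.2, rfl⟩
    · rintro ⟨j, p⟩ hx
      rw [mem_sigma, mem_range, HasAntidiagonal.mem_antidiagonal] at hx
      simp only at hx
      simp only [Sigma.mk.injEq, heq_eq_eq, and_true]
      exact hx.2
    · intro p _; rfl
    · intro x _; rfl
  · exact mul_nonneg (mul_nonneg (ha _) (pow_nonneg hρ _)) (mul_nonneg (hb _) (pow_nonneg hρ _))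

theorem ev_X (hρ : 0 ≤ ρ) {a : PR} (ha : Nn a) : ev J ρ (PowerSeries.X * a) ≤ ρ * ev J ρ a := by
  have h1 : ev J ρ (PowerSeries.X : PR) ≤ ρ := by
    unfold ev
    simp only [coeff_X]
    by_cases hJ : 1 < J
    · rw [sum_eq_single 1]
      · simp
      · intro j _ hj; simp [hj]
      · intro h; exact absurd (mem_range.2 hJ) h
    · rw [sum_eq_zero]
      · exact hρ
      · intro j hj
        rw [mem_range] at hj
        rw [if_neg (by omega), zero_mul]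
  exact (ev_mul hρ Nn.var ha).trans (mul_le_mul_of_nonneg_right h1 (ev_nonneg hρ ha))

theorem ev_inv (hρ : 0 ≤ ρ) {a : PR} (ha : Nn a) (h0 : constantCoeff a = 0) (h1 : ev J ρ a < 1) :
    ev J ρ (1 - a)⁻¹ ≤ 1 / (1 - ev J ρ a) := by
  have h2 := inv_spec h0
  have h3 : ev J ρ (1 - a)⁻¹ ≤ 1 + ev J ρ a * ev J ρ (1 - a)⁻¹ := by
    calc ev J ρ (1 - a)⁻¹ = ev J ρ (1 + a * (1 - a)⁻¹) := by rw [← h2]
      _ = ev J ρ 1 + ev J ρ (a * (1 - a)⁻¹) := ev_add _ _
      _ ≤ _ := add_le_add (ev_one_le J ρ) (ev_mul hρ ha (ha.inv h0))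
  rw [le_div_iff₀ (by linarith)]
  linarith

theorem ev_term (hρ : 0 < ρ) {a : PR} (ha : Nn a) {c : ℝ} {j : ℕ} (h : ev (j + 1) ρ a ≤ c) :
    coeff j a ≤ c * (ρ⁻¹) ^ j := by
  have h1 : coeff j a * ρ ^ j ≤ c :=
    (single_le_sum (f := fun j => coeff j a * ρ ^ j)
      (fun i _ => mul_nonneg (ha i) (pow_nonneg hρ.le i)) (self_mem_range_succ j)).trans h
  rw [inv_pow, ← div_eq_mul_inv, le_div_iff₀ (by positivity)]
  exact h1

theorem ev_cont (J : ℕ) (a : PR) : Continuous fun ρ => ev J ρ a := by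
  unfold ev
  fun_prop

theorem ev_zero (J : ℕ) {a : PR} (h0 : constantCoeff a = 0) : ev J 0 a = 0 := by
  unfold ev
  refine sum_eq_zero fun j _ => ?_
  rcases Nat.eq_zero_or_pos j with rfl | hj
  · rw [coeff_zero_eq_constantCoeff_apply, h0, zero_mul]
  · rw [zero_pow hj.ne', mul_zero]

end ev

/-! ## the sup norms -/

theorem cvS_mj {F : ℝ → PS} {a : PR} (h : ∀ u, Mj (F u) a) (l : ℝ) :
    Mj (cvS F l) (C (1 / 2) * a) := fun j => by
  rw [cvS_coeff, PowerSeries.coeff_C_mul]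
  have := cv_le (f := fun u => coeff j (F u)) (K := coeff j a) (fun u => h u j) l
  linarith

/-- sup norms of the coefficients, without the constant one -/
noncomputable def sup1 (F : ℝ → PS) : PR :=
  PowerSeries.mk fun j => if j = 0 then 0 else ⨆ u, ‖coeff j (F u)‖

theorem sup1_nn (F : ℝ → PS) : Nn (sup1 F) := fun j => by
  unfold sup1
  rw [coeff_mk]
  split_ifs
  · exact le_rfl
  · exact Real.iSup_nonneg fun u => norm_nonneg _

theorem sup1_0 (F : ℝ → PS) : constantCoeff (sup1 F) = 0 := by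
  rw [← coeff_zero_eq_constantCoeff_apply]
  unfold sup1
  rw [coeff_mk, if_pos rfl]

theorem sup1_mj {F : ℝ → PS} (hF : BNS F) (h0 : ∀ u, constantCoeff (F u) = 0) (u : ℝ) :
    Mj (F u) (sup1 F) := fun j => by
  unfold sup1
  rw [coeff_mk]
  split_ifs with hj
  · rw [hj, coeff_zero_eq_constantCoeff_apply, h0 u, norm_zero]
  · obtain ⟨K, hK⟩ := (hF j).bdd
    exact le_ciSup (f := fun u => ‖coeff j (F u)‖) ⟨K, fun x ⟨u, hu⟩ => by rw [← hu]; exact hK u⟩ u

theorem sup1_le {F : ℝ → PS} {a : PR} (ha : Nn a) (h : ∀ u, Mj (F u) a) : Le (sup1 F) a :=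
  fun j => by
  unfold sup1
  rw [coeff_mk]
  split_ifs with hj
  · exact ha j
  · exact ciSup_le fun u => h u j

theorem sqrt3_lt : Real.sqrt 3 < 1.7321 := by
  rw [Real.sqrt_lt' (by norm_num)]
  norm_num

theorem sqrt3_pos : 0 < Real.sqrt 3 := Real.sqrt_pos.2 (by norm_num)

theorem sqrt3_sq : Real.sqrt 3 * Real.sqrt 3 = 3 := Real.mul_self_sqrt (by norm_num)

/-! ## the constant term -/

/-- `(2 - 2 cos 3α)/α²` -/
noncomputable def k9 : PS := -sh (sh c2)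

/-- majorant of `k9 - 9` -/
noncomputable def kh : PR := PowerSeries.mk fun j => if j = 0 then 0 else 3 * 3 ^ j

theorem kh_nn : Nn kh := fun j => by
  unfold kh
  rw [coeff_mk]
  split_ifs
  · exact le_rfl
  · positivity

theorem kh_0 : constantCoeff kh = 0 := by
  rw [← coeff_zero_eq_constantCoeff_apply]
  unfold kh
  rw [coeff_mk, if_pos rfl]

theorem k9_eq : PowerSeries.X ^ 2 * k9 = 2 - c2 := by
  ext j
  have h2 : ((2 : PS)) = C (2 : ℂ) := by
    rw [map_ofNat]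
  rcases j with _ | _ | j
  · have e : coeff 0 (PowerSeries.X ^ 2 * k9) = 0 := by
      rw [pow_two, mul_assoc, PowerSeries.coeff_zero_X_mul]
    rw [e, map_sub, FD.c2_0, h2, coeff_C, if_pos rfl, sub_self]
  · have e : coeff (0 + 1) (PowerSeries.X ^ 2 * k9) = 0 := by
      rw [pow_two, mul_assoc, PowerSeries.coeff_succ_X_mul, PowerSeries.coeff_zero_X_mul]
    rw [e, map_sub, h2, coeff_C, if_neg (by norm_num)]
    rw [FD.c2_1, sub_zero]
  · have e : coeff (j + 1 + 1) (PowerSeries.X ^ 2 * k9) = coeff j k9 := by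
      rw [pow_two, mul_assoc, PowerSeries.coeff_succ_X_mul, PowerSeries.coeff_succ_X_mul]
    rw [e, map_sub, h2, coeff_C, if_neg (by omega)]
    unfold k9
    rw [map_neg, sh_coeff, sh_coeff]
    ring

theorem k9_mj : Mj (k9 - C 9) kh := fun j => by
  unfold kh
  rw [coeff_mk]
  have e : coeff j k9 = -(coeff (j + 2) c2) := by
    unfold k9
    rw [map_neg, sh_coeff, sh_coeff]
  split_ifs with hj
  · rw [hj] at e ⊢
    rw [map_sub, e, FD.c2_2, coeff_C, if_pos rfl]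
    norm_num
  · rw [map_sub, e, coeff_C, if_neg hj, sub_zero, norm_neg]
    unfold c2
    rw [map_add, FD.expI_coeff, FD.expI_coeff]
    have h1 : ∀ a : ℂ, ‖a‖ = 3 → ‖(a * Complex.I) ^ (j + 2) / ((j + 2).factorial : ℂ)‖
        ≤ 3 ^ (j + 2) / 6 := by
      intro a ha
      rw [norm_div, norm_pow, norm_mul, ha, Complex.norm_I, mul_one, Complex.norm_natCast]
      have h6 : 6 ≤ (j + 2).factorial := by
        have : (3).factorial ≤ (j + 2).factorial := Nat.factorial_le (by omega)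
        simpa [Nat.factorial] using this
      have h6' : (6 : ℝ) ≤ ((j + 2).factorial : ℝ) := by exact_mod_cast h6
      gcongr
    refine (norm_add_le _ _).trans ((add_le_add (h1 3 (by simp)) (h1 (-3) (by simp))).trans ?_)
    rw [pow_add]
    have : (0 : ℝ) < 3 ^ j := by positivity
    linarith

theorem kh_ev {J : ℕ} {ρ : ℝ} (h0 : 0 ≤ ρ) (h1 : ρ ≤ 1 / 1000) : ev J ρ kh ≤ 10 * ρ := by
  have h3 : 3 * ρ < 1 := by linarith
  have hle : ∀ j, coeff j kh * ρ ^ j ≤ 9 * ρ * (if j = 0 then 0 else (3 * ρ) ^ (j - 1)) := by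
    intro j
    unfold kh
    rw [coeff_mk]
    split_ifs with hj
    · simp
    · obtain ⟨i, rfl⟩ : ∃ i, j = i + 1 := ⟨j - 1, by omega⟩
      rw [Nat.add_sub_cancel]
      apply le_of_eq
      rw [mul_pow, pow_succ, pow_succ]
      ring
  have h4 : ev J ρ kh ≤ ∑ j ∈ range J, 9 * ρ * (if j = 0 then 0 else (3 * ρ) ^ (j - 1)) :=
    sum_le_sum fun j _ => hle j
  refine h4.trans ?_
  rw [← mul_sum]
  have h5 : ∑ j ∈ range J, (if j = 0 then (0:ℝ) else (3 * ρ) ^ (j - 1)) ≤ (1 - 3 * ρ)⁻¹ := by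
    rcases J with _ | J
    · rw [range_zero, sum_empty]
      exact inv_nonneg.2 (by linarith)
    · rw [sum_range_succ']
      simp only [Nat.succ_ne_zero, if_false, if_true, add_zero, Nat.add_sub_cancel]
      rw [← tsum_geometric_of_lt_one (by linarith) h3]
      exact (summable_geometric_of_lt_one (by linarith) h3).sum_le_tsum _
        fun j _ => by positivity
  have h6 : (1 - 3 * ρ)⁻¹ ≤ 10 / 9 := by
    rw [inv_le_comm₀ (by linarith) (by norm_num)]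
    norm_num
    linarith
  calc 9 * ρ * _ ≤ 9 * ρ * (10 / 9) := mul_le_mul_of_nonneg_left (h5.trans h6) (by positivity)
    _ = 10 * ρ := by ring

namespace FD
variable (d : FD)

/-- `x = (E - 1 - αX)/α` -/
noncomputable def x (u : ℝ) : PS := sh (d.E u) - C (d.X u : ℂ)

/-- `β = b - 1` -/
noncomputable def be (u : ℝ) : PS := d.b u - 1

theorem bx : BNS d.x := d.bE.sht.sub (BNS.cst d.bX)

theorem bbe : BNS d.be := d.bb.sub (BNS.const 1)

theorem x0 (u : ℝ) : constantCoeff (d.x u) = 0 := by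
  rw [← coeff_zero_eq_constantCoeff_apply]
  unfold x
  rw [map_sub, sh_coeff, coeff_C, if_pos rfl, zero_add, d.E1, sub_self]

theorem be0 (u : ℝ) : constantCoeff (d.be u) = 0 := by
  unfold be
  rw [map_sub, d.b0, map_one, sub_self]

theorem E_eq (u : ℝ) : d.E u = 1 + PowerSeries.X * (C (d.X u : ℂ) + d.x u) := by
  unfold x
  rw [add_sub_cancel]
  ext j
  rcases j with _ | j
  · rw [map_add, coeff_one, if_pos rfl, PowerSeries.coeff_zero_X_mul, add_zero,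
      coeff_zero_eq_constantCoeff_apply, d.E0]
  · rw [map_add, coeff_one, if_neg (by omega), zero_add, PowerSeries.coeff_succ_X_mul, sh_coeff]

/-- sup norms of `x` -/
noncomputable def xh : PR := sup1 d.x
/-- sup norms of `β` -/
noncomputable def bh : PR := sup1 d.be

theorem xh_nn : Nn d.xh := sup1_nn _
theorem bh_nn : Nn d.bh := sup1_nn _
theorem xh_0 : constantCoeff d.xh = 0 := sup1_0 _
theorem bh_0 : constantCoeff d.bh = 0 := sup1_0 _
theorem xh_mj (u : ℝ) : Mj (d.x u) d.xh := sup1_mj d.bx d.x0 u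
theorem bh_mj (u : ℝ) : Mj (d.be u) d.bh := sup1_mj d.bbe d.be0 u

theorem q_form (u : ℝ) : d.q u - 1 = C (2 * d.X u / d.g u) * d.x u + C (d.g u)⁻¹ *
    (d.x u ^ 2 + (C 9 * PowerSeries.X * (C (d.X u : ℂ) + d.x u) + (k9 - C 9) *
      (1 + C (d.X u : ℂ) * PowerSeries.X + PowerSeries.X * d.x u))) := by
  have h := d.hq u
  have h1 : PowerSeries.X ^ 2 * (C (d.g u) * d.q u) = PowerSeries.X ^ 2 *
      ((C (d.X u : ℂ) + d.x u) ^ 2 + k9 * d.E u) := by
    rw [mul_add, ← mul_assoc, ← mul_assoc, k9_eq]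
    have e : C (d.g u) = C ((9 + d.X u ^ 2 : ℝ) : ℂ) := rfl
    rw [e, ← h, d.E_eq u]
    ring
  have hX : (PowerSeries.X : PS) ^ 2 ≠ 0 := pow_ne_zero 2 PowerSeries.X_ne_zero
  have h2 := mul_left_cancel₀ hX h1
  have hg : C (d.g u)⁻¹ * C (d.g u) = (1 : PS) := by
    rw [← map_mul, inv_mul_cancel₀ (d.g_ne u), map_one]
  have hg2 : (C (d.g u) : PS) = C 9 + C (d.X u : ℂ) ^ 2 := by
    rw [← map_pow, ← map_add]
    congr 1
    unfold g
    push_cast
    ring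
  have h3 : d.q u = C (d.g u)⁻¹ * ((C (d.X u : ℂ) + d.x u) ^ 2 + k9 * d.E u) := by
    rw [← h2, ← mul_assoc, hg, one_mul]
  have e1 : C (2 * (d.X u : ℂ) / d.g u) = C (d.g u)⁻¹ * (2 * C (d.X u : ℂ)) := by
    rw [← map_ofNat (C (R := ℂ)), ← map_mul, ← map_mul]
    congr 1
    field_simp
  rw [h3, e1, d.E_eq u]
  have h4 : (1 : PS) = C (d.g u)⁻¹ * (C 9 + C (d.X u : ℂ) ^ 2) := by rw [← hg2, hg]
  have h9 : (C (9:ℂ) : PS) = 9 := map_ofNat C 9
  rw [h9] at h4 ⊢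
  linear_combination -h4

/-- majorant of `q - 1` -/
noncomputable def rh : PR := C (Real.sqrt 3 / 6) * d.xh + C (1 / 9) *
    (d.xh ^ 2 + (C 9 * PowerSeries.X * (C (Real.sqrt 3) + d.xh) + kh *
      (1 + C (Real.sqrt 3) * PowerSeries.X + PowerSeries.X * d.xh)))

theorem q_mj (u : ℝ) : Mj (d.q u - 1) d.rh := by
  rw [d.q_form u]
  have hX := d.X_le u
  have hs := sqrt3_pos
  have hss := sqrt3_sq
  have hx := d.xh_mj u
  have m1 : Mj (C (2 * (d.X u : ℂ) / d.g u)) (C (Real.sqrt 3 / 6)) := by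
    apply Mj.cst
    have : (2 * (d.X u : ℂ) / d.g u) = ((2 * d.X u / (9 + d.X u ^ 2) : ℝ) : ℂ) := by
      unfold g; push_cast; rfl
    rw [this, Complex.norm_real, Real.norm_eq_abs, abs_div, abs_mul, abs_two,
      abs_of_pos (show 0 < 9 + d.X u ^ 2 by positivity), div_le_iff₀ (by positivity)]
    have h2 := abs_nonneg (d.X u)
    rw [← sq_abs (d.X u)]
    nlinarith [mul_nonneg hs.le (mul_nonneg h2 h2), mul_nonneg (sub_nonneg.2 hX) (sub_nonneg.2 hX)]
  have m2 : Mj (C (d.g u)⁻¹) (C (1 / 9 : ℝ)) := by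
    apply Mj.cst
    rw [norm_inv, one_div]
    exact inv_anti₀ (by norm_num) (d.g_norm u)
  have m3 : Mj (C (d.X u : ℂ)) (C (Real.sqrt 3)) := by
    apply Mj.cst
    rw [Complex.norm_real]; exact hX
  have m9 : Mj (C (9 : ℂ)) (C (9 : ℝ)) := Mj.cst (by simp)
  have hx2 : Mj (d.x u ^ 2) (d.xh ^ 2) := by
    rw [pow_two, pow_two]; exact hx.mul hx
  exact (m1.mul hx).add (m2.mul (hx2.add (((m9.mul Mj.var).mul (m3.add hx)).add
    (k9_mj.mul ((Mj.one.add (m3.mul Mj.var)).add (Mj.var.mul hx))))))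

theorem rh_nn : Nn d.rh := (d.q_mj 0).nn

theorem rh_0 : constantCoeff d.rh = 0 := by
  unfold rh
  simp only [map_add, map_mul, map_pow, d.xh_0, kh_0, PowerSeries.constantCoeff_X]
  ring

theorem b_mj (u : ℝ) : Mj (d.b u) (1 - d.rh)⁻¹ := by
  have h1 : ∀ u, Mj (lg (d.q u)) (lgm d.rh) := fun u => (d.q_mj u).lgt d.rh_0
  have h2 : Mj (lg (d.b u)) (C (1 / 2) * lgm d.rh) := by
    rw [d.hS u]; exact cvS_mj h1 u
  have hn : Nn (lgm d.rh) := d.rh_nn.lgmt d.rh_0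
  have h3 : Le (C (1 / 2) * lgm d.rh) (lgm d.rh) := fun j => by
    rw [PowerSeries.coeff_C_mul]
    have := hn j
    linarith
  refine Mj.ode ?_ ?_ h2 ?_ (ode_le d.rh_nn d.rh_0 h3)
  · rw [d.b0, PowerSeries.constantCoeff_inv, map_sub, d.rh_0]
    simp
  · rw [mul_comm]
    exact (lg_spec (by rw [d.b0 u]; exact one_ne_zero)).symm
  · rw [map_mul, lgm_const, mul_zero]

theorem bh_le : Le (1 + d.bh) (1 - d.rh)⁻¹ := by
  have hn := (d.rh_nn.inv d.rh_0)
  intro j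
  rw [map_add, coeff_one]
  split_ifs with hj
  · rw [hj, coeff_zero_eq_constantCoeff_apply, d.bh_0, add_zero]
    rw [coeff_zero_eq_constantCoeff_apply, PowerSeries.constantCoeff_inv, map_sub, d.rh_0]
    simp
  · rw [zero_add]
    unfold bh sup1
    rw [coeff_mk, if_neg hj]
    refine ciSup_le fun u => ?_
    have h1 := d.b_mj u j
    unfold be
    rwa [map_sub, coeff_one, if_neg hj, sub_zero]

/-- majorant of `Y` -/
noncomputable def yh : PR := C (2 * Real.sqrt 3) * PowerSeries.X * (1 + d.bh)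

theorem one_bh_nn : Nn (1 + d.bh) := Nn.one.add d.bh_nn

theorem b_mj' (u : ℝ) : Mj (d.b u) (1 + d.bh) := by
  have h : d.b u = 1 + d.be u := by unfold be; ring
  rw [h]
  exact Mj.one.add (d.bh_mj u)

theorem A1_mj (u : ℝ) : Mj (C (A1 d.N d.X u : ℂ)) (C (2 * Real.sqrt 3)) := by
  apply Mj.cst
  rw [Complex.norm_real]; exact d.A1_le' u

theorem Y_mj (u : ℝ) : Mj (d.Y u) d.yh := by
  unfold Y Yf yh
  rw [mul_comm PowerSeries.X (C _)]
  exact ((d.A1_mj u).mul Mj.var).mul (d.b_mj' u)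

theorem yh_nn : Nn d.yh := (d.Y_mj 0).nn

theorem yh_0 : constantCoeff d.yh = 0 := by
  unfold yh
  rw [map_mul, map_mul, PowerSeries.constantCoeff_X, mul_zero, zero_mul]

theorem R_mj (u : ℝ) : Mj (d.R u) (lgm d.yh) := by
  unfold R
  apply Mj.lgt _ d.yh_0
  rw [add_sub_cancel_left]
  exact d.Y_mj u

theorem P_mj (u : ℝ) : Mj (lg (d.E u)) (C (1 / 2) * lgm d.yh) := by
  rw [d.hP' u]
  exact cvS_mj d.R_mj u

theorem E_mj (u : ℝ) : Mj (d.E u) (1 - d.yh)⁻¹ := by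
  have hn : Nn (lgm d.yh) := d.yh_nn.lgmt d.yh_0
  have h3 : Le (C (1 / 2) * lgm d.yh) (lgm d.yh) := fun j => by
    rw [PowerSeries.coeff_C_mul]
    have := hn j
    linarith
  refine Mj.ode ?_ ?_ (d.P_mj u) ?_ (ode_le d.yh_nn d.yh_0 h3)
  · rw [d.E0, PowerSeries.constantCoeff_inv, map_sub, d.yh_0]
    simp
  · rw [mul_comm]
    exact (lg_spec (by rw [d.E0 u]; exact one_ne_zero)).symm
  · rw [map_mul, lgm_const, mul_zero]

theorem E1_mj (u : ℝ) : Mj (d.E u - 1) (d.yh * (1 - d.yh)⁻¹) := by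
  have h := d.E_mj u
  rw [inv_spec d.yh_0] at h
  intro j
  have h1 := h j
  rcases Nat.eq_zero_or_pos j with rfl | hj
  · rw [map_sub, coeff_zero_eq_constantCoeff_apply, d.E0, coeff_zero_eq_constantCoeff_apply,
      map_one, sub_self, norm_zero]
    exact (d.yh_nn.mul (d.yh_nn.inv d.yh_0)) 0
  · rw [map_add, coeff_one, if_neg hj.ne', zero_add] at h1
    rwa [map_sub, coeff_one, if_neg hj.ne', sub_zero]

/-- majorant of `x` -/
noncomputable def zh : PR := C (Real.sqrt 3) * d.bh +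
  C 6 * PowerSeries.X * (1 + d.bh) ^ 2 * (1 - d.yh)⁻¹

theorem zh_nn : Nn d.zh :=
  ((Nn.cst sqrt3_pos.le).mul d.bh_nn).add ((((Nn.cst (by norm_num)).mul Nn.var).mul
    (d.one_bh_nn.pow 2)).mul (d.yh_nn.inv d.yh_0))

theorem x_ode (l : ℝ) : th (PowerSeries.X * d.x l) =
    cvS (fun u => th (PowerSeries.X * C (A1 d.N d.X u : ℂ) * d.be u)) l
      - cvS (fun u => d.Y u * d.R u) l + (d.E l - 1) * lg (d.E l) := by
  have bA : BNS (fun u => PowerSeries.X * C (A1 d.N d.X u : ℂ)) :=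
    (BNS.const PowerSeries.X).mul (BNS.cst d.bA1)
  have b1 : BNS (fun u => th (PowerSeries.X * C (A1 d.N d.X u : ℂ) * d.be u)) :=
    (bA.mul d.bbe).tht
  have b2 : BNS (fun u => d.Y u * d.R u) := d.bY.mul d.bR
  have hR : ∀ u, d.R u = PowerSeries.X * C (A1 d.N d.X u : ℂ)
      + (th (PowerSeries.X * C (A1 d.N d.X u : ℂ) * d.be u) - d.Y u * d.R u) := by
    intro u
    have e1 : d.Y u = PowerSeries.X * C (A1 d.N d.X u : ℂ) +
        PowerSeries.X * C (A1 d.N d.X u : ℂ) * d.be u := by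
      unfold Y Yf be; ring
    have e2 : th (PowerSeries.X * C (A1 d.N d.X u : ℂ) : PS) =
        PowerSeries.X * C (A1 d.N d.X u : ℂ) := by
      rw [th_mul, th_C, mul_zero, add_zero]
      congr 1
      ext j
      rw [th_coeff, coeff_X]
      split_ifs with h
      · rw [h]; simp
      · simp
    have e3 : th (d.Y u) = PowerSeries.X * C (A1 d.N d.X u : ℂ)
        + th (PowerSeries.X * C (A1 d.N d.X u : ℂ) * d.be u) := by
      rw [e1, th_add, e2]
    linear_combination d.R_eq u + e3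
  have hcv : cvS d.R l = PowerSeries.X * C (d.X l : ℂ)
      + (cvS (fun u => th (PowerSeries.X * C (A1 d.N d.X u : ℂ) * d.be u)) l
      - cvS (fun u => d.Y u * d.R u) l) := by
    ext j
    have i0 : ∀ {F : ℝ → PS}, BNS F → Integrable (fun u : ℝ => (kk (l - u) : ℂ) * coeff j (F u)) := by
      intro F hF
      obtain ⟨K, hK⟩ := (hF j).bdd
      exact cv_int_bdd (hF j).continuous hK l
    rw [cvS_coeff, map_add, map_sub, cvS_coeff, cvS_coeff]
    have e4 : (fun u => coeff j (d.R u)) = fun u => coeff j (PowerSeries.X * C (A1 d.N d.X u : ℂ) : PS)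
        + (coeff j (th (PowerSeries.X * C (A1 d.N d.X u : ℂ) * d.be u)) - coeff j (d.Y u * d.R u)) := by
      funext u
      rw [← map_sub, ← map_add, ← hR u]
    rw [e4, cv_add l (i0 bA), cv_sub l (i0 b1) (i0 b2)]
    · congr 1
      rcases j with _ | _ | j
      · simp only [PowerSeries.coeff_zero_X_mul]
        rw [cv_const, zero_div]
      · simp only [PowerSeries.coeff_succ_X_mul, coeff_C, if_true]
        unfold cv
        rw [d.sys.eqX l, ← integral_complex_ofReal]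
        refine integral_congr_ae (ae_of_all _ fun u => ?_)
        simp only
        push_cast
        ring
      · simp only [PowerSeries.coeff_succ_X_mul, coeff_C, Nat.succ_ne_zero, if_false]
        rw [cv_const, zero_div]
    · have := (i0 b1).sub (i0 b2)
      refine this.congr (ae_of_all _ fun u => ?_)
      simp only [Pi.sub_apply]
      ring
  have hE : th (d.E l) = PowerSeries.X * C (d.X l : ℂ) + th (PowerSeries.X * d.x l) := by
    rw [d.E_eq l, th_add, th_one, zero_add, mul_add, th_add]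
    congr 1
    rw [th_mul, th_C, mul_zero, add_zero]
    congr 1
    ext j
    rw [th_coeff, coeff_X]
    split_ifs with h
    · rw [h]; simp
    · simp
  have h1 := lg_spec (f := d.E l) (by rw [d.E0 l]; exact one_ne_zero)
  have h2 : lg (d.E l) = PowerSeries.X * C (d.X l : ℂ)
      + (cvS (fun u => th (PowerSeries.X * C (A1 d.N d.X u : ℂ) * d.be u)) l
      - cvS (fun u => d.Y u * d.R u) l) := by rw [d.hP' l, hcv]
  rw [hE] at h1
  linear_combination -h1 + h2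

theorem x_mj (u : ℝ) : Mj (th (PowerSeries.X * d.x u)) (th (PowerSeries.X * d.zh)) := by
  rw [d.x_ode u]
  have m1 : ∀ u, Mj (th (PowerSeries.X * C (A1 d.N d.X u : ℂ) * d.be u))
      (th (PowerSeries.X * C (2 * Real.sqrt 3) * d.bh)) := fun u =>
    ((Mj.var.mul (d.A1_mj u)).mul (d.bh_mj u)).tht
  have m2 : ∀ u, Mj (d.Y u * d.R u) (d.yh * lgm d.yh) := fun u => (d.Y_mj u).mul (d.R_mj u)
  have m3 := ((cvS_mj m1 u).sub (cvS_mj m2 u)).add ((d.E1_mj u).mul (d.P_mj u))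
  refine m3.le (fun j => le_of_eq ?_)
  congr 1
  have hi := inv_spec d.yh_0
  have hy2 : d.yh ^ 2 = C 12 * PowerSeries.X ^ 2 * (1 + d.bh) ^ 2 := by
    unfold yh
    rw [mul_pow, mul_pow, ← map_pow]
    congr 3
    have := sqrt3_sq
    nlinarith
  have hz : PowerSeries.X * d.zh = C (Real.sqrt 3) * (PowerSeries.X * d.bh)
      + C (1 / 2) * (d.yh ^ 2 * (1 - d.yh)⁻¹) := by
    rw [hy2]
    unfold zh
    have h6 : (C (6:ℝ) : PR) = C (1 / 2) * C 12 := by
      rw [← map_mul]; congr 1; norm_num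
    rw [h6]
    ring
  have hth2 : th (d.yh ^ 2 * (1 - d.yh)⁻¹) = d.yh * lgm d.yh + d.yh * (1 - d.yh)⁻¹ * lgm d.yh := by
    rw [th_mul, pow_two, th_mul, th_inv d.yh_0]
    have e1 : lgm d.yh = th d.yh * (1 - d.yh)⁻¹ := rfl
    rw [e1]
    linear_combination (-d.yh * th d.yh * (1 - d.yh)⁻¹) * hi
  have hthC : ∀ (c : ℝ) (a : PR), th (C c * a) = C c * th a := by
    intro c a
    rw [th_mul, th_C, zero_mul, zero_add]
  rw [hz, th_add, hthC, hthC, hth2]
  have e2 : PowerSeries.X * C (2 * Real.sqrt 3) * d.bh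
      = C 2 * (C (Real.sqrt 3) * (PowerSeries.X * d.bh)) := by
    rw [map_mul]; ring
  rw [e2, hthC, hthC]
  have e3 : (C (1 / 2 : ℝ) : PR) * C 2 = 1 := by
    rw [← map_mul]; norm_num
  linear_combination (C (Real.sqrt 3) * th (PowerSeries.X * d.bh)) * e3

theorem xh_le : Le d.xh d.zh := by
  apply sup1_le d.zh_nn
  intro u j
  have h := d.x_mj u (j + 1)
  rw [th_coeff, th_coeff, PowerSeries.coeff_succ_X_mul, PowerSeries.coeff_succ_X_mul, norm_mul,
    Complex.norm_natCast] at h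
  exact le_of_mul_le_mul_left h (by positivity)

/-! ## numbers -/

theorem ev_rh {J : ℕ} {ρ T : ℝ} (h0 : 0 ≤ ρ) (h1 : ρ ≤ 1 / 1000) (hT : ev J ρ d.xh ≤ T)
    (hT1 : T ≤ 1 / 4) : ev J ρ d.rh ≤ 0.083 := by
  have hs := sqrt3_lt
  have hsp := sqrt3_pos
  have hx0 := ev_nonneg (J := J) h0 d.xh_nn
  have a1 : ev J ρ (C (Real.sqrt 3 / 6) * d.xh) ≤ 1.7321 / 6 * (1 / 4) := by
    rw [ev_C]
    exact mul_le_mul (by linarith) (hT.trans hT1) hx0 (by norm_num)
  have a2 : ev J ρ (d.xh ^ 2) ≤ 1 / 16 := by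
    rw [pow_two]
    refine (ev_mul h0 d.xh_nn d.xh_nn).trans ?_
    have := mul_le_mul (hT.trans hT1) (hT.trans hT1) hx0 (by norm_num)
    linarith
  have n3 : Nn (C (Real.sqrt 3) + d.xh) := (Nn.cst hsp.le).add d.xh_nn
  have a3 : ev J ρ (C 9 * PowerSeries.X * (C (Real.sqrt 3) + d.xh)) ≤ 0.018 := by
    rw [mul_assoc, ev_C]
    have b1 := ev_X (J := J) h0 n3
    rw [ev_add] at b1
    have b2 := ev_C_le (J := J) (ρ := ρ) hsp.le
    have b3 : ev J ρ (C (Real.sqrt 3)) + ev J ρ d.xh ≤ 1.9821 := by linarith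
    have b4 : ρ * (ev J ρ (C (Real.sqrt 3)) + ev J ρ d.xh) ≤ 1 / 1000 * 1.9821 :=
      mul_le_mul h1 b3 (add_nonneg (ev_nonneg h0 (Nn.cst hsp.le)) hx0) (by norm_num)
    linarith
  have n4 : Nn (1 + C (Real.sqrt 3) * PowerSeries.X + PowerSeries.X * d.xh) :=
    (Nn.one.add ((Nn.cst hsp.le).mul Nn.var)).add (Nn.var.mul d.xh_nn)
  have a4 : ev J ρ (kh * (1 + C (Real.sqrt 3) * PowerSeries.X + PowerSeries.X * d.xh)) ≤ 0.011 := by
    refine (ev_mul h0 kh_nn n4).trans ?_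
    have b1 := kh_ev (J := J) h0 h1
    have b2 : ev J ρ (1 + C (Real.sqrt 3) * PowerSeries.X + PowerSeries.X * d.xh) ≤ 1.002 := by
      rw [ev_add, ev_add, ev_C]
      have c1 := ev_one_le J ρ
      have c2 := ev_X (J := J) h0 Nn.one
      rw [mul_one] at c2
      have c3 := ev_X (J := J) h0 d.xh_nn
      have c5 : ρ * ev J ρ 1 ≤ 1 / 1000 * 1 :=
        mul_le_mul h1 c1 (ev_nonneg h0 Nn.one) (by norm_num)
      have c6 : ρ * ev J ρ d.xh ≤ 1 / 1000 * (1 / 4) :=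
        mul_le_mul h1 (hT.trans hT1) hx0 (by norm_num)
      have c7 : ev J ρ (PowerSeries.X : PR) ≤ 1 / 1000 := by linarith
      have c8 : Real.sqrt 3 * ev J ρ (PowerSeries.X : PR) ≤ 1.7321 * (1 / 1000) :=
        mul_le_mul hs.le c7 (ev_nonneg h0 Nn.var) (by norm_num)
      linarith
    have b3 : ev J ρ kh ≤ 0.01 := by linarith
    calc _ ≤ 0.01 * 1.002 := mul_le_mul b3 b2 (ev_nonneg h0 n4) (by norm_num)
      _ ≤ 0.011 := by norm_num
  unfold rh
  rw [ev_add, ev_C (1 / 9), ev_add, ev_add]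
  linarith

theorem ev_bh {J : ℕ} {ρ : ℝ} (h0 : 0 ≤ ρ) (h : ev J ρ d.rh ≤ 0.083) :
    ev J ρ d.bh ≤ 0.091 ∧ ev J ρ (1 + d.bh) ≤ 1.091 := by
  rcases J with _ | J
  · unfold ev
    simp
    norm_num
  · have h1 := ev_mono (J := J + 1) h0 d.bh_le
    have h2 := ev_inv (J := J + 1) h0 d.rh_nn d.rh_0 (by linarith)
    have h3 : 1 / (1 - ev (J + 1) ρ d.rh) ≤ 1.091 := by
      rw [div_le_iff₀ (by linarith)]
      linarith
    have h4 : ev (J + 1) ρ (1 + d.bh) ≤ 1.091 := h1.trans (h2.trans h3)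
    refine ⟨?_, h4⟩
    rw [ev_add, ev_one] at h4
    linarith

theorem ev_yh {J : ℕ} {ρ : ℝ} (h0 : 0 ≤ ρ) (h1 : ρ ≤ 1 / 1000)
    (h : ev J ρ (1 + d.bh) ≤ 1.091) : ev J ρ d.yh ≤ 0.004 := by
  have hs := sqrt3_lt
  have hsp := sqrt3_pos
  unfold yh
  rw [mul_assoc, ev_C]
  have b1 := ev_X (J := J) h0 d.one_bh_nn
  have b2 : ρ * ev J ρ (1 + d.bh) ≤ 1 / 1000 * 1.091 :=
    mul_le_mul h1 h (ev_nonneg h0 d.one_bh_nn) (by norm_num)
  have b3 : ev J ρ (PowerSeries.X * (1 + d.bh)) ≤ 1 / 1000 * 1.091 := b1.trans b2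
  calc 2 * Real.sqrt 3 * ev J ρ (PowerSeries.X * (1 + d.bh))
      ≤ (2 * 1.7321) * (1 / 1000 * 1.091) :=
        mul_le_mul (by linarith) b3 (ev_nonneg h0 (Nn.var.mul d.one_bh_nn)) (by norm_num)
    _ ≤ 0.004 := by norm_num

theorem ev_inv_yh {J : ℕ} {ρ : ℝ} (h0 : 0 ≤ ρ) (h : ev J ρ d.yh ≤ 0.004) :
    ev J ρ (1 - d.yh)⁻¹ ≤ 1.01 := by
  refine (ev_inv h0 d.yh_nn d.yh_0 (by linarith)).trans ?_
  rw [div_le_iff₀ (by linarith)]
  linarith

theorem ev_xh_lt {J : ℕ} {ρ T : ℝ} (h0 : 0 ≤ ρ) (h1 : ρ ≤ 1 / 1000) (hT : ev J ρ d.xh ≤ T)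
    (hT1 : T ≤ 1 / 4) : ev J ρ d.xh < 1 / 4 := by
  have hs := sqrt3_lt
  have hsp := sqrt3_pos
  have hr := d.ev_rh h0 h1 hT hT1
  obtain ⟨hb, hb1⟩ := d.ev_bh h0 hr
  have hy := d.ev_yh h0 h1 hb1
  have hi := d.ev_inv_yh h0 hy
  have hb0 := ev_nonneg (J := J) h0 d.bh_nn
  have hb10 := ev_nonneg (J := J) h0 d.one_bh_nn
  have n1 : Nn ((1 + d.bh) ^ 2) := d.one_bh_nn.pow 2
  have n2 : Nn ((1 - d.yh)⁻¹) := d.yh_nn.inv d.yh_0
  have n3 : Nn ((1 + d.bh) ^ 2 * (1 - d.yh)⁻¹) := n1.mul n2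
  refine lt_of_le_of_lt (ev_mono h0 d.xh_le) ?_
  have e : d.zh = C (Real.sqrt 3) * d.bh + C 6 * (PowerSeries.X * ((1 + d.bh) ^ 2 * (1 - d.yh)⁻¹)) := by
    unfold zh; ring
  rw [e, ev_add, ev_C, ev_C]
  have a1 : Real.sqrt 3 * ev J ρ d.bh ≤ 1.7321 * 0.091 := mul_le_mul hs.le hb hb0 (by norm_num)
  have a2 : ev J ρ ((1 + d.bh) ^ 2) ≤ 1.091 * 1.091 := by
    rw [pow_two]
    exact (ev_mul h0 d.one_bh_nn d.one_bh_nn).trans (mul_le_mul hb1 hb1 hb10 (by norm_num))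
  have a3 : ev J ρ ((1 + d.bh) ^ 2 * (1 - d.yh)⁻¹) ≤ 1.091 * 1.091 * 1.01 :=
    (ev_mul h0 n1 n2).trans (mul_le_mul a2 hi (ev_nonneg h0 n2) (by norm_num))
  have a4 : ev J ρ (PowerSeries.X * ((1 + d.bh) ^ 2 * (1 - d.yh)⁻¹)) ≤
      1 / 1000 * (1.091 * 1.091 * 1.01) :=
    (ev_X h0 n3).trans (mul_le_mul h1 a3 (ev_nonneg h0 n3) (by norm_num))
  linarith

theorem ev_xh (J : ℕ) {ρ : ℝ} (h0 : 0 ≤ ρ) (h1 : ρ ≤ 1 / 1000) : ev J ρ d.xh ≤ 1 / 4 := by
  by_contra hc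
  push Not at hc
  have hcont : ContinuousOn (fun ρ => ev J ρ d.xh) (Set.Icc 0 ρ) := (ev_cont J _).continuousOn
  have himg := intermediate_value_Icc h0 hcont
  rw [ev_zero J d.xh_0] at himg
  obtain ⟨r, hr, hrv⟩ := himg ⟨(by norm_num : (0:ℝ) ≤ 1 / 4), hc.le⟩
  simp only at hrv
  have := d.ev_xh_lt (J := J) (T := 1 / 4) hr.1 (hr.2.trans h1) hrv.le le_rfl
  linarith

theorem ev_all (J : ℕ) : ev J (1 / 1000) d.xh ≤ 1 / 4 ∧ ev J (1 / 1000) (1 + d.bh) ≤ 1.091 ∧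
    ev J (1 / 1000) d.yh ≤ 0.004 ∧ ev J (1 / 1000) (1 - d.yh)⁻¹ ≤ 1.01 ∧
    ev J (1 / 1000) d.rh ≤ 0.083 := by
  have h0 : (0:ℝ) ≤ 1 / 1000 := by norm_num
  have h := d.ev_xh J h0 le_rfl
  have hr := d.ev_rh h0 le_rfl h le_rfl
  obtain ⟨hb, hb1⟩ := d.ev_bh h0 hr
  have hy := d.ev_yh h0 le_rfl hb1
  exact ⟨h, hb1, hy, d.ev_inv_yh h0 hy, hr⟩

end FD

end Pool.Agent.Zk36.CG
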