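import Pool.Agent.Zk36.CG.Pr1
import Pool.Agent.H906R3.CY.PF

/-!
# Perron-Frobenius: left eigenvector, growth and gap
-/

set_option autoImplicit false

namespace Pool.Agent.Zk36.CG

open Finset Filter Topology

variable {ι : Type*} [Fintype ι] [DecidableEq ι]

/-- non-negative matrix, each state leads to `s` in exactly `K` steps, and `s` leads to each state -/
structure Irr (A : Matrix ι ι ℝ) (s : ι) (K : ℕ) (m : ι → ℕ) : Prop where
  h0 : ∀ i j, 0 ≤ A i j
  row : ∀ j, 0 < (A ^ K) s j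
  col : ∀ i, 0 < (A ^ m i) i s
  ex : ∃ i j, 0 < A i j

theorem pow_nn {A : Matrix ι ι ℝ} (h0 : ∀ i j, 0 ≤ A i j) (M : ℕ) : ∀ i j, 0 ≤ (A ^ M) i j := by
  induction M with
  | zero =>
    intro i j
    rw [pow_zero, Matrix.one_apply]
    split_ifs <;> norm_num
  | succ n ih =>
    intro i j
    rw [pow_succ, Matrix.mul_apply]
    exact Finset.sum_nonneg fun k _ => mul_nonneg (ih i k) (h0 k j)

theorem vecMul_pow {A : Matrix ι ι ℝ} {h : ι → ℝ} {Λ : ℝ} (hl : Matrix.vecMul h A = Λ • h) (k : ℕ) :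
    Matrix.vecMul h (A ^ k) = Λ ^ k • h := by
  induction k with
  | zero => simp
  | succ k ih =>
    rw [pow_succ, ← Matrix.vecMul_vecMul, ih, Matrix.smul_vecMul, hl, smul_smul, pow_succ]

theorem mulVec_pow {A : Matrix ι ι ℝ} {u : ι → ℝ} {μ : ℝ} (hl : A.mulVec u = μ • u) (k : ℕ) :
    (A ^ k).mulVec u = μ ^ k • u := by
  induction k with
  | zero => simp
  | succ k ih =>
    rw [pow_succ, ← Matrix.mulVec_mulVec, hl, Matrix.mulVec_smul, ih, smul_smul, pow_succ, mul_comm]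

theorem Irr.perron {A : Matrix ι ι ℝ} {s : ι} {K : ℕ} {m : ι → ℕ} (hA : Irr A s K m) :
    ∃ (Λ : ℝ) (h : ι → ℝ), 0 < Λ ∧ (∀ i, 0 < h i) ∧ Matrix.vecMul h A = Λ • h := by
  have hne : Nonempty ι := ⟨s⟩
  obtain ⟨mb, hmb⟩ : ∃ mb : ℕ, ∀ i, m i ≤ mb := by
    obtain ⟨mb, hmb⟩ := (Set.finite_range m).bddAbove
    exact ⟨mb, fun i => hmb ⟨i, rfl⟩⟩
  have hpos : ∀ i j, 0 < (A ^ (m i + K)) i j := by
    intro i j
    rw [pow_add, Matrix.mul_apply]
    refine sum_pos' (fun k _ => mul_nonneg (pow_nn hA.h0 _ _ _) (pow_nn hA.h0 _ _ _))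
      ⟨s, mem_univ s, mul_pos (hA.col i) (hA.row j)⟩
  have hsum : ∀ i j, 0 < (∑ l ∈ Finset.range (mb + K + 1), A.transpose ^ l) i j := by
    intro i j
    rw [Matrix.sum_apply]
    refine sum_pos' (fun l _ => ?_) ⟨m j + K, mem_range.2 (by have := hmb j; omega), ?_⟩
    · rw [← Matrix.transpose_pow, Matrix.transpose_apply]
      exact pow_nn hA.h0 _ _ _
    · rw [← Matrix.transpose_pow, Matrix.transpose_apply]
      exact hpos j i
  have hex : ∃ i j, 0 < A.transpose i j := by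
    obtain ⟨i, j, h⟩ := hA.ex
    exact ⟨j, i, h⟩
  obtain ⟨v, Λ, hv, -, hΛ, he, -⟩ := H906C.perron A.transpose (fun i j => hA.h0 j i) (mb + K + 1)
    hsum hex
  refine ⟨Λ, v, hΛ, hv, ?_⟩
  rw [← he, Matrix.mulVec_transpose]

/-- growth of the column sum -/
theorem growth_left {A : Matrix ι ι ℝ} (h0 : ∀ i j, 0 ≤ A i j) (s : ι) {Λ : ℝ} {h : ι → ℝ}
    (hΛ : 0 < Λ) (hh : ∀ i, 0 < h i) (hl : Matrix.vecMul h A = Λ • h) :
    ∃ c C : ℝ, 0 < c ∧ 0 < C ∧ ∀ M : ℕ, c * Λ ^ M ≤ ∑ i, (A ^ M) i s ∧ ∑ i, (A ^ M) i s ≤ C * Λ ^ M := by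
  have hne : Nonempty ι := ⟨s⟩
  obtain ⟨a, ha⟩ := Finite.exists_min h
  obtain ⟨b, hb⟩ := Finite.exists_max h
  refine ⟨h s / h b, h s / h a, div_pos (hh _) (hh _), div_pos (hh _) (hh _), fun M => ?_⟩
  have h1 : ∑ i, h i * (A ^ M) i s = Λ ^ M * h s := by
    have := congrFun (vecMul_pow hl M) s
    simpa [Matrix.vecMul, dotProduct] using this
  constructor
  · rw [div_mul_eq_mul_div, div_le_iff₀ (hh b), mul_comm (h s), ← h1, sum_mul]
    refine sum_le_sum fun i _ => ?_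
    rw [mul_comm]
    exact mul_le_mul_of_nonneg_left (hb i) (pow_nn h0 _ _ _)
  · rw [div_mul_eq_mul_div, le_div_iff₀ (hh a), mul_comm (h s), ← h1, sum_mul]
    refine sum_le_sum fun i _ => ?_
    rw [mul_comm (h i)]
    exact mul_le_mul_of_nonneg_left (ha i) (pow_nn h0 _ _ _)

theorem growth_log {A : Matrix ι ι ℝ} (h0 : ∀ i j, 0 ≤ A i j) (s : ι) {Λ : ℝ} {h : ι → ℝ}
    (hΛ : 0 < Λ) (hh : ∀ i, 0 < h i) (hl : Matrix.vecMul h A = Λ • h) :
    Tendsto (fun M : ℕ => Real.log (∑ i, (A ^ M) i s) / M) atTop (𝓝 (Real.log Λ)) := by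
  obtain ⟨c, C, hc, hC, hb⟩ := growth_left h0 s hΛ hh hl
  have e : ∀ a : ℝ, 0 < a → ∀ M : ℕ, 0 < M → Real.log (a * Λ ^ M) / M = Real.log a / M + Real.log Λ := by
    intro a ha M hM
    have hM' : (M : ℝ) ≠ 0 := by exact_mod_cast hM.ne'
    rw [Real.log_mul ha.ne' (pow_ne_zero _ hΛ.ne'), Real.log_pow]
    field_simp
  have hlim : ∀ a : ℝ, Tendsto (fun M : ℕ => Real.log a / M + Real.log Λ) atTop (𝓝 (Real.log Λ)) := by
    intro a
    have h1 : Tendsto (fun M : ℕ => Real.log a / (M : ℝ)) atTop (𝓝 0) :=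
      tendsto_const_nhds.div_atTop tendsto_natCast_atTop_atTop
    simpa using h1.add_const (Real.log Λ)
  refine tendsto_of_tendsto_of_tendsto_of_le_of_le' (hlim c) (hlim C) ?_ ?_
  · filter_upwards [eventually_gt_atTop 0] with M hM
    rw [← e c hc M hM]
    have := (hb M).1
    have hp : 0 < c * Λ ^ M := by positivity
    have hM' : (0:ℝ) < M := by exact_mod_cast hM
    exact div_le_div_of_nonneg_right (Real.log_le_log hp this) hM'.le
  · filter_upwards [eventually_gt_atTop 0] with M hM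
    rw [← e C hC M hM]
    have h1 := (hb M).1
    have h2 := (hb M).2
    have hp : 0 < c * Λ ^ M := by positivity
    have hM' : (0:ℝ) < M := by exact_mod_cast hM
    exact div_le_div_of_nonneg_right (Real.log_le_log (lt_of_lt_of_le hp h1) h2) hM'.le

/-- other real eigenvalues are smaller by a definite factor -/
theorem gap {A : Matrix ι ι ℝ} (h0 : ∀ i j, 0 ≤ A i j) (s : ι) (K : ℕ)
    {η c R : ℝ} (hη : 0 < η) (hrow : ∀ j, η ≤ (A ^ K) s j) (hc : 0 < c) {m : ι → ℕ} {mb : ℕ}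
    (hm : ∀ i, m i ≤ mb) (hcol : ∀ i, c ≤ (A ^ m i) i s) (hR : 1 ≤ R)
    {Λ : ℝ} (hΛ : 0 < Λ) (hΛR : Λ ≤ R) {h : ι → ℝ} (hh : ∀ i, 0 < h i)
    (hl : Matrix.vecMul h A = Λ • h) {μ : ℝ} {u : ι → ℝ} (hu : u ≠ 0) (hA : A.mulVec u = μ • u)
    (hne : μ ≠ Λ) : (|μ| / Λ) ^ K ≤ 1 - η * c / R ^ (K + mb) := by
  have hlk : ∀ k j, ∑ i, h i * (A ^ k) i j = Λ ^ k * h j := by
    intro k j
    have := congrFun (vecMul_pow hl k) j
    simpa [Matrix.vecMul, dotProduct] using this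
  have huk : ∀ k i, ∑ j, (A ^ k) i j * u j = μ ^ k * u i := by
    intro k i
    have := congrFun (mulVec_pow hA k) i
    simpa [Matrix.mulVec, dotProduct] using this
  -- orthogonality
  have horth : ∑ i, h i * u i = 0 := by
    have h1 : ∑ i, h i * (A.mulVec u) i = ∑ j, (Matrix.vecMul h A) j * u j := by
      have := Matrix.dotProduct_mulVec h A u
      simpa [dotProduct] using this
    rw [hA, hl] at h1
    simp only [Pi.smul_apply, smul_eq_mul] at h1
    have h2 : (μ - Λ) * ∑ i, h i * u i = 0 := by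
      rw [sub_mul, mul_sum, mul_sum, sub_eq_zero]
      rw [show ∑ i, μ * (h i * u i) = ∑ i, h i * (μ * u i) from sum_congr rfl fun i _ => by ring, h1]
      exact sum_congr rfl fun i _ => by ring
    rcases mul_eq_zero.1 h2 with h3 | h3
    · exact absurd (sub_eq_zero.1 h3) hne
    · exact h3
  set P : Matrix ι ι ℝ := fun i j => h i * (A ^ K) i j / (Λ ^ K * h j) with hP
  have hΛK : 0 < Λ ^ K := pow_pos hΛ K
  have hcs : ∀ j, ∑ i, P i j = 1 := by
    intro j
    rw [hP, ← sum_div, hlk]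
    exact div_self (mul_pos hΛK (hh j)).ne'
  have hRK : 0 < R ^ (K + mb) := by positivity
  have hrow' : ∀ i j, (if i = s then η * c / R ^ (K + mb) else 0) ≤ P i j := by
    intro i j
    split_ifs with his
    · rw [his, hP]
      show η * c / R ^ (K + mb) ≤ h s * (A ^ K) s j / (Λ ^ K * h j)
      have hj1 : c * h j ≤ Λ ^ m j * h s := by
        rw [← hlk (m j) s]
        calc c * h j = h j * c := mul_comm _ _
          _ ≤ h j * (A ^ m j) j s := mul_le_mul_of_nonneg_left (hcol j) (hh j).le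
          _ ≤ _ := single_le_sum (f := fun i => h i * (A ^ m j) i s)
            (fun i _ => mul_nonneg (hh i).le (pow_nn h0 _ _ _)) (mem_univ j)
      have hj2 : Λ ^ K * Λ ^ m j ≤ R ^ (K + mb) := by
        rw [pow_add]
        have e1 : Λ ^ K ≤ R ^ K := pow_le_pow_left₀ hΛ.le hΛR K
        have e2 : Λ ^ m j ≤ R ^ mb :=
          (pow_le_pow_left₀ hΛ.le hΛR _).trans (pow_le_pow_right₀ hR (hm j))
        exact mul_le_mul e1 e2 (by positivity) (by positivity)
      rw [div_le_div_iff₀ hRK (mul_pos hΛK (hh j))]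
      calc η * c * (Λ ^ K * h j) = η * Λ ^ K * (c * h j) := by ring
        _ ≤ η * Λ ^ K * (Λ ^ m j * h s) := by gcongr
        _ = η * h s * (Λ ^ K * Λ ^ m j) := by ring
        _ ≤ η * h s * R ^ (K + mb) := by
          have := hh s
          gcongr
        _ ≤ (A ^ K) s j * h s * R ^ (K + mb) := by
          have := hh s
          have := hrow j
          gcongr
        _ = _ := by ring
    · exact div_nonneg (mul_nonneg (hh i).le (pow_nn h0 _ _ _)) (mul_pos hΛK (hh j)).le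
  set z : ι → ℂ := fun i => ((h i * u i : ℝ) : ℂ) with hz
  have hz0 : ∑ i, z i = 0 := by
    rw [hz]
    rw [← Complex.ofReal_sum, horth, Complex.ofReal_zero]
  have h1 := contract P s hrow' hcs z hz0
  have h2 : ∀ i, ∑ j, (P i j : ℂ) * z j = (((μ / Λ) ^ K : ℝ) : ℂ) * z i := by
    intro i
    rw [hz]
    simp only
    rw [← Complex.ofReal_mul]
    have : ∑ j, (P i j : ℂ) * ((h j * u j : ℝ) : ℂ) = ((∑ j, P i j * (h j * u j) : ℝ) : ℂ) := by
      push_cast; rfl
    rw [this]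
    congr 1
    rw [hP]
    have e1 : ∀ j, h i * (A ^ K) i j / (Λ ^ K * h j) * (h j * u j) = h i / Λ ^ K * ((A ^ K) i j * u j) := by
      intro j
      have := (hh j).ne'
      have := hΛK.ne'
      field_simp
    simp only [e1]
    rw [← mul_sum, huk, div_pow]
    ring
  simp only [h2] at h1
  have h3 : ∑ i, ‖(((μ / Λ) ^ K : ℝ) : ℂ) * z i‖ = (|μ| / Λ) ^ K * ∑ i, ‖z i‖ := by
    rw [mul_sum]
    refine sum_congr rfl fun i _ => ?_
    rw [norm_mul, Complex.norm_real, Real.norm_eq_abs, abs_pow, abs_div, abs_of_pos hΛ]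
  rw [h3] at h1
  have h4 : 0 < ∑ i, ‖z i‖ := by
    obtain ⟨i0, hi0⟩ : ∃ i, u i ≠ 0 := by
      by_contra hcon
      push Not at hcon
      exact hu (funext hcon)
    refine sum_pos' (fun i _ => norm_nonneg _) ⟨i0, mem_univ i0, ?_⟩
    rw [norm_pos_iff, hz]
    simp only [ne_eq, Complex.ofReal_eq_zero, mul_eq_zero, not_or]
    exact ⟨(hh i0).ne', hi0⟩
  exact le_of_mul_le_mul_right h1 h4

end Pool.Agent.Zk36.CG
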