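import Mathlib

/-!
# Formal power series: logarithmic derivatives and majorants
-/

set_option autoImplicit false

namespace Pool.Agent.Zk36.CG

open Finset PowerSeries

/-- power series in `α` -/
abbrev PS := PowerSeries ℂ

/-- real power series -/
abbrev PR := PowerSeries ℝ

/-- `α d/dα` -/
noncomputable def th {K : Type*} [Field K] (f : PowerSeries K) : PowerSeries K :=
  PowerSeries.mk fun j => (j : K) * coeff j f

section field

variable {K : Type*} [Field K]

@[simp] theorem th_coeff (f : PowerSeries K) (j : ℕ) : coeff j (th f) = (j : K) * coeff j f :=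
  coeff_mk _ _

theorem th_add (f g : PowerSeries K) : th (f + g) = th f + th g := by
  ext j
  simp [mul_add]

theorem th_sub (f g : PowerSeries K) : th (f - g) = th f - th g := by
  ext j
  simp [mul_sub]

theorem th_neg (f : PowerSeries K) : th (-f) = -th f := by
  ext j
  simp

theorem th_C (c : K) : th (C c : PowerSeries K) = 0 := by
  ext j
  rw [th_coeff, coeff_C]
  split_ifs with h
  · simp [h]
  · simp

theorem th_one : th (1 : PowerSeries K) = 0 := by
  have := th_C (1 : K)
  rwa [map_one] at this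

theorem th_mul (f g : PowerSeries K) : th (f * g) = th f * g + f * th g := by
  ext j
  rw [th_coeff, map_add, coeff_mul, coeff_mul, coeff_mul, mul_sum, ← sum_add_distrib]
  refine sum_congr rfl fun p hp => ?_
  have h := mem_antidiagonal.1 hp
  rw [th_coeff, th_coeff, ← h]
  push_cast
  ring

theorem th_const (f : PowerSeries K) : constantCoeff (th f) = 0 := by
  rw [← coeff_zero_eq_constantCoeff_apply, th_coeff]
  simp

/-- logarithmic derivative -/
noncomputable def lg (f : PowerSeries K) : PowerSeries K := th f * f⁻¹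

theorem lg_const (f : PowerSeries K) : constantCoeff (lg f) = 0 := by
  unfold lg
  rw [map_mul, th_const, zero_mul]

theorem lg_spec {f : PowerSeries K} (h : constantCoeff f ≠ 0) : lg f * f = th f := by
  unfold lg
  rw [mul_assoc, PowerSeries.inv_mul_cancel f h, mul_one]

theorem lg_mul {f g : PowerSeries K} (hf : constantCoeff f ≠ 0) (hg : constantCoeff g ≠ 0) :
    lg (f * g) = lg f + lg g := by
  have hfg : constantCoeff (f * g) ≠ 0 := by
    rw [map_mul]
    exact mul_ne_zero hf hg
  have h1 := lg_spec hfg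
  have h2 : (lg f + lg g) * (f * g) = th (f * g) := by
    rw [th_mul, ← lg_spec hf, ← lg_spec hg]
    ring
  have h3 : lg (f * g) * (f * g) * (f * g)⁻¹ = (lg f + lg g) * (f * g) * (f * g)⁻¹ := by
    rw [h1, h2]
  rwa [mul_assoc, mul_assoc (lg f + lg g), PowerSeries.mul_inv_cancel _ hfg, mul_one, mul_one] at h3

end field

/-! ## majorants -/

/-- coefficientwise order -/
def Le (a b : PR) : Prop := ∀ j, coeff j a ≤ coeff j b

/-- nonnegative coefficients -/
def Nn (a : PR) : Prop := ∀ j, 0 ≤ coeff j a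

theorem Nn.add {a b : PR} (ha : Nn a) (hb : Nn b) : Nn (a + b) := fun j => by
  rw [map_add]; exact add_nonneg (ha j) (hb j)

theorem Nn.mul {a b : PR} (ha : Nn a) (hb : Nn b) : Nn (a * b) := fun j => by
  rw [coeff_mul]; exact sum_nonneg fun p _ => mul_nonneg (ha _) (hb _)

theorem Nn.one : Nn 1 := fun j => by
  rw [coeff_one]; split_ifs <;> norm_num

theorem Nn.cst {c : ℝ} (hc : 0 ≤ c) : Nn (C c) := fun j => by
  rw [coeff_C]; split_ifs; exacts [hc, le_rfl]

theorem Nn.var : Nn (PowerSeries.X : PR) := fun j => by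
  rw [coeff_X]; split_ifs <;> norm_num

theorem Nn.tht {a : PR} (ha : Nn a) : Nn (th a) := fun j => by
  rw [th_coeff]; exact mul_nonneg (Nat.cast_nonneg j) (ha j)

theorem Nn.pow {a : PR} (ha : Nn a) (k : ℕ) : Nn (a ^ k) := by
  induction k with
  | zero => rw [pow_zero]; exact Nn.one
  | succ k ih => rw [pow_succ]; exact ih.mul ha

theorem Le.refl (a : PR) : Le a a := fun _ => le_rfl

theorem Le.trans {a b c : PR} (h : Le a b) (h' : Le b c) : Le a c := fun j => (h j).trans (h' j)

theorem Le.add {a b c d : PR} (h : Le a b) (h' : Le c d) : Le (a + c) (b + d) := fun j => by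
  rw [map_add, map_add]; exact add_le_add (h j) (h' j)

theorem Le.mul {a b c d : PR} (h : Le a b) (h' : Le c d) (ha : Nn a) (hd : Nn d) :
    Le (a * c) (b * d) := fun j => by
  rw [coeff_mul, coeff_mul]
  exact sum_le_sum fun p _ => (mul_le_mul_of_nonneg_left (h' _) (ha _)).trans
    (mul_le_mul_of_nonneg_right (h _) (hd _))

theorem Le.nn {a b : PR} (h : Le a b) (ha : Nn a) : Nn b := fun j => (ha j).trans (h j)

/-- majorant -/
def Mj (F : PS) (a : PR) : Prop := ∀ j, ‖coeff j F‖ ≤ coeff j a

theorem Mj.nn {F : PS} {a : PR} (h : Mj F a) : Nn a := fun j => (norm_nonneg _).trans (h j)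

theorem Mj.le {F : PS} {a b : PR} (h : Mj F a) (h' : Le a b) : Mj F b := fun j => (h j).trans (h' j)

theorem Mj.add {F G : PS} {a b : PR} (h : Mj F a) (h' : Mj G b) : Mj (F + G) (a + b) := fun j => by
  rw [map_add, map_add]; exact (norm_add_le _ _).trans (add_le_add (h j) (h' j))

theorem Mj.neg {F : PS} {a : PR} (h : Mj F a) : Mj (-F) a := fun j => by
  rw [map_neg, norm_neg]; exact h j

theorem Mj.sub {F G : PS} {a b : PR} (h : Mj F a) (h' : Mj G b) : Mj (F - G) (a + b) := by
  rw [sub_eq_add_neg]; exact h.add h'.neg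

theorem Mj.mul {F G : PS} {a b : PR} (h : Mj F a) (h' : Mj G b) : Mj (F * G) (a * b) := fun j => by
  rw [coeff_mul, coeff_mul]
  refine (norm_sum_le _ _).trans (sum_le_sum fun p _ => ?_)
  rw [norm_mul]
  exact mul_le_mul (h _) (h' _) (norm_nonneg _) (h.nn _)

theorem Mj.cst {c : ℂ} {x : ℝ} (h : ‖c‖ ≤ x) : Mj (C c) (C x) := fun j => by
  rw [coeff_C, coeff_C]; split_ifs; exacts [h, by simp]

theorem Mj.one : Mj 1 1 := fun j => by
  rw [coeff_one, coeff_one]; split_ifs <;> simp

theorem Mj.var : Mj PowerSeries.X PowerSeries.X := fun j => by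
  rw [coeff_X, coeff_X]; split_ifs <;> simp

theorem Mj.tht {F : PS} {a : PR} (h : Mj F a) : Mj (th F) (th a) := fun j => by
  rw [th_coeff, th_coeff, norm_mul, Complex.norm_natCast]
  exact mul_le_mul_of_nonneg_left (h j) (Nat.cast_nonneg j)

theorem Mj.zero {a : PR} (h : Nn a) : Mj 0 a := fun j => by
  rw [map_zero, norm_zero]; exact h j

theorem inv_spec {r : PR} (h0 : constantCoeff r = 0) : (1 - r)⁻¹ = 1 + r * (1 - r)⁻¹ := by
  have h1 : constantCoeff (1 - r) ≠ 0 := by
    rw [map_sub, h0]; simp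
  have h2 := PowerSeries.mul_inv_cancel (1 - r) h1
  linear_combination h2

theorem coeff_mul_lt {K : Type*} [Field K] {r g : PowerSeries K} (h0 : constantCoeff r = 0) (j : ℕ) :
    coeff j (r * g) = ∑ p ∈ (antidiagonal j).filter (fun p => p.2 < j), coeff p.1 r * coeff p.2 g := by
  rw [coeff_mul]
  symm
  refine sum_subset (filter_subset _ _) fun p hp hn => ?_
  rw [mem_filter, not_and, not_lt] at hn
  have h1 := mem_antidiagonal.1 hp
  have h2 := hn hp
  have h3 : p.1 = 0 := by omega
  rw [h3, coeff_zero_eq_constantCoeff_apply, h0, zero_mul]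

/-- the geometric series has nonnegative coefficients -/
theorem Nn.inv {r : PR} (h : Nn r) (h0 : constantCoeff r = 0) : Nn (1 - r)⁻¹ := by
  intro j
  induction j using Nat.strong_induction_on with
  | _ j ih =>
    rw [inv_spec h0, map_add, coeff_mul_lt h0]
    refine add_nonneg (Nn.one j) (sum_nonneg fun p hp => ?_)
    exact mul_nonneg (h _) (ih _ (mem_filter.1 hp).2)

theorem Le.inv {r s : PR} (hr : Nn r) (h : Le r s) (h0 : constantCoeff s = 0) :
    Le (1 - r)⁻¹ (1 - s)⁻¹ := by
  have hr0 : constantCoeff r = 0 := by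
    have h1 := h 0
    have h2 := hr 0
    rw [coeff_zero_eq_constantCoeff_apply] at h1 h2
    rw [coeff_zero_eq_constantCoeff_apply, h0] at h1
    exact le_antisymm h1 h2
  intro j
  induction j using Nat.strong_induction_on with
  | _ j ih =>
    rw [inv_spec h0, inv_spec hr0, map_add, map_add, coeff_mul_lt h0, coeff_mul_lt hr0]
    refine add_le_add le_rfl (sum_le_sum fun p hp => ?_)
    have hp2 := (mem_filter.1 hp).2
    exact mul_le_mul (h _) (ih _ hp2) (hr.inv hr0 _) ((hr _).trans (h _))

/-- inverse of a series with constant coefficient `1` -/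
theorem Mj.inv {F : PS} {r : PR} (h : Mj (F - 1) r) (h0 : constantCoeff r = 0) :
    Mj F⁻¹ (1 - r)⁻¹ := by
  have hF1 : constantCoeff (F - 1) = 0 := by
    have h1 := h 0
    rw [coeff_zero_eq_constantCoeff_apply, coeff_zero_eq_constantCoeff_apply, h0] at h1
    exact norm_le_zero_iff.1 h1
  have hF0 : constantCoeff F ≠ 0 := by
    rw [map_sub, map_one, sub_eq_zero] at hF1
    rw [hF1]; exact one_ne_zero
  have hG : F⁻¹ = 1 - (F - 1) * F⁻¹ := by
    have h2 := PowerSeries.mul_inv_cancel F hF0
    linear_combination h2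
  intro j
  induction j using Nat.strong_induction_on with
  | _ j ih =>
    rw [hG, inv_spec h0, map_sub, map_add, coeff_mul_lt h0, coeff_mul_lt hF1]
    refine (norm_sub_le _ _).trans (add_le_add (Mj.one j) ?_)
    refine (norm_sum_le _ _).trans (sum_le_sum fun p hp => ?_)
    rw [norm_mul]
    exact mul_le_mul (h _) (ih _ (mem_filter.1 hp).2) (norm_nonneg _) (h.nn _)

/-- solution of `θ b = b S` -/
theorem Mj.ode {b S : PS} {bh Sh : PR} (hb0 : ‖constantCoeff b‖ ≤ constantCoeff bh)
    (hb : th b = b * S) (hS : Mj S Sh) (hS0 : constantCoeff Sh = 0)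
    (hbh : Le (bh * Sh) (th bh)) : Mj b bh := by
  have hS0' : constantCoeff S = 0 := by
    have h1 := hS 0
    rw [coeff_zero_eq_constantCoeff_apply, coeff_zero_eq_constantCoeff_apply, hS0] at h1
    exact norm_le_zero_iff.1 h1
  intro j
  induction j using Nat.strong_induction_on with
  | _ j ih =>
    rcases Nat.eq_zero_or_pos j with rfl | hj
    · rw [coeff_zero_eq_constantCoeff_apply, coeff_zero_eq_constantCoeff_apply]
      exact hb0
    · have h1 := congrArg (coeff j) hb
      rw [th_coeff, mul_comm b S, coeff_mul_lt hS0'] at h1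
      have h2 := hbh j
      rw [th_coeff, mul_comm bh Sh, coeff_mul_lt hS0] at h2
      have h3 : (j : ℝ) * ‖coeff j b‖ ≤ (j : ℝ) * coeff j bh := by
        refine le_trans ?_ h2
        have h4 : (j : ℝ) * ‖coeff j b‖ = ‖(j : ℂ) * coeff j b‖ := by
          rw [norm_mul, Complex.norm_natCast]
        rw [h4, h1]
        refine (norm_sum_le _ _).trans (sum_le_sum fun p hp => ?_)
        rw [norm_mul]
        exact mul_le_mul (hS _) (ih _ (mem_filter.1 hp).2) (norm_nonneg _) (hS.nn _)
      exact le_of_mul_le_mul_left h3 (by exact_mod_cast hj)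

/-- `θ r / (1 - r)` -/
noncomputable def lgm (r : PR) : PR := th r * (1 - r)⁻¹

theorem lgm_const (r : PR) : constantCoeff (lgm r) = 0 := by
  unfold lgm
  rw [map_mul, th_const, zero_mul]

theorem Nn.lgmt {r : PR} (h : Nn r) (h0 : constantCoeff r = 0) : Nn (lgm r) :=
  h.tht.mul (h.inv h0)

theorem Mj.lgt {F : PS} {r : PR} (h : Mj (F - 1) r) (h0 : constantCoeff r = 0) :
    Mj (lg F) (lgm r) := by
  have h1 : th F = th (F - 1) := by
    rw [th_sub, th_one, sub_zero]
  unfold lg lgm
  rw [h1]
  exact h.tht.mul (h.inv h0)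

theorem th_inv {r : PR} (h0 : constantCoeff r = 0) :
    th (1 - r)⁻¹ = (1 - r)⁻¹ * lgm r := by
  have h1 : constantCoeff (1 - r) ≠ 0 := by
    rw [map_sub, h0]; simp
  have h2 := PowerSeries.mul_inv_cancel (1 - r) h1
  have h3 := congrArg th h2
  rw [th_mul, th_sub, th_one, zero_sub] at h3
  unfold lgm
  have h4 : th (1 - r)⁻¹ = ((1 - r) * (1 - r)⁻¹) * th (1 - r)⁻¹ := by rw [h2, one_mul]
  rw [h4]
  linear_combination (1 - r)⁻¹ * h3

/-- half of the logarithmic derivative is enough -/
theorem ode_le {r : PR} (h : Nn r) (h0 : constantCoeff r = 0) {S : PR} (hS : Le S (lgm r)) :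
    Le ((1 - r)⁻¹ * S) (th (1 - r)⁻¹) := by
  rw [th_inv h0]
  exact (Le.refl _).mul hS (h.inv h0) (h.lgmt h0)

end Pool.Agent.Zk36.CG
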