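import Pool.Agent.Zk36.CG.PS

/-!
# Powers of a formal perturbation of a primitive stochastic matrix
-/

set_option autoImplicit false

namespace Pool.Agent.Zk36.CG

open Finset PowerSeries Filter Topology

set_option linter.unusedSectionVars false

section contract
variable {ι : Type*} [Fintype ι] [DecidableEq ι]

/-- contraction of vectors of sum zero -/
theorem contract (Q : Matrix ι ι ℝ) (s : ι) {η : ℝ}
    (hQ : ∀ i j, (if i = s then η else 0) ≤ Q i j) (hc : ∀ j, ∑ i, Q i j = 1) (z : ι → ℂ)
    (hz : ∑ i, z i = 0) : ∑ i, ‖∑ j, (Q i j : ℂ) * z j‖ ≤ (1 - η) * ∑ j, ‖z j‖ := by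
  have h1 : ∀ i, ∑ j, (Q i j : ℂ) * z j = ∑ j, ((Q i j - (if i = s then η else 0) : ℝ) : ℂ) * z j := by
    intro i
    have : ∑ j, ((if i = s then η else 0 : ℝ) : ℂ) * z j = 0 := by
      rw [← mul_sum, hz, mul_zero]
    calc ∑ j, (Q i j : ℂ) * z j = ∑ j, (Q i j : ℂ) * z j
          - ∑ j, ((if i = s then η else 0 : ℝ) : ℂ) * z j := by rw [this, sub_zero]
      _ = _ := by
        rw [← sum_sub_distrib]
        refine sum_congr rfl fun j _ => ?_
        push_cast
        ring
  calc ∑ i, ‖∑ j, (Q i j : ℂ) * z j‖ ≤ ∑ i, ∑ j, (Q i j - (if i = s then η else 0)) * ‖z j‖ := by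
        refine sum_le_sum fun i _ => ?_
        rw [h1 i]
        refine (norm_sum_le _ _).trans (sum_le_sum fun j _ => ?_)
        rw [norm_mul, Complex.norm_real, Real.norm_eq_abs, abs_of_nonneg (sub_nonneg.2 (hQ i j))]
    _ = ∑ j, (∑ i, (Q i j - (if i = s then η else 0))) * ‖z j‖ := by
        rw [sum_comm]
        exact sum_congr rfl fun j _ => by rw [sum_mul]
    _ = (1 - η) * ∑ j, ‖z j‖ := by
        rw [mul_sum]
        refine sum_congr rfl fun j _ => ?_
        rw [sum_sub_distrib, hc j, sum_ite_eq' univ s (fun _ => η), if_pos (mem_univ s)]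

theorem contract1 (Q : Matrix ι ι ℝ) (hQ : ∀ i j, 0 ≤ Q i j) (hc : ∀ j, ∑ i, Q i j = 1) (z : ι → ℂ) :
    ∑ i, ‖∑ j, (Q i j : ℂ) * z j‖ ≤ ∑ j, ‖z j‖ := by
  calc ∑ i, ‖∑ j, (Q i j : ℂ) * z j‖ ≤ ∑ i, ∑ j, Q i j * ‖z j‖ := by
        refine sum_le_sum fun i _ => ?_
        refine (norm_sum_le _ _).trans (sum_le_sum fun j _ => ?_)
        rw [norm_mul, Complex.norm_real, Real.norm_eq_abs, abs_of_nonneg (hQ i j)]
    _ = ∑ j, (∑ i, Q i j) * ‖z j‖ := by
        rw [sum_comm]
        exact sum_congr rfl fun j _ => by rw [sum_mul]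
    _ = ∑ j, ‖z j‖ := by simp [hc]

/-- action of a real matrix on complex vectors -/
noncomputable def act (Q : Matrix ι ι ℝ) (z : ι → ℂ) : ι → ℂ := fun i => ∑ j, (Q i j : ℂ) * z j

theorem act_pow (P : Matrix ι ι ℝ) (k : ℕ) (z : ι → ℂ) :
    act (P ^ (k + 1)) z = act P (act (P ^ k) z) := by
  funext i
  unfold act
  rw [pow_succ']
  simp only [Matrix.mul_apply, mul_sum]
  push_cast
  simp only [sum_mul]
  rw [sum_comm]
  refine sum_congr rfl fun j _ => sum_congr rfl fun k _ => ?_
  ring

theorem act_add (P : Matrix ι ι ℝ) (z z' : ι → ℂ) : act P (z + z') = act P z + act P z' := by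
  funext i
  unfold act
  simp only [Pi.add_apply, mul_add, sum_add_distrib]

theorem pow_col (P : Matrix ι ι ℝ) (hc : ∀ j, ∑ i, P i j = 1) (k : ℕ) :
    ∀ j, ∑ i, (P ^ k) i j = 1 := by
  induction k with
  | zero =>
    intro j
    simp only [pow_zero, Matrix.one_apply]
    rw [sum_ite_eq' univ j (fun _ => (1:ℝ)), if_pos (mem_univ j)]
  | succ k ih =>
    intro j
    rw [pow_succ]
    simp only [Matrix.mul_apply]
    rw [sum_comm]
    simp only [← sum_mul, ih, one_mul, hc]

theorem summable_of_contract (P : Matrix ι ι ℝ) (hP : ∀ i j, 0 ≤ P i j) (hc : ∀ j, ∑ i, P i j = 1)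
    (K : ℕ) (s : ι) {η : ℝ} (hη : 0 < η)
    (hK : ∀ i j, (if i = s then η else 0) ≤ (P ^ K) i j) (z e : ℕ → ι → ℂ)
    (hz : ∀ M, ∑ i, z M i = 0) (hrec : ∀ M, z (M + 1) = act P (z M) + e M)
    (he : Summable (fun M => ∑ i, ‖e M i‖)) : Summable (fun M => ∑ i, ‖z M i‖) := by
  set a : ℕ → ℝ := fun M => ∑ i, ‖z M i‖ with ha
  set b : ℕ → ℝ := fun M => ∑ i, ‖e M i‖ with hb
  have ha0 : ∀ M, 0 ≤ a M := fun M => sum_nonneg fun i _ => norm_nonneg _
  have hb0 : ∀ M, 0 ≤ b M := fun M => sum_nonneg fun i _ => norm_nonneg _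
  have hexp : ∀ M k, ∃ r : ι → ℂ, z (M + k) = act (P ^ k) (z M) + r ∧
      ∑ i, ‖r i‖ ≤ ∑ i ∈ range k, b (M + i) := by
    intro M k
    induction k with
    | zero =>
      refine ⟨0, ?_, by simp⟩
      funext i
      rw [add_zero, add_zero, pow_zero]
      unfold act
      simp only [Matrix.one_apply]
      rw [Finset.sum_eq_single i]
      · simp
      · intro j _ hj
        rw [if_neg (Ne.symm hj)]
        simp
      · intro h; exact absurd (mem_univ i) h
    | succ k ih =>
      obtain ⟨r, h1, h2⟩ := ih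
      refine ⟨act P r + e (M + k), ?_, ?_⟩
      · rw [← add_assoc, hrec, h1, act_add, act_pow]
        rw [add_assoc]
      · rw [sum_range_succ]
        calc ∑ i, ‖(act P r + e (M + k)) i‖ ≤ ∑ i, (‖act P r i‖ + ‖e (M + k) i‖) :=
              sum_le_sum fun i _ => norm_add_le _ _
          _ = ∑ i, ‖act P r i‖ + ∑ i, ‖e (M + k) i‖ := sum_add_distrib
          _ ≤ _ := add_le_add ((contract1 P hP hc r).trans h2) le_rfl
  have hstep : ∀ M, a (M + K) ≤ (1 - η) * a M + ∑ i ∈ range K, b (M + i) := by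
    intro M
    obtain ⟨r, h1, h2⟩ := hexp M K
    calc a (M + K) = ∑ i, ‖act (P ^ K) (z M) i + r i‖ := by rw [ha]; simp only [h1, Pi.add_apply]
      _ ≤ ∑ i, (‖act (P ^ K) (z M) i‖ + ‖r i‖) := sum_le_sum fun i _ => norm_add_le _ _
      _ = ∑ i, ‖act (P ^ K) (z M) i‖ + ∑ i, ‖r i‖ := sum_add_distrib
      _ ≤ _ := add_le_add (contract (P ^ K) s hK (pow_col P hc K) (z M) (hz M)) h2
  set B : ℝ := ∑' M, b M with hB
  have hBle : ∀ T i, ∑ M ∈ range T, b (M + i) ≤ B := by
    intro T i
    calc ∑ M ∈ range T, b (M + i) ≤ ∑ M ∈ range (T + i), b M := by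
          rw [← sum_image (f := b) (g := fun M => M + i) (s := range T)
            (fun x _ y _ h => by simpa using h)]
          refine sum_le_sum_of_subset_of_nonneg ?_ fun x _ _ => hb0 x
          intro x hx
          rw [mem_image] at hx
          obtain ⟨y, hy, rfl⟩ := hx
          rw [mem_range] at hy ⊢
          omega
      _ ≤ B := he.sum_le_tsum _ fun j _ => hb0 j
  refine summable_of_sum_range_le (c := (∑ M ∈ range K, a M + K * B) / η) ha0 fun T => ?_
  have h1 : ∑ M ∈ range T, a (M + K) ≤ (1 - η) * ∑ M ∈ range T, a M + K * B := by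
    calc ∑ M ∈ range T, a (M + K) ≤ ∑ M ∈ range T, ((1 - η) * a M + ∑ i ∈ range K, b (M + i)) :=
          sum_le_sum fun M _ => hstep M
      _ = (1 - η) * ∑ M ∈ range T, a M + ∑ i ∈ range K, ∑ M ∈ range T, b (M + i) := by
          rw [sum_add_distrib, mul_sum, sum_comm]
      _ ≤ (1 - η) * ∑ M ∈ range T, a M + ∑ i ∈ range K, B :=
          add_le_add le_rfl (sum_le_sum fun i _ => hBle T i)
      _ = _ := by rw [sum_const, card_range, nsmul_eq_mul]
  have h2 : ∑ M ∈ range T, a M ≤ ∑ M ∈ range K, a M + ∑ M ∈ range T, a (M + K) := by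
    calc ∑ M ∈ range T, a M ≤ ∑ M ∈ range (K + T), a M :=
          sum_le_sum_of_subset_of_nonneg (range_subset_range.2 (by omega)) fun x _ _ => ha0 x
      _ = ∑ M ∈ range K, a M + ∑ M ∈ range T, a (K + M) := sum_range_add _ _ _
      _ = _ := by simp only [add_comm K]
  rw [le_div_iff₀ hη]
  nlinarith

end contract

section formal
variable {ι : Type*} [Fintype ι] [DecidableEq ι]

theorem coeff_mul_lt' (a b : PS) (j : ℕ) : coeff j (a * b) = coeff 0 a * coeff j b +
    ∑ p ∈ (antidiagonal j).filter (fun p => p.2 < j), coeff p.1 a * coeff p.2 b := by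
  rw [coeff_mul, ← sum_filter_add_sum_filter_not (antidiagonal j) (fun p => p.2 < j), add_comm]
  congr 1
  rw [Finset.sum_eq_single (0, j)]
  · intro p hp hne
    exfalso
    apply hne
    rw [mem_filter, HasAntidiagonal.mem_antidiagonal] at hp
    ext <;> simp only <;> omega
  · intro hp
    exfalso
    apply hp
    rw [mem_filter, HasAntidiagonal.mem_antidiagonal]
    constructor <;> simp

theorem formal_bdd (P : Matrix ι ι ℝ) (hP : ∀ i j, 0 ≤ P i j) (hc : ∀ j, ∑ i, P i j = 1)
    (K : ℕ) (s : ι) {η : ℝ} (hη : 0 < η)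
    (hK : ∀ i j, (if i = s then η else 0) ≤ (P ^ K) i j)
    (U : Matrix ι ι PS) (hU : ∀ i j, coeff 0 (U i j) = (P i j : ℂ))
    (w v : ι → PS) (hw0 : ∀ i, coeff 0 (w i) = 1) (hw : U.vecMul w = w) (hvs : ∑ i, v i = 1)
    (hv : U.mulVec v = v) (g : ℕ → ι → PS) (hg : ∀ M, g (M + 1) = U.mulVec (g M)) (j : ℕ) :
    ∃ C : ℝ, ∀ M i, ‖coeff j (g M i)‖ ≤ C := by
  set sv : PS := ∑ i, w i * v i with hsv
  have hs0 : constantCoeff sv = 1 := by
    have h1 := congrArg (constantCoeff (R := ℂ)) hvs
    rw [map_sum, map_one] at h1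
    rw [hsv, map_sum, ← h1]
    refine sum_congr rfl fun i _ => ?_
    rw [map_mul, ← coeff_zero_eq_constantCoeff_apply (w i), hw0, one_mul]
  have hsi : sv * sv⁻¹ = 1 := PowerSeries.mul_inv_cancel _ (by rw [hs0]; exact one_ne_zero)
  have hw' : ∀ k, ∑ i, w i * U i k = w k := fun k => congrFun hw k
  have hv' : ∀ i, ∑ k, U i k * v k = v i := fun i => congrFun hv i
  have hg' : ∀ M i, g (M + 1) i = ∑ k, U i k * g M k := fun M i => congrFun (hg M) i
  set γ : PS := ∑ i, w i * g 0 i with hγ
  have hinv : ∀ M, ∑ i, w i * g M i = γ := by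
    intro M
    induction M with
    | zero => rfl
    | succ M ih =>
      rw [← ih]
      simp only [hg', mul_sum]
      rw [sum_comm]
      refine sum_congr rfl fun k _ => ?_
      rw [← hw' k, sum_mul]
      exact sum_congr rfl fun i _ => by ring
  set Z : ℕ → ι → PS := fun M i => g M i - γ * sv⁻¹ * v i with hZ
  have hZ1 : ∀ M i, Z (M + 1) i = ∑ k, U i k * Z M k := by
    intro M i
    simp only [hZ, mul_sub, sum_sub_distrib, hg']
    congr 1
    rw [← hv' i, mul_sum]
    refine sum_congr rfl fun k _ => ?_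
    ring
  have hZ0 : ∀ M, ∑ i, w i * Z M i = 0 := by
    intro M
    simp only [hZ, mul_sub, sum_sub_distrib, hinv]
    have : ∑ i, w i * (γ * sv⁻¹ * v i) = γ * sv⁻¹ * sv := by
      rw [hsv, mul_sum]
      exact sum_congr rfl fun i _ => by ring
    rw [this, mul_assoc, mul_comm sv⁻¹, hsi, mul_one, sub_self]
  set π : ι → ℂ := fun i => coeff 0 (v i) with hπ
  have hπ1 : ∑ i, π i = 1 := by
    have h1 := congrArg (coeff 0) hvs
    rw [map_sum, coeff_zero_eq_constantCoeff_apply, map_one] at h1
    exact h1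
  have hπ2 : act P π = π := by
    funext i
    have h1 := congrArg (coeff 0) (hv' i)
    rw [map_sum] at h1
    rw [hπ]
    simp only
    rw [← h1]
    unfold act
    refine sum_congr rfl fun k _ => ?_
    rw [← hU i k]
    simp only [coeff_zero_eq_constantCoeff_apply, map_mul]
  have key : ∀ j, Summable (fun M => ∑ i, ‖coeff j (Z M i)‖) := by
    intro j
    induction j using Nat.strong_induction_on with
    | _ j ih =>
      have ihi : ∀ k, k < j → ∀ i, Summable (fun M => ‖coeff k (Z M i)‖) := by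
        intro k hk i
        refine Summable.of_nonneg_of_le (fun _ => norm_nonneg _) (fun M => ?_) (ih k hk)
        exact single_le_sum (f := fun i => ‖coeff k (Z M i)‖) (fun i _ => norm_nonneg _) (mem_univ i)
      set F := (antidiagonal j).filter (fun p => p.2 < j) with hF
      set b : ℕ → ι → ℂ := fun M i => ∑ k, ∑ p ∈ F, coeff p.1 (U i k) * coeff p.2 (Z M k) with hb
      set σ : ℕ → ℂ := fun M => ∑ i, coeff j (Z M i) with hσ
      have hσ1 : ∀ M, σ M = -∑ i, ∑ p ∈ F, coeff p.1 (w i) * coeff p.2 (Z M i) := by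
        intro M
        have h1 := congrArg (coeff j) (hZ0 M)
        rw [map_sum, map_zero] at h1
        simp only [coeff_mul_lt', hw0, one_mul, sum_add_distrib] at h1
        rw [hσ]
        exact eq_neg_of_add_eq_zero_left h1
      have bsum : Summable (fun M => ∑ i, ‖b M i‖) := by
        refine Summable.of_nonneg_of_le (fun M => sum_nonneg fun i _ => norm_nonneg _)
          (f := fun M => ∑ i, ∑ k, ∑ p ∈ F, ‖coeff p.1 (U i k)‖ * ‖coeff p.2 (Z M k)‖) (fun M => ?_) ?_
        · refine sum_le_sum fun i _ => ?_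
          refine (norm_sum_le _ _).trans (sum_le_sum fun k _ => ?_)
          refine (norm_sum_le _ _).trans (sum_le_sum fun p _ => ?_)
          rw [norm_mul]
        · refine summable_sum fun i _ => summable_sum fun k _ => summable_sum fun p hp => ?_
          exact (ihi p.2 (mem_filter.1 hp).2 k).mul_left _
      have ssum : Summable (fun M => ‖σ M‖) := by
        refine Summable.of_nonneg_of_le (fun M => norm_nonneg _)
          (f := fun M => ∑ i, ∑ p ∈ F, ‖coeff p.1 (w i)‖ * ‖coeff p.2 (Z M i)‖) (fun M => ?_) ?_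
        · rw [hσ1, norm_neg]
          refine (norm_sum_le _ _).trans (sum_le_sum fun k _ => ?_)
          refine (norm_sum_le _ _).trans (sum_le_sum fun p _ => ?_)
          rw [norm_mul]
        · refine summable_sum fun k _ => summable_sum fun p hp => ?_
          exact (ihi p.2 (mem_filter.1 hp).2 k).mul_left _
      set z : ℕ → ι → ℂ := fun M i => coeff j (Z M i) - σ M * π i with hz
      set e : ℕ → ι → ℂ := fun M i => b M i + (σ M - σ (M + 1)) * π i with he
      have hzs : Summable (fun M => ∑ i, ‖z M i‖) := by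
        refine summable_of_contract P hP hc K s hη hK z e (fun M => ?_) (fun M => ?_) ?_
        · simp only [hz, sum_sub_distrib, ← mul_sum, hπ1, mul_one]
          exact sub_self _
        · funext i
          have h1 : coeff j (Z (M + 1) i) = ∑ k, (P i k : ℂ) * coeff j (Z M k) + b M i := by
            rw [hZ1, map_sum, hb]
            simp only [coeff_mul_lt', hU, sum_add_distrib]
            rfl
          have h2 : act P (z M) i = ∑ k, (P i k : ℂ) * coeff j (Z M k) - σ M * π i := by
            have h3 := congrFun hπ2 i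
            unfold act at h3 ⊢
            rw [hz]
            simp only [mul_sub, sum_sub_distrib]
            congr 1
            rw [← h3, mul_sum]
            refine sum_congr rfl fun k _ => ?_
            ring
          show z (M + 1) i = act P (z M) i + e M i
          rw [h2]
          simp only [hz, he, h1]
          ring
        · refine Summable.of_nonneg_of_le (fun M => sum_nonneg fun i _ => norm_nonneg _)
            (f := fun M => ∑ i, ‖b M i‖ + (‖σ M‖ + ‖σ (M + 1)‖) * ∑ i, ‖π i‖) (fun M => ?_) ?_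
          · rw [mul_sum, ← sum_add_distrib]
            refine sum_le_sum fun i _ => ?_
            simp only [he]
            refine (norm_add_le _ _).trans (add_le_add le_rfl ?_)
            rw [norm_mul]
            exact mul_le_mul_of_nonneg_right (norm_sub_le _ _) (norm_nonneg _)
          · exact bsum.add ((ssum.add ((summable_nat_add_iff 1).2 ssum)).mul_right _)
      refine Summable.of_nonneg_of_le (fun M => sum_nonneg fun i _ => norm_nonneg _)
        (f := fun M => ∑ i, ‖z M i‖ + ‖σ M‖ * ∑ i, ‖π i‖) (fun M => ?_) (hzs.add (ssum.mul_right _))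
      rw [mul_sum, ← sum_add_distrib]
      refine sum_le_sum fun i _ => ?_
      have : coeff j (Z M i) = z M i + σ M * π i := by simp only [hz]; ring
      rw [this]
      refine (norm_add_le _ _).trans (add_le_add le_rfl ?_)
      rw [norm_mul]
  obtain ⟨C, hC⟩ := (key j).tendsto_atTop_zero.bddAbove_range
  refine ⟨C + ∑ i, ‖coeff j (γ * sv⁻¹ * v i)‖, fun M i => ?_⟩
  have h1 : g M i = Z M i + γ * sv⁻¹ * v i := by simp only [hZ]; ring
  rw [h1, map_add]
  refine (norm_add_le _ _).trans (add_le_add ?_ ?_)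
  · refine le_trans ?_ (hC ⟨M, rfl⟩)
    exact single_le_sum (f := fun i => ‖coeff j (Z M i)‖) (fun i _ => norm_nonneg _) (mem_univ i)
  · exact single_le_sum (f := fun i => ‖coeff j (γ * sv⁻¹ * v i)‖) (fun i _ => norm_nonneg _)
      (mem_univ i)

end formal

end Pool.Agent.Zk36.CG
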