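import Pool.Agent.Zk36.CG.Pr1
import Pool.Agent.Zk36.CG.FN
import Pool.Agent.H974R3.Markov
import Pool.Agent.H906R3.K6.P1
import Pool.Agent.H906R3.K6.P2a
import Pool.Agent.H906R3.K6.E2

/-!
# Weighted transfer matrices
-/

set_option autoImplicit false

namespace Pool.Agent.Zk36.CG

open Finset H906K Pool.Agent.H974R3 Filter Topology

section trans
variable {R : Type*} [CommRing R]

/-- transfer matrix with the weight `φ` of the displacement -/
noncomputable def Aw (n : ℕ) (φ : ℤ → R) : Matrix (Pat (2 * n + 1)) (Pat (2 * n + 1)) R :=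
  fun τ σ => ∑ r : Fin (2 * n + 1) → Bool,
    if Tc (2 * n) r σ = τ then φ (dTc (2 * n) r σ) else 0

/-- weighted number of configurations leading from `σ` to `τ` -/
noncomputable def Gw (n : ℕ) (φ : ℤ → R) (M : ℕ) (τ σ : Pat (2 * n + 1)) : R :=
  ∑ c : Fin M → Fin (2 * n + 1) → Bool,
    if (run (2 * n) M c σ).1 = τ then φ (run (2 * n) M c σ).2 else 0

theorem Gw_eq (n : ℕ) (φ : ℤ → R) (hφ : ∀ a b, φ (a + b) = φ a * φ b) (h0 : φ 0 = 1) (M : ℕ) :
    ∀ τ σ, Gw n φ M τ σ = (Aw n φ ^ M) τ σ := by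
  induction M with
  | zero =>
    intro τ σ
    rw [pow_zero, Matrix.one_apply]
    unfold Gw
    simp only [run, h0]
    rw [Finset.sum_const]
    have : (univ : Finset (Fin 0 → Fin (2 * n + 1) → Bool)).card = 1 := by
      rw [Finset.card_univ]; simp
    rw [this, one_smul]
    by_cases h : σ = τ
    · rw [if_pos h, if_pos h.symm]
    · rw [if_neg h, if_neg (Ne.symm h)]
  | succ M ih =>
    intro τ σ
    rw [pow_succ', Matrix.mul_apply]
    simp only [← ih]
    have key : ∀ c : Fin M → Fin (2 * n + 1) → Bool,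
        (∑ ρ, Aw n φ τ ρ * (if (run (2 * n) M c σ).1 = ρ then φ (run (2 * n) M c σ).2 else 0)) =
        ∑ r : Fin (2 * n + 1) → Bool, if Tc (2 * n) r (run (2 * n) M c σ).1 = τ then
          φ (run (2 * n) M c σ).2 * φ (dTc (2 * n) r (run (2 * n) M c σ).1) else 0 := by
      intro c
      rw [Finset.sum_eq_single (run (2 * n) M c σ).1]
      · rw [if_pos rfl]
        unfold Aw
        rw [sum_mul]
        refine sum_congr rfl fun r _ => ?_
        split_ifs
        · ring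
        · ring
      · intro ρ _ hρ
        rw [if_neg (Ne.symm hρ), mul_zero]
      · intro h; exact absurd (mem_univ _) h
    have key2 : (∑ ρ, Aw n φ τ ρ * Gw n φ M ρ σ) = ∑ c : Fin M → Fin (2 * n + 1) → Bool,
        ∑ ρ, Aw n φ τ ρ * (if (run (2 * n) M c σ).1 = ρ then φ (run (2 * n) M c σ).2 else 0) := by
      unfold Gw
      simp_rw [Finset.mul_sum]
      exact Finset.sum_comm
    rw [key2]
    unfold Gw
    rw [p2_snoc]
    simp only [p2_run, hφ]
    exact (sum_congr rfl fun c _ => key c).symm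

theorem sum_Gw (n : ℕ) (φ : ℤ → R) (M : ℕ) (σ : Pat (2 * n + 1)) :
    ∑ τ, Gw n φ M τ σ = ∑ c : Fin M → Fin (2 * n + 1) → Bool, φ (run (2 * n) M c σ).2 := by
  unfold Gw
  rw [sum_comm]
  refine sum_congr rfl fun c _ => ?_
  rw [Finset.sum_eq_single (run (2 * n) M c σ).1]
  · rw [if_pos rfl]
  · intro ρ _ hρ
    rw [if_neg (Ne.symm hρ)]
  · intro h; exact absurd (mem_univ _) h

end trans

theorem Aw_formal (n : ℕ) : Aw n (fun d => expI (d : ℂ)) = TL (2 * n) (PowerSeries.C om) 1 ez := by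
  funext τ σ
  unfold Aw TL
  simp only [p2_wt, Finset.prod_const_one, one_mul, p2_ez]

/-! ## reachability -/

theorem Aw_nonneg (n : ℕ) {φ : ℤ → ℝ} (h : ∀ a, 0 < φ a) (τ σ : Pat (2 * n + 1)) :
    0 ≤ Aw n φ τ σ := by
  unfold Aw
  refine sum_nonneg fun r _ => ?_
  split_ifs
  · exact (h _).le
  · exact le_rfl

theorem Aw_pow_nonneg (n : ℕ) {φ : ℤ → ℝ} (h : ∀ a, 0 < φ a) (M : ℕ) :
    ∀ τ σ : Pat (2 * n + 1), 0 ≤ (Aw n φ ^ M) τ σ := by
  induction M with
  | zero =>
    intro τ σ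
    rw [pow_zero, Matrix.one_apply]
    split_ifs <;> norm_num
  | succ M ih =>
    intro τ σ
    rw [pow_succ, Matrix.mul_apply]
    exact sum_nonneg fun ρ _ => mul_nonneg (ih _ _) (Aw_nonneg n h _ _)

theorem Aw_pos (n : ℕ) {φ : ℤ → ℝ} (h : ∀ a, 0 < φ a) (c : Fin (2 * n + 1) → Bool)
    (σ : Pat (2 * n + 1)) : 0 < Aw n φ (Tc (2 * n) c σ) σ := by
  unfold Aw
  refine sum_pos' (fun r _ => ?_) ⟨c, mem_univ c, ?_⟩
  · split_ifs
    · exact (h _).le
    · exact le_rfl
  · rw [if_pos rfl]; exact h _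

theorem word_pos (n : ℕ) {φ : ℤ → ℝ} (h : ∀ a, 0 < φ a) {K : ℕ}
    {w : Pat (2 * n + 1) → Pat (2 * n + 1)} (hw : IsWord (2 * n) K w) (σ : Pat (2 * n + 1)) :
    0 < (Aw n φ ^ K) (w σ) σ := by
  induction hw with
  | id => simp
  | step c w K hw ih =>
    rw [pow_succ', Matrix.mul_apply]
    refine sum_pos' (fun ρ _ => mul_nonneg (Aw_nonneg n h _ _) (Aw_pow_nonneg n h _ _ _))
      ⟨w σ, mem_univ _, ?_⟩
    exact mul_pos (Aw_pos n h c (w σ)) ih

theorem start_arcs (n : ℕ) (j : ℕ) (hj : j < n) :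
    (start n).1 (some (ix (2 * n) (2 * j))) = some (ix (2 * n) (2 * j + 1)) := by
  obtain ⟨h1, h2⟩ := p1_start n
  have e1 : (ix (2 * n) (2 * j)).val = 2 * j := by
    show (2 * j) % (2 * n + 1) = 2 * j
    exact Nat.mod_eq_of_lt (by omega)
  have e2 : (ix (2 * n) (2 * j + 1)).val = 2 * j + 1 := by
    show (2 * j + 1) % (2 * n + 1) = 2 * j + 1
    exact Nat.mod_eq_of_lt (by omega)
  rcases h3 : (start n).1 (some (ix (2 * n) (2 * j))) with _ | l
  · exfalso
    have h4 := (start n).2.inv (some (ix (2 * n) (2 * j)))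
    rw [h3, h1] at h4
    have h5 := congrArg Fin.val (Option.some.inj h4)
    rw [e1, Fin.val_last] at h5
    omega
  · obtain ⟨i, hi, h4⟩ := h2 _ _ h3
    rw [e1] at h4
    congr 1
    apply Fin.ext
    rw [e2]
    omega

/-- every pattern can be sent to the initial pattern by one word -/
theorem exists_start (n : ℕ) : ∃ K w, IsWord (2 * n) K w ∧ ∀ σ, w σ = start n := by
  obtain ⟨K, w, hw, h⟩ := MK.phase1 n n le_rfl
  exact ⟨K, w, hw, fun σ => MK.std_unique _ _ (h σ) (start_arcs n)⟩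

theorem exists_row (n : ℕ) : ∃ K : ℕ, ∀ φ : ℤ → ℝ, (∀ a, 0 < φ a) →
    ∀ σ, 0 < (Aw n φ ^ K) (start n) σ := by
  obtain ⟨K, w, hw, h⟩ := exists_start n
  refine ⟨K, fun φ hφ σ => ?_⟩
  have := word_pos n hφ hw σ
  rwa [h σ] at this

/-! ## the stochastic matrix -/

/-- transition matrix -/
noncomputable def Pm (n : ℕ) : Matrix (Pat (2 * n + 1)) (Pat (2 * n + 1)) ℝ :=
  ((2:ℝ) ^ (2 * n + 1))⁻¹ • Aw n (fun _ => (1:ℝ))

theorem Pm_nonneg (n : ℕ) (τ σ : Pat (2 * n + 1)) : 0 ≤ Pm n τ σ :=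
  mul_nonneg (by positivity) (Aw_nonneg n (fun _ => one_pos) τ σ)

theorem Pm_col (n : ℕ) (σ : Pat (2 * n + 1)) : ∑ τ, Pm n τ σ = 1 := by
  unfold Pm
  simp only [Matrix.smul_apply, smul_eq_mul, ← mul_sum]
  have h1 : ∑ τ, Aw n (fun _ => (1:ℝ)) τ σ = 2 ^ (2 * n + 1) := by
    unfold Aw
    rw [sum_comm]
    simp
  rw [h1]
  exact inv_mul_cancel₀ (by positivity)

theorem Pm_row (n : ℕ) : ∃ (K : ℕ) (η : ℝ), 0 < η ∧
    ∀ i j, (if i = start n then η else 0) ≤ (Pm n ^ K) i j := by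
  obtain ⟨K, hK⟩ := exists_row n
  have h1 := hK (fun _ => 1) (fun _ => one_pos)
  have : Nonempty (Pat (2 * n + 1)) := ⟨start n⟩
  obtain ⟨j0, hj0⟩ := Finite.exists_min (fun j => (Aw n (fun _ => (1:ℝ)) ^ K) (start n) j)
  refine ⟨K, (((2:ℝ) ^ (2 * n + 1))⁻¹) ^ K * (Aw n (fun _ => (1:ℝ)) ^ K) (start n) j0,
    mul_pos (by positivity) (h1 j0), fun i j => ?_⟩
  unfold Pm
  rw [smul_pow, Matrix.smul_apply, smul_eq_mul]
  split_ifs with h
  · rw [h]
    exact mul_le_mul_of_nonneg_left (hj0 j) (by positivity)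
  · exact mul_nonneg (by positivity) (Aw_pow_nonneg n (fun _ => one_pos) K i j)

/-! ## the formal generating function -/

/-- generating function of the displacement -/
noncomputable def Fm (n M : ℕ) : PS :=
  ∑ c : Fin M → Fin (2 * n + 1) → Bool, expI ((run (2 * n) M c (start n)).2 : ℂ)

theorem expI_add' (a b : ℤ) : expI ((a + b : ℤ) : ℂ) = expI (a : ℂ) * expI (b : ℂ) := by
  rw [expI_mul]; push_cast; rfl

/-- the generating function divided by the power of the eigenvalue has bounded coefficients -/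
theorem Fm_bdd (n : ℕ) {v w : Pat (2 * n + 1) → PS} {L : PS} (hL0 : PowerSeries.coeff 0 L = 2 ^ (2 * n + 1))
    (hvs : ∑ i, v i = 1) (hv : (TL (2 * n) (PowerSeries.C om) 1 ez).mulVec v = L • v)
    (hw0 : ∀ i, PowerSeries.coeff 0 (w i) = 1)
    (hw : (TL (2 * n) (PowerSeries.C om) 1 ez).vecMul w = L • w) (j : ℕ) :
    ∃ C : ℝ, ∀ M, ‖PowerSeries.coeff j (L⁻¹ ^ M * Fm n M)‖ ≤ C := by
  obtain ⟨K, η, hη, hK⟩ := Pm_row n
  have hLc : PowerSeries.constantCoeff L ≠ 0 := by
    rw [← PowerSeries.coeff_zero_eq_constantCoeff_apply, hL0]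
    exact pow_ne_zero _ two_ne_zero
  have hLi : L⁻¹ * L = 1 := PowerSeries.inv_mul_cancel _ hLc
  set A := TL (2 * n) (PowerSeries.C om) 1 ez with hA
  set U : Matrix (Pat (2 * n + 1)) (Pat (2 * n + 1)) PS := L⁻¹ • A with hU
  have hU0 : ∀ i j, PowerSeries.coeff 0 (U i j) = (Pm n i j : ℂ) := by
    intro i j
    rw [hU, Matrix.smul_apply, smul_eq_mul, PowerSeries.coeff_zero_eq_constantCoeff_apply, map_mul,
      PowerSeries.constantCoeff_inv, ← PowerSeries.coeff_zero_eq_constantCoeff_apply, hL0,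
      ← PowerSeries.coeff_zero_eq_constantCoeff_apply, hA, e2_coeff]
    simp only [Pm, Matrix.smul_apply, smul_eq_mul]
    unfold Aw
    push_cast
    congr 1
    refine sum_congr rfl fun c _ => ?_
    split_ifs <;> simp
  set g : ℕ → Pat (2 * n + 1) → PS := fun M τ =>
    L⁻¹ ^ M * Gw n (fun d => expI (d : ℂ)) M τ (start n) with hg
  have hG := Gw_eq n (fun d => expI (d : ℂ)) expI_add' (by simp only [Int.cast_zero]; exact expI_zero)
  have hgrec : ∀ M, g (M + 1) = U.mulVec (g M) := by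
    intro M
    funext τ
    simp only [hg, hG, Aw_formal]
    rw [pow_succ' (TL (2 * n) (PowerSeries.C om) 1 ez), Matrix.mul_apply, mul_sum]
    show _ = ∑ σ, U τ σ * _
    refine sum_congr rfl fun σ _ => ?_
    rw [hU, Matrix.smul_apply, smul_eq_mul, pow_succ]
    ring
  have hvU : U.mulVec v = v := by
    rw [hU, Matrix.smul_mulVec, hv, smul_smul, hLi, one_smul]
  have hwU : U.vecMul w = w := by
    rw [hU, Matrix.vecMul_smul, hw, smul_smul, hLi, one_smul]
  obtain ⟨C, hC⟩ := formal_bdd (Pm n) (Pm_nonneg n) (Pm_col n) K (start n) hη hK U hU0 w v hw0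
    hwU hvs hvU g hgrec j
  refine ⟨∑ _i : Pat (2 * n + 1), C, fun M => ?_⟩
  have e : L⁻¹ ^ M * Fm n M = ∑ τ, g M τ := by
    unfold Fm
    rw [← sum_Gw n (fun d => expI (d : ℂ)) M (start n), mul_sum]
  rw [e, map_sum]
  exact (norm_sum_le _ _).trans (sum_le_sum fun i _ => hC M i)

/-- coefficients of the logarithm of a bounded family -/
theorem lg_bdd {h : ℕ → PS} (h0 : ∀ M, PowerSeries.constantCoeff (h M) = 1)
    (hb : ∀ j, ∃ C : ℝ, ∀ M, ‖PowerSeries.coeff j (h M)‖ ≤ C) (j : ℕ) :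
    ∃ C : ℝ, ∀ M, ‖PowerSeries.coeff j (lg (h M))‖ ≤ C := by
  have hi : ∀ j, ∃ C : ℝ, ∀ M, ‖PowerSeries.coeff j (h M)⁻¹‖ ≤ C := by
    intro j
    induction j using Nat.strong_induction_on with
    | _ j ih =>
      rcases j with _ | j
      · refine ⟨1, fun M => ?_⟩
        rw [inv_zero', h0, inv_one, norm_one]
      · choose A hA using hb
        have hex : ∀ i, ∃ B : ℝ, i < j + 1 → ∀ M, ‖PowerSeries.coeff i (h M)⁻¹‖ ≤ B := by
          intro i
          by_cases hi : i < j + 1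
          · obtain ⟨B, hB⟩ := ih i hi
            exact ⟨B, fun _ => hB⟩
          · exact ⟨0, fun h => absurd h hi⟩
        choose B hB using hex
        refine ⟨∑ p ∈ (antidiagonal (j + 1)).filter (fun p => p.2 < j + 1), |A p.1| * |B p.2|,
          fun M => ?_⟩
        rw [inv_rec (by rw [h0]; exact one_ne_zero) j, h0, inv_one, norm_mul, norm_neg, norm_one,
          one_mul]
        refine (norm_sum_le _ _).trans (sum_le_sum fun p hp => ?_)
        rw [norm_mul]
        exact mul_le_mul ((hA _ M).trans (le_abs_self _))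
          ((hB _ (mem_filter.1 hp).2 M).trans (le_abs_self _)) (norm_nonneg _) (abs_nonneg _)
  choose A hA using hb
  choose B hB using hi
  refine ⟨∑ p ∈ antidiagonal j, (p.1 * |A p.1|) * |B p.2|, fun M => ?_⟩
  unfold lg
  rw [PowerSeries.coeff_mul]
  refine (norm_sum_le _ _).trans (sum_le_sum fun p _ => ?_)
  rw [norm_mul, th_coeff, norm_mul, Complex.norm_natCast]
  have h1 := (hA p.1 M).trans (le_abs_self _)
  have h2 := (hB p.2 M).trans (le_abs_self _)
  gcongr

theorem lg_pow {a : PS} (ha : PowerSeries.constantCoeff a ≠ 0) (M : ℕ) : lg (a ^ M) = (M : PS) * lg a := by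
  induction M with
  | zero =>
    rw [pow_zero, Nat.cast_zero, zero_mul]
    unfold lg
    rw [th_one, zero_mul]
  | succ M ih =>
    rw [pow_succ, lg_mul (by rw [map_pow]; exact pow_ne_zero _ ha) ha, ih]
    push_cast
    ring

/-- formal cumulants -/
theorem Fm_lg (n : ℕ) {v w : Pat (2 * n + 1) → PS} {L : PS} (hL0 : PowerSeries.coeff 0 L = 2 ^ (2 * n + 1))
    (hvs : ∑ i, v i = 1) (hv : (TL (2 * n) (PowerSeries.C om) 1 ez).mulVec v = L • v)
    (hw0 : ∀ i, PowerSeries.coeff 0 (w i) = 1)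
    (hw : (TL (2 * n) (PowerSeries.C om) 1 ez).vecMul w = L • w) (j : ℕ) :
    Tendsto (fun M : ℕ => PowerSeries.coeff j (lg (Fm n M)) / M) atTop
      (𝓝 (PowerSeries.coeff j (lg L))) := by
  have hLc : PowerSeries.constantCoeff L ≠ 0 := by
    rw [← PowerSeries.coeff_zero_eq_constantCoeff_apply, hL0]
    exact pow_ne_zero _ two_ne_zero
  have hLi : L * L⁻¹ = 1 := PowerSeries.mul_inv_cancel _ hLc
  have hF0 : ∀ M, PowerSeries.constantCoeff (Fm n M) = ((2:ℂ) ^ (2 * n + 1)) ^ M := by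
    intro M
    unfold Fm
    rw [map_sum]
    simp only [expI_zero_coeff, sum_const, Finset.card_univ, nsmul_eq_mul, mul_one]
    simp
  have h0 : ∀ M, PowerSeries.constantCoeff (L⁻¹ ^ M * Fm n M) = 1 := by
    intro M
    rw [map_mul, map_pow, PowerSeries.constantCoeff_inv, hF0,
      ← PowerSeries.coeff_zero_eq_constantCoeff_apply, hL0, ← mul_pow, inv_mul_cancel₀
      (pow_ne_zero _ two_ne_zero), one_pow]
  obtain ⟨C, hC⟩ := lg_bdd h0 (Fm_bdd n hL0 hvs hv hw0 hw) j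
  have e : ∀ M, Fm n M = L ^ M * (L⁻¹ ^ M * Fm n M) := by
    intro M
    rw [← mul_assoc, ← mul_pow, hLi, one_pow, one_mul]
  have e2 : ∀ M : ℕ, PowerSeries.coeff j (lg (Fm n M)) = M * PowerSeries.coeff j (lg L) +
      PowerSeries.coeff j (lg (L⁻¹ ^ M * Fm n M)) := by
    intro M
    conv_lhs => rw [e M]
    rw [lg_mul (by rw [map_pow]; exact pow_ne_zero _ hLc) (by rw [h0]; exact one_ne_zero),
      lg_pow hLc, map_add]
    congr 1
    rw [← map_natCast (PowerSeries.C (R := ℂ)), PowerSeries.coeff_C_mul]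
  have h3 : Tendsto (fun M : ℕ => PowerSeries.coeff j (lg (L⁻¹ ^ M * Fm n M)) / M) atTop (𝓝 0) := by
    rw [tendsto_zero_iff_norm_tendsto_zero]
    have h4 : Tendsto (fun M : ℕ => C / (M : ℝ)) atTop (𝓝 0) :=
      tendsto_const_nhds.div_atTop tendsto_natCast_atTop_atTop
    refine squeeze_zero (fun _ => norm_nonneg _) (fun M => ?_) h4
    rw [norm_div, Complex.norm_natCast]
    gcongr
    exact hC M
  have h5 := (tendsto_const_nhds (x := PowerSeries.coeff j (lg L))).add h3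
  rw [add_zero] at h5
  refine h5.congr' ?_
  filter_upwards [eventually_gt_atTop 0] with M hM
  have hM' : (M : ℂ) ≠ 0 := by exact_mod_cast hM.ne'
  rw [e2 M]
  field_simp

end Pool.Agent.Zk36.CG
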