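import Pool.Agent.Zk36.CG.Pr2
import Pool.Agent.Zk36.CG.Lim2
import Pool.Agent.Zk36.CG.Build3
import Pool.Agent.H906R3.K6.E3

/-!
# Cumulants
-/

set_option autoImplicit false

namespace Pool.Agent.Zk36.CG

open Finset H906K Pool.Agent.H974R3 Filter Topology
open scoped ContDiff

theorem Xd_run (n M : ℕ) (c : Fin M → Fin (2 * n + 1) → Bool) :
    Xd n M c = (run (2 * n) M c (start n)).2 :=
  (end_run n M c _).1 (Classical.epsilon_spec (p := End n M c) ⟨_, (end_run n M c _).2 rfl⟩)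

/-- exponential moments of the displacement -/
noncomputable def Mg (n M : ℕ) (θ : ℝ) : ℝ := Ex n M (fun c => Real.exp (θ * (Xd n M c : ℝ)))

theorem Mg_eq (n M : ℕ) : Mg n M = fun θ => ∑ c : Fin M → Fin (2 * n + 1) → Bool,
    (2 ^ ((2 * n + 1) * M))⁻¹ * Real.exp ((Xd n M c : ℝ) * θ) := by
  funext θ
  unfold Mg Ex
  rw [div_eq_inv_mul, mul_sum]
  refine sum_congr rfl fun c _ => ?_
  rw [mul_comm θ]

theorem Mg_pos (n M : ℕ) (θ : ℝ) : 0 < Mg n M θ := by
  rw [Mg_eq]
  refine sum_pos (fun c _ => by positivity) ⟨fun _ _ => true, mem_univ _⟩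

theorem Mg_smooth (n M : ℕ) : ContDiff ℝ ∞ (Mg n M) := by
  rw [Mg_eq]
  refine ContDiff.sum fun c _ => ?_
  exact contDiff_const.mul (Real.contDiff_exp.comp (contDiff_const.mul contDiff_id))

theorem Mg_deriv (n M k : ℕ) : iteratedDeriv k (Mg n M) 0 =
    (2 ^ ((2 * n + 1) * M))⁻¹ * ∑ c : Fin M → Fin (2 * n + 1) → Bool, (Xd n M c : ℝ) ^ k := by
  rw [Mg_eq, iteratedDeriv_fun_sum, mul_sum]
  · refine sum_congr rfl fun c _ => ?_
    rw [iteratedDeriv_const_mul_field, iteratedDeriv_exp_const_mul]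
    simp
  · intro c _
    exact (contDiff_const.mul (Real.contDiff_exp.comp (contDiff_const.mul contDiff_id))).contDiffAt

/-- Taylor series at `0` -/
noncomputable def Tay (f : ℝ → ℝ) : PS :=
  PowerSeries.mk fun k => ((iteratedDeriv k f 0 / (k.factorial : ℝ) : ℝ) : ℂ)

theorem Tay_coeff (f : ℝ → ℝ) (k : ℕ) :
    PowerSeries.coeff k (Tay f) = ((iteratedDeriv k f 0 / (k.factorial : ℝ) : ℝ) : ℂ) :=
  PowerSeries.coeff_mk _ _

theorem Tay_mul {f g : ℝ → ℝ} (hf : ContDiff ℝ ∞ f) (hg : ContDiff ℝ ∞ g) :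
    Tay (f * g) = Tay f * Tay g := by
  ext k
  rw [PowerSeries.coeff_mul, Tay_coeff, iteratedDeriv_mul
    (hf.contDiffAt.of_le (by exact_mod_cast le_top)) (hg.contDiffAt.of_le (by exact_mod_cast le_top))]
  simp only [Tay_coeff]
  rw [Finset.Nat.sum_antidiagonal_eq_sum_range_succ (fun i j =>
    ((iteratedDeriv i f 0 / (i.factorial : ℝ) : ℝ) : ℂ) *
      ((iteratedDeriv j g 0 / (j.factorial : ℝ) : ℝ) : ℂ)) k, sum_div]
  push_cast
  refine sum_congr rfl fun i hi => ?_
  have hik : i ≤ k := by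
    have := mem_range.1 hi
    omega
  have h1 : (k.factorial : ℂ) = (k.choose i : ℂ) * (i.factorial : ℂ) * ((k - i).factorial : ℂ) := by
    exact_mod_cast (Nat.choose_mul_factorial_mul_factorial hik).symm
  have h2 : (i.factorial : ℂ) ≠ 0 := by exact_mod_cast i.factorial_ne_zero
  have h3 : ((k - i).factorial : ℂ) ≠ 0 := by exact_mod_cast (k - i).factorial_ne_zero
  have h4 : (k.choose i : ℂ) ≠ 0 := by exact_mod_cast (Nat.choose_pos hik).ne'
  rw [h1]
  field_simp

theorem Tay_deriv (f : ℝ → ℝ) : PowerSeries.X * Tay (deriv f) = th (Tay f) := by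
  ext k
  rw [th_coeff]
  rcases k with _ | k
  · rw [PowerSeries.coeff_zero_X_mul, Nat.cast_zero, zero_mul]
  · rw [PowerSeries.coeff_succ_X_mul, Tay_coeff, Tay_coeff, ← iteratedDeriv_succ',
      Nat.factorial_succ]
    have h2 : (k.factorial : ℂ) ≠ 0 := by exact_mod_cast k.factorial_ne_zero
    have h3 : ((k : ℂ) + 1) ≠ 0 := by exact_mod_cast k.succ_ne_zero
    push_cast
    field_simp

theorem Tay_log {f : ℝ → ℝ} (hf : ContDiff ℝ ∞ f) (hpos : ∀ x, 0 < f x) :
    th (Tay (fun x => Real.log (f x))) = lg (Tay f) := by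
  have hd : Differentiable ℝ f := hf.differentiable (by simp)
  have hl : ContDiff ℝ ∞ (fun x => Real.log (f x)) := hf.log fun x => (hpos x).ne'
  have h1 : deriv (fun x => Real.log (f x)) * f = deriv f := by
    funext x
    show deriv (fun x => Real.log (f x)) x * f x = deriv f x
    rw [deriv.log (hd x) (hpos x).ne', div_mul_cancel₀ _ (hpos x).ne']
  have h2 := Tay_mul (contDiff_infty_iff_deriv.1 hl).2 hf
  rw [h1] at h2
  have h0 : PowerSeries.constantCoeff (Tay f) ≠ 0 := by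
    rw [← PowerSeries.coeff_zero_eq_constantCoeff_apply, Tay_coeff]
    simpa using (hpos 0).ne'
  have h3 : th (Tay (fun x => Real.log (f x))) * Tay f = th (Tay f) := by
    rw [← Tay_deriv, ← Tay_deriv, mul_assoc, ← h2]
  unfold lg
  rw [← h3, mul_assoc, PowerSeries.mul_inv_cancel _ h0, mul_one]

theorem th_rescale (s : ℂ) (F : PS) : th (PowerSeries.rescale s F) = PowerSeries.rescale s (th F) := by
  ext j
  rw [th_coeff, PowerSeries.coeff_rescale, PowerSeries.coeff_rescale, th_coeff]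
  ring

theorem const_rescale (s : ℂ) (F : PS) :
    PowerSeries.constantCoeff (PowerSeries.rescale s F) = PowerSeries.constantCoeff F := by
  rw [← PowerSeries.coeff_zero_eq_constantCoeff_apply, PowerSeries.coeff_rescale, pow_zero, one_mul,
    PowerSeries.coeff_zero_eq_constantCoeff_apply]

theorem lg_rescale (s : ℂ) {F : PS} (h : PowerSeries.constantCoeff F ≠ 0) :
    lg (PowerSeries.rescale s F) = PowerSeries.rescale s (lg F) := by
  have h0 : PowerSeries.constantCoeff (PowerSeries.rescale s F) ≠ 0 := by rwa [const_rescale]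
  have h1 : PowerSeries.rescale s (lg F) * PowerSeries.rescale s F = th (PowerSeries.rescale s F) := by
    rw [← map_mul, lg_spec h, th_rescale]
  conv_lhs => unfold lg
  rw [← h1, mul_assoc, PowerSeries.mul_inv_cancel _ h0, mul_one]

theorem lg_C_mul {a : ℂ} (ha : a ≠ 0) {F : PS} (h : PowerSeries.constantCoeff F ≠ 0) :
    lg (PowerSeries.C a * F) = lg F := by
  rw [lg_mul (by simpa using ha) h]
  have : lg (PowerSeries.C a : PS) = 0 := by
    unfold lg
    rw [th_C, zero_mul]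
  rw [this, zero_add]

/-- cumulants of the displacement -/
noncomputable def cum (n M j : ℕ) : ℝ := iteratedDeriv j (fun θ => Real.log (Mg n M θ)) 0

theorem cum_formal (n M : ℕ) {j : ℕ} (hj : 1 ≤ j) :
    PowerSeries.coeff j (lg (Fm n M)) = Complex.I ^ j * ((cum n M j / ((j - 1).factorial : ℝ) : ℝ) : ℂ) := by
  have h0 : PowerSeries.constantCoeff (Tay (Mg n M)) ≠ 0 := by
    rw [← PowerSeries.coeff_zero_eq_constantCoeff_apply, Tay_coeff]
    simpa using (Mg_pos n M 0).ne'
  have h2 : ((2:ℂ) ^ ((2 * n + 1) * M)) ≠ 0 := pow_ne_zero _ two_ne_zero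
  have e : Fm n M = PowerSeries.C ((2:ℂ) ^ ((2 * n + 1) * M)) *
      PowerSeries.rescale Complex.I (Tay (Mg n M)) := by
    ext k
    rw [PowerSeries.coeff_C_mul, PowerSeries.coeff_rescale, Tay_coeff, Mg_deriv]
    unfold Fm
    rw [map_sum]
    simp only [FD.expI_coeff, ← Xd_run]
    push_cast
    rw [mul_div_assoc, sum_div, mul_sum, mul_sum, mul_sum]
    refine sum_congr rfl fun c _ => ?_
    rw [mul_pow]
    field_simp
  rw [e, lg_C_mul h2 (by rwa [const_rescale]), lg_rescale _ h0, ← Tay_log (Mg_smooth n M) (Mg_pos n M),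
    PowerSeries.coeff_rescale, th_coeff, Tay_coeff]
  congr 1
  unfold cum
  obtain ⟨i, rfl⟩ := Nat.exists_eq_succ_of_ne_zero (by omega : j ≠ 0)
  rw [Nat.succ_sub_one, Nat.factorial_succ]
  have h3 : (i.factorial : ℂ) ≠ 0 := by exact_mod_cast i.factorial_ne_zero
  have h4 : ((i : ℂ) + 1) ≠ 0 := by exact_mod_cast i.succ_ne_zero
  push_cast
  field_simp

/-- the formal eigenvalue of the model -/
structure FE (n : ℕ) (L : PS) : Prop where
  ex : ∃ (v : Pat (2 * n + 1) → PS) (t : Polynomial PS) (w : Pat (2 * n + 1) → PS),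
    L = t.eval 1 ∧ TSpec n t ∧ ∑ i, v i = 1 ∧ (∀ i, PowerSeries.coeff 0 (w i) = 1) ∧
    (TL (2 * n) (PowerSeries.C om) 1 ez).mulVec v = L • v ∧
    (TL (2 * n) (PowerSeries.C om) 1 ez).vecMul w = L • w
  L0 : PowerSeries.coeff 0 L = 2 ^ (2 * n + 1)

theorem exists_FE (n : ℕ) : ∃ L, FE n L := by
  obtain ⟨v, t, hv, hd, ht, w, hw, hwL⟩ := exists_t n
  have hsp := tspec n v t hv hd ht
  have hL0 : PowerSeries.coeff 0 (t.eval 1) = 2 ^ (2 * n + 1) := by
    have := congrArg (PowerSeries.coeff 0) (p2_row hwL (start n))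
    rw [map_sum, p2_mul0, hw, mul_one] at this
    simp only [p2_mul0, hw, p2_exp0, mul_one] at this
    rw [← this]
    simp
  refine ⟨t.eval 1, ⟨v, t, w, rfl, hsp, hv, hw, ?_, hwL⟩, hL0⟩
  funext σ
  have h1 := congrArg (Polynomial.eval 1) (congrFun ht σ)
  simp only [Matrix.mulVec, dotProduct, Pi.smul_apply, smul_eq_mul, Polynomial.eval_mul,
    Polynomial.eval_finset_sum, Polynomial.eval_C] at h1 ⊢
  rw [← h1]
  refine sum_congr rfl fun τ _ => ?_
  rw [← e2_eval]
  simp [Matrix.map_apply]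

end Pool.Agent.Zk36.CG
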