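import Pool.Agent.Zk36.CG.Pr3

/-!
# Limits of the cumulants
-/

set_option autoImplicit false

namespace Pool.Agent.Zk36.CG

open Finset H906K Pool.Agent.H974R3 Filter Topology

/-- `(1/i)^j [ε^j] (ε L'/L)` -/
noncomputable def cf (L : PS) (j : ℕ) : ℂ := Complex.I⁻¹ ^ j * PowerSeries.coeff j (lg L)

theorem FE.lim {n : ℕ} {L : PS} (h : FE n L) (j : ℕ) :
    Tendsto (fun M : ℕ => PowerSeries.coeff j (lg (Fm n M)) / M) atTop
      (𝓝 (PowerSeries.coeff j (lg L))) := by
  obtain ⟨v, t, w, -, -, hv, hw, hv', hw'⟩ := h.ex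
  exact Fm_lg n h.L0 hv hv' hw hw' j

theorem FE.lim' {n : ℕ} {L : PS} (h : FE n L) {j : ℕ} (hj : 1 ≤ j) :
    Tendsto (fun M : ℕ => ((cum n M j / ((j - 1).factorial : ℝ) / M : ℝ) : ℂ)) atTop
      (𝓝 (cf L j)) := by
  have h1 := (h.lim j).const_mul (Complex.I⁻¹ ^ j)
  refine h1.congr fun M => ?_
  rw [cum_formal n M hj]
  have hI : Complex.I⁻¹ ^ j * Complex.I ^ j = 1 := by
    rw [← mul_pow, inv_mul_cancel₀ Complex.I_ne_zero, one_pow]
  push_cast
  rw [mul_div_assoc, ← mul_assoc, hI, one_mul]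

theorem FE.real {n : ℕ} {L : PS} (h : FE n L) (j : ℕ) : cf L j = ((cf L j).re : ℂ) := by
  rcases Nat.eq_zero_or_pos j with rfl | hj
  · have : cf L 0 = 0 := by
      unfold cf
      rw [PowerSeries.coeff_zero_eq_constantCoeff_apply, lg_const, mul_zero]
    rw [this]
    simp
  · have h1 := h.lim' hj
    have h2 := (Complex.continuous_im.tendsto _).comp h1
    have h3 : (cf L j).im = 0 := by
      refine tendsto_nhds_unique h2 ?_
      refine tendsto_const_nhds.congr fun M => ?_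
      simp only [Function.comp_def, Complex.ofReal_im]
    apply Complex.ext
    · rw [Complex.ofReal_re]
    · rw [Complex.ofReal_im, h3]

theorem FE.cum_lim {n : ℕ} {L : PS} (h : FE n L) {j : ℕ} (hj : 1 ≤ j) :
    Tendsto (fun M : ℕ => cum n M j / M) atTop (𝓝 (((j - 1).factorial : ℝ) * (cf L j).re)) := by
  have h1 := (Complex.continuous_re.tendsto _).comp (h.lim' hj)
  have h2 := h1.const_mul ((j - 1).factorial : ℝ)
  refine h2.congr fun M => ?_
  simp only [Function.comp_def, Complex.ofReal_re]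
  have : ((j - 1).factorial : ℝ) ≠ 0 := by exact_mod_cast (j - 1).factorial_ne_zero
  field_simp

theorem FE.scale {n : ℕ} (hn : 1 ≤ n) {L : PS} (h : FE n L) : ∃ d : FD, d.N = 2 * n + 1 ∧
    ∀ j, PowerSeries.coeff j (lg L) = (d.N : ℂ) ^ j * PowerSeries.coeff j (lg (d.E 0)) := by
  obtain ⟨v, t, w, hL, ht, -⟩ := h.ex
  obtain ⟨d, hd, he⟩ := exists_FD hn ht
  refine ⟨d, hd, fun j => ?_⟩
  rw [← hL] at he
  have h0 : PowerSeries.constantCoeff L ≠ 0 := by
    rw [← PowerSeries.coeff_zero_eq_constantCoeff_apply, h.L0]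
    exact pow_ne_zero _ two_ne_zero
  have h1 := congrArg lg he
  rw [lg_rescale _ h0, lg_C_mul (pow_ne_zero _ two_ne_zero) (by rw [d.E0]; exact one_ne_zero)] at h1
  have h2 := congrArg (PowerSeries.coeff j) h1
  rw [PowerSeries.coeff_rescale] at h2
  rw [← h2, ← mul_assoc, ← mul_pow, hd]
  have h3 := iN_mul n
  push_cast
  rw [h3, one_pow, one_mul]

/-- the scaled coefficients -/
noncomputable def sc (d : FD) (j : ℕ) : ℂ := Complex.I⁻¹ ^ j * PowerSeries.coeff j (lg (d.E 0))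

theorem sc_one (d : FD) : (sc d 1).re = 0 := by
  have h : PowerSeries.coeff 1 (lg (d.E 0)) = (d.X 0 : ℂ) := by
    have h1 := congrArg (PowerSeries.coeff 1) (lg_spec (f := d.E 0) (by rw [d.E0]; exact one_ne_zero))
    rw [th_coeff, d.E1, PowerSeries.coeff_mul, Finset.Nat.sum_antidiagonal_eq_sum_range_succ_mk,
      Finset.sum_range_succ, Finset.sum_range_one] at h1
    simp only [Nat.sub_zero, Nat.sub_self, PowerSeries.coeff_zero_eq_constantCoeff_apply, lg_const,
      d.E0, zero_mul, zero_add, mul_one, Nat.cast_one, one_mul] at h1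
    exact h1
  unfold sc
  rw [h, pow_one, Complex.inv_I]
  simp

theorem sc_cf {n : ℕ} {L : PS} {d : FD} (hd : d.N = 2 * n + 1)
    (h : ∀ j, PowerSeries.coeff j (lg L) = (d.N : ℂ) ^ j * PowerSeries.coeff j (lg (d.E 0))) (j : ℕ) :
    cf L j = ((2 * n + 1 : ℝ) : ℂ) ^ j * sc d j := by
  unfold cf sc
  rw [h, hd]
  push_cast
  ring

theorem partA : ∃ κ : ℕ → ℕ → ℝ,
    (∀ n j, 1 ≤ j → Tendsto (fun M : ℕ => cum n M j / M) atTop (𝓝 (κ n j))) ∧
    ∀ j, 1 ≤ j → Tendsto (fun n : ℕ => κ n j / (2 * n + 1 : ℝ) ^ (j - 1)) atTop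
      (𝓝 (if j = 2 then 3 / Real.pi else 0)) := by
  choose L hL using exists_FE
  refine ⟨fun n j => ((j - 1).factorial : ℝ) * (cf (L n) j).re, fun n j hj => (hL n).cum_lim hj,
    fun j hj => ?_⟩
  have hex : ∀ n : ℕ, ∃ d : FD, d.N = 2 * (n + 1) + 1 ∧
      ∀ j, PowerSeries.coeff j (lg (L (n + 1))) = (d.N : ℂ) ^ j * PowerSeries.coeff j (lg (d.E 0)) :=
    fun n => (hL (n + 1)).scale (by omega)
  choose d hd hs using hex
  have hN : Tendsto (fun n => ((d n).N : ℝ)) atTop atTop := by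
    simp only [hd]
    push_cast
    have h1 : Tendsto (fun n : ℕ => (n : ℝ)) atTop atTop := tendsto_natCast_atTop_atTop
    refine tendsto_atTop_mono (fun n => ?_) h1
    have : (0:ℝ) ≤ n := Nat.cast_nonneg n
    linarith
  rw [← tendsto_add_atTop_iff_nat 1]
  have key : ∀ n : ℕ, ((j - 1).factorial : ℝ) * (cf (L (n + 1)) j).re /
      (2 * ((n + 1 : ℕ) : ℝ) + 1) ^ (j - 1) =
      ((j - 1).factorial : ℝ) * (Complex.I⁻¹ ^ j * (((d n).N : ℂ) *
        PowerSeries.coeff j (lg ((d n).E 0)))).re := by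
    intro n
    have hpos : (0:ℝ) < 2 * ((n + 1 : ℕ) : ℝ) + 1 := by positivity
    rw [sc_cf (hd n) (hs n), ← Complex.ofReal_pow, Complex.re_ofReal_mul]
    have e : (Complex.I⁻¹ ^ j * (((d n).N : ℂ) * PowerSeries.coeff j (lg ((d n).E 0)))).re =
        (2 * ((n + 1 : ℕ) : ℝ) + 1) * (sc (d n) j).re := by
      rw [show Complex.I⁻¹ ^ j * (((d n).N : ℂ) * PowerSeries.coeff j (lg ((d n).E 0))) =
        ((2 * ((n + 1 : ℕ) : ℝ) + 1 : ℝ) : ℂ) * sc (d n) j by
          unfold sc; rw [hd]; push_cast; ring, Complex.re_ofReal_mul]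
    rw [e]
    obtain ⟨i, rfl⟩ := Nat.exists_eq_succ_of_ne_zero (by omega : j ≠ 0)
    rw [Nat.succ_sub_one, Nat.succ_eq_add_one, pow_succ]
    field_simp
  simp only [key]
  rcases Nat.lt_or_ge 1 j with hj1 | hj1
  · obtain ⟨m, rfl⟩ : ∃ m, j = m + 1 := ⟨j - 1, by omega⟩
    have hm : 1 ≤ m := by omega
    have h1 := seq_limit hN hm
    have h2 := (h1.const_mul (Complex.I⁻¹ ^ (m + 1)))
    have h3 := ((Complex.continuous_re.tendsto _).comp h2).const_mul ((m + 1 - 1).factorial : ℝ)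
    refine (h3.congr fun n => ?_).trans (le_of_eq ?_)
    · rfl
    · congr 1
      by_cases h : m = 1
      · subst h
        simp only [if_true]
        have hI : Complex.I⁻¹ ^ (1 + 1) = -1 := by
          rw [inv_pow, show 1 + 1 = 2 from rfl, Complex.I_sq]
          norm_num
        rw [hI]
        have h4 : ((-1 : ℂ) * -(3 / Real.pi)) = ((3 / Real.pi : ℝ) : ℂ) := by push_cast; ring
        rw [h4, Complex.ofReal_re]
        simp
      · rw [if_neg h, if_neg (by omega)]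
        simp
  · have hj' : j = 1 := by omega
    subst hj'
    rw [if_neg (by norm_num)]
    refine tendsto_const_nhds.congr fun n => ?_
    have e : (Complex.I⁻¹ ^ 1 * (((d n).N : ℂ) * PowerSeries.coeff 1 (lg ((d n).E 0)))) =
        (((d n).N : ℝ) : ℂ) * sc (d n) 1 := by
      unfold sc; push_cast; ring
    rw [e, Complex.re_ofReal_mul, sc_one, mul_zero, mul_zero]

end Pool.Agent.Zk36.CG
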