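import Pool.Agent.Zk36.CG.Pr4
import Pool.Agent.Zk36.CG.PF2
import Pool.Agent.Zk36.CG.Ev

/-!
# The reachable patterns and the Perron root
-/

set_option autoImplicit false

namespace Pool.Agent.Zk36.CG

open Finset H906K Pool.Agent.H974R3 Filter Topology

/-- patterns which can be reached from the initial pattern -/
def Rch (n : ℕ) (σ : Pat (2 * n + 1)) : Prop :=
  ∃ (M : ℕ) (c : Fin M → Fin (2 * n + 1) → Bool), (run (2 * n) M c (start n)).1 = σ

noncomputable instance (n : ℕ) : DecidablePred (Rch n) := fun _ => Classical.propDecidable _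

/-- the reachable patterns -/
abbrev St (n : ℕ) := {σ : Pat (2 * n + 1) // Rch n σ}

/-- the initial state -/
def s0 (n : ℕ) : St n := ⟨start n, 0, fun _ _ => true, rfl⟩

theorem rch_step {n : ℕ} {σ : Pat (2 * n + 1)} (h : Rch n σ) (r : Fin (2 * n + 1) → Bool) :
    Rch n (Tc (2 * n) r σ) := by
  obtain ⟨M, c, hc⟩ := h
  refine ⟨M + 1, Fin.snoc (α := fun _ => Fin (2 * n + 1) → Bool) c r, ?_⟩
  rw [p2_run, hc]

section red
variable {R : Type*} [CommRing R]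

theorem Aw_rch {n : ℕ} {φ : ℤ → R} {τ σ : Pat (2 * n + 1)} (hτ : ¬ Rch n τ) (hσ : Rch n σ) :
    Aw n φ τ σ = 0 := by
  unfold Aw
  refine sum_eq_zero fun r _ => if_neg fun h => hτ ?_
  rw [← h]
  exact rch_step hσ r

/-- transfer matrix on the reachable patterns -/
noncomputable def Br (n : ℕ) (φ : ℤ → R) : Matrix (St n) (St n) R := fun τ σ => Aw n φ τ.1 σ.1

theorem sum_St {n : ℕ} {φ : ℤ → R} (f : Pat (2 * n + 1) → R) (σ : St n) :
    ∑ ρ : St n, f ρ.1 * Aw n φ ρ.1 σ.1 = ∑ ρ, f ρ * Aw n φ ρ σ.1 := by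
  refine Fintype.sum_of_injective (Subtype.val : St n → Pat (2 * n + 1)) Subtype.val_injective _ _
    (fun ρ hρ => ?_) (fun _ => rfl)
  have : ¬ Rch n ρ := fun h => hρ ⟨⟨ρ, h⟩, rfl⟩
  rw [Aw_rch this σ.2, mul_zero]

theorem Br_pow (n : ℕ) (φ : ℤ → R) (M : ℕ) (τ σ : St n) :
    (Br n φ ^ M) τ σ = (Aw n φ ^ M) τ.1 σ.1 := by
  induction M generalizing τ σ with
  | zero =>
    rw [pow_zero, pow_zero, Matrix.one_apply, Matrix.one_apply]
    by_cases h : τ = σ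
    · rw [if_pos h, if_pos (by rw [h])]
    · rw [if_neg h, if_neg fun h' => h (Subtype.ext h')]
  | succ M ih =>
    rw [pow_succ, pow_succ, Matrix.mul_apply, Matrix.mul_apply]
    simp only [ih]
    exact sum_St (fun ρ => (Aw n φ ^ M) τ.1 ρ) σ

end red

/-- real transfer matrix -/
noncomputable def Bt (n : ℕ) (θ : ℝ) : Matrix (St n) (St n) ℝ := Br n fun d => Real.exp (θ * d)

theorem exp_hom (θ : ℝ) : ∀ a b : ℤ, Real.exp (θ * ((a + b : ℤ) : ℝ)) = Real.exp (θ * a) * Real.exp (θ * b) := by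
  intro a b
  rw [← Real.exp_add]
  push_cast
  ring_nf

theorem Bt_sum (n M : ℕ) (θ : ℝ) :
    ∑ τ, (Bt n θ ^ M) τ (s0 n) = 2 ^ ((2 * n + 1) * M) * Mg n M θ := by
  have h1 : ∑ τ : St n, (Bt n θ ^ M) τ (s0 n) =
      ∑ τ, Gw n (fun d : ℤ => Real.exp (θ * d)) M τ (start n) := by
    refine Fintype.sum_of_injective (Subtype.val : St n → Pat (2 * n + 1)) Subtype.val_injective _ _
      (fun ρ hρ => ?_) (fun τ => ?_)
    · unfold Gw
      refine sum_eq_zero fun c _ => if_neg fun h => hρ ⟨⟨ρ, M, c, h⟩, rfl⟩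
    · rw [Gw_eq n _ (exp_hom θ) (by simp)]
      exact Br_pow n _ M τ (s0 n)
  rw [h1, sum_Gw, Mg, Ex]
  simp only [Xd_run]
  rw [mul_div_cancel₀ _ (by positivity)]

theorem Bt_pos_col (n : ℕ) (τ : St n) : ∃ M : ℕ, ∀ θ : ℝ, 0 < (Bt n θ ^ M) τ (s0 n) := by
  obtain ⟨M, c, hc⟩ := τ.2
  refine ⟨M, fun θ => ?_⟩
  have : (Bt n θ ^ M) τ (s0 n) = Gw n (fun d : ℤ => Real.exp (θ * d)) M τ.1 (start n) := by
    rw [Gw_eq n _ (exp_hom θ) (by simp)]
    exact Br_pow n _ M τ (s0 n)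
  rw [this]
  unfold Gw
  refine sum_pos' (fun c' _ => ?_) ⟨c, mem_univ c, ?_⟩
  · split_ifs
    · exact (Real.exp_pos _).le
    · exact le_rfl
  · rw [if_pos hc]
    exact Real.exp_pos _

theorem Bt_nn (n : ℕ) (θ : ℝ) (i j : St n) : 0 ≤ Bt n θ i j := by
  show 0 ≤ Aw n (fun d : ℤ => Real.exp (θ * d)) i.1 j.1
  exact Aw_nonneg n (fun a => Real.exp_pos _) _ _

theorem exists_Irr (n : ℕ) : ∃ (K : ℕ) (m : St n → ℕ), ∀ θ : ℝ, Irr (Bt n θ) (s0 n) K m := by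
  obtain ⟨K, hK⟩ := exists_row n
  choose m hm using Bt_pos_col n
  refine ⟨K, m, fun θ => ⟨Bt_nn n θ, fun j => ?_,
    fun i => hm i θ, ?_⟩⟩
  · unfold Bt
    rw [Br_pow]
    exact hK _ (fun a => Real.exp_pos _) j.1
  · refine ⟨⟨Tc (2 * n) (fun _ => true) (start n), rch_step (s0 n).2 _⟩, s0 n, ?_⟩
    show 0 < Aw n (fun d : ℤ => Real.exp (θ * d)) (Tc (2 * n) (fun _ => true) (start n)) (start n)
    exact Aw_pos n (fun a => Real.exp_pos _) _ _

theorem Bt_cont (n M : ℕ) (i j : St n) : Continuous fun θ : ℝ => (Bt n θ ^ M) i j := by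
  have h1 : Continuous fun θ : ℝ => Bt n θ := by
    refine continuous_matrix fun i j => ?_
    unfold Bt Br Aw
    refine continuous_finsetSum _ fun r _ => ?_
    split_ifs
    · fun_prop
    · exact continuous_const
  exact (continuous_apply_apply i j).comp (h1.pow M)

/-- the Perron root -/
theorem exists_Lam (n : ℕ) (θ : ℝ) : ∃ (Λ : ℝ) (h : St n → ℝ), 0 < Λ ∧ (∀ i, 0 < h i) ∧
    Matrix.vecMul h (Bt n θ) = Λ • h := by
  obtain ⟨K, m, h⟩ := exists_Irr n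
  exact (h θ).perron

noncomputable def Lam (n : ℕ) (θ : ℝ) : ℝ := (exists_Lam n θ).choose

theorem Lam_spec (n : ℕ) (θ : ℝ) : ∃ h : St n → ℝ, 0 < Lam n θ ∧ (∀ i, 0 < h i) ∧
    Matrix.vecMul h (Bt n θ) = Lam n θ • h := (exists_Lam n θ).choose_spec

theorem Lam_pos (n : ℕ) (θ : ℝ) : 0 < Lam n θ := (Lam_spec n θ).choose_spec.1

/-- exponential growth rate of the exponential moments -/
noncomputable def rate (n : ℕ) (θ : ℝ) : ℝ := Real.log (Lam n θ) - (2 * n + 1) * Real.log 2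

theorem rate_lim (n : ℕ) (θ : ℝ) : Tendsto (fun M : ℕ => Real.log (Mg n M θ) / M) atTop
    (𝓝 (rate n θ)) := by
  obtain ⟨h, hΛ, hh, hl⟩ := Lam_spec n θ
  have h1 := growth_log (Bt_nn n θ) (s0 n) hΛ hh hl
  have h2 := h1.sub_const ((2 * n + 1) * Real.log 2)
  refine h2.congr' ?_
  filter_upwards [eventually_gt_atTop 0] with M hM
  have hM' : (M : ℝ) ≠ 0 := by exact_mod_cast hM.ne'
  rw [Bt_sum, Real.log_mul (by positivity) (Mg_pos n M θ).ne', Real.log_pow]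
  push_cast
  field_simp
  ring

theorem Lam_eq (n : ℕ) (θ : ℝ) : Lam n θ = Real.exp (rate n θ + (2 * n + 1) * Real.log 2) := by
  rw [rate, sub_add_cancel, Real.exp_log (Lam_pos n θ)]

/-- the displacement is at most linear -/
theorem exists_D (n : ℕ) : ∃ D : ℝ, 0 ≤ D ∧ ∀ (M : ℕ) (c : Fin M → Fin (2 * n + 1) → Bool),
    |(Xd n M c : ℝ)| ≤ D * M := by
  obtain ⟨D, hD⟩ := (Set.finite_range fun p : (Fin (2 * n + 1) → Bool) × Pat (2 * n + 1) =>
    |(dTc (2 * n) p.1 p.2 : ℝ)|).bddAbove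
  have hD' : ∀ r σ, |(dTc (2 * n) r σ : ℝ)| ≤ D := fun r σ => hD ⟨(r, σ), rfl⟩
  have hD0 : 0 ≤ D := (abs_nonneg _).trans (hD' (fun _ => true) (start n))
  refine ⟨D, hD0, fun M c => ?_⟩
  rw [Xd_run]
  induction M with
  | zero => simp [run]
  | succ M ih =>
    have h1 := ih (fun i => c i.castSucc)
    have h2 := hD' (c (Fin.last M)) (run (2 * n) M (fun i => c i.castSucc) (start n)).1
    show |(((run (2 * n) M (fun i => c i.castSucc) (start n)).2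
      + dTc (2 * n) (c (Fin.last M)) (run (2 * n) M (fun i => c i.castSucc) (start n)).1 : ℤ) : ℝ)| ≤ _
    push_cast
    refine (abs_add_le _ _).trans ?_
    linarith

theorem Mg_le {n : ℕ} {D : ℝ} (hD : ∀ (M : ℕ) (c : Fin M → Fin (2 * n + 1) → Bool),
    |(Xd n M c : ℝ)| ≤ D * M) (M : ℕ) (θ θ' : ℝ) :
    Mg n M θ ≤ Real.exp (|θ - θ'| * (D * M)) * Mg n M θ' := by
  unfold Mg Ex
  rw [← mul_div_assoc, mul_sum]
  refine div_le_div_of_nonneg_right (sum_le_sum fun c _ => ?_) (by positivity)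
  rw [← Real.exp_add]
  refine Real.exp_le_exp.2 ?_
  have h1 : (θ - θ') * (Xd n M c : ℝ) ≤ |θ - θ'| * (D * M) := by
    refine (le_abs_self _).trans ?_
    rw [abs_mul]
    exact mul_le_mul_of_nonneg_left (hD M c) (abs_nonneg _)
  linarith

theorem rate_lip {n : ℕ} {D : ℝ} (hD : ∀ (M : ℕ) (c : Fin M → Fin (2 * n + 1) → Bool),
    |(Xd n M c : ℝ)| ≤ D * M) (θ θ' : ℝ) : rate n θ ≤ |θ - θ'| * D + rate n θ' := by
  refine le_of_tendsto_of_tendsto (rate_lim n θ) ((rate_lim n θ').const_add (|θ - θ'| * D)) ?_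
  filter_upwards [eventually_gt_atTop 0] with M hM
  have hM' : (0:ℝ) < M := by exact_mod_cast hM
  have h1 := Real.log_le_log (Mg_pos n M θ) (Mg_le hD M θ θ')
  rw [Real.log_mul (Real.exp_pos _).ne' (Mg_pos n M θ').ne', Real.log_exp] at h1
  rw [div_le_iff₀ hM', add_mul, div_mul_cancel₀ _ hM'.ne']
  linarith

theorem rate_cont (n : ℕ) : Continuous (rate n) := by
  obtain ⟨D, hD0, hD⟩ := exists_D n
  refine (LipschitzWith.of_le_add_mul D.toNNReal fun θ θ' => ?_).continuous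
  rw [Real.coe_toNNReal D hD0, Real.dist_eq]
  have := rate_lip hD θ θ'
  linarith

theorem Lam_cont (n : ℕ) : Continuous (Lam n) := by
  rw [show Lam n = fun θ => Real.exp (rate n θ + (2 * n + 1) * Real.log 2) from funext (Lam_eq n)]
  have := rate_cont n
  fun_prop

theorem rate_zero (n : ℕ) : rate n 0 = 0 := by
  refine tendsto_nhds_unique (rate_lim n 0) ?_
  refine tendsto_const_nhds.congr fun M => ?_
  have : Mg n M 0 = 1 := by
    unfold Mg Ex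
    simp only [zero_mul, Real.exp_zero, sum_const, Finset.card_univ, nsmul_eq_mul, mul_one]
    rw [pow_mul]
    simp
  rw [this, Real.log_one, zero_div]

/-- uniform constants on a compact interval -/
theorem unif (n : ℕ) {K : ℕ} {m : St n → ℕ} (hI : ∀ θ : ℝ, Irr (Bt n θ) (s0 n) K m) (T : ℝ) :
    ∃ δ : ℝ, 0 < δ ∧ ∀ θ : ℝ, |θ| ≤ T → ∀ (μ : ℝ) (u : St n → ℝ), u ≠ 0 →
      (Bt n θ).mulVec u = μ • u → μ ≠ Lam n θ → (|μ| / Lam n θ) ^ K ≤ 1 - δ := by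
  rcases lt_or_ge T 0 with hT | hT
  · exact ⟨1, one_pos, fun θ hθ => absurd ((abs_nonneg θ).trans hθ) (not_le.2 hT)⟩
  have hc : IsCompact (Set.Icc (-T) T) := isCompact_Icc
  have hne : (Set.Icc (-T) T).Nonempty := ⟨0, by constructor <;> linarith⟩
  have hmin : ∀ (M : ℕ) (i j : St n), (∀ θ, 0 < (Bt n θ ^ M) i j) → ∃ η : ℝ, 0 < η ∧
      ∀ θ ∈ Set.Icc (-T) T, η ≤ (Bt n θ ^ M) i j := by
    intro M i j h
    obtain ⟨x, -, hx⟩ := hc.exists_isMinOn hne (Bt_cont n M i j).continuousOn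
    exact ⟨_, h x, fun θ hθ => hx hθ⟩
  have h1 : ∀ j, ∃ η : ℝ, 0 < η ∧ ∀ θ ∈ Set.Icc (-T) T, η ≤ (Bt n θ ^ K) (s0 n) j :=
    fun j => hmin K _ j fun θ => (hI θ).row j
  have h2 : ∀ i, ∃ η : ℝ, 0 < η ∧ ∀ θ ∈ Set.Icc (-T) T, η ≤ (Bt n θ ^ m i) i (s0 n) :=
    fun i => hmin (m i) i _ fun θ => (hI θ).col i
  choose η1 hη1 hη1' using h1
  choose η2 hη2 hη2' using h2
  have : Nonempty (St n) := ⟨s0 n⟩
  obtain ⟨a, ha⟩ := Finite.exists_min η1
  obtain ⟨b, hb⟩ := Finite.exists_min η2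
  obtain ⟨mb, hmb⟩ : ∃ mb : ℕ, ∀ i, m i ≤ mb := by
    obtain ⟨mb, hmb⟩ := (Set.finite_range m).bddAbove
    exact ⟨mb, fun i => hmb ⟨i, rfl⟩⟩
  obtain ⟨x, -, hx⟩ := hc.exists_isMaxOn hne (Lam_cont n).continuousOn
  set R : ℝ := max 1 (Lam n x) with hR
  have hR1 : 1 ≤ R := le_max_left _ _
  have hRp : 0 < R ^ (K + mb) := by positivity
  refine ⟨η1 a * η2 b / R ^ (K + mb), div_pos (mul_pos (hη1 a) (hη2 b)) hRp, ?_⟩
  intro θ hθ μ u hu hA hne'
  have hθ' : θ ∈ Set.Icc (-T) T := abs_le.1 hθ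
  obtain ⟨h, hΛ, hh, hl⟩ := Lam_spec n θ
  exact gap (Bt_nn n θ) (s0 n) K (hη1 a) (fun j => (ha j).trans (hη1' j θ hθ')) (hη2 b) hmb
    (fun i => (hb i).trans (hη2' i θ hθ')) hR1 hΛ ((hx hθ').trans (le_max_right _ _)) hh hl hu hA hne'

end Pool.Agent.Zk36.CG
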