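import Pool.Agent.Zk36.CG.Pr5

/-!
# The Perron root is the sum of the formal eigenvalue
-/

set_option autoImplicit false

namespace Pool.Agent.Zk36.CG

open Finset H906K Pool.Agent.H974R3 Filter Topology

theorem pev_sum {κ : Type*} (s : Finset κ) {ρ : ℝ} (hρ : 0 ≤ ρ) {z : ℂ} (hz : ‖z‖ ≤ ρ) (f : κ → PS)
    (hf : ∀ i ∈ s, AC ρ (f i)) : AC ρ (∑ i ∈ s, f i) ∧ pev z (∑ i ∈ s, f i) = ∑ i ∈ s, pev z (f i) := by
  classical
  induction s using Finset.induction_on with
  | empty =>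
    have h0 : AC ρ (0 : PS) := by
      have := AC.cst (ρ := ρ) 0
      rwa [map_zero] at this
    have h1 : pev z (0 : PS) = 0 := by
      have := pev_C z 0
      rwa [map_zero] at this
    exact ⟨by simpa using h0, by simpa using h1⟩
  | insert a s ha ih =>
    obtain ⟨h1, h2⟩ := ih fun i hi => hf i (mem_insert_of_mem hi)
    have h3 := hf a (mem_insert_self a s)
    rw [sum_insert ha, sum_insert ha]
    exact ⟨h3.add hρ h1, by rw [pev_add h3 h1 hz, h2]⟩

theorem exists_gb : ∃ K : ℝ, 0 < K ∧ ∀ (n : ℕ) (L : PS), 1 ≤ n → FE n L → ∀ j,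
    ‖PowerSeries.coeff j (lg L)‖ ≤ K * (2000 * (2 * n + 1)) ^ j := by
  obtain ⟨K, hK, h⟩ := value_geo
  refine ⟨K, hK, fun n L hn hL j => ?_⟩
  obtain ⟨d, hd, hs⟩ := hL.scale hn
  have hN : (1:ℝ) ≤ d.N := by exact_mod_cast d.hN1
  have h1 := h d j
  have h2 : ‖PowerSeries.coeff j (lg (d.E 0))‖ ≤ K * 2000 ^ j := by
    nlinarith [norm_nonneg (PowerSeries.coeff j (lg (d.E 0)))]
  rw [hs, norm_mul, norm_pow, Complex.norm_natCast, mul_pow]
  have e : (d.N : ℝ) = 2 * n + 1 := by rw [hd]; push_cast; ring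
  rw [e]
  calc (2 * (n:ℝ) + 1) ^ j * ‖PowerSeries.coeff j (lg (d.E 0))‖
      ≤ (2 * (n:ℝ) + 1) ^ j * (K * 2000 ^ j) := by gcongr
    _ = _ := by ring

/-- the exponent -/
noncomputable def psi (L : PS) (θ : ℝ) : ℝ := ∑' j : ℕ, (cf L j).re / j * θ ^ j

theorem FE.psi {n : ℕ} {L : PS} (h : FE n L) (θ : ℝ) :
    pev (-Complex.I * θ) (hs L) = ((CG.psi L θ : ℝ) : ℂ) := by
  unfold pev CG.psi
  rw [Complex.ofReal_tsum]
  refine tsum_congr fun j => ?_
  have h1 := h.real j
  unfold hs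
  rw [PowerSeries.coeff_mk]
  push_cast
  rw [← h1, cf, mul_pow, show (-Complex.I) = Complex.I⁻¹ by rw [Complex.inv_I]]
  ring

theorem FE.const {n : ℕ} {L : PS} (h : FE n L) :
    PowerSeries.constantCoeff L = ((2:ℂ) ^ (2 * n + 1)) := by
  rw [← PowerSeries.coeff_zero_eq_constantCoeff_apply, h.L0]

/-- radius -/
noncomputable def rad (K : ℝ) (n : ℕ) : ℝ := 2000 * (2 * n + 1) * (1 + K)

theorem rad_pos {K : ℝ} (hK : 0 < K) (n : ℕ) : 0 < rad K n := by unfold rad; positivity

variable {n : ℕ} {L : PS} {K : ℝ}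

theorem FE.gbL (h : FE n L) (hK : 0 < K)
    (hb : ∀ j, ‖PowerSeries.coeff j (lg L)‖ ≤ K * (2000 * (2 * n + 1)) ^ j) : GB (rad K n) L :=
  ⟨_, gb_of_lg hK.le (by positivity) (by rw [h.const]; exact pow_ne_zero _ two_ne_zero) hb⟩

theorem gbH (hK : 0 < K)
    (hb : ∀ j, ‖PowerSeries.coeff j (lg L)‖ ≤ K * (2000 * (2 * n + 1)) ^ j) : GB (rad K n) (hs L) := by
  refine ⟨K, fun j => ?_⟩
  have h1 := hb j
  have h2 : (2000 * (2 * (n:ℝ) + 1)) ^ j ≤ rad K n ^ j := by
    refine pow_le_pow_left₀ (by positivity) ?_ j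
    unfold rad
    nlinarith [show (0:ℝ) ≤ 2000 * (2 * n + 1) by positivity]
  unfold hs
  rw [PowerSeries.coeff_mk, norm_div, Complex.norm_natCast]
  rcases Nat.eq_zero_or_pos j with rfl | hj
  · simp
    exact hK.le
  · have hj' : (1:ℝ) ≤ j := by exact_mod_cast hj
    calc ‖PowerSeries.coeff j (lg L)‖ / j ≤ ‖PowerSeries.coeff j (lg L)‖ / 1 := by gcongr
      _ ≤ K * (2000 * (2 * n + 1)) ^ j := by rw [div_one]; exact h1
      _ ≤ _ := by gcongr

theorem hs_const : PowerSeries.constantCoeff (hs L) = 0 := by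
  unfold hs
  rw [← PowerSeries.coeff_zero_eq_constantCoeff_apply, PowerSeries.coeff_mk]
  simp

theorem FE.value (h : FE n L) (hK : 0 < K)
    (hb : ∀ j, ‖PowerSeries.coeff j (lg L)‖ ≤ K * (2000 * (2 * n + 1)) ^ j) {θ : ℝ}
    (hθ : |θ| * rad K n < 1) :
    pev (-Complex.I * θ) L = ((2 ^ (2 * n + 1) * Real.exp (CG.psi L θ) : ℝ) : ℂ) := by
  have hz : ‖-Complex.I * (θ:ℂ)‖ * rad K n < 1 := by simpa using hθ
  rw [pev_exp (rad_pos hK n) (h.gbL hK hb) (gbH hK hb) hs_const
    (hs_df (by rw [h.const]; exact pow_ne_zero _ two_ne_zero)) hz, h.psi, h.const]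
  push_cast
  rfl

theorem psi_cont (h : FE n L) (hK : 0 < K)
    (hb : ∀ j, ‖PowerSeries.coeff j (lg L)‖ ≤ K * (2000 * (2 * n + 1)) ^ j) {θ : ℝ}
    (hθ : |θ| * rad K n < 1) : ContinuousAt (CG.psi L) θ := by
  have hz : ‖-Complex.I * (θ:ℂ)‖ * rad K n < 1 := by simpa using hθ
  have h1 := (pev_deriv (gbH hK hb) (rad_pos hK n) hz).continuousAt
  have h2 : ContinuousAt (fun t : ℝ => pev (-Complex.I * (t:ℂ)) (hs L)) θ :=
    ContinuousAt.comp (f := fun t : ℝ => -Complex.I * (t:ℂ)) h1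
      (by fun_prop)
  have h3 : ContinuousAt (fun t : ℝ => (pev (-Complex.I * (t:ℂ)) (hs L)).re) θ :=
    Complex.continuous_re.continuousAt.comp h2
  have e : (fun t : ℝ => (pev (-Complex.I * (t:ℂ)) (hs L)).re) = CG.psi L := by
    funext t
    rw [h.psi, Complex.ofReal_re]
  rwa [e] at h3

/-- the value of the formal eigenvalue is an eigenvalue of the real transfer matrix -/
theorem FE.eigen (h : FE n L) (hK : 0 < K)
    (hb : ∀ j, ‖PowerSeries.coeff j (lg L)‖ ≤ K * (2000 * (2 * n + 1)) ^ j) {θ : ℝ}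
    (hθ : |θ| * rad K n < 1) : ∃ u : St n → ℝ, u ≠ 0 ∧
      (Bt n θ).mulVec u = (2 ^ (2 * n + 1) * Real.exp (CG.psi L θ)) • u := by
  set z : ℂ := -Complex.I * θ with hz
  have hzn : ‖z‖ = |θ| := by rw [hz]; simp
  have hac : AC |θ| L := (h.gbL hK hb).ac (rad_pos hK n).le (abs_nonneg _) hθ
  have hB : ∀ i j : St n, AC |θ| (Br n (fun d : ℤ => expI (d : ℂ)) i j) ∧
      pev z (Br n (fun d : ℤ => expI (d : ℂ)) i j) = (Bt n θ i j : ℂ) := by
    intro i j
    have h1 := pev_sum (univ : Finset (Fin (2 * n + 1) → Bool)) (abs_nonneg θ) (z := z) hzn.le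
      (fun r => if Tc (2 * n) r j.1 = i.1 then expI ((dTc (2 * n) r j.1 : ℤ) : ℂ) else 0) (by
        intro r _
        split_ifs
        · exact AC.expI (abs_nonneg _) _
        · have := AC.cst (ρ := |θ|) 0
          rwa [map_zero] at this)
    refine ⟨h1.1, ?_⟩
    show pev z (∑ r : Fin (2 * n + 1) → Bool, _) = _
    rw [h1.2]
    show _ = ((∑ r : Fin (2 * n + 1) → Bool, if Tc (2 * n) r j.1 = i.1 then
      Real.exp (θ * (dTc (2 * n) r j.1 : ℤ)) else 0 : ℝ) : ℂ)
    push_cast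
    refine sum_congr rfl fun r _ => ?_
    split_ifs
    · rw [pev_expI, hz]
      push_cast
      congr 1
      have := Complex.I_mul_I
      linear_combination (-(dTc (2 * n) r j.1 : ℂ) * θ) * this
    · have := pev_C z 0
      rw [map_zero] at this
      rw [this]
      simp
  obtain ⟨v, t, w, -, -, -, hw0, -, hw⟩ := h.ex
  set W : Matrix (St n) (St n) PS := fun i j => (if i = j then L else 0) - Br n (fun d : ℤ => expI (d : ℂ)) i j
    with hW
  have hdet : W.det = 0 := by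
    rw [← Matrix.exists_vecMul_eq_zero_iff]
    refine ⟨fun i => w i.1, fun h0 => ?_, ?_⟩
    · have h1 := congrFun h0 (s0 n)
      have h2 := hw0 (s0 n).1
      rw [show w (s0 n).1 = 0 from h1, map_zero] at h2
      exact zero_ne_one h2
    · funext σ
      have h1 := congrFun hw σ.1
      rw [← Aw_formal] at h1
      have h2 : ∑ ρ : St n, w ρ.1 * Aw n (fun d : ℤ => expI (d : ℂ)) ρ.1 σ.1 = L * w σ.1 := by
        rw [sum_St w σ]
        exact h1
      show ∑ i : St n, w i.1 * W i σ = 0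
      have h3 : ∀ i : St n, w i.1 * W i σ = (if i = σ then w i.1 * L else 0)
          - w i.1 * Aw n (fun d : ℤ => expI (d : ℂ)) i.1 σ.1 := by
        intro i
        rw [hW]
        show w i.1 * ((if i = σ then L else 0) - Aw n (fun d : ℤ => expI (d : ℂ)) i.1 σ.1) = _
        split_ifs <;> ring
      simp only [h3]
      rw [sum_sub_distrib, h2, sum_ite_eq' univ σ (fun i : St n => w i.1 * L), if_pos (mem_univ _)]
      ring
  have hWac : ∀ i j, AC |θ| (W i j) := by
    intro i j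
    rw [hW]
    show AC |θ| ((if i = j then L else 0) - _)
    rw [sub_eq_add_neg]
    refine AC.add (abs_nonneg _) ?_ ((hB i j).1.neg)
    split_ifs
    · exact hac
    · have := AC.cst (ρ := |θ|) 0
      rwa [map_zero] at this
  have hd := pev_det (abs_nonneg θ) (z := z) hzn.le W hWac hdet
  set lam : ℝ := 2 ^ (2 * n + 1) * Real.exp (CG.psi L θ) with hlam
  have hval : pev z L = (lam : ℂ) := h.value hK hb hθ
  set V : Matrix (St n) (St n) ℝ := fun i j => (if i = j then lam else 0) - Bt n θ i j with hV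
  have hm : (Matrix.of fun i j => pev z (W i j)) = V.map Complex.ofRealHom := by
    ext i j
    rw [Matrix.of_apply, Matrix.map_apply]
    show pev z ((if i = j then L else 0) - _) = (((if i = j then lam else 0) - Bt n θ i j : ℝ) : ℂ)
    have h0 : AC |θ| (0 : PS) := by
      have := AC.cst (ρ := |θ|) 0
      rwa [map_zero] at this
    have hz0 : pev z (0 : PS) = 0 := by
      have := pev_C z 0
      rwa [map_zero] at this
    have hneg : pev z (-Br n (fun d : ℤ => expI (d : ℂ)) i j) = -(Bt n θ i j : ℂ) := by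
      have h4 := pev_add (hB i j).1 (hB i j).1.neg (z := z) hzn.le
      rw [add_neg_cancel, hz0, (hB i j).2] at h4
      linear_combination -h4
    rw [sub_eq_add_neg, pev_add (by split_ifs; exacts [hac, h0]) (hB i j).1.neg hzn.le, hneg]
    split_ifs
    · rw [hval]; push_cast; ring
    · rw [hz0]; push_cast; ring
  rw [hm] at hd
  have hd2 : V.det = 0 := by
    have h5 := (RingHom.map_det Complex.ofRealHom V)
    rw [show Complex.ofRealHom.mapMatrix V = V.map Complex.ofRealHom from rfl, hd] at h5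
    exact Complex.ofReal_eq_zero.1 h5
  obtain ⟨u, hu, hVu⟩ := Matrix.exists_mulVec_eq_zero_iff.2 hd2
  refine ⟨u, hu, ?_⟩
  funext i
  have h6 := congrFun hVu i
  have h7 : ∑ j, V i j * u j = 0 := h6
  have h8 : ∀ j, V i j * u j = (if i = j then lam * u j else 0) - Bt n θ i j * u j := by
    intro j
    rw [hV]
    show ((if i = j then lam else 0) - Bt n θ i j) * u j = _
    split_ifs <;> ring
  simp only [h8] at h7
  rw [sum_sub_distrib, sum_ite_eq univ i (fun j => lam * u j), if_pos (mem_univ _), sub_eq_zero] at h7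
  show ∑ j, Bt n θ i j * u j = lam * u i
  exact h7.symm

/-- identification -/
theorem FE.rate_eq (h : FE n L) (hK : 0 < K)
    (hb : ∀ j, ‖PowerSeries.coeff j (lg L)‖ ≤ K * (2000 * (2 * n + 1)) ^ j) {θ : ℝ}
    (hθ : |θ| * rad K n < 1) : rate n θ = CG.psi L θ := by
  have hpsi0 : CG.psi L 0 = 0 := by
    unfold CG.psi
    rw [tsum_eq_single 0]
    · simp
    · intro j hj
      rw [zero_pow hj, mul_zero]
  set lam : ℝ → ℝ := fun t => 2 ^ (2 * n + 1) * Real.exp (CG.psi L t) with hlam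
  have hlpos : ∀ t, 0 < lam t := fun t => by positivity
  have e2 : ∀ x : ℝ, (2:ℝ) ^ (2 * n + 1) * Real.exp x = Real.exp (x + (2 * n + 1) * Real.log 2) := by
    intro x
    rw [Real.exp_add, mul_comm]
    congr 1
    rw [show ((2 * (n:ℝ) + 1) * Real.log 2) = ((2 * n + 1 : ℕ) : ℝ) * Real.log 2 by push_cast; ring,
      ← Real.log_pow, Real.exp_log (by positivity)]
  suffices hmain : Lam n θ = lam θ by
    rw [Lam_eq, hlam] at hmain
    simp only [e2] at hmain
    have := Real.exp_injective hmain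
    linarith
  by_contra hne
  obtain ⟨Kc, m, hI⟩ := exists_Irr n
  obtain ⟨δ, hδ, hgap⟩ := unif n hI |θ|
  have hin : ∀ t ∈ Set.uIcc 0 θ, |t| ≤ |θ| := by
    intro t ht
    rcases le_total 0 θ with h0 | h0
    · rw [Set.uIcc_of_le h0] at ht
      rw [abs_of_nonneg ht.1, abs_of_nonneg h0]
      exact ht.2
    · rw [Set.uIcc_of_ge h0] at ht
      rw [abs_of_nonpos ht.2, abs_of_nonpos h0]
      linarith [ht.1]
  have hrad : ∀ t ∈ Set.uIcc 0 θ, |t| * rad K n < 1 := fun t ht =>
    lt_of_le_of_lt (mul_le_mul_of_nonneg_right (hin t ht) (rad_pos hK n).le) hθ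
  set g : ℝ → ℝ := fun t => (lam t / Lam n t) ^ Kc with hg
  have hgc : ContinuousOn g (Set.uIcc 0 θ) := by
    intro t ht
    have h1 := psi_cont h hK hb (hrad t ht)
    have h2 : ContinuousAt lam t :=
      continuousAt_const.mul (Real.continuous_exp.continuousAt.comp h1)
    exact ((h2.div (Lam_cont n).continuousAt (Lam_pos n t).ne').pow Kc).continuousWithinAt
  have hcase : ∀ t ∈ Set.uIcc 0 θ, lam t ≠ Lam n t → g t ≤ 1 - δ := by
    intro t ht hne'
    obtain ⟨u, hu, hA⟩ := h.eigen hK hb (hrad t ht)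
    have := hgap t (hin t ht) _ u hu hA hne'
    rwa [abs_of_pos (hlpos t)] at this
  have hcase' : ∀ t, lam t = Lam n t → g t = 1 := by
    intro t ht
    rw [hg]
    show (lam t / Lam n t) ^ Kc = 1
    rw [ht, div_self (Lam_pos n t).ne', one_pow]
  have h0 : g 0 = 1 := by
    refine hcase' 0 ?_
    rw [hlam, Lam_eq, rate_zero]
    simp only
    rw [e2, hpsi0]
  have h1 : g θ ≤ 1 - δ := hcase θ Set.right_mem_uIcc fun h' => hne h'.symm
  have hivt := intermediate_value_uIcc hgc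
  have hmid : 1 - δ / 2 ∈ Set.uIcc (g 0) (g θ) := by
    rw [h0, Set.uIcc_of_ge (by linarith)]
    constructor <;> linarith
  obtain ⟨t, ht, hgt⟩ := hivt hmid
  by_cases hl : lam t = Lam n t
  · rw [hcase' t hl] at hgt
    linarith
  · have := hcase t ht hl
    linarith

end Pool.Agent.Zk36.CG
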