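import Pool.Agent.Zk36.CG.Pr6

/-!
# Limits of the exponential moments
-/

set_option autoImplicit false

namespace Pool.Agent.Zk36.CG

open Finset H906K Pool.Agent.H974R3 Filter Topology

theorem sc_lim {d : ℕ → FD} (hN : Tendsto (fun n => ((d n).N : ℝ)) atTop atTop) (j : ℕ) :
    Tendsto (fun n => ((d n).N : ℝ) * (sc (d n) j).re) atTop
      (𝓝 (if j = 2 then 3 / Real.pi else 0)) := by
  rcases Nat.lt_or_ge 1 j with hj1 | hj1
  · obtain ⟨m, rfl⟩ : ∃ m, j = m + 1 := ⟨j - 1, by omega⟩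
    have hm : 1 ≤ m := by omega
    have h1 := seq_limit hN hm
    have h2 := (h1.const_mul (Complex.I⁻¹ ^ (m + 1)))
    have h3 := ((Complex.continuous_re.tendsto _).comp h2)
    refine (h3.congr fun n => ?_).trans (le_of_eq ?_)
    · show (Complex.I⁻¹ ^ (m + 1) * (((d n).N : ℂ) * _)).re = _
      rw [← Complex.re_ofReal_mul]
      congr 1
      unfold sc
      push_cast
      ring
    · congr 1
      by_cases h : m = 1
      · subst h
        simp only [if_true]
        have hI : Complex.I⁻¹ ^ (1 + 1) = -1 := by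
          rw [inv_pow, show 1 + 1 = 2 from rfl, Complex.I_sq]
          norm_num
        rw [hI]
        have h4 : ((-1 : ℂ) * -(3 / Real.pi)) = ((3 / Real.pi : ℝ) : ℂ) := by push_cast; ring
        rw [h4, Complex.ofReal_re]
      · rw [if_neg h, if_neg (by omega)]
        simp
  · refine tendsto_const_nhds.congr' ?_
    filter_upwards with n
    rw [if_neg (by omega)]
    have : (sc (d n) j).re = 0 := by
      interval_cases j
      · unfold sc
        rw [PowerSeries.coeff_zero_eq_constantCoeff_apply, lg_const, mul_zero, Complex.zero_re]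
      · exact sc_one _
    rw [this, mul_zero]

/-- the radius of the uniform statement -/
theorem partB : ∃ ρ : ℝ, 0 < ρ ∧
    (∀ n θ, Tendsto (fun M : ℕ => Real.log (Mg n M (θ / (2 * n + 1))) / M) atTop
      (𝓝 (rate n (θ / (2 * n + 1))))) ∧
    ∀ θ : ℝ, |θ| < ρ → Tendsto (fun n : ℕ => (2 * n + 1 : ℝ) * rate n (θ / (2 * n + 1))) atTop
      (𝓝 (3 * θ ^ 2 / (2 * Real.pi))) := by
  obtain ⟨K, hK, hb⟩ := exists_gb
  obtain ⟨K1, hK1, hgeo⟩ := value_geo
  refine ⟨1 / (2000 * (1 + K)), by positivity, fun n θ => rate_lim n _, fun θ hθ => ?_⟩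
  have hθ1 : |θ| * (2000 * (1 + K)) < 1 := (lt_div_iff₀ (by positivity)).1 hθ
  have hθ2 : 2000 * |θ| < 1 := by
    have : 0 ≤ |θ| * K := by positivity
    nlinarith
  choose L hL using exists_FE
  have hex : ∀ n : ℕ, ∃ d : FD, d.N = 2 * (n + 1) + 1 ∧
      ∀ j, PowerSeries.coeff j (lg (L (n + 1))) = (d.N : ℂ) ^ j * PowerSeries.coeff j (lg (d.E 0)) :=
    fun n => (hL (n + 1)).scale (by omega)
  choose d hd hs using hex
  have hN : Tendsto (fun n => ((d n).N : ℝ)) atTop atTop := by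
    simp only [hd]
    push_cast
    have h1 : Tendsto (fun n : ℕ => (n : ℝ)) atTop atTop := tendsto_natCast_atTop_atTop
    refine tendsto_atTop_mono (fun n => ?_) h1
    have : (0:ℝ) ≤ n := Nat.cast_nonneg n
    linarith
  rw [← tendsto_add_atTop_iff_nat 1]
  have hNe : ∀ n : ℕ, (2 * ((n + 1 : ℕ) : ℝ) + 1) = ((d n).N : ℝ) := by
    intro n
    rw [hd]
    push_cast
    ring
  have key : ∀ n : ℕ, (2 * ((n + 1 : ℕ) : ℝ) + 1) * rate (n + 1) (θ / (2 * ((n + 1 : ℕ) : ℝ) + 1)) =
      ∑' j : ℕ, (((d n).N : ℝ) * (sc (d n) j).re) / j * θ ^ j := by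
    intro n
    have hpos : (0:ℝ) < 2 * ((n + 1 : ℕ) : ℝ) + 1 := by positivity
    have hr : |θ / (2 * ((n + 1 : ℕ) : ℝ) + 1)| * rad K (n + 1) < 1 := by
      rw [abs_div, abs_of_pos hpos]
      unfold rad
      have e : |θ| / (2 * ((n + 1 : ℕ) : ℝ) + 1) * (2000 * (2 * ((n + 1 : ℕ) : ℝ) + 1) * (1 + K)) =
          |θ| * (2000 * (1 + K)) := by
        field_simp
      rw [e]
      exact hθ1
    rw [(hL (n + 1)).rate_eq hK (hb (n + 1) _ (by omega) (hL (n + 1))) hr]
    unfold psi
    rw [← tsum_mul_left]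
    refine tsum_congr fun j => ?_
    rw [sc_cf (hd n) (hs n), ← Complex.ofReal_pow, Complex.re_ofReal_mul, hNe, div_pow]
    have hN0 : ((d n).N : ℝ) ≠ 0 := by rw [← hNe]; exact hpos.ne'
    field_simp
  simp only [key]
  have hlim : ∑' j : ℕ, ((if j = 2 then 3 / Real.pi else 0 : ℝ) / j * θ ^ j) =
      3 * θ ^ 2 / (2 * Real.pi) := by
    rw [tsum_eq_single 2]
    · rw [if_pos rfl]
      have := Real.pi_ne_zero
      push_cast
      field_simp
    · intro j hj
      rw [if_neg hj, zero_div, zero_mul]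
  rw [← hlim]
  refine tendsto_tsum_of_dominated_convergence (bound := fun j : ℕ => K1 * (2000 * |θ|) ^ j)
    ((summable_geometric_of_lt_one (by positivity) hθ2).mul_left K1) (fun j => ?_) ?_
  · exact ((sc_lim hN j).div_const _).mul_const _
  · filter_upwards with n j
    have h1 := hgeo (d n) j
    have h2 : |(sc (d n) j).re| ≤ ‖PowerSeries.coeff j (lg ((d n).E 0))‖ := by
      refine (Complex.abs_re_le_norm _).trans ?_
      unfold sc
      rw [norm_mul, norm_pow, norm_inv, Complex.norm_I, inv_one, one_pow, one_mul]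
    have hN0 : (0:ℝ) ≤ (d n).N := Nat.cast_nonneg _
    rw [Real.norm_eq_abs, abs_mul, abs_div, abs_mul, abs_of_nonneg hN0, abs_pow, mul_pow,
      abs_of_nonneg (Nat.cast_nonneg j : (0:ℝ) ≤ j)]
    rcases Nat.eq_zero_or_pos j with rfl | hj
    · simp
      exact hK1.le
    · have hj' : (1:ℝ) ≤ j := by exact_mod_cast hj
      calc ((d n).N : ℝ) * |(sc (d n) j).re| / j * |θ| ^ j
          ≤ ((d n).N : ℝ) * |(sc (d n) j).re| / 1 * |θ| ^ j := by gcongr
        _ ≤ ((d n).N : ℝ) * ‖PowerSeries.coeff j (lg ((d n).E 0))‖ * |θ| ^ j := by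
            rw [div_one]; gcongr
        _ ≤ (K1 * 2000 ^ j) * |θ| ^ j := by gcongr
        _ = _ := by ring

end Pool.Agent.Zk36.CG
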