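import Pool.Agent.Zk36.CG.Maj
import Pool.Agent.H906R3.K6.A8

/-!
# Uniform bounds for the coefficients and their derivatives
-/

set_option autoImplicit false

namespace Pool.Agent.Zk36.CG

open Finset MeasureTheory H906K Filter Topology PowerSeries

/-- coefficients bounded uniformly over all data -/
def UB (F : FD → ℝ → PS) : Prop := ∀ j, ∃ K : ℝ, ∀ d u, ‖coeff j (F d u)‖ ≤ K

/-- coefficients and their derivatives bounded uniformly over all data -/
structure UN (F : FD → ℝ → PS) : Prop where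
  bns : ∀ d, BNS (F d)
  bd : UB F
  dbd : UB (fun d => dd (F d))

theorem UB.add {F G : FD → ℝ → PS} (hF : UB F) (hG : UB G) : UB (fun d u => F d u + G d u) :=
  fun j => by
  obtain ⟨K, hK⟩ := hF j
  obtain ⟨L, hL⟩ := hG j
  exact ⟨K + L, fun d u => by
    rw [map_add]; exact (norm_add_le _ _).trans (add_le_add (hK d u) (hL d u))⟩

theorem UB.neg {F : FD → ℝ → PS} (hF : UB F) : UB (fun d u => -F d u) :=
  fun j => by
  obtain ⟨K, hK⟩ := hF j
  exact ⟨K, fun d u => by rw [map_neg, norm_neg]; exact hK d u⟩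

theorem UB.sub {F G : FD → ℝ → PS} (hF : UB F) (hG : UB G) : UB (fun d u => F d u - G d u) := by
  have := hF.add hG.neg
  simpa only [sub_eq_add_neg] using this

theorem UB.mul {F G : FD → ℝ → PS} (hF : UB F) (hG : UB G) : UB (fun d u => F d u * G d u) :=
  fun j => by
  choose K hK using hF
  choose L hL using hG
  refine ⟨∑ p ∈ antidiagonal j, |K p.1| * |L p.2|, fun d u => ?_⟩
  rw [coeff_mul]
  refine (norm_sum_le _ _).trans (sum_le_sum fun p _ => ?_)
  rw [norm_mul]
  exact mul_le_mul ((hK _ d u).trans (le_abs_self _)) ((hL _ d u).trans (le_abs_self _))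
    (norm_nonneg _) (abs_nonneg _)

theorem UB.const (a : PS) : UB (fun _ _ => a) := fun _ => ⟨_, fun _ _ => le_rfl⟩

theorem UB.tht {F : FD → ℝ → PS} (hF : UB F) : UB (fun d u => th (F d u)) := fun j => by
  obtain ⟨K, hK⟩ := hF j
  exact ⟨j * K, fun d u => by
    rw [th_coeff, norm_mul, Complex.norm_natCast]
    exact mul_le_mul_of_nonneg_left (hK d u) (Nat.cast_nonneg j)⟩

theorem UB.sht {F : FD → ℝ → PS} (hF : UB F) : UB (fun d u => sh (F d u)) := fun j => by
  obtain ⟨K, hK⟩ := hF (j + 1)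
  exact ⟨K, fun d u => by rw [sh_coeff]; exact hK d u⟩

theorem UB.inv {F : FD → ℝ → PS} (hF : UB F) {c : ℝ} (hc : 0 < c)
    (h : ∀ d u, c ≤ ‖constantCoeff (F d u)‖) : UB (fun d u => (F d u)⁻¹) := by
  have hi : ∀ d u, ‖(constantCoeff (F d u))⁻¹‖ ≤ c⁻¹ := fun d u => by
    rw [norm_inv]; exact inv_anti₀ hc (h d u)
  intro j
  induction j using Nat.strong_induction_on with
  | _ j ih =>
    rcases j with _ | j
    · exact ⟨c⁻¹, fun d u => by rw [inv_zero']; exact hi d u⟩
    · choose K hK using hF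
      have hex : ∀ i, ∃ L : ℝ, i < j + 1 → ∀ d u, ‖coeff i (F d u)⁻¹‖ ≤ L := by
        intro i
        by_cases hi : i < j + 1
        · obtain ⟨L, hL⟩ := ih i hi
          exact ⟨L, fun _ => hL⟩
        · exact ⟨0, fun h => absurd h hi⟩
      choose L hL using hex
      refine ⟨c⁻¹ * ∑ p ∈ (antidiagonal (j + 1)).filter (fun p => p.2 < j + 1), |K p.1| * |L p.2|,
        fun d u => ?_⟩
      rw [inv_rec (ne_of_norm hc (h d u)) j, norm_mul, norm_neg]
      refine mul_le_mul (hi d u) ?_ (norm_nonneg _) (inv_nonneg.2 hc.le)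
      refine (norm_sum_le _ _).trans (sum_le_sum fun p hp => ?_)
      rw [norm_mul]
      exact mul_le_mul ((hK _ d u).trans (le_abs_self _))
        ((hL _ (mem_filter.1 hp).2 d u).trans (le_abs_self _)) (norm_nonneg _) (abs_nonneg _)

theorem UB.cst {f : FD → ℝ → ℂ} {K : ℝ} (h : ∀ d u, ‖f d u‖ ≤ K) : UB (fun d u => C (f d u)) :=
  fun j => ⟨|K|, fun d u => by
    rw [coeff_C]
    split_ifs
    · exact (h d u).trans (le_abs_self _)
    · rw [norm_zero]; exact abs_nonneg _⟩

theorem UN.add {F G : FD → ℝ → PS} (hF : UN F) (hG : UN G) : UN (fun d u => F d u + G d u) := by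
  refine ⟨fun d => (hF.bns d).add (hG.bns d), hF.bd.add hG.bd, ?_⟩
  have : (fun d => dd (fun u => F d u + G d u)) = fun d u => dd (F d) u + dd (G d) u :=
    funext fun d => funext fun u => dd_add (hF.bns d) (hG.bns d) u
  rw [this]
  exact hF.dbd.add hG.dbd

theorem UN.sub {F G : FD → ℝ → PS} (hF : UN F) (hG : UN G) : UN (fun d u => F d u - G d u) := by
  refine ⟨fun d => (hF.bns d).sub (hG.bns d), hF.bd.sub hG.bd, ?_⟩
  have : (fun d => dd (fun u => F d u - G d u)) = fun d u => dd (F d) u - dd (G d) u :=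
    funext fun d => funext fun u => dd_sub (hF.bns d) (hG.bns d) u
  rw [this]
  exact hF.dbd.sub hG.dbd

theorem UN.mul {F G : FD → ℝ → PS} (hF : UN F) (hG : UN G) : UN (fun d u => F d u * G d u) := by
  refine ⟨fun d => (hF.bns d).mul (hG.bns d), hF.bd.mul hG.bd, ?_⟩
  have : (fun d => dd (fun u => F d u * G d u)) =
      fun d u => dd (F d) u * G d u + F d u * dd (G d) u :=
    funext fun d => funext fun u => dd_mul (hF.bns d) (hG.bns d) u
  rw [this]
  exact (hF.dbd.mul hG.bd).add (hF.bd.mul hG.dbd)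

theorem UN.const (a : PS) : UN (fun _ _ => a) := by
  refine ⟨fun _ => BNS.const a, UB.const a, ?_⟩
  have : (fun (_ : FD) => dd (fun _ => a)) = fun _ _ => (0 : PS) :=
    funext fun d => funext fun u => dd_const a u
  rw [this]
  exact UB.const 0

theorem UN.tht {F : FD → ℝ → PS} (hF : UN F) : UN (fun d u => th (F d u)) := by
  refine ⟨fun d => (hF.bns d).tht, hF.bd.tht, ?_⟩
  have : (fun d => dd (fun u => th (F d u))) = fun d u => th (dd (F d) u) :=
    funext fun d => funext fun u => dd_th (hF.bns d) u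
  rw [this]
  exact hF.dbd.tht

theorem UN.sht {F : FD → ℝ → PS} (hF : UN F) : UN (fun d u => sh (F d u)) := by
  refine ⟨fun d => (hF.bns d).sht, hF.bd.sht, ?_⟩
  have : (fun d => dd (fun u => sh (F d u))) = fun d u => sh (dd (F d) u) :=
    funext fun d => funext fun u => dd_sh (F d) u
  rw [this]
  exact hF.dbd.sht

theorem UN.inv {F : FD → ℝ → PS} (hF : UN F) {c : ℝ} (hc : 0 < c)
    (h : ∀ d u, c ≤ ‖constantCoeff (F d u)‖) : UN (fun d u => (F d u)⁻¹) := by
  refine ⟨fun d => (hF.bns d).inv hc (h d), hF.bd.inv hc h, ?_⟩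
  have : (fun d => dd (fun u => (F d u)⁻¹)) = fun d u => -(dd (F d) u * (F d u)⁻¹ * (F d u)⁻¹) :=
    funext fun d => funext fun u => dd_inv (hF.bns d) hc (h d) u
  rw [this]
  exact ((hF.dbd.mul (hF.bd.inv hc h)).mul (hF.bd.inv hc h)).neg

theorem UN.lgt {F : FD → ℝ → PS} (hF : UN F) {c : ℝ} (hc : 0 < c)
    (h : ∀ d u, c ≤ ‖constantCoeff (F d u)‖) : UN (fun d u => lg (F d u)) :=
  hF.tht.mul (hF.inv hc h)

theorem UN.cst {f : FD → ℝ → ℂ} (hb : ∀ d, BN (f d)) {K L : ℝ} (h : ∀ d u, ‖f d u‖ ≤ K)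
    (h' : ∀ d u, ‖deriv (f d) u‖ ≤ L) : UN (fun d u => C (f d u)) := by
  refine ⟨fun d => BNS.cst (hb d), UB.cst h, ?_⟩
  have : (fun d => dd (fun u => C (f d u))) = fun d u => C (deriv (f d) u) :=
    funext fun d => funext fun u => dd_cst (hb d) u
  rw [this]
  exact UB.cst h'

/-- the convolution improves the regularity -/
theorem UN.cvt {F : FD → ℝ → PS} (hb : ∀ d, BNS (F d)) (hF : UB F) : UN (fun d => cvS (F d)) := by
  refine ⟨fun d => (hb d).cvt, fun j => ?_, fun j => ?_⟩
  · obtain ⟨K, hK⟩ := hF j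
    exact ⟨K / 2, fun d u => by rw [cvS_coeff]; exact cv_le (hK d) u⟩
  · obtain ⟨K, hK⟩ := hF j
    refine ⟨2 * K, fun d u => ?_⟩
    rw [dd_coeff]
    simp only [cvS_coeff]
    exact cv_deriv_le (hb d j) (hK d) u

/-- a series from its logarithmic derivative -/
theorem UN.of_lg {F : FD → ℝ → PS} (h0 : ∀ d u, constantCoeff (F d u) = 1)
    (hb : ∀ d, BNS (F d)) (h : UN (fun d u => lg (F d u))) : UN F := by
  have hrec : ∀ (d : FD) (u : ℝ) (j : ℕ), coeff (j + 1) (F d u) = ((j : ℂ) + 1)⁻¹ *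
      ∑ p ∈ (antidiagonal (j + 1)).filter (fun p => p.2 < j + 1),
        coeff p.1 (lg (F d u)) * coeff p.2 (F d u) := by
    intro d u j
    have h2 := lg_spec (f := F d u) (by rw [h0]; exact one_ne_zero)
    have h3 := congrArg (coeff (j + 1)) h2
    rw [coeff_mul_lt (lg_const _), th_coeff] at h3
    rw [h3]
    have h4 : ((j : ℂ) + 1) ≠ 0 := by exact_mod_cast Nat.succ_ne_zero j
    push_cast
    field_simp
  have hder : ∀ (d : FD) (u : ℝ) (j : ℕ), coeff (j + 1) (dd (F d) u) = ((j : ℂ) + 1)⁻¹ *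
      ∑ p ∈ (antidiagonal (j + 1)).filter (fun p => p.2 < j + 1),
        (coeff p.1 (dd (fun u => lg (F d u)) u) * coeff p.2 (F d u) +
          coeff p.1 (lg (F d u)) * coeff p.2 (dd (F d) u)) := by
    intro d u j
    have e := (HasDerivAt.fun_sum fun p (_ : p ∈ (antidiagonal (j + 1)).filter
      (fun p => p.2 < j + 1)) => (dd_has (h.bns d) u p.1).mul (dd_has (hb d) u p.2)).const_mul
        ((j : ℂ) + 1)⁻¹
    have e2 : (fun u => coeff (j + 1) (F d u)) = fun u => ((j : ℂ) + 1)⁻¹ *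
      ∑ p ∈ (antidiagonal (j + 1)).filter (fun p => p.2 < j + 1),
        coeff p.1 (lg (F d u)) * coeff p.2 (F d u) := funext fun u => hrec d u j
    rw [dd_coeff, e2]
    exact e.deriv
  choose K hK using h.bd
  choose L hL using h.dbd
  have key : ∀ j, ∃ A : ℝ, 0 ≤ A ∧ ∀ d u, ‖coeff j (F d u)‖ ≤ A ∧ ‖coeff j (dd (F d) u)‖ ≤ A := by
    intro j
    induction j using Nat.strong_induction_on with
    | _ j ih =>
      rcases j with _ | j
      · refine ⟨1, zero_le_one, fun d u => ⟨?_, ?_⟩⟩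
        · rw [coeff_zero_eq_constantCoeff_apply, h0]; simp
        · rw [deriv_const_coeff (c := 1) (fun u => by
            rw [coeff_zero_eq_constantCoeff_apply]; exact h0 d u)]
          simp
      · have hex : ∀ i, ∃ A : ℝ, 0 ≤ A ∧ (i < j + 1 → ∀ d u, ‖coeff i (F d u)‖ ≤ A ∧
            ‖coeff i (dd (F d) u)‖ ≤ A) := by
          intro i
          by_cases hi : i < j + 1
          · obtain ⟨A, hA0, hA⟩ := ih i hi
            exact ⟨A, hA0, fun _ => hA⟩
          · exact ⟨0, le_rfl, fun h => absurd h hi⟩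
        choose A hA0 hA using hex
        have hn : ‖((j : ℂ) + 1)⁻¹‖ ≤ 1 := by
          rw [norm_inv]
          have : ((j : ℂ) + 1) = ((j + 1 : ℕ) : ℂ) := by push_cast; rfl
          rw [this, Complex.norm_natCast]
          exact inv_le_one_of_one_le₀ (by exact_mod_cast Nat.succ_pos j)
        refine ⟨∑ p ∈ (antidiagonal (j + 1)).filter (fun p => p.2 < j + 1),
          (|L p.1| * A p.2 + |K p.1| * A p.2), sum_nonneg fun p _ =>
            add_nonneg (mul_nonneg (abs_nonneg _) (hA0 _)) (mul_nonneg (abs_nonneg _) (hA0 _)),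
          fun d u => ⟨?_, ?_⟩⟩
        · rw [hrec d u j, norm_mul]
          refine (mul_le_of_le_one_left (norm_nonneg _) hn).trans ?_
          refine (norm_sum_le _ _).trans (sum_le_sum fun p hp => ?_)
          rw [norm_mul]
          have h1 := mul_le_mul ((hK p.1 d u).trans (le_abs_self _))
            (hA p.2 (mem_filter.1 hp).2 d u).1 (norm_nonneg _) (abs_nonneg _)
          have h2 := mul_nonneg (abs_nonneg (L p.1)) (hA0 p.2)
          linarith
        · rw [hder d u j, norm_mul]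
          refine (mul_le_of_le_one_left (norm_nonneg _) hn).trans ?_
          refine (norm_sum_le _ _).trans (sum_le_sum fun p hp => ?_)
          refine (norm_add_le _ _).trans ?_
          rw [norm_mul, norm_mul]
          exact add_le_add
            (mul_le_mul ((hL p.1 d u).trans (le_abs_self _))
              (hA p.2 (mem_filter.1 hp).2 d u).1 (norm_nonneg _) (abs_nonneg _))
            (mul_le_mul ((hK p.1 d u).trans (le_abs_self _))
              (hA p.2 (mem_filter.1 hp).2 d u).2 (norm_nonneg _) (abs_nonneg _))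
  refine ⟨hb, fun j => ?_, fun j => ?_⟩
  · obtain ⟨A, -, hA⟩ := key j
    exact ⟨A, fun d u => (hA d u).1⟩
  · obtain ⟨A, -, hA⟩ := key j
    exact ⟨A, fun d u => (hA d u).2⟩

/-! ## the data -/

theorem ub_of_mj {F : FD → ℝ → PS} {a : FD → PR} {c : ℝ} (h : ∀ d u, Mj (F d u) (a d))
    (h' : ∀ d J, ev J (1 / 1000) (a d) ≤ c) : UB F := fun j =>
  ⟨c * ((1 / 1000 : ℝ)⁻¹) ^ j, fun d u => (h d u j).trans
    (ev_term (by norm_num) (h d u).nn (h' d _))⟩

theorem ub_Y : UB (fun d => d.Y) :=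
  ub_of_mj (fun d u => d.Y_mj u) (fun d J => (d.ev_all J).2.2.1)

theorem ub_iY : UB (fun d u => (1 + d.Y u)⁻¹) :=
  ub_of_mj (a := fun d => (1 - d.yh)⁻¹) (fun d u => Mj.inv (by
    rw [add_sub_cancel_left]; exact d.Y_mj u) d.yh_0) (fun d J => (d.ev_all J).2.2.2.1)

theorem ub_b : UB (fun d => d.b) :=
  ub_of_mj (fun d u => d.b_mj' u) (fun d J => (d.ev_all J).2.1)

theorem ub_R : UB (fun d => d.R) := by
  have h := ((UB.const 1).add ub_Y).tht.mul ub_iY
  exact h

theorem un_P : UN (fun d u => lg (d.E u)) := by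
  have h := UN.cvt (fun d => d.bR) ub_R
  refine (congrArg UN (funext fun d => funext fun u => ?_)).mp h
  exact (d.hP' u).symm

theorem un_E : UN (fun d => d.E) := UN.of_lg (fun d u => d.E0 u) (fun d => d.bE) un_P

theorem dX_le (d : FD) (u : ℝ) : |deriv d.X u| ≤ 2 * Real.sqrt 3 := by
  have h := kk_conv_deriv_le (A1 d.N d.X) (2 * Real.sqrt 3) (sys_nice d.hN1 d.sys).2.2.2.1
    d.A1_le' u
  have e : (fun l => ∫ u : ℝ, kk (l - u) * A1 d.N d.X u) = d.X := (funext d.sys.eqX).symm
  rw [e] at h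
  exact h

theorem un_X : UN (fun d u => C (d.X u : ℂ)) := by
  refine UN.cst (fun d => d.bX) (K := Real.sqrt 3) (L := 2 * Real.sqrt 3) ?_ ?_
  · intro d u
    rw [Complex.norm_real]; exact d.X_le u
  · intro d u
    rw [((d.sys.niceX.1 u).hasDerivAt.ofReal_comp).deriv, Complex.norm_real]
    exact dX_le d u

theorem un_g : UN (fun d u => C (d.g u)) := by
  have h := (UN.const (C 9)).add (un_X.mul un_X)
  refine (congrArg UN (funext fun d => funext fun u => ?_)).mp h
  rw [← map_mul, ← map_add]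
  congr 1
  unfold FD.g
  push_cast
  ring

theorem un_ig : UN (fun d u => C (d.g u)⁻¹) := by
  have h := un_g.inv (by norm_num : (0:ℝ) < 9) (fun d u => by
    rw [PowerSeries.constantCoeff_C]; exact d.g_norm u)
  refine (congrArg UN (funext fun d => funext fun u => ?_)).mp h
  have h1 : (C (d.g u))⁻¹ * C (d.g u) = (1 : PS) := PowerSeries.inv_mul_cancel _ (by
    rw [PowerSeries.constantCoeff_C]; exact d.g_ne u)
  have h2 : C (d.g u) * C (d.g u)⁻¹ = (1 : PS) := by
    rw [← map_mul, mul_inv_cancel₀ (d.g_ne u), map_one]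
  calc (C (d.g u))⁻¹ = (C (d.g u))⁻¹ * (C (d.g u) * C (d.g u)⁻¹) := by rw [h2, mul_one]
    _ = C (d.g u)⁻¹ := by rw [← mul_assoc, h1, one_mul]

theorem un_q : UN (fun d => d.q) := by
  have h := un_ig.mul (((un_E.mul un_E).sub ((UN.const c2).mul un_E)).add (UN.const 1)).sht.sht
  refine (congrArg UN (funext fun d => funext fun u => ?_)).mp h
  rw [d.q_eq u, pow_two]

theorem un_lq : UN (fun d u => lg (d.q u)) := un_q.lgt one_pos (fun d u => d.q0n u)

theorem un_lb : UN (fun d u => lg (d.b u)) := by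
  have h := UN.cvt un_lq.bns un_lq.bd
  refine (congrArg UN (funext fun d => funext fun u => ?_)).mp h
  exact (d.hS u).symm

theorem un_b : UN (fun d => d.b) := UN.of_lg (fun d u => d.b0 u) (fun d => d.bb) un_lb

end Pool.Agent.Zk36.CG
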